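import Pool.Agent.G3.X.Main
import Pool.Agent.G3.Z.Sit

/-!
# G3 X Crs: the crossing statement `Crs` of the block Z
-/

set_option autoImplicit false

open Topology Filter Metric

namespace Pool.Agent.GX

open Pool.Agent.H36.BP (EN)
open Pool.Agent.H62.EF (pr)
open Pool.Agent.AD (Vd)
open Pool.Agent.TG (Geo VForm II TransAt Gd Cst)

variable {N k : ℕ}

theorem crs {X : Set (EN N)} {Λ : AddSubgroup (Vd (k + 1))} {u : EN N → Vd (k + 1)} {D B : Set (Vd (k + 1))} (G : Geo X Λ u D B) :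
    Pool.Agent.G3.Crs X Λ u D B := by
  intro q e hq hqB ht
  refine ⟨1, one_pos, fun η hη => ?_⟩
  have hS : 0 < min 1 η / 2 := half_pos (lt_min one_pos hη)
  have hS1 : min 1 η / 2 ≤ 1 / 2 := by linarith [min_le_left 1 η]
  have hSη : min 1 η / 2 ≤ η / 2 := by linarith [min_le_right 1 η]
  obtain ⟨s₀, ρ₀, hs₀, h2s₀, hρ₀, h⟩ := cr_cst G hq hqB ht hS
  have hsub : ball (0 : ℂ) (min 1 η / 2) ⊆ ball 0 1 := ball_subset_ball (by linarith)
  refine ⟨s₀, ρ₀, hs₀, by linarith, by linarith, hρ₀, fun γ hγ hγρ z hz hzD => ?_, fun δ ε ε₀ hC => ⟨ε₀, hC.ε₀_pos, le_rfl, ?_⟩⟩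
  · obtain ⟨⟨z₁, hz₁, -, huni⟩, -⟩ := h γ (hγ.mono hsub) fun z hz => hγρ z (hsub hz)
    rw [huni z hz hzD]
    exact hz₁
  · intro γ hγ hγρ hGd α F H hF hH hd
    obtain ⟨-, h2⟩ := h γ (hγ.mono hsub) fun z hz => hγρ z (hsub hz)
    exact h2 δ ε ε₀ hC (fun z h3 h4 => hGd z h3.le h4.le) α F H hF.F_diff hH.F_diff (fun z hz => ⟨hF.mem z hz, hF.lift z hz⟩)
      (fun z hz => ⟨hH.mem z hz, hH.lift z hz⟩) fun z h3 h4 => hd z h3.le h4.le

end Pool.Agent.GX
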