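import Pool.Agent.G3.X.UniInv
import Pool.Agent.TG.Defs
import Pool.Agent.H62.BU.Inv

/-!
# G3 X Arc: arcs near a transversal line are graphs

`κ` are coordinates of `D` at `p`, `e` is transversal.  `κ'` is the inverse of `κ`.  Every holomorphic curve `γ` near the line `p + z e` on `ball 0 (2 s)` is in the coordinates `κ` the graph
of a function `g` of the first coordinate `ξ`, with uniform constants.
-/

set_option autoImplicit false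

open Topology Filter Metric Set

namespace Pool.Agent.G3.X

open Pool.Agent.TG (IsCoord TransAt)
open Pool.Agent.AD (Vd)

variable {k : ℕ}

/-- `κ'` is the inverse of `κ`, near `p` -/
structure InvC (κ κ' : Vd (k + 1) → Vd (k + 1)) (p : Vd (k + 1)) : Prop where
  an : AnalyticAt ℂ κ' p
  zero : κ' p = 0
  left : ∀ᶠ q in 𝓝 (0 : Vd (k + 1)), κ' (κ q) = q
  right : ∀ᶠ y in 𝓝 p, κ (κ' y) = y

/-- the curve `γ` is in the coordinates `κ` the graph of `g`, with slope at most `c`, and `g 0` is small -/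
structure Arc (D : Set (Vd (k + 1))) (κ κ' : Vd (k + 1) → Vd (k + 1)) (γ : ℂ → Vd (k + 1)) (a : ℂ) (C c δ s : ℝ) (θ : ℂ → ℂ) (g : ℂ → Fin k → ℂ) : Prop where
  an' : ∀ z ∈ ball (0 : ℂ) (2 * s), AnalyticAt ℂ κ' (γ z)
  an : ∀ z ∈ ball (0 : ℂ) (2 * s), AnalyticAt ℂ κ (κ' (γ z))
  right : ∀ z ∈ ball (0 : ℂ) (2 * s), κ (κ' (γ z)) = γ z
  mem_iff : ∀ z ∈ ball (0 : ℂ) (2 * s), (γ z ∈ D ↔ κ' (γ z) 0 = 0)
  small : ∀ z ∈ ball (0 : ℂ) (2 * s), ‖κ' (γ z)‖ ≤ C * s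
  near : ∀ z ∈ ball (0 : ℂ) (2 * s), ‖κ' (γ z) 0 - a * z‖ ≤ ‖a‖ * (s / 16)
  diff : DifferentiableOn ℂ (fun z => κ' (γ z)) (ball 0 (2 * s))
  inj : InjOn (fun z => κ' (γ z) 0) (ball 0 (3 * s / 2))
  deriv_ne : ∀ z ∈ ball (0 : ℂ) (3 * s / 2), deriv (fun z => κ' (γ z) 0) z ≠ 0
  θ_diff : DifferentiableOn ℂ θ (ball 0 (‖a‖ * s))
  θ_near : ∀ ξ ∈ ball (0 : ℂ) (‖a‖ * s), ‖θ ξ - ξ / a‖ ≤ s / 16
  θ_mem : ∀ ξ ∈ ball (0 : ℂ) (‖a‖ * s), θ ξ ∈ ball (0 : ℂ) (3 * s / 2)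
  θ_inv : ∀ z ∈ ball (0 : ℂ) (3 * s / 2), κ' (γ z) 0 ∈ ball (0 : ℂ) (‖a‖ * s) → θ (κ' (γ z) 0) = z
  g_diff : DifferentiableOn ℂ g (ball 0 (‖a‖ * s))
  g_small : ∀ ξ ∈ ball (0 : ℂ) (‖a‖ * s), ‖g ξ‖ ≤ C * s
  graph' : ∀ ξ ∈ ball (0 : ℂ) (‖a‖ * s), κ' (γ (θ ξ)) = Fin.cons (α := fun _ => ℂ) ξ (g ξ)
  graph : ∀ ξ ∈ ball (0 : ℂ) (‖a‖ * s), κ (Fin.cons (α := fun _ => ℂ) ξ (g ξ)) = γ (θ ξ)
  θ_zero : ‖θ 0‖ ≤ δ
  g_zero : ‖g 0‖ ≤ δ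
  slope : ∀ ξ ∈ ball (0 : ℂ) (‖a‖ * s), ‖g ξ - g 0‖ ≤ c * ‖ξ‖

theorem exists_arc₀ {D : Set (Vd (k + 1))} {κ : Vd (k + 1) → Vd (k + 1)} {p e : Vd (k + 1)} (hκ : IsCoord D κ p) (ht : TransAt D p e) :
    ∃ (κ' : Vd (k + 1) → Vd (k + 1)) (a : ℂ) (C : ℝ), InvC κ κ' p ∧ a ≠ 0 ∧ 0 < C ∧ ∀ᶠ s in 𝓝[>] (0 : ℝ), ∀ δ₀ : ℝ, 0 < δ₀ → ∃ ρ₀ : ℝ, 0 < ρ₀ ∧
      ∀ γ : ℂ → Vd (k + 1), DifferentiableOn ℂ γ (ball 0 (2 * s)) → (∀ z ∈ ball (0 : ℂ) (2 * s), ‖γ z - (p + z • e)‖ ≤ ρ₀) →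
        ∃ (θ : ℂ → ℂ) (g : ℂ → Fin k → ℂ), Arc D κ κ' γ a C (2 * C / ‖a‖) δ₀ s θ g := by
  obtain ⟨he, htr⟩ := ht
  obtain ⟨κ', hκ', hκ'κ, hκκ', hκ'0⟩ := Pool.Agent.H62.BU.local_inverse hκ.an (fun v hv => hκ.inj (by rw [hv, map_zero]))
  rw [hκ.zero] at hκ' hκκ' hκ'0
  have hI : InvC κ κ' p := ⟨hκ', hκ'0, hκ'κ, hκκ'⟩
  set A := fderiv ℂ κ' p with hA
  have hAd : HasFDerivAt κ' A p := hκ'.differentiableAt.hasFDerivAt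
  -- `A` is a right inverse of `fderiv κ 0`
  have hAe : fderiv ℂ κ 0 (A e) = e := by
    have h1 : HasFDerivAt κ (fderiv ℂ κ 0) (κ' p) := by
      rw [hκ'0]
      exact hκ.an.differentiableAt.hasFDerivAt
    have h2 : HasFDerivAt (fun y => κ (κ' y)) ((fderiv ℂ κ 0).comp A) p := h1.comp p hAd
    have h3 : HasFDerivAt (fun y => κ (κ' y)) (ContinuousLinearMap.id ℂ (Vd (k + 1))) p := (hasFDerivAt_id p).congr_of_eventuallyEq hκκ'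
    have h4 := h2.unique h3
    exact congrArg (fun T : Vd (k + 1) →L[ℂ] Vd (k + 1) => T e) h4
  set a : ℂ := A e 0 with ha
  have ha0 : a ≠ 0 := fun h => htr κ hκ _ h hAe
  have ha' : 0 < ‖a‖ := norm_pos_iff.2 ha0
  -- the constants
  set c : ℝ := min 1 (‖a‖ / 32 / (2 * ‖e‖ + 1)) with hc
  have hen : 0 ≤ ‖e‖ := norm_nonneg e
  have hc0 : 0 < c := lt_min one_pos (by positivity)
  have hsm : ∀ᶠ y in 𝓝 p, ‖κ' y - κ' p - A (y - p)‖ ≤ c * ‖y - p‖ := hAd.isLittleO.def hc0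
  have hmem : ∀ᶠ y in 𝓝 p, (y ∈ D ↔ κ' y 0 = 0) := by
    have h1 : Tendsto κ' (𝓝 p) (𝓝 0) := by
      have := hκ'.continuousAt.tendsto
      rwa [hκ'0] at this
    filter_upwards [h1.eventually hκ.mem_iff, hκκ'] with y h2 h3
    rwa [h3] at h2
  have hanκ : ∀ᶠ y in 𝓝 p, AnalyticAt ℂ κ (κ' y) := by
    have h1 : Tendsto κ' (𝓝 p) (𝓝 0) := by
      have := hκ'.continuousAt.tendsto
      rwa [hκ'0] at this
    exact h1.eventually hκ.an.eventually_analyticAt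
  obtain ⟨δ, hδ, hb⟩ := Metric.eventually_nhds_iff_ball.1 (hκ'.eventually_analyticAt.and (hanκ.and (hκκ'.and (hmem.and hsm))))
  refine ⟨κ', a, (‖A‖ + 1) * (2 * ‖e‖ + 1), hI, ha0, by positivity, ?_⟩
  have hev : ∀ᶠ s in 𝓝[>] (0 : ℝ), s < δ / (2 * ‖e‖ + 1) := nhdsWithin_le_nhds (gt_mem_nhds (by positivity))
  filter_upwards [hev, self_mem_nhdsWithin] with s hsδ hs0 δ₀ hδ₀
  have hs : 0 < s := hs0
  set L : ℝ := (‖A‖ + 1) * (2 / ‖a‖ * (‖A‖ + 1) * ‖e‖ + 1) + 2 / ‖a‖ * (‖A‖ + 1) with hL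
  have hL0 : 0 < L := by positivity
  set ρ₀ : ℝ := min (min s (‖a‖ * s / 32 / (‖A‖ + 1))) (δ₀ / L) with hρ
  have hρ0 : 0 < ρ₀ := lt_min (lt_min hs (by positivity)) (by positivity)
  refine ⟨ρ₀, hρ0, fun γ hγ hγl => ?_⟩
  have hγp : ∀ z ∈ ball (0 : ℂ) (2 * s), ‖γ z - p‖ ≤ (2 * ‖e‖ + 1) * s := by
    intro z hz
    have h1 : γ z - p = (γ z - (p + z • e)) + z • e := by abel
    rw [h1]
    refine (norm_add_le _ _).trans ?_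
    rw [norm_smul]
    have h2 := (hγl z hz).trans ((min_le_left _ _).trans (min_le_left _ _))
    have h3 := mul_le_mul_of_nonneg_right (mem_ball_zero_iff.1 hz).le hen
    linarith
  have hγb : ∀ z ∈ ball (0 : ℂ) (2 * s), γ z ∈ ball p δ := by
    intro z hz
    rw [mem_ball, dist_eq_norm]
    refine (hγp z hz).trans_lt ?_
    rw [lt_div_iff₀ (by positivity)] at hsδ
    linarith
  have hF : ∀ z ∈ ball (0 : ℂ) (2 * s), ‖κ' (γ z) - A (γ z - p)‖ ≤ c * ‖γ z - p‖ := by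
    intro z hz
    have := (hb _ (hγb z hz)).2.2.2.2
    rwa [hκ'0, sub_zero] at this
  have hsmall : ∀ z ∈ ball (0 : ℂ) (2 * s), ‖κ' (γ z)‖ ≤ (‖A‖ + 1) * (2 * ‖e‖ + 1) * s := by
    intro z hz
    have h1 : κ' (γ z) = (κ' (γ z) - A (γ z - p)) + A (γ z - p) := by abel
    rw [h1]
    refine (norm_add_le _ _).trans ?_
    have h2 := hF z hz
    have h3 := A.le_opNorm (γ z - p)
    have h4 := hγp z hz
    have h5 : c * ‖γ z - p‖ ≤ 1 * ‖γ z - p‖ := mul_le_mul_of_nonneg_right (min_le_left _ _) (norm_nonneg _)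
    have h6 : (‖A‖ + 1) * ‖γ z - p‖ ≤ (‖A‖ + 1) * ((2 * ‖e‖ + 1) * s) := mul_le_mul_of_nonneg_left h4 (by positivity)
    calc _ ≤ (‖A‖ + 1) * ‖γ z - p‖ := by linarith
      _ ≤ _ := by rw [mul_assoc]; exact h6
  have hnear : ∀ z ∈ ball (0 : ℂ) (2 * s), ‖κ' (γ z) 0 - a * z‖ ≤ ‖a‖ * (s / 16) := by
    intro z hz
    have h1 : κ' (γ z) 0 - a * z = (κ' (γ z) - A (γ z - p)) 0 + (A (γ z - (p + z • e))) 0 := by
      have h2 : A (γ z - (p + z • e)) = A (γ z - p) - z • A e := by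
        rw [← map_smul, ← map_sub]
        congr 1
        abel
      rw [h2, Pi.sub_apply, Pi.sub_apply, Pi.smul_apply, smul_eq_mul, ha]
      ring
    rw [h1]
    refine (norm_add_le _ _).trans ?_
    have h2 : ‖(κ' (γ z) - A (γ z - p)) 0‖ ≤ c * ((2 * ‖e‖ + 1) * s) :=
      (norm_le_pi_norm _ 0).trans ((hF z hz).trans (mul_le_mul_of_nonneg_left (hγp z hz) hc0.le))
    have h3 : ‖(A (γ z - (p + z • e))) 0‖ ≤ (‖A‖ + 1) * ρ₀ := by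
      refine (norm_le_pi_norm _ 0).trans ((A.le_opNorm _).trans ?_)
      exact mul_le_mul (by linarith) (hγl z hz) (norm_nonneg _) (by positivity)
    have h4 : c * ((2 * ‖e‖ + 1) * s) ≤ ‖a‖ / 32 * s := by
      have h5 : c ≤ ‖a‖ / 32 / (2 * ‖e‖ + 1) := min_le_right _ _
      calc c * ((2 * ‖e‖ + 1) * s) ≤ ‖a‖ / 32 / (2 * ‖e‖ + 1) * ((2 * ‖e‖ + 1) * s) := mul_le_mul_of_nonneg_right h5 (by positivity)
        _ = ‖a‖ / 32 * s := by field_simp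
    have h5 : (‖A‖ + 1) * ρ₀ ≤ ‖a‖ * s / 32 := by
      have h6 : ρ₀ ≤ ‖a‖ * s / 32 / (‖A‖ + 1) := (min_le_left _ _).trans (min_le_right _ _)
      calc (‖A‖ + 1) * ρ₀ ≤ (‖A‖ + 1) * (‖a‖ * s / 32 / (‖A‖ + 1)) := mul_le_mul_of_nonneg_left h6 (by positivity)
        _ = ‖a‖ * s / 32 := by field_simp
    calc _ ≤ ‖a‖ / 32 * s + ‖a‖ * s / 32 := by linarith
      _ = _ := by ring
  have hdiff : DifferentiableOn ℂ (fun z => κ' (γ z)) (ball 0 (2 * s)) := fun z hz =>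
    (hb _ (hγb z hz)).1.differentiableAt.comp_differentiableWithinAt z (hγ z hz)
  have hdiff0 : DifferentiableOn ℂ (fun z => κ' (γ z) 0) (ball 0 (2 * s)) := fun z hz => differentiableWithinAt_pi.1 (hdiff z hz) 0
  obtain ⟨hinj, hdne, θ, hθ, hθ2, hθ3⟩ := uni_inv hs ha0 hdiff0 hnear
  have hθm : ∀ ξ ∈ ball (0 : ℂ) (‖a‖ * s), θ ξ ∈ ball (0 : ℂ) (2 * s) := fun ξ hξ => ball_subset_ball (by linarith) (hθ2 ξ hξ).2.1
  have hgr : ∀ ξ ∈ ball (0 : ℂ) (‖a‖ * s), κ' (γ (θ ξ)) = Fin.cons (α := fun _ => ℂ) ξ (fun j : Fin k => κ' (γ (θ ξ)) j.succ) := by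
    intro ξ hξ
    funext i
    refine Fin.cases ?_ (fun j => rfl) i
    exact (hθ2 ξ hξ).2.2
  have hgd : DifferentiableOn ℂ (fun ξ (j : Fin k) => κ' (γ (θ ξ)) j.succ) (ball 0 (‖a‖ * s)) := by
    refine differentiableOn_pi.2 fun j => ?_
    have h1 : DifferentiableOn ℂ (fun ξ => κ' (γ (θ ξ))) (ball 0 (‖a‖ * s)) := hdiff.comp hθ hθm
    exact fun ξ hξ => differentiableWithinAt_pi.1 (h1 ξ hξ) j.succ
  have hgs : ∀ ξ ∈ ball (0 : ℂ) (‖a‖ * s), ‖(fun j : Fin k => κ' (γ (θ ξ)) j.succ)‖ ≤ (‖A‖ + 1) * (2 * ‖e‖ + 1) * s := by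
    intro ξ hξ
    refine (pi_norm_le_iff_of_nonneg (by positivity)).2 fun j => ?_
    exact (norm_le_pi_norm _ j.succ).trans (hsmall _ (hθm ξ hξ))
  have has : 0 < ‖a‖ * s := by positivity
  have h0m : (0 : ℂ) ∈ ball (0 : ℂ) (‖a‖ * s) := mem_ball_self has
  -- the point of `D`
  have hz0m := hθm 0 h0m
  have hz0 : ‖θ 0‖ ≤ 2 / ‖a‖ * (‖A‖ + 1) * ρ₀ := by
    have h1 : κ' (γ (θ 0)) 0 = 0 := (hθ2 0 h0m).2.2
    have h2 : a * θ 0 = -((κ' (γ (θ 0)) - A (γ (θ 0) - p)) 0) - (A (γ (θ 0) - (p + θ 0 • e))) 0 := by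
      have h3 : A (γ (θ 0) - (p + θ 0 • e)) = A (γ (θ 0) - p) - θ 0 • A e := by
        rw [← map_smul, ← map_sub]
        congr 1
        abel
      rw [h3, Pi.sub_apply, Pi.sub_apply, Pi.smul_apply, smul_eq_mul, h1, ha]
      ring
    have h3 : ‖γ (θ 0) - p‖ ≤ ‖θ 0‖ * ‖e‖ + ρ₀ := by
      have h4 : γ (θ 0) - p = (γ (θ 0) - (p + θ 0 • e)) + θ 0 • e := by abel
      rw [h4]
      refine (norm_add_le _ _).trans ?_
      rw [norm_smul]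
      linarith [hγl _ hz0m]
    have h4 : ‖(κ' (γ (θ 0)) - A (γ (θ 0) - p)) 0‖ ≤ c * (‖θ 0‖ * ‖e‖ + ρ₀) :=
      (norm_le_pi_norm _ 0).trans ((hF _ hz0m).trans (mul_le_mul_of_nonneg_left h3 hc0.le))
    have h5 : ‖(A (γ (θ 0) - (p + θ 0 • e))) 0‖ ≤ ‖A‖ * ρ₀ := by
      refine (norm_le_pi_norm _ 0).trans ((A.le_opNorm _).trans ?_)
      exact mul_le_mul_of_nonneg_left (hγl _ hz0m) (norm_nonneg _)
    have h6 : ‖a‖ * ‖θ 0‖ ≤ c * (‖θ 0‖ * ‖e‖ + ρ₀) + ‖A‖ * ρ₀ := by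
      rw [← norm_mul, h2]
      refine (norm_sub_le _ _).trans ?_
      rw [norm_neg]
      linarith
    have h7 : c * ‖e‖ ≤ ‖a‖ / 2 := by
      have h8 : c ≤ ‖a‖ / 32 / (2 * ‖e‖ + 1) := min_le_right _ _
      calc c * ‖e‖ ≤ ‖a‖ / 32 / (2 * ‖e‖ + 1) * (2 * ‖e‖ + 1) := mul_le_mul h8 (by linarith) hen (by positivity)
        _ = ‖a‖ / 32 := by field_simp
        _ ≤ ‖a‖ / 2 := by linarith
    have h8 : c ≤ 1 := min_le_left _ _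
    have h9 : c * ‖e‖ * ‖θ 0‖ ≤ ‖a‖ / 2 * ‖θ 0‖ := mul_le_mul_of_nonneg_right h7 (norm_nonneg _)
    have h10 : c * ρ₀ ≤ 1 * ρ₀ := mul_le_mul_of_nonneg_right h8 hρ0.le
    have h11 : ‖a‖ * ‖θ 0‖ ≤ 2 * (‖A‖ + 1) * ρ₀ := by
      have h12 : c * (‖θ 0‖ * ‖e‖ + ρ₀) = c * ‖e‖ * ‖θ 0‖ + c * ρ₀ := by ring
      rw [h12] at h6
      linarith
    calc ‖θ 0‖ = ‖a‖ * ‖θ 0‖ / ‖a‖ := by field_simp
      _ ≤ 2 * (‖A‖ + 1) * ρ₀ / ‖a‖ := by gcongr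
      _ = 2 / ‖a‖ * (‖A‖ + 1) * ρ₀ := by ring
  have hLρ : L * ρ₀ ≤ δ₀ := by
    have h1 : ρ₀ ≤ δ₀ / L := min_le_right _ _
    calc L * ρ₀ ≤ L * (δ₀ / L) := mul_le_mul_of_nonneg_left h1 hL0.le
      _ = δ₀ := by field_simp
  refine ⟨θ, fun ξ j => κ' (γ (θ ξ)) j.succ, ⟨fun z hz => (hb _ (hγb z hz)).1, fun z hz => (hb _ (hγb z hz)).2.1, fun z hz => (hb _ (hγb z hz)).2.2.1,
    fun z hz => (hb _ (hγb z hz)).2.2.2.1, hsmall, hnear, hdiff, hinj, hdne, hθ, fun ξ hξ => (hθ2 ξ hξ).1, fun ξ hξ => (hθ2 ξ hξ).2.1, hθ3, hgd, hgs, hgr, ?_,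
    ?_, ?_, ?_⟩⟩
  · intro ξ hξ
    rw [← hgr ξ hξ]
    exact (hb _ (hγb _ (hθm ξ hξ))).2.2.1
  · refine hz0.trans (le_trans ?_ hLρ)
    have h1 : 0 ≤ (‖A‖ + 1) * (2 / ‖a‖ * (‖A‖ + 1) * ‖e‖ + 1) * ρ₀ := by positivity
    rw [hL, add_mul]
    linarith
  · refine (pi_norm_le_iff_of_nonneg hδ₀.le).2 fun j => ?_
    refine (norm_le_pi_norm _ j.succ).trans (le_trans ?_ hLρ)
    have h1 : κ' (γ (θ 0)) = (κ' (γ (θ 0)) - A (γ (θ 0) - p)) + A (γ (θ 0) - p) := by abel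
    rw [h1]
    refine (norm_add_le _ _).trans ?_
    have h2 := hF _ hz0m
    have h3 := A.le_opNorm (γ (θ 0) - p)
    have h5 : c * ‖γ (θ 0) - p‖ ≤ 1 * ‖γ (θ 0) - p‖ := mul_le_mul_of_nonneg_right (min_le_left _ _) (norm_nonneg _)
    have h4 : ‖γ (θ 0) - p‖ ≤ (2 / ‖a‖ * (‖A‖ + 1) * ‖e‖ + 1) * ρ₀ := by
      have h6 : γ (θ 0) - p = (γ (θ 0) - (p + θ 0 • e)) + θ 0 • e := by abel
      rw [h6]
      refine (norm_add_le _ _).trans ?_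
      rw [norm_smul]
      have h7 := mul_le_mul_of_nonneg_right hz0 hen
      linarith [hγl _ hz0m]
    have h6 := mul_le_mul_of_nonneg_left h4 (by positivity : 0 ≤ ‖A‖ + 1)
    have h7 : 0 ≤ 2 / ‖a‖ * (‖A‖ + 1) * ρ₀ := by positivity
    rw [hL, add_mul]
    calc _ ≤ (‖A‖ + 1) * ‖γ (θ 0) - p‖ := by linarith
      _ ≤ (‖A‖ + 1) * ((2 / ‖a‖ * (‖A‖ + 1) * ‖e‖ + 1) * ρ₀) := h6
      _ ≤ _ := by rw [mul_assoc]; linarith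
  · intro ξ hξ
    set C : ℝ := (‖A‖ + 1) * (2 * ‖e‖ + 1) with hC
    have hC0 : 0 < C := by positivity
    set g : ℂ → Fin k → ℂ := fun ξ j => κ' (γ (θ ξ)) j.succ with hg
    have hmaps : MapsTo g (ball 0 (‖a‖ * s)) (closedBall (g 0) (2 * C * s)) := by
      intro ζ hζ
      rw [mem_closedBall, dist_eq_norm]
      refine (norm_sub_le _ _).trans ?_
      have h1 := hgs ζ hζ
      have h2 := hgs 0 h0m
      have h3 : ‖g ζ‖ ≤ C * s := h1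
      have h4 : ‖g 0‖ ≤ C * s := h2
      linarith
    have h1 := Complex.dist_le_div_mul_dist_of_mapsTo_ball hgd hmaps hξ
    rw [dist_eq_norm, dist_eq_norm, sub_zero] at h1
    calc ‖g ξ - g 0‖ ≤ 2 * C * s / (‖a‖ * s) * ‖ξ‖ := h1
      _ = 2 * C / ‖a‖ * ‖ξ‖ := by
        field_simp

end Pool.Agent.G3.X
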