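import Pool.Agent.G3.X.Arc
import Pool.Agent.TG.Gd

/-!
# G3 X ArcS: scaling of the coordinates

After the scaling `κ (q₀, M q₁, …, M q_k)` the arcs are graphs with slope at most `c`, for a given `c > 0`.  The fibres over `p` are still of the form `κ (x ^ a * y ^ b, s)`.
-/

set_option autoImplicit false

open Topology Filter Metric Set

namespace Pool.Agent.G3.X

open Pool.Agent.TG (IsCoord TransAt IsNC nm)
open Pool.Agent.H36.BP (EN)
open Pool.Agent.AD (Vd IsGerm)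

variable {N k d : ℕ}

/-- scaling of the coordinates `1, …, k` -/
noncomputable def scq (M : ℝ) : Vd (k + 1) →L[ℂ] Vd (k + 1) :=
  ContinuousLinearMap.pi fun i => Fin.cases (motive := fun _ => Vd (k + 1) →L[ℂ] ℂ) (ContinuousLinearMap.proj (R := ℂ) (φ := fun _ : Fin (k + 1) => ℂ) 0)
    (fun j => (M : ℂ) • ContinuousLinearMap.proj (R := ℂ) (φ := fun _ : Fin (k + 1) => ℂ) j.succ) i

theorem scq_zero (M : ℝ) (q : Vd (k + 1)) : scq M q 0 = q 0 := rfl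

theorem scq_succ (M : ℝ) (q : Vd (k + 1)) (j : Fin k) : scq M q j.succ = M * q j.succ := rfl

theorem scq_scq {M M' : ℝ} (h : M * M' = 1) (q : Vd (k + 1)) : scq M (scq M' q) = q := by
  have h' : (M : ℂ) * M' = 1 := by exact_mod_cast h
  funext i
  refine Fin.cases rfl (fun j => ?_) i
  rw [scq_succ, scq_succ, ← mul_assoc, h', one_mul]

theorem scq_cons (M : ℝ) (ξ : ℂ) (g : Fin k → ℂ) : scq M (Fin.cons (α := fun _ => ℂ) ξ g) = Fin.cons (α := fun _ => ℂ) ξ ((M : ℂ) • g) := by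
  funext i
  refine Fin.cases rfl (fun j => ?_) i
  rfl

/-- scaling of the coordinates `2, …, k + 1` -/
noncomputable def scp (M : ℝ) : Vd (k + 2) →L[ℂ] Vd (k + 2) :=
  ContinuousLinearMap.pi fun i => Fin.cases (motive := fun _ => Vd (k + 2) →L[ℂ] ℂ) (ContinuousLinearMap.proj (R := ℂ) (φ := fun _ : Fin (k + 2) => ℂ) 0)
    (fun i => Fin.cases (motive := fun _ => Vd (k + 2) →L[ℂ] ℂ) (ContinuousLinearMap.proj (R := ℂ) (φ := fun _ : Fin (k + 2) => ℂ) 1)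
      (fun j => (M : ℂ) • ContinuousLinearMap.proj (R := ℂ) (φ := fun _ : Fin (k + 2) => ℂ) j.succ.succ) i) i

theorem scp_zero (M : ℝ) (q : Vd (k + 2)) : scp M q 0 = q 0 := rfl

theorem scp_one (M : ℝ) (q : Vd (k + 2)) : scp M q 1 = q 1 := rfl

theorem scp_succ (M : ℝ) (q : Vd (k + 2)) (j : Fin k) : scp M q j.succ.succ = M * q j.succ.succ := rfl

theorem scp_scp {M M' : ℝ} (h : M * M' = 1) (q : Vd (k + 2)) : scp M (scp M' q) = q := by
  have h' : (M : ℂ) * M' = 1 := by exact_mod_cast h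
  funext i
  refine Fin.cases rfl (fun i => ?_) i
  refine Fin.cases rfl (fun j => ?_) i
  rw [scp_succ, scp_succ, ← mul_assoc, h', one_mul]

theorem nm_scp (a b : ℕ) (M : ℝ) (q : Vd (k + 2)) : nm a b (scp M q) = scq M (nm a b q) := by
  funext i
  refine Fin.cases rfl (fun j => ?_) i
  rfl

/-- linear change of the coordinates of a germ of charts -/
theorem isGerm_comp {X : Set (EN N)} {σ : Vd d → EN N} {τ : EN N → Vd d} (h : IsGerm X σ τ) (S S' : Vd d →L[ℂ] Vd d) (h1 : ∀ q, S (S' q) = q)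
    (h2 : ∀ q, S' (S q) = q) : IsGerm X (fun q => σ (S q)) (fun y => S' (τ y)) := by
  have t : Tendsto S (𝓝 0) (𝓝 0) := by
    have := S.continuous.tendsto 0
    rwa [map_zero] at this
  refine ⟨?_, t.eventually h.σ_mem, ?_, ?_, ?_, ?_⟩
  · refine AnalyticAt.fun_comp (g := σ) (f := S) ?_ (S.analyticAt 0)
    rw [map_zero]
    exact h.σ_an
  · rw [map_zero]
    exact (S'.analyticAt _).fun_comp h.τ_an
  · filter_upwards [t.eventually h.left] with q hq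
    rw [hq, h2]
  · rw [map_zero]
    filter_upwards [h.right] with y hy hyX
    rw [h1]
    exact hy hyX
  · rw [map_zero]
    filter_upwards [h.inv] with z hz
    rw [hz]

theorem isNC_scq {X : Set (EN N)} {Λ : AddSubgroup (Vd (k + 1))} {u : EN N → Vd (k + 1)} {κ : Vd (k + 1) → Vd (k + 1)} {x : EN N}
    (h : IsNC X Λ u κ x) {M : ℝ} (hM : 0 < M) : IsNC X Λ u (fun q => κ (scq M q)) x := by
  obtain ⟨σ, τ, a, b, hg, hσ, hab, hl⟩ := h
  have t : Tendsto (scp (k := k) M) (𝓝 0) (𝓝 0) := by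
    have := (scp (k := k) M).continuous.tendsto 0
    rwa [map_zero] at this
  refine ⟨fun q => σ (scp M q), fun y => scp M⁻¹ (τ y), a, b, isGerm_comp hg _ _ (scp_scp (mul_inv_cancel₀ hM.ne')) (scp_scp (inv_mul_cancel₀ hM.ne')), ?_,
    hab, ?_⟩
  · show σ (scp M 0) = x
    rw [map_zero, hσ]
  · filter_upwards [t.eventually hl] with q hq
    rw [nm_scp] at hq
    exact hq

theorem isCoord_scq {D : Set (Vd (k + 1))} {κ : Vd (k + 1) → Vd (k + 1)} {p : Vd (k + 1)} (h : IsCoord D κ p) {M : ℝ} (hM : 0 < M) :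
    IsCoord D (fun q => κ (scq M q)) p := by
  have t : Tendsto (scq (k := k) M) (𝓝 0) (𝓝 0) := by
    have := (scq (k := k) M).continuous.tendsto 0
    rwa [map_zero] at this
  refine ⟨?_, ?_, ?_, ?_⟩
  · refine AnalyticAt.fun_comp (g := κ) (f := scq M) ?_ ((scq M).analyticAt 0)
    rw [map_zero]
    exact h.an
  · rw [map_zero, h.zero]
  · have h1 : HasFDerivAt (fun q => κ (scq M q)) ((fderiv ℂ κ 0).comp (scq M)) 0 := by
      have h2 : HasFDerivAt κ (fderiv ℂ κ 0) (scq M 0) := by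
        rw [map_zero]
        exact h.an.differentiableAt.hasFDerivAt
      exact h2.comp 0 (scq M).hasFDerivAt
    rw [h1.fderiv]
    intro v w hvw
    have h2 : scq M v = scq M w := h.inj hvw
    have h3 := congrArg (scq M⁻¹) h2
    rwa [scq_scq (inv_mul_cancel₀ hM.ne'), scq_scq (inv_mul_cancel₀ hM.ne')] at h3
  · filter_upwards [t.eventually h.mem_iff] with q hq
    exact hq

theorem norm_scq_le {M : ℝ} (h0 : 0 ≤ M) (h1 : M ≤ 1) (q : Vd (k + 1)) : ‖scq M q‖ ≤ ‖q‖ := by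
  refine (pi_norm_le_iff_of_nonneg (norm_nonneg q)).2 fun i => ?_
  refine Fin.cases ?_ (fun j => ?_) i
  · exact norm_le_pi_norm q 0
  · rw [scq_succ, norm_mul, Complex.norm_real, Real.norm_of_nonneg h0]
    have h2 := norm_le_pi_norm q j.succ
    calc M * ‖q j.succ‖ ≤ 1 * ‖q j.succ‖ := mul_le_mul_of_nonneg_right h1 (norm_nonneg _)
      _ ≤ _ := by rw [one_mul]; exact h2

theorem exists_arc {D : Set (Vd (k + 1))} {κ : Vd (k + 1) → Vd (k + 1)} {p e : Vd (k + 1)} (hκ : IsCoord D κ p) (ht : TransAt D p e) {c : ℝ} (hc : 0 < c) :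
    ∃ (M : ℝ) (κ' : Vd (k + 1) → Vd (k + 1)) (a : ℂ) (C : ℝ), 0 < M ∧ InvC (fun q => κ (scq M q)) κ' p ∧ a ≠ 0 ∧ 0 < C ∧
      ∀ᶠ s in 𝓝[>] (0 : ℝ), ∀ δ₀ : ℝ, 0 < δ₀ → ∃ ρ₀ : ℝ, 0 < ρ₀ ∧
        ∀ γ : ℂ → Vd (k + 1), DifferentiableOn ℂ γ (ball 0 (2 * s)) → (∀ z ∈ ball (0 : ℂ) (2 * s), ‖γ z - (p + z • e)‖ ≤ ρ₀) →
          ∃ (θ : ℂ → ℂ) (g : ℂ → Fin k → ℂ), Arc D (fun q => κ (scq M q)) κ' γ a C c δ₀ s θ g := by
  obtain ⟨κ', a, C, hI, ha, hC, hev⟩ := exists_arc₀ hκ ht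
  have ha' : 0 < ‖a‖ := norm_pos_iff.2 ha
  set M : ℝ := max 1 (2 * C / ‖a‖ / c) with hM
  have hM1 : 1 ≤ M := le_max_left _ _
  have hM0 : 0 < M := one_pos.trans_le hM1
  have hMi : M⁻¹ ≤ 1 := inv_le_one_of_one_le₀ hM1
  have hMi0 : 0 < M⁻¹ := inv_pos.2 hM0
  have hMM : M * M⁻¹ = 1 := mul_inv_cancel₀ hM0.ne'
  have hsl : M⁻¹ * (2 * C / ‖a‖) ≤ c := by
    have h1 : 2 * C / ‖a‖ / c ≤ M := le_max_right _ _
    rw [div_le_iff₀ hc] at h1
    rw [inv_mul_le_iff₀ hM0]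
    exact h1
  have t0 : Tendsto (scq (k := k) M) (𝓝 0) (𝓝 0) := by
    have := (scq (k := k) M).continuous.tendsto 0
    rwa [map_zero] at this
  refine ⟨M, fun y => scq M⁻¹ (κ' y), a, C, hM0, ⟨(ContinuousLinearMap.analyticAt _ _).fun_comp hI.an, ?_, ?_, ?_⟩, ha, hC, ?_⟩
  · rw [hI.zero, map_zero]
  · filter_upwards [t0.eventually hI.left] with q hq
    rw [hq, scq_scq (by rw [mul_comm]; exact hMM)]
  · filter_upwards [hI.right] with y hy
    rw [scq_scq hMM, hy]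
  · filter_upwards [hev] with s hs δ₀ hδ₀
    obtain ⟨ρ₀, hρ₀, H⟩ := hs δ₀ hδ₀
    refine ⟨ρ₀, hρ₀, fun γ hγ hγl => ?_⟩
    obtain ⟨θ, g, A⟩ := H γ hγ hγl
    have hnM : ∀ v : Fin k → ℂ, ‖((M⁻¹ : ℝ) : ℂ) • v‖ = M⁻¹ * ‖v‖ := by
      intro v
      rw [norm_smul, Complex.norm_real, Real.norm_of_nonneg hMi0.le]
    refine ⟨θ, fun ξ => ((M⁻¹ : ℝ) : ℂ) • g ξ, ⟨fun z hz => (ContinuousLinearMap.analyticAt _ _).fun_comp (A.an' z hz), fun z hz => ?_, fun z hz => ?_,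
      A.mem_iff, fun z hz => (norm_scq_le hMi0.le hMi _).trans (A.small z hz), A.near, ?_, A.inj, A.deriv_ne, A.θ_diff, A.θ_near, A.θ_mem, A.θ_inv,
      fun ξ hξ => (A.g_diff ξ hξ).fun_const_smul _, fun ξ hξ => ?_, fun ξ hξ => ?_, fun ξ hξ => ?_, A.θ_zero, ?_, fun ξ hξ => ?_⟩⟩
    · refine AnalyticAt.fun_comp (g := κ) (f := scq M) ?_ ((scq M).analyticAt _)
      rw [scq_scq hMM]
      exact A.an z hz
    · show κ (scq M (scq M⁻¹ (κ' (γ z)))) = γ z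
      rw [scq_scq hMM, A.right z hz]
    · exact (scq M⁻¹).differentiable.comp_differentiableOn A.diff
    · rw [hnM]
      have h1 := A.g_small ξ hξ
      calc M⁻¹ * ‖g ξ‖ ≤ 1 * ‖g ξ‖ := mul_le_mul_of_nonneg_right hMi (norm_nonneg _)
        _ ≤ _ := by rw [one_mul]; exact h1
    · show scq M⁻¹ (κ' (γ (θ ξ))) = _
      rw [A.graph' ξ hξ, scq_cons]
    · show κ (scq M (Fin.cons (α := fun _ => ℂ) ξ (((M⁻¹ : ℝ) : ℂ) • g ξ))) = _
      rw [scq_cons, smul_smul]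
      have h1 : (M : ℂ) * ((M⁻¹ : ℝ) : ℂ) = 1 := by exact_mod_cast hMM
      rw [h1, one_smul]
      exact A.graph ξ hξ
    · rw [hnM]
      have h1 := A.g_zero
      calc M⁻¹ * ‖g 0‖ ≤ 1 * ‖g 0‖ := mul_le_mul_of_nonneg_right hMi (norm_nonneg _)
        _ ≤ _ := by rw [one_mul]; exact h1
    · rw [← smul_sub, hnM]
      have h1 := mul_le_mul_of_nonneg_left (A.slope ξ hξ) hMi0.le
      calc _ ≤ _ := h1
        _ = M⁻¹ * (2 * C / ‖a‖) * ‖ξ‖ := by ring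
        _ ≤ c * ‖ξ‖ := mul_le_mul_of_nonneg_right hsl (norm_nonneg _)

end Pool.Agent.G3.X
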