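import Pool.Agent.G3.X.Sa
import Pool.Agent.TG.Un

/-!
# G3 X SlS: slices of straight charts over an arc

Port of `Ln.slice_chart` (`TG/Y/Br.lean`).  New: the first coordinate on the slice is `(ψ (ms c' ρ (χ.q x)) 0 - z₀) / r`.  Choose `η'` such that for `‖y - ar κ g z₀‖ < ρ η'`: `ψ` is analytic at `y`, `ψ y ∈ ball 0 R`, `κ (ψ y) = y` (`Kp.ψ_an`, `κ_ψ`, continuity of `ψ`, `ψ (ar κ g z₀) = cg g z₀`).
`r > 0` small: for `‖y.1‖ < 2`: `‖z₀ + r y.1‖ < s₁`, `‖tl (sla y) - tl q₀‖ = ‖ρ⁻¹ (ar κ g (z₀ + r y.1) - ar κ g z₀)‖ < min η' (2 - ‖tl q₀‖)` (continuity of `ar κ g` at `z₀`).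
`U' = {x ∈ χ.U : ‖tl (χ.q x) - tl q₀‖ < η', ‖g₁ x‖ < 2}`, `g₁ x = (ψ (ms c' ρ (χ.q x)) 0 - z₀) / r`, `q' x = (g₁ x, χ.q x 0)`, `σ' y = χ.σ (sla y)`.  `σ_mem`: `ms c' ρ (sla y) = ar κ g (z₀ + r y.1)`, `ψ` of it is `cg g (z₀ + r y.1)`.
`surj`: `x ∈ Ya ∩ U'`, `y = ms c' ρ (χ.q x)`: `κ (ψ y) - κ (cg g (wa x)) ∈ Λ`, `Kp.inj`: `ψ y = cg g (wa x)`, so `z₀ + r g₁ x = wa x`, `y = ar κ g (wa x)`, `χ.q x = sla (q' x)`.  Last part: `τ` small (continuity of `ar κ g`): `tl (χ.q x) - tl q₀ = ρ⁻¹ (ar κ g (wa x) - ar κ g z₀)`.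
-/

set_option autoImplicit false

open Topology Filter Metric

namespace Pool.Agent.GX

open Pool.Agent.H36.BP (EN fs wd)
open Pool.Agent.H14.PP (IsCone CurveAt Tan)
open Pool.Agent.H62.EF (MN pr)
open Pool.Agent.AD (Vd Chart Charts IsGerm)
open Pool.Agent.TG (TMap Lat tl nm IsStr IsNC IsCoord Geo VForm ms Str IsPrim Cap IRel II TransAt Gd Cst DV fr tc)

variable {N k : ℕ}

variable {X : Set (EN N)} {Λ : AddSubgroup (Vd (k + 1))} {u : EN N → Vd (k + 1)} {D B : Set (Vd (k + 1))}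
  {κ ψ : Vd (k + 1) → Vd (k + 1)} {R : ℝ} {g : ℂ → Fin k → ℂ} {Γ₀ : AddSubgroup ℂ} {s : ℝ}

private theorem SlS_tl (κ : Vd (k + 1) → Vd (k + 1)) (g : ℂ → Fin k → ℂ) (c' : Vd (k + 1)) (ρ : ℝ) (z₀ : ℂ) (r : ℝ) (y : ℂ × ℂ) :
    tl (sla κ g c' ρ z₀ r y) = (ρ : ℂ)⁻¹ • (ar κ g (z₀ + r * y.1) - c') := rfl

/-- two points of the model space with the same first coordinate and tail -/
private theorem SlS_ext {a b : Vd (k + 2)} (h0 : a 0 = b 0) (h1 : tl a = tl b) : a = b := by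
  funext i
  refine Fin.cases h0 (fun j => congrFun h1 j) i

private theorem SlS_ball (y : ℂ × ℂ) {R : ℝ} : y ∈ ball (0 : ℂ × ℂ) R ↔ ‖y.1‖ < R ∧ ‖y.2‖ < R := by
  rw [mem_ball_zero_iff, Prod.norm_def, max_lt_iff]

private theorem SlS_ball' (q : Vd (k + 2)) : q ∈ ball (0 : Vd (k + 2)) 2 ↔ ‖q 0‖ < 2 ∧ ‖tl q‖ < 2 := by
  rw [mem_ball_zero_iff, pi_norm_lt_iff (by norm_num : (0 : ℝ) < 2), pi_norm_lt_iff (by norm_num : (0 : ℝ) < 2)]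
  constructor
  · intro h
    exact ⟨h 0, fun i => h i.succ⟩
  · rintro ⟨h0, h1⟩ i
    exact Fin.cases h0 (fun j => h1 j) i

theorem sla_ms {c' : Vd (k + 1)} {ρ : ℝ} (hρ : 0 < ρ) (z₀ : ℂ) (r : ℝ) (y : ℂ × ℂ) : ms c' ρ (sla κ g c' ρ z₀ r y) = ar κ g (z₀ + r * y.1) := by
  have h1 : (ρ : ℂ) ≠ 0 := by exact_mod_cast hρ.ne'
  unfold ms
  rw [SlS_tl, smul_smul, mul_inv_cancel₀ h1, one_smul]
  abel

theorem sla_eq {c' : Vd (k + 1)} {ρ : ℝ} (hρ : 0 < ρ) (z₀ : ℂ) (r : ℝ) {y : ℂ × ℂ} {q : Vd (k + 2)} (h0 : q 0 = y.2)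
    (h1 : ms c' ρ q = ar κ g (z₀ + r * y.1)) : sla κ g c' ρ z₀ r y = q := by
  have h2 : (ρ : ℂ) ≠ 0 := by exact_mod_cast hρ.ne'
  refine SlS_ext h0.symm ?_
  rw [SlS_tl, ← h1]
  unfold ms
  rw [add_sub_cancel_left, smul_smul, inv_mul_cancel₀ h2, one_smul]

theorem La.sla_an (L : La X Λ u D κ ψ R g Γ₀ s) (c' : Vd (k + 1)) (ρ : ℝ) (z₀ : ℂ) (r : ℝ) {y : ℂ × ℂ} (hy : z₀ + r * y.1 ∈ ball (0 : ℂ) (2 * s)) :
    AnalyticAt ℂ (sla κ g c' ρ z₀ r) y := by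
  have h1 : AnalyticAt ℂ (fun y : ℂ × ℂ => z₀ + (r : ℂ) * y.1) y :=
    analyticAt_const.add (analyticAt_const.mul ((ContinuousLinearMap.fst ℂ ℂ ℂ).analyticAt y))
  have h2 : AnalyticAt ℂ (fun y : ℂ × ℂ => ar κ g (z₀ + (r : ℂ) * y.1)) y :=
    AnalyticAt.fun_comp (g := ar κ g) (f := fun y : ℂ × ℂ => z₀ + (r : ℂ) * y.1) (L.ar_an hy) h1
  have h3 : AnalyticAt ℂ (fun y : ℂ × ℂ => (ρ : ℂ)⁻¹ • (ar κ g (z₀ + (r : ℂ) * y.1) - c')) y :=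
    analyticAt_const.fun_smul (h2.fun_sub analyticAt_const)
  have h4 : AnalyticAt ℂ (fun y : ℂ × ℂ => fun i : Fin (k + 2) => sla κ g c' ρ z₀ r y i) y := by
    rw [analyticAt_pi_iff]
    intro i
    refine Fin.cases ?_ (fun j => ?_) i
    · exact (ContinuousLinearMap.snd ℂ ℂ ℂ).analyticAt y
    · exact ((ContinuousLinearMap.proj (R := ℂ) (φ := fun _ : Fin (k + 1) => ℂ) j).analyticAt _).fun_comp h3
  exact h4

theorem La.slice_chart (L : La X Λ u D κ ψ R g Γ₀ s) (χ : Chart (k + 2) X) {c' : Vd (k + 1)} {ρ : ℝ} (hs : Str Λ u χ c' ρ)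
    {q₀ : Vd (k + 2)} (hq₀ : q₀ ∈ ball (0 : Vd (k + 2)) 2) {z₀ : ℂ} {s₁ : ℝ} (hs₁ : s₁ ≤ s) (hz₀ : ‖z₀‖ < s₁) (hq : ms c' ρ q₀ = ar κ g z₀) :
    ∃ (χ' : Pool.Agent.H14.PP.Chart (Ya X Λ u κ g s)) (r τ : ℝ), Pool.Agent.H62.EL.Mon Γ₀ (wa Λ u κ g s) χ' z₀ r 1 0 ∧ 0 < τ ∧
      (∀ y ∈ ball (0 : ℂ × ℂ) 2, ‖z₀ + r * y.1‖ < s₁ ∧ sla κ g c' ρ z₀ r y ∈ ball (0 : Vd (k + 2)) 2 ∧ χ'.σ y = χ.σ (sla κ g c' ρ z₀ r y)) ∧
      ∀ x ∈ Ya X Λ u κ g s, x ∈ χ.U → ‖wa Λ u κ g s x - z₀‖ < τ → ms c' ρ (χ.q x) = ar κ g (wa Λ u κ g s x) →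
        x ∈ χ'.U ∧ χ'.q x = ((wa Λ u κ g s x - z₀) / r, χ.q x 0) := by
  have hρ := hs.pos
  have hρ0 : (ρ : ℂ) ≠ 0 := by exact_mod_cast hρ.ne'
  have hspos := L.pos
  have K := L.kp
  have hz2 : z₀ ∈ ball (0 : ℂ) (2 * s) := L.mem2 (hz₀.le.trans hs₁)
  have hcg := L.cg_mem hz2
  have htq : 0 < 2 - ‖tl q₀‖ := by
    have := ((SlS_ball' q₀).1 hq₀).2
    linarith
  -- a ball where `ψ` is the inverse of `κ`
  obtain ⟨δ, hδ, hδ'⟩ : ∃ δ : ℝ, 0 < δ ∧ ∀ y ∈ ball (ar κ g z₀) δ, AnalyticAt ℂ ψ y ∧ ψ y ∈ ball (0 : Vd (k + 1)) R ∧ κ (ψ y) = y := by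
    have h1 : ∀ᶠ y in 𝓝 (ar κ g z₀), AnalyticAt ℂ ψ y := (K.ψ_an _ hcg).eventually_analyticAt
    have h2 : ∀ᶠ y in 𝓝 (ar κ g z₀), ψ y ∈ ball (0 : Vd (k + 1)) R := by
      refine (K.ψ_an _ hcg).continuousAt.eventually_mem (isOpen_ball.mem_nhds ?_)
      rw [K.ψ_κ _ hcg]
      exact hcg
    have h3 : ∀ᶠ y in 𝓝 (ar κ g z₀), κ (ψ y) = y := K.κ_ψ _ hcg
    obtain ⟨δ, hδ, h⟩ := Metric.eventually_nhds_iff_ball.1 (h1.and (h2.and h3))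
    exact ⟨δ, hδ, h⟩
  -- the radius
  obtain ⟨r, hr0, hrball⟩ : ∃ r : ℝ, 0 < r ∧ ∀ z ∈ ball z₀ (2 * r), ‖z‖ < s₁ ∧ ar κ g z ∈ ball (ar κ g z₀) δ ∧
      ‖ar κ g z - ar κ g z₀‖ < ρ * (2 - ‖tl q₀‖) := by
    have h1 : ∀ᶠ z in 𝓝 z₀, ‖z‖ < s₁ := continuous_norm.continuousAt.eventually_lt continuousAt_const hz₀
    have hc : ContinuousAt (ar κ g) z₀ := (L.ar_an hz2).continuousAt
    have h2 : ∀ᶠ z in 𝓝 z₀, ar κ g z ∈ ball (ar κ g z₀) δ := hc.eventually_mem (ball_mem_nhds _ hδ)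
    have h3 : ∀ᶠ z in 𝓝 z₀, ar κ g z ∈ ball (ar κ g z₀) (ρ * (2 - ‖tl q₀‖)) := hc.eventually_mem (ball_mem_nhds _ (mul_pos hρ htq))
    obtain ⟨δ₁, hδ₁, h⟩ := Metric.eventually_nhds_iff_ball.1 (h1.and (h2.and h3))
    refine ⟨δ₁ / 2, by linarith, fun z hz => ?_⟩
    have h4 := h z (by rwa [mul_div_cancel₀ _ (two_ne_zero)] at hz)
    refine ⟨h4.1, h4.2.1, ?_⟩
    rw [← mem_ball_iff_norm]
    exact h4.2.2
  have hr0' : (r : ℂ) ≠ 0 := by exact_mod_cast hr0.ne'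
  have hzb : ∀ y : ℂ × ℂ, ‖y.1‖ < 2 → z₀ + r * y.1 ∈ ball z₀ (2 * r) := by
    intro y hy
    rw [mem_ball_iff_norm, add_sub_cancel_left, norm_mul, Complex.norm_real, Real.norm_eq_abs, abs_of_pos hr0, mul_comm 2 r]
    exact mul_lt_mul_of_pos_left hy hr0
  have hz2s : ∀ z ∈ ball z₀ (2 * r), z ∈ ball (0 : ℂ) (2 * s) := fun z hz => L.mem2 ((hrball z hz).1.le.trans hs₁)
  have hψar : ∀ z ∈ ball z₀ (2 * r), ψ (ar κ g z) = cg g z := fun z hz => K.ψ_κ _ (L.cg_mem (hz2s z hz))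
  have htl0 : tl q₀ = (ρ : ℂ)⁻¹ • (ar κ g z₀ - c') := by
    rw [← hq]
    unfold ms
    rw [add_sub_cancel_left, smul_smul, inv_mul_cancel₀ hρ0, one_smul]
  have hsl : ∀ y ∈ ball (0 : ℂ × ℂ) 2, sla κ g c' ρ z₀ r y ∈ ball (0 : Vd (k + 2)) 2 := by
    intro y hy
    rw [SlS_ball] at hy
    rw [SlS_ball']
    refine ⟨hy.2, ?_⟩
    have h1 : tl (sla κ g c' ρ z₀ r y) - tl q₀ = (ρ : ℂ)⁻¹ • (ar κ g (z₀ + r * y.1) - ar κ g z₀) := by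
      rw [SlS_tl, htl0, ← smul_sub]
      congr 1
      abel
    have h2 : ‖tl (sla κ g c' ρ z₀ r y) - tl q₀‖ < 2 - ‖tl q₀‖ := by
      rw [h1, norm_smul, norm_inv, Complex.norm_real, Real.norm_eq_abs, abs_of_pos hρ, inv_mul_lt_iff₀ hρ]
      exact (hrball _ (hzb y hy.1)).2.2
    have h3 : tl (sla κ g c' ρ z₀ r y) = (tl (sla κ g c' ρ z₀ r y) - tl q₀) + tl q₀ := by abel
    rw [h3]
    have := norm_add_le (tl (sla κ g c' ρ z₀ r y) - tl q₀) (tl q₀)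
    linarith
  have hmem : ∀ y ∈ ball (0 : ℂ × ℂ) 2, χ.σ (sla κ g c' ρ z₀ r y) ∈ Ya X Λ u κ g s ∧
      u (χ.σ (sla κ g c' ρ z₀ r y)) - ar κ g (z₀ + r * y.1) ∈ Λ := by
    intro y hy
    have h1 := hs.lift _ (hsl y hy)
    rw [sla_ms hρ] at h1
    exact ⟨⟨(χ.σ_mem _ (hsl y hy)).1, z₀ + r * y.1, ((hrball _ (hzb y ((SlS_ball y).1 hy).1)).1.le.trans hs₁), h1⟩, h1⟩
  -- the first coordinate
  set G : EN N → ℂ := fun x => (ψ (ms c' ρ (χ.q x)) 0 - z₀) / r with hG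
  have hmsan : ∀ x ∈ χ.U, AnalyticAt ℂ (fun x => ms c' ρ (χ.q x)) x := by
    intro x hx
    have h3 : AnalyticAt ℂ (ms (k := k) c' ρ) (χ.q x) := by
      exact analyticAt_const.add (((ρ : ℂ) • Pool.Agent.TG.tlL (k := k)).analyticAt _)
    exact h3.fun_comp (χ.q_an x hx)
  have hGan : ∀ x ∈ χ.U, ms c' ρ (χ.q x) ∈ ball (ar κ g z₀) δ → AnalyticAt ℂ G x := by
    intro x hx hb
    have h1 : AnalyticAt ℂ (fun x => ψ (ms c' ρ (χ.q x))) x :=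
      AnalyticAt.fun_comp (g := ψ) (f := fun x => ms c' ρ (χ.q x)) (hδ' _ hb).1 (hmsan x hx)
    have h4 : AnalyticAt ℂ (fun x => ψ (ms c' ρ (χ.q x)) 0) x :=
      ((ContinuousLinearMap.proj (R := ℂ) (φ := fun _ : Fin (k + 1) => ℂ) 0).analyticAt _).fun_comp h1
    exact (h4.sub analyticAt_const).div analyticAt_const hr0'
  have hGval : ∀ x : EN N, ∀ z ∈ ball z₀ (2 * r), ms c' ρ (χ.q x) = ar κ g z → G x = (z - z₀) / r := by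
    intro x z hz h
    show (ψ (ms c' ρ (χ.q x)) 0 - z₀) / r = (z - z₀) / r
    rw [h, hψar z hz]
    rfl
  -- the coordinates are on the arc
  have hline : ∀ x ∈ Ya X Λ u κ g s, x ∈ χ.U → ms c' ρ (χ.q x) ∈ ball (ar κ g z₀) δ →
      ms c' ρ (χ.q x) = ar κ g (wa Λ u κ g s x) ∧ ψ (ms c' ρ (χ.q x)) 0 = wa Λ u κ g s x := by
    intro x hx hU hn
    have h1 := wa_spec hx
    obtain ⟨hb, a, ha, hxa⟩ := χ.surj x hx.1 hU
    have h2 := hs.lift _ hb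
    have h3 : u x - u (χ.σ (χ.q x)) ∈ Λ := by
      have h4 := K.tor.smul _ (χ.σ_mem _ hb).1 a ha
      rwa [← hxa] at h4
    have h5 : ms c' ρ (χ.q x) - ar κ g (wa Λ u κ g s x) ∈ Λ := by
      have h6 : ms c' ρ (χ.q x) - ar κ g (wa Λ u κ g s x) =
          (u x - ar κ g (wa Λ u κ g s x)) - (u x - u (χ.σ (χ.q x))) - (u (χ.σ (χ.q x)) - ms c' ρ (χ.q x)) := by abel
      rw [h6]
      exact Λ.sub_mem (Λ.sub_mem h1.2 h3) h2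
    obtain ⟨-, h7, h8⟩ := hδ' _ hn
    have h9 : ψ (ms c' ρ (χ.q x)) = cg g (wa Λ u κ g s x) := by
      refine K.inj _ h7 _ (L.cg_mem (L.mem2 h1.1)) ?_
      rw [h8]
      exact h5
    refine ⟨?_, ?_⟩
    · rw [← h8, h9]
      rfl
    · rw [h9]
      rfl
  let χ' : Pool.Agent.H14.PP.Chart (Ya X Λ u κ g s) :=
    { σ := fun y => χ.σ (sla κ g c' ρ z₀ r y)
      U := {x | x ∈ χ.U ∧ ms c' ρ (χ.q x) ∈ ball (ar κ g z₀) δ ∧ ‖G x‖ < 2}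
      q := fun x => (G x, χ.q x 0)
      isOpen_U := by
        rw [isOpen_iff_mem_nhds]
        rintro x ⟨h1, h2, h3⟩
        filter_upwards [χ.isOpen_U.mem_nhds h1, (hmsan x h1).continuousAt.eventually_mem (isOpen_ball.mem_nhds h2),
          (hGan x h1 h2).continuousAt.norm.eventually_lt continuousAt_const h3] with x' h4 h5 h6
        exact ⟨h4, h5, h6⟩
      smul_U := by
        rintro x ⟨h1, h2, h3⟩ a ha
        have h4 := χ.q_smul x h1 a ha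
        refine ⟨χ.smul_U x h1 a ha, ?_, ?_⟩
        · rw [h4]
          exact h2
        · have h5 : G (a • x) = G x := by
            show (ψ (ms c' ρ (χ.q (a • x))) 0 - z₀) / r = (ψ (ms c' ρ (χ.q x)) 0 - z₀) / r
            rw [h4]
          rw [h5]
          exact h3
      σ_an := fun y hy => (χ.σ_an _ (hsl y hy)).fun_comp (L.sla_an c' ρ z₀ r (hz2s _ (hzb y ((SlS_ball y).1 hy).1)))
      q_an := fun x hx => (hGan x hx.1 hx.2.1).prod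
        (((ContinuousLinearMap.proj (R := ℂ) (φ := fun _ : Fin (k + 2) => ℂ) 0).analyticAt _).fun_comp (χ.q_an x hx.1))
      q_smul := by
        rintro x ⟨h1, h2, h3⟩ a ha
        have h4 := χ.q_smul x h1 a ha
        show ((ψ (ms c' ρ (χ.q (a • x))) 0 - z₀) / r, χ.q (a • x) 0) = ((ψ (ms c' ρ (χ.q x)) 0 - z₀) / r, χ.q x 0)
        rw [h4]
      σ_mem := by
        intro y hy
        have h1 := χ.σ_mem _ (hsl y hy)
        have hy' := (SlS_ball y).1 hy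
        have hms : ms c' ρ (χ.q (χ.σ (sla κ g c' ρ z₀ r y))) = ar κ g (z₀ + r * y.1) := by
          rw [h1.2.2]
          exact sla_ms hρ z₀ r y
        have h2 : G (χ.σ (sla κ g c' ρ z₀ r y)) = y.1 := by
          rw [hGval _ _ (hzb y hy'.1) hms, add_sub_cancel_left, mul_div_cancel_left₀ _ hr0']
        refine ⟨(hmem y hy).1, ⟨h1.2.1, ?_, ?_⟩, ?_⟩
        · rw [hms]
          exact (hrball _ (hzb y hy'.1)).2.1
        · rw [h2]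
          exact hy'.1
        · show (G (χ.σ (sla κ g c' ρ z₀ r y)), χ.q (χ.σ (sla κ g c' ρ z₀ r y)) 0) = y
          rw [h2, h1.2.2]
          rfl
      surj := by
        rintro x hx ⟨hU, h2, h3⟩
        obtain ⟨hb, a, ha, hxa⟩ := χ.surj x hx.1 hU
        have hb' := (SlS_ball' _).1 hb
        obtain ⟨h4, h5⟩ := hline x hx hU h2
        have h6 : z₀ + r * G x = wa Λ u κ g s x := by
          show z₀ + r * ((ψ (ms c' ρ (χ.q x)) 0 - z₀) / r) = wa Λ u κ g s x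
          rw [mul_div_cancel₀ _ hr0', h5]
          ring
        refine ⟨(SlS_ball _).2 ⟨h3, hb'.1⟩, a, ha, ?_⟩
        show x = a • χ.σ (sla κ g c' ρ z₀ r (G x, χ.q x 0))
        rw [sla_eq hρ z₀ r (y := (G x, χ.q x 0)) rfl (by rw [h6]; exact h4)]
        exact hxa }
  refine ⟨χ', r, 2 * r, ⟨hr0, by norm_num, ?_⟩, by linarith, ?_, ?_⟩
  · intro y hy
    have h1 : wa Λ u κ g s (χ.σ (sla κ g c' ρ z₀ r y)) = z₀ + r * y.1 :=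
      L.wa_eq ((hrball _ (hzb y ((SlS_ball y).1 hy).1)).1.le.trans hs₁) (hmem y hy).2
    show wa Λ u κ g s (χ.σ (sla κ g c' ρ z₀ r y)) - Pool.Agent.H62.EL.mo z₀ r 1 0 y ∈ Γ₀
    rw [h1]
    unfold Pool.Agent.H62.EL.mo
    rw [pow_one, pow_zero, mul_one, sub_self]
    exact Γ₀.zero_mem
  · intro y hy
    exact ⟨(hrball _ (hzb y ((SlS_ball y).1 hy).1)).1, hsl y hy, rfl⟩
  · intro x hx hU hw hms
    have hwb : wa Λ u κ g s x ∈ ball z₀ (2 * r) := by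
      rw [mem_ball_iff_norm]
      exact hw
    have h2 : G x = (wa Λ u κ g s x - z₀) / r := hGval x _ hwb hms
    refine ⟨⟨hU, ?_, ?_⟩, ?_⟩
    · rw [hms]
      exact (hrball _ hwb).2.1
    · rw [h2, norm_div, Complex.norm_real, Real.norm_eq_abs, abs_of_pos hr0, div_lt_iff₀ hr0]
      exact hw
    · show (G x, χ.q x 0) = _
      rw [h2]

end Pool.Agent.GX
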