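import Pool.Agent.G3.X.RfA
import Pool.Agent.G3.X.SlS

/-!
# G3 X BrA: the coefficient of the restricted form

Port of `Ln.slice_tc` (`TG/Y/Br.lean`; `Br_det` is private there: copy).  `fderiv (sla ..) y (1, 0) = cons 0 ((r / ρ) • deriv (ar κ g) (z₀ + r y.1))`, `fderiv (sla ..) y (0, 1) = Pi.single 0 1`.
-/

set_option autoImplicit false

open Topology Filter Metric

namespace Pool.Agent.GX

open Pool.Agent.H36.BP (EN fs wd)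
open Pool.Agent.H14.PP (IsCone CurveAt Tan)
open Pool.Agent.H62.EF (MN pr)
open Pool.Agent.AD (Vd Chart Charts IsGerm)
open Pool.Agent.TG (TMap Lat tl nm IsStr IsNC IsCoord Geo VForm ms Str IsPrim Cap IRel II TransAt Gd Cst DV fr tc)

variable {N k : ℕ}

variable {X : Set (EN N)} {Λ : AddSubgroup (Vd (k + 1))} {u : EN N → Vd (k + 1)} {D B : Set (Vd (k + 1))}
  {κ ψ : Vd (k + 1) → Vd (k + 1)} {R : ℝ} {g : ℂ → Fin k → ℂ} {Γ₀ : AddSubgroup ℂ} {s : ℝ}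

/-- the linear part of `sla` -/
private noncomputable def BrA_slL (e : Vd (k + 1)) (ρ r : ℝ) : ℂ × ℂ →L[ℂ] Vd (k + 2) :=
  ContinuousLinearMap.pi (Fin.cons (α := fun _ => ℂ × ℂ →L[ℂ] ℂ) (ContinuousLinearMap.snd ℂ ℂ ℂ)
    fun i : Fin (k + 1) => ((ρ : ℂ)⁻¹ * (r * e i)) • ContinuousLinearMap.fst ℂ ℂ ℂ)

private theorem BrA_slL_apply (e : Vd (k + 1)) (ρ r : ℝ) (w : ℂ × ℂ) :
    BrA_slL e ρ r w = Fin.cons (α := fun _ => ℂ) w.2 ((ρ : ℂ)⁻¹ • ((r * w.1) • e)) := by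
  funext i
  refine Fin.cases rfl (fun j => ?_) i
  show ((ρ : ℂ)⁻¹ * (r * e j)) * w.1 = (ρ : ℂ)⁻¹ * ((r * w.1) * e j)
  ring

private theorem BrA_sla_deriv (c' : Vd (k + 1)) (ρ : ℝ) (z₀ : ℂ) (r : ℝ) (y : ℂ × ℂ) (ha : AnalyticAt ℂ (ar κ g) (z₀ + r * y.1)) :
    HasFDerivAt (sla κ g c' ρ z₀ r) (BrA_slL (deriv (ar κ g) (z₀ + r * y.1)) ρ r) y := by
  have hd : HasDerivAt (ar κ g) (deriv (ar κ g) (z₀ + r * y.1)) (z₀ + r * y.1) := ha.differentiableAt.hasDerivAt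
  have h1 : HasFDerivAt (fun y : ℂ × ℂ => z₀ + (r : ℂ) * y.1) ((r : ℂ) • ContinuousLinearMap.fst ℂ ℂ ℂ) y :=
    ((ContinuousLinearMap.fst ℂ ℂ ℂ).hasFDerivAt.const_mul (r : ℂ)).const_add z₀
  rw [hasFDerivAt_pi']
  intro i
  refine Fin.cases ?_ (fun j => ?_) i
  · exact (ContinuousLinearMap.snd ℂ ℂ ℂ).hasFDerivAt
  · have h2 : HasDerivAt (fun z => ar κ g z j) (deriv (ar κ g) (z₀ + r * y.1) j) (z₀ + r * y.1) := (hasDerivAt_pi.1 hd) j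
    have h3 := ((h2.comp_hasFDerivAt y h1).sub_const (c' j)).const_mul ((ρ : ℂ)⁻¹)
    refine h3.congr_fderiv ?_
    ext
    · show (ρ : ℂ)⁻¹ * (deriv (ar κ g) (z₀ + r * y.1) j * ((r : ℂ) * 1)) = ((ρ : ℂ)⁻¹ * (r * deriv (ar κ g) (z₀ + r * y.1) j)) * 1
      ring
    · show (ρ : ℂ)⁻¹ * (deriv (ar κ g) (z₀ + r * y.1) j * ((r : ℂ) * 0)) = ((ρ : ℂ)⁻¹ * (r * deriv (ar κ g) (z₀ + r * y.1) j)) * 0
      ring

/-- the first column is zero except in the row `1` -/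
private theorem BrA_det {a b : ℂ} {v : Vd (k + 1)} {w : Fin k → Vd (k + 1)} :
    (Matrix.of fun i j => (Fin.cons (Fin.cons (α := fun _ => ℂ) 0 ((a * b) • v)) (Fin.cons (Pi.single 0 1)
      fun l => Fin.cons (α := fun _ => ℂ) 0 (b • w l)) : Fin (k + 2) → Vd (k + 2)) i j).det =
      -(a * b ^ (k + 1)) * (Matrix.of fun i j => (Fin.cons v w : Fin (k + 1) → Vd (k + 1)) i j).det := by
  rw [Matrix.det_succ_column_zero]
  rw [Fin.sum_univ_succ, Fin.sum_univ_succ]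
  have h0 : ∀ x : Fin k, (Matrix.of fun i j => (Fin.cons (Fin.cons (α := fun _ => ℂ) 0 ((a * b) • v)) (Fin.cons (Pi.single 0 1)
      fun l => Fin.cons (α := fun _ => ℂ) 0 (b • w l)) : Fin (k + 2) → Vd (k + 2)) i j) x.succ.succ 0 = 0 := fun x => rfl
  have h1 : (Matrix.of fun i j => (Fin.cons (Fin.cons (α := fun _ => ℂ) 0 ((a * b) • v)) (Fin.cons (Pi.single 0 1)
      fun l => Fin.cons (α := fun _ => ℂ) 0 (b • w l)) : Fin (k + 2) → Vd (k + 2)) i j) 0 0 = 0 := rfl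
  have h2 : (Matrix.of fun i j => (Fin.cons (Fin.cons (α := fun _ => ℂ) 0 ((a * b) • v)) (Fin.cons (Pi.single 0 1)
      fun l => Fin.cons (α := fun _ => ℂ) 0 (b • w l)) : Fin (k + 2) → Vd (k + 2)) i j) (Fin.succ 0) 0 = 1 := by
    show (Pi.single 0 1 : Vd (k + 2)) 0 = 1
    exact Pi.single_eq_same _ _
  rw [h1, h2, Finset.sum_eq_zero (fun x _ => by rw [h0 x]; ring)]
  have h3 : (Matrix.of fun i j => (Fin.cons (Fin.cons (α := fun _ => ℂ) 0 ((a * b) • v)) (Fin.cons (Pi.single 0 1)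
      fun l => Fin.cons (α := fun _ => ℂ) 0 (b • w l)) : Fin (k + 2) → Vd (k + 2)) i j).submatrix (Fin.succ 0).succAbove Fin.succ =
      Matrix.of fun i j => (Fin.cons (a * b) fun _ => b : Fin (k + 1) → ℂ) i * (Matrix.of fun i j => (Fin.cons v w : Fin (k + 1) → Vd (k + 1)) i j) i j := by
    funext i j
    refine Fin.cases ?_ (fun l => ?_) i
    · rfl
    · rfl
  rw [h3, Matrix.det_mul_column, Fin.prod_univ_succ]
  simp only [Fin.cons_zero, Fin.cons_succ, Finset.prod_const, Finset.card_univ, Fintype.card_fin]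
  simp only [Fin.val_zero, Fin.succ_zero_eq_one, Fin.val_one]
  ring

theorem La.slice_tc (L : La X Λ u D κ ψ R g Γ₀ s) (α : VForm X Λ u) (χ : Chart (k + 2) X) {c' : Vd (k + 1)} {ρ : ℝ} (hs : Str Λ u χ c' ρ)
    {z₀ : ℂ} {r : ℝ} (hr : 0 < r) {χ' : Pool.Agent.H14.PP.Chart (Ya X Λ u κ g s)}
    (hσ : ∀ y ∈ ball (0 : ℂ × ℂ) 2, ‖z₀ + r * y.1‖ < s ∧ sla κ g c' ρ z₀ r y ∈ ball (0 : Vd (k + 2)) 2 ∧ χ'.σ y = χ.σ (sla κ g c' ρ z₀ r y))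
    (υ : ℂ × ℂ → ℂ) {y : ℂ × ℂ} (hy : y ∈ ball (0 : ℂ × ℂ) 2) :
    Pool.Agent.H62.EL.tc (L.form α) χ' υ y =
      -((r : ℂ) / (ρ : ℂ) ^ (k + 1)) * dta κ g (z₀ + r * y.1) * tc α χ (ms c' ρ) (sla κ g c' ρ z₀ r y) := by
  obtain ⟨hz, hq, hσy⟩ := hσ y hy
  have hρ := hs.pos
  have hρ0 : (ρ : ℂ) ≠ 0 := by exact_mod_cast hρ.ne'
  have hmY := (χ'.σ_mem y hy).1
  have hmχ := χ.σ_mem _ hq
  have hlift := hs.lift _ hq
  rw [sla_ms hρ] at hlift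
  have har : AnalyticAt ℂ (ar κ g) (z₀ + r * y.1) := L.ar_an (L.mem2 hz.le)
  set e : Vd (k + 1) := deriv (ar κ g) (z₀ + r * y.1) with he
  have hwl : wa Λ u κ g s (χ'.σ y) = z₀ + r * y.1 := by
    rw [hσy]
    exact L.wa_eq hz.le hlift
  have hder : fderiv ℂ χ'.σ y = (fderiv ℂ χ.σ (sla κ g c' ρ z₀ r y)).comp (BrA_slL e ρ r) := by
    have h1 : HasFDerivAt (fun y => χ.σ (sla κ g c' ρ z₀ r y)) ((fderiv ℂ χ.σ (sla κ g c' ρ z₀ r y)).comp (BrA_slL e ρ r)) y :=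
      (χ.σ_an _ hq).differentiableAt.hasFDerivAt.comp y (BrA_sla_deriv c' ρ z₀ r y har)
    refine (h1.congr_of_eventuallyEq ?_).fderiv
    filter_upwards [isOpen_ball.mem_nhds hy] with y' hy'
    exact (hσ y' hy').2.2
  have hpart : Pool.Agent.H14.PP.IsOpenPart (Ya X Λ u κ g s) (Ya X Λ u κ g s) :=
    ⟨subset_rfl, (L.isCone).smul_mem, fun x hx => Eventually.of_forall fun _ h => h⟩
  have htan : ∀ w : ℂ × ℂ, Tan (Ya X Λ u κ g s) (χ'.σ y) (fderiv ℂ χ'.σ y w) := fun w => χ'.tan hpart hy hmY w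
  -- the frame
  have hframe : ∀ j, DV X Λ u (χ'.σ y) (fderiv ℂ χ.σ (sla κ g c' ρ z₀ r y) (Fin.cons (α := fun _ => ℂ) 0 ((ρ : ℂ)⁻¹ • fr κ (cg g) (z₀ + r * y.1) j)))
      (fr κ (cg g) (wa Λ u κ g s (χ'.σ y)) j) := by
    intro j
    rw [hwl, hσy]
    refine (Pool.Agent.TG.dv_iff L.kp.cone L.kp.tor L.kp.lat χ hmχ.1 hmχ.2.1 (υ := ms c' ρ) ?_ ?_).2 ⟨Pool.Agent.TG.tan_sigma χ hq _, ?_⟩
    · exact analyticAt_const.add (((ρ : ℂ) • Pool.Agent.TG.tlL (k := k)).analyticAt _)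
    · rw [hmχ.2.2]
      filter_upwards [isOpen_ball.mem_nhds hq] with q' hq'
      exact hs.lift q' hq'
    · rw [χ.fderiv_sigma hq]
      have h1 : HasFDerivAt (ms (k := k) c' ρ) ((ρ : ℂ) • Pool.Agent.TG.tlL (k := k)) (χ.q (χ.σ (sla κ g c' ρ z₀ r y))) :=
        (((ρ : ℂ) • Pool.Agent.TG.tlL (k := k)).hasFDerivAt).const_add c'
      rw [h1.fderiv]
      show (ρ : ℂ) • ((ρ : ℂ)⁻¹ • fr κ (cg g) (z₀ + r * y.1) j) = fr κ (cg g) (z₀ + r * y.1) j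
      rw [smul_smul, mul_inv_cancel₀ hρ0, one_smul]
  unfold Pool.Agent.H62.EL.tc
  rw [L.form_eq α (υ y) hmY (htan _) (htan _) hframe, hwl]
  have hT : ∀ i : Fin (k + 2), Tan X (χ'.σ y) ((Fin.cons (fderiv ℂ χ'.σ y (1, 0)) (Fin.cons (fderiv ℂ χ'.σ y (0, 1))
      fun j => fderiv ℂ χ.σ (sla κ g c' ρ z₀ r y) (Fin.cons (α := fun _ => ℂ) 0 ((ρ : ℂ)⁻¹ • fr κ (cg g) (z₀ + r * y.1) j))) : Fin (k + 2) → EN N) i) := by
    intro i
    rw [hσy]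
    refine Fin.cases ?_ (fun i' => Fin.cases ?_ (fun j => ?_) i') i
    · show Tan X _ (fderiv ℂ χ'.σ y (1, 0))
      rw [hder]
      exact Pool.Agent.TG.tan_sigma χ hq _
    · show Tan X _ (fderiv ℂ χ'.σ y (0, 1))
      rw [hder]
      exact Pool.Agent.TG.tan_sigma χ hq _
    · exact Pool.Agent.TG.tan_sigma χ hq _
  have hms : ms c' ρ (χ.q (χ'.σ y)) = ar κ g (z₀ + r * y.1) := by
    rw [hσy, hmχ.2.2]
    exact sla_ms hρ z₀ r y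
  have hxU : χ'.σ y ∈ χ.U := by
    rw [hσy]
    exact hmχ.2.1
  have hlift' : u (χ'.σ y) - ar κ g (z₀ + r * y.1) ∈ Λ := by
    rw [hσy]
    exact hlift
  rw [Pool.Agent.TG.toFun_eq L.kp.cone L.kp.tor α χ hmY.1 hxU hlift' hms _ hT]
  have hqσ : χ.q (χ'.σ y) = sla κ g c' ρ z₀ r y := by
    rw [hσy]
    exact hmχ.2.2
  have hM : (Matrix.of fun i j => fderiv ℂ χ.q (χ'.σ y) ((Fin.cons (fderiv ℂ χ'.σ y (1, 0)) (Fin.cons (fderiv ℂ χ'.σ y (0, 1))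
      fun j => fderiv ℂ χ.σ (sla κ g c' ρ z₀ r y) (Fin.cons (α := fun _ => ℂ) 0 ((ρ : ℂ)⁻¹ • fr κ (cg g) (z₀ + r * y.1) j))) : Fin (k + 2) → EN N) i) j) =
      Matrix.of fun i j => (Fin.cons (Fin.cons (α := fun _ => ℂ) 0 (((r : ℂ) * (ρ : ℂ)⁻¹) • e)) (Fin.cons (Pi.single 0 1)
      fun l => Fin.cons (α := fun _ => ℂ) 0 ((ρ : ℂ)⁻¹ • fr κ (cg g) (z₀ + r * y.1) l)) : Fin (k + 2) → Vd (k + 2)) i j := by
    have h1 : ∀ w : Vd (k + 2), fderiv ℂ χ.q (χ'.σ y) (fderiv ℂ χ.σ (sla κ g c' ρ z₀ r y) w) = w := by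
      intro w
      rw [hσy]
      exact χ.fderiv_sigma hq w
    funext i
    refine Fin.cases ?_ (fun i' => Fin.cases ?_ (fun j => ?_) i') i
    · show fderiv ℂ χ.q (χ'.σ y) (fderiv ℂ χ'.σ y (1, 0)) = Fin.cons (α := fun _ => ℂ) 0 (((r : ℂ) * (ρ : ℂ)⁻¹) • e)
      rw [hder, ContinuousLinearMap.comp_apply, h1, BrA_slL_apply]
      congr 1
      rw [smul_smul]
      congr 1
      ring
    · show fderiv ℂ χ.q (χ'.σ y) (fderiv ℂ χ'.σ y (0, 1)) = Pi.single 0 1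
      rw [hder, ContinuousLinearMap.comp_apply, h1, BrA_slL_apply]
      funext m
      refine Fin.cases ?_ (fun m' => ?_) m
      · show (1 : ℂ) = (Pi.single 0 1 : Vd (k + 2)) 0
        rw [Pi.single_eq_same]
      · show (ρ : ℂ)⁻¹ * ((r * 0) * e m') = (Pi.single 0 1 : Vd (k + 2)) m'.succ
        rw [Pi.single_eq_of_ne (Fin.succ_ne_zero m')]
        ring
    · show fderiv ℂ χ.q (χ'.σ y) (fderiv ℂ χ.σ (sla κ g c' ρ z₀ r y) (Fin.cons (α := fun _ => ℂ) 0 ((ρ : ℂ)⁻¹ • fr κ (cg g) (z₀ + r * y.1) j))) =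
        Fin.cons (α := fun _ => ℂ) 0 ((ρ : ℂ)⁻¹ • fr κ (cg g) (z₀ + r * y.1) j)
      exact h1 _
  rw [hM, BrA_det, hqσ]
  unfold dta
  rw [inv_pow, ← he]
  ring

end Pool.Agent.GX
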