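import Pool.Agent.TG.Y.Cr

/-!
# G3 X CapZ: straight charts which contain the points near `y₀` of one fibre

`EL.Cap` asks the same radius in the base and in the fibre.  `Capz` is the condition for one fibre: it is used as `∀ᶠ z in 𝓝 z₀, Capz Λ u χ c ρ z y₀ r`.
-/

set_option autoImplicit false

open Topology Filter Metric

namespace Pool.Agent.GXE

open Pool.Agent.H36.BP (EN fs wd IsGermChart)
open Pool.Agent.H14.PP (IsCone Chart Tan CurveAt jac)
open Pool.Agent.H62.EF (Lat MN pr TorusMap Charts DU)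
open Pool.Agent.H62.EL

variable {N : ℕ} {X : Set (EN N)}

/-- the straight chart contains all points near `y₀` of the fibre over `z` -/
structure Capz (Λ : AddSubgroup ℂ) (u : EN N → ℂ) (χ : Chart X) (c : ℂ) (ρ : ℝ) (z : ℂ) (y₀ : MN N) (r : ℝ) : Prop where
  mon : Mon Λ u χ c ρ 1 0
  cap : ∀ x ∈ X, u x - z ∈ Λ → dist (pr x) y₀ ≤ r → x ∈ χ.U ∧ χ.q x ∈ closedBall (0 : ℂ × ℂ) 1 ∧ c + ρ * (χ.q x).1 = z

end Pool.Agent.GXE
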