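import Pool.Agent.G3.X.BrA
import Pool.Agent.G3.X.CapZ

/-!
# G3 X BrI: short paths and caps in the slab

`irel_bridge`: port of `Ln.irel_bridge` (`TG/Y/Br.lean`).
`capz_bridge`: `q₀ = χ.q x₀` (`Cap.cap` at `y = ar κ g z₀`: `χ.q x₀ ∈ closedBall 0 1`, `ms c' ρ q₀ = ar κ g z₀`), `χ', r', τ` from `slice_chart`, `c'' = z₀`, `ρ'' = r'`.  For `z` near `z₀`: `‖ar κ g z - ar κ g z₀‖ ≤ r`, `‖z - z₀‖ < τ`, `‖z - z₀‖ ≤ r'`, `‖z‖ ≤ s`; `x ∈ Ya` with `wa x - z ∈ Γ₀`: `wa x = z` (`La.nb`), so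
`u x - ar κ g z ∈ Λ`, `Cap.cap`: `x ∈ χ.U`, `χ.q x ∈ closedBall 0 1`, `ms c' ρ (χ.q x) = ar κ g z`; last part of `slice_chart`: `χ'.q x = ((z - z₀) / r', χ.q x 0)`.
-/

set_option autoImplicit false

open Topology Filter Metric

namespace Pool.Agent.GX

open Pool.Agent.H36.BP (EN fs wd)
open Pool.Agent.H14.PP (IsCone CurveAt Tan)
open Pool.Agent.H62.EF (MN pr)
open Pool.Agent.AD (Vd Chart Charts IsGerm)
open Pool.Agent.TG (TMap Lat tl nm IsStr IsNC IsCoord Geo VForm ms Str IsPrim Cap IRel II TransAt Gd Cst DV fr tc)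

variable {N k : ℕ}

variable {X : Set (EN N)} {Λ : AddSubgroup (Vd (k + 1))} {u : EN N → Vd (k + 1)} {D B : Set (Vd (k + 1))}
  {κ ψ : Vd (k + 1) → Vd (k + 1)} {R : ℝ} {g : ℂ → Fin k → ℂ} {Γ₀ : AddSubgroup ℂ} {s : ℝ}

private theorem BrI_ball_iff (y : ℂ × ℂ) {R : ℝ} : y ∈ ball (0 : ℂ × ℂ) R ↔ ‖y.1‖ < R ∧ ‖y.2‖ < R := by
  rw [mem_ball_zero_iff, Prod.norm_def, max_lt_iff]

private theorem BrI_ball_iff' (q : Vd (k + 2)) : q ∈ ball (0 : Vd (k + 2)) 2 ↔ ‖q 0‖ < 2 ∧ ‖tl q‖ < 2 := by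
  rw [mem_ball_zero_iff, pi_norm_lt_iff (by norm_num : (0 : ℝ) < 2), pi_norm_lt_iff (by norm_num : (0 : ℝ) < 2)]
  constructor
  · intro h
    exact ⟨h 0, fun i => h i.succ⟩
  · rintro ⟨h0, h1⟩ i
    exact Fin.cases h0 (fun j => h1 j) i

/-- the slice is affine in the second variable -/
private theorem BrI_sla_add (c' : Vd (k + 1)) (ρ : ℝ) (z₀ : ℂ) (r : ℝ) (y : ℂ × ℂ) (t : ℂ) :
    sla κ g c' ρ z₀ r (y + t • ((0 : ℂ), (1 : ℂ))) = sla κ g c' ρ z₀ r y + t • (Pi.single 0 1 : Vd (k + 2)) := by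
  funext m
  refine Fin.cases ?_ (fun m' => ?_) m
  · show y.2 + t * 1 = y.2 + t * (Pi.single 0 1 : Vd (k + 2)) 0
    rw [Pi.single_eq_same]
  · show (ρ : ℂ)⁻¹ * (ar κ g (z₀ + r * (y.1 + t * 0)) m' - c' m') =
      (ρ : ℂ)⁻¹ * (ar κ g (z₀ + r * y.1) m' - c' m') + t * (Pi.single 0 1 : Vd (k + 2)) m'.succ
    rw [Pi.single_eq_of_ne (Fin.succ_ne_zero m'), mul_zero, add_zero, add_zero]

theorem La.irel_bridge (L : La X Λ u D κ ψ R g Γ₀ s) {α : VForm X Λ u} {ε : ℝ} {z : ℂ} (hz : ‖z‖ < s) {m m' : MN N} {v : ℂ}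
    (h : IRel α ε (ar κ g z) m m' v) : Pool.Agent.H62.EL.IRel (L.form α) ε z m m' (-dta κ g z * v) := by
  obtain ⟨χ, c', ρ, A, q, q', hs, hA, hq, hq', hms, hms', hm, hm', hpath, hv⟩ := h
  have hρ := hs.pos
  have hρ0 : (ρ : ℂ) ≠ 0 := by exact_mod_cast hρ.ne'
  obtain ⟨χ', r, τ, hmon, -, hσ, -⟩ := L.slice_chart χ hs hq le_rfl hz hms
  have hr := hmon.pos
  have hr0 : (r : ℂ) ≠ 0 := by exact_mod_cast hr.ne'
  have hsl : ∀ (q : Vd (k + 2)), ms c' ρ q = ar κ g z → sla κ g c' ρ z r (0, q 0) = q := by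
    intro q h
    refine sla_eq hρ z r (y := (0, q 0)) rfl ?_
    rw [mul_zero, add_zero]
    exact h
  have hy : ∀ (q : Vd (k + 2)), q ∈ ball (0 : Vd (k + 2)) 2 → ((0 : ℂ), q 0) ∈ ball (0 : ℂ × ℂ) 2 := by
    intro q hq
    rw [BrI_ball_iff]
    refine ⟨?_, ((BrI_ball_iff' q).1 hq).1⟩
    show ‖(0 : ℂ)‖ < 2
    rw [norm_zero]
    norm_num
  have hb : ∀ y ∈ ball (0 : ℂ × ℂ) 2, AnalyticAt ℂ (fun y : ℂ × ℂ => dta κ g (z + r * y.1)) y := by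
    intro y hy
    have h1 : AnalyticAt ℂ (fun y : ℂ × ℂ => z + (r : ℂ) * y.1) y :=
      analyticAt_const.add (analyticAt_const.mul ((ContinuousLinearMap.fst ℂ ℂ ℂ).analyticAt y))
    exact AnalyticAt.fun_comp (g := dta κ g) (f := fun y : ℂ × ℂ => z + (r : ℂ) * y.1) (L.dta_an (L.mem2 (hσ y hy).1.le)) h1
  have hAs : ∀ y ∈ ball (0 : ℂ × ℂ) 2, AnalyticAt ℂ (fun y => A (sla κ g c' ρ z r y)) y :=
    fun y hy => (hA.an _ (hσ y hy).2.1).fun_comp (L.sla_an c' ρ z r (L.mem2 (hσ y hy).1.le))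
  refine ⟨χ', z, r, fun y => -((r : ℂ) / (ρ : ℂ) ^ (k + 1)) * dta κ g (z + r * y.1) * A (sla κ g c' ρ z r y), (0, q 0), (0, q' 0), hmon,
    ⟨?_, ?_, ?_⟩, hy q hq, hy q' hq', ?_, ?_, ?_, ?_, ?_, ?_⟩
  · intro y hy
    exact (analyticAt_const.mul (hb y hy)).mul (hAs y hy)
  · intro y hy
    rw [L.slice_tc α χ hs hr hσ _ hy]
    have h2 : HasDerivAt (fun t : ℂ => A (sla κ g c' ρ z r (y + t • ((0 : ℂ), (1 : ℂ))))) (tc α χ (ms c' ρ) (sla κ g c' ρ z r y)) 0 := by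
      have h3 : HasDerivAt (fun t : ℂ => sla κ g c' ρ z r y + t • (Pi.single 0 1 : Vd (k + 2))) (Pi.single 0 1 : Vd (k + 2)) 0 := by
        have h4 := ((hasDerivAt_id (0 : ℂ)).smul_const (Pi.single 0 1 : Vd (k + 2))).const_add (sla κ g c' ρ z r y)
        rwa [one_smul] at h4
      have h5 : HasFDerivAt A (fderiv ℂ A (sla κ g c' ρ z r y)) (sla κ g c' ρ z r y + (0 : ℂ) • (Pi.single 0 1 : Vd (k + 2))) := by
        rw [zero_smul, add_zero]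
        exact (hA.an _ (hσ y hy).2.1).differentiableAt.hasFDerivAt
      have h6 := h5.comp_hasDerivAt (0 : ℂ) h3
      rw [hA.der _ (hσ y hy).2.1] at h6
      refine h6.congr_of_eventuallyEq (Eventually.of_forall fun t => ?_)
      show A (sla κ g c' ρ z r (y + t • ((0 : ℂ), (1 : ℂ)))) = A (sla κ g c' ρ z r y + t • (Pi.single 0 1 : Vd (k + 2)))
      rw [BrI_sla_add]
    have h8 : HasDerivAt (fun t : ℂ => (fun y : ℂ × ℂ => -((r : ℂ) / (ρ : ℂ) ^ (k + 1)) * dta κ g (z + r * y.1) * A (sla κ g c' ρ z r y))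
        (y + t • ((0 : ℂ), (1 : ℂ)))) (-((r : ℂ) / (ρ : ℂ) ^ (k + 1)) * dta κ g (z + r * y.1) * tc α χ (ms c' ρ) (sla κ g c' ρ z r y)) 0 := by
      have h9 := h2.const_mul (-((r : ℂ) / (ρ : ℂ) ^ (k + 1)) * dta κ g (z + r * y.1))
      refine h9.congr_of_eventuallyEq (Eventually.of_forall fun t => ?_)
      show -((r : ℂ) / (ρ : ℂ) ^ (k + 1)) * dta κ g (z + r * (y.1 + t * 0)) * A (sla κ g c' ρ z r (y + t • ((0 : ℂ), (1 : ℂ)))) =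
        -((r : ℂ) / (ρ : ℂ) ^ (k + 1)) * dta κ g (z + r * y.1) * A (sla κ g c' ρ z r (y + t • ((0 : ℂ), (1 : ℂ))))
      rw [mul_zero, add_zero]
    have h10 : HasDerivAt (fun t : ℂ => (fun y : ℂ × ℂ => -((r : ℂ) / (ρ : ℂ) ^ (k + 1)) * dta κ g (z + r * y.1) * A (sla κ g c' ρ z r y))
        (y + t • ((0 : ℂ), (1 : ℂ)))) (fderiv ℂ (fun y : ℂ × ℂ => -((r : ℂ) / (ρ : ℂ) ^ (k + 1)) * dta κ g (z + r * y.1) *
          A (sla κ g c' ρ z r y)) y ((0 : ℂ), (1 : ℂ))) 0 := by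
      have h3 : HasDerivAt (fun t : ℂ => y + t • ((0 : ℂ), (1 : ℂ))) ((0 : ℂ), (1 : ℂ)) 0 := by
        have h4 := ((hasDerivAt_id (0 : ℂ)).smul_const ((0 : ℂ), (1 : ℂ))).const_add y
        rwa [one_smul] at h4
      have h11 := ((analyticAt_const.mul (hb y hy)).mul (hAs y hy) : AnalyticAt ℂ (fun y : ℂ × ℂ =>
        -((r : ℂ) / (ρ : ℂ) ^ (k + 1)) * dta κ g (z + r * y.1) * A (sla κ g c' ρ z r y)) y).differentiableAt.hasFDerivAt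
      have h5 : HasFDerivAt (fun y : ℂ × ℂ => -((r : ℂ) / (ρ : ℂ) ^ (k + 1)) * dta κ g (z + r * y.1) * A (sla κ g c' ρ z r y))
          (fderiv ℂ (fun y : ℂ × ℂ => -((r : ℂ) / (ρ : ℂ) ^ (k + 1)) * dta κ g (z + r * y.1) * A (sla κ g c' ρ z r y)) y)
          (y + (0 : ℂ) • ((0 : ℂ), (1 : ℂ))) := by
        rw [zero_smul, add_zero]
        exact h11
      exact h5.comp_hasDerivAt (0 : ℂ) h3
    exact h10.unique h8
  · intro t ht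
    have h1 : ((t : ℂ), (0 : ℂ)) ∈ ball (0 : ℂ × ℂ) 2 := by
      rw [BrI_ball_iff]
      refine ⟨ht, ?_⟩
      show ‖(0 : ℂ)‖ < 2
      rw [norm_zero]
      norm_num
    show -((r : ℂ) / (ρ : ℂ) ^ (k + 1)) * dta κ g (z + r * t) * A (sla κ g c' ρ z r (t, 0)) = 0
    rw [hA.zero _ (hσ _ h1).2.1 rfl, mul_zero]
  · show z + r * (0 : ℂ) = z
    rw [mul_zero, add_zero]
  · show z + r * (0 : ℂ) = z
    rw [mul_zero, add_zero]
  · rw [(hσ _ (hy q hq)).2.2, hsl q hms]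
    exact hm
  · rw [(hσ _ (hy q' hq')).2.2, hsl q' hms']
    exact hm'
  · intro θ hθ
    have h1 : ms c' ρ (q + (θ : ℂ) • (q' - q)) = ar κ g z := by
      have h2 : ms c' ρ (q + (θ : ℂ) • (q' - q)) = ms c' ρ q + (θ : ℂ) • (ms c' ρ q' - ms c' ρ q) := by
        unfold ms
        rw [Pool.Agent.TG.tl_add, Pool.Agent.TG.tl_smul, Pool.Agent.TG.tl_sub, smul_add, smul_comm (ρ : ℂ) (θ : ℂ),
          add_sub_add_left_eq_sub, ← smul_sub]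
        abel
      rw [h2, hms, hms', sub_self, smul_zero, add_zero]
    have hb2 : q + (θ : ℂ) • (q' - q) ∈ ball (0 : Vd (k + 2)) 2 := by
      have h3 := (convex_ball (0 : Vd (k + 2)) 2).add_smul_sub_mem hq hq' hθ
      have h4 : (θ : ℂ) • (q' - q) = θ • (q' - q) := by
        funext i
        show (θ : ℂ) * (q' - q) i = θ • (q' - q) i
        rw [Complex.real_smul]
      rw [h4]
      exact h3
    have h5 : ((0 : ℂ), q 0) + (θ : ℂ) • (((0 : ℂ), q' 0) - ((0 : ℂ), q 0)) = ((0 : ℂ), (q + (θ : ℂ) • (q' - q)) 0) := by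
      refine Prod.ext ?_ ?_
      · show (0 : ℂ) + (θ : ℂ) * (0 - 0) = 0
        ring
      · rfl
    rw [h5, (hσ _ (hy _ hb2)).2.2, hsl _ h1]
    exact hpath θ hθ
  · show -dta κ g z * v = (-((r : ℂ) / (ρ : ℂ) ^ (k + 1)) * dta κ g (z + r * 0) * A (sla κ g c' ρ z r (0, q' 0)) -
      -((r : ℂ) / (ρ : ℂ) ^ (k + 1)) * dta κ g (z + r * 0) * A (sla κ g c' ρ z r (0, q 0))) / r
    rw [hsl q hms, hsl q' hms', mul_zero, add_zero, hv]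
    have hρk : (ρ : ℂ) ^ (k + 1) ≠ 0 := pow_ne_zero _ hρ0
    field_simp
    ring

theorem La.capz_bridge (L : La X Λ u D κ ψ R g Γ₀ s) {χ : Chart (k + 2) X} {c' : Vd (k + 1)} {ρ : ℝ} {z₀ : ℂ} {m₀ : MN N} {r s₁ : ℝ}
    (h : Cap Λ u χ c' ρ (ar κ g z₀) m₀ r) (hr : 0 < r) (hs₁ : s₁ ≤ s) (hz₀ : ‖z₀‖ < s₁) {x₀ : EN N} (hx₀ : x₀ ∈ X) (hux : u x₀ - ar κ g z₀ ∈ Λ)
    (hd : dist (pr x₀) m₀ ≤ r) :
    ∃ (χ' : Pool.Agent.H14.PP.Chart (Ya X Λ u κ g s)) (c'' : ℂ) (ρ'' : ℝ),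
      (∀ᶠ z in 𝓝 z₀, Pool.Agent.GXE.Capz Γ₀ (wa Λ u κ g s) χ' c'' ρ'' z m₀ r) ∧ ∀ p ∈ ball (0 : ℂ × ℂ) 2, ‖c'' + ρ'' * p.1‖ < s₁ := by
  obtain ⟨-, hq₀, hms₀⟩ := h.cap _ (mem_closedBall_self hr.le) x₀ hx₀ hux hd
  have hq₀' : χ.q x₀ ∈ ball (0 : Vd (k + 2)) 2 := closedBall_subset_ball (by norm_num) hq₀
  obtain ⟨χ', r', τ, hmon, hτ, hσ, hlast⟩ := L.slice_chart χ h.str hq₀' hs₁ hz₀ hms₀
  have hr' := hmon.pos
  have hr0 : (r' : ℂ) ≠ 0 := by exact_mod_cast hr'.ne'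
  have hzs : ‖z₀‖ < s := hz₀.trans_le hs₁
  refine ⟨χ', z₀, r', ?_, fun p hp => (hσ p hp).1⟩
  have hc : ContinuousAt (ar κ g) z₀ := (L.ar_an (L.mem2 hzs.le)).continuousAt
  filter_upwards [hc.eventually_mem (closedBall_mem_nhds _ hr), ball_mem_nhds z₀ hτ, closedBall_mem_nhds z₀ hr',
    continuous_norm.continuousAt.eventually_lt (continuousAt_const (y := s)) hzs] with z h1 h2 h3 h4
  refine ⟨hmon, fun x hx hxz hxd => ?_⟩
  have hwz : wa Λ u κ g s x = z := L.nb (wa_spec hx).1 h4.le hxz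
  have hu : u x - ar κ g z ∈ Λ := by
    have := (wa_spec hx).2
    rwa [hwz] at this
  obtain ⟨hU, hqx, hmsx⟩ := h.cap _ h1 x hx.1 hu hxd
  obtain ⟨hU', hq'⟩ := hlast x hx hU (by rw [hwz]; exact mem_ball_iff_norm.1 h2) (by rw [hwz]; exact hmsx)
  rw [hwz] at hq'
  refine ⟨hU', ?_, ?_⟩
  · rw [hq', mem_closedBall_zero_iff, Prod.norm_def, max_le_iff]
    refine ⟨?_, ?_⟩
    · show ‖(z - z₀) / r'‖ ≤ 1
      rw [norm_div, Complex.norm_real, Real.norm_eq_abs, abs_of_pos hr', div_le_one hr']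
      exact mem_closedBall_iff_norm.1 h3
    · show ‖χ.q x 0‖ ≤ 1
      exact (norm_le_pi_norm (χ.q x) 0).trans (mem_closedBall_zero_iff.1 hqx)
  · rw [hq']
    show z₀ + r' * ((z - z₀) / r') = z
    rw [mul_div_cancel₀ _ hr0]
    ring

end Pool.Agent.GX
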