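import Pool.Agent.G3.X.Main
import Pool.Agent.G3.A.Defs

/-!
# G3 X CRl: crossing for the lines near a line (`CRL` of the block A)
-/

set_option autoImplicit false

open Topology Filter Metric

namespace Pool.Agent.GX

open Pool.Agent.H36.BP (EN)
open Pool.Agent.H62.EF (pr)
open Pool.Agent.AD (Vd)
open Pool.Agent.TG (Geo VForm II TransAt Gd Cst)

variable {N k : ℕ}

theorem crl {X : Set (EN N)} {Λ : AddSubgroup (Vd (k + 1))} {u : EN N → Vd (k + 1)} {D B : Set (Vd (k + 1))} (G : Geo X Λ u D B)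
    {a p : Vd (k + 1)} (hp : p ∈ D) (hpB : p ∉ B) (ht : TransAt D p a) : Pool.Agent.G3.A.CRL X Λ u D a p := by
  intro η hη
  obtain ⟨s₀, ρ₀, hs₀, h2s₀, hρ₀, h⟩ := cr_cst G hp hpB ht hη
  refine ⟨s₀, ρ₀, hs₀, by linarith, hρ₀, fun δ ε ε₀ hC => ⟨ε₀, hC.ε₀_pos, le_rfl, ?_⟩⟩
  intro p' hp' hGd α F H hF hFX hH hHX hd
  have hγ : DifferentiableOn ℂ (fun z : ℂ => p' + z • a) (ball 0 η) := by fun_prop
  obtain ⟨-, h2⟩ := h (fun z => p' + z • a) hγ fun z _ => by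
    have h3 : p' + z • a - (p + z • a) = p' - p := by abel
    rw [h3, ← dist_eq_norm]
    exact (mem_ball.1 hp').le
  exact h2 δ ε ε₀ hC (fun z h3 h4 => hGd z h3.le h4.le) α F H hF hH hFX hHX fun z h3 h4 => hd z h3.le h4.le

end Pool.Agent.GX
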