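import Pool.Agent.G3.X.CapZ

/-!
# G3 X UnZ: `EL/Un` and `TG/Y/Jan` with `Capz`

Copy of `H62/EL/Un.lean` (`IRel.eq_cap`, `II_eq`, `II_mulPow`) and `TG/Y/Jan.lean` (`II_analytic_on`): there `Cap` is used only for the points of the fibre over the one value `z`, so `Capz` at `z` is
enough; the private lemmas of `EL/Un` (`Un_P`, `Un_mo`, `Un_P_mem`, `Un_vert`, `Un_trans`, `Un_deriv`) have to be copied, they do not mention `Cap`.  `II_analytic_z`: as `II_analytic_on`, the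
condition `z ∈ closedBall z₀ r` is replaced by the eventual `Capz` at `z`; `EL.IRel.mulPow` is used as it is (`Un_prim` copied).
-/

set_option autoImplicit false

open Topology Filter Metric

namespace Pool.Agent.GXE

open Pool.Agent.H36.BP (EN fs wd IsGermChart)
open Pool.Agent.H14.PP (IsCone Chart Tan CurveAt jac)
open Pool.Agent.H62.EF (Lat MN pr TorusMap Charts DU)
open Pool.Agent.H62.EL

variable {N : ℕ} {X : Set (EN N)} {Λ : AddSubgroup ℂ} {u : EN N → ℂ}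

/-- The point of the segment. -/
private noncomputable def Un_P (p p' : ℂ × ℂ) (t : ℂ) : ℂ × ℂ := p + t • (p' - p)

private theorem Un_mo (c : ℂ) (ρ : ℝ) (p : ℂ × ℂ) : mo c ρ 1 0 p = c + ρ * p.1 := by
  simp [mo]

private theorem Un_P_mem {p p' : ℂ × ℂ} (hp : p ∈ ball (0 : ℂ × ℂ) 2) (hp' : p' ∈ ball (0 : ℂ × ℂ) 2) {θ : ℝ} (hθ : θ ∈ Set.Icc (0 : ℝ) 1) :
    Un_P p p' (θ : ℂ) ∈ ball (0 : ℂ × ℂ) 2 := by
  have hc : Convex ℝ (ball (0 : ℂ × ℂ) 2) := convex_ball _ _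
  have h1 := hc.add_smul_sub_mem hp hp' hθ
  have h2 : Un_P p p' (θ : ℂ) = p + θ • (p' - p) := by
    unfold Un_P
    congr 1
  rwa [h2]

private theorem Un_vert (L : ℂ × ℂ →L[ℂ] ℂ) (d : ℂ × ℂ) (hd : d.1 = 0) : L d = d.2 * L (0, 1) := by
  have h1 : d = d.2 • ((0, 1) : ℂ × ℂ) := by
    ext
    · simp [hd]
    · simp
  conv_lhs => rw [h1]
  rw [map_smul, smul_eq_mul]

/-- The change of charts along the segment. -/
private theorem Un_trans (hX : IsCone X) (hu : TorusMap X Λ u) (hΛ : Lat Λ) {χ χ' : Chart X} {c c' : ℂ} {ρ ρ' : ℝ}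
    (hm : Mon Λ u χ c ρ 1 0) (hm' : Mon Λ u χ' c' ρ' 1 0) {q : ℂ × ℂ} (hq : q ∈ ball (0 : ℂ × ℂ) 2) (hU : χ'.σ q ∈ χ.U)
    (he : c + ρ * (χ.q (χ'.σ q)).1 = c' + ρ' * q.1) :
    ∀ᶠ y in 𝓝 q, c + ρ * (χ.q (χ'.σ y)).1 = c' + ρ' * y.1 := by
  obtain ⟨δ, hδ, hdisc⟩ := hΛ.discrete
  have hσ : ContinuousAt χ'.σ q := (χ'.σ_an q hq).continuousAt
  have hτ : ContinuousAt (fun y => χ.q (χ'.σ y)) q := (χ.q_an _ hU).continuousAt.comp hσ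
  have hτ1 : ContinuousAt (fun y => (χ.q (χ'.σ y)).1) q := continuous_fst.continuousAt.comp hτ
  have hcont : ContinuousAt (fun y : ℂ × ℂ => c + ρ * (χ.q (χ'.σ y)).1 - (c' + ρ' * y.1)) q := by
    refine (continuousAt_const.add (continuousAt_const.mul hτ1)).sub ?_
    exact continuousAt_const.add (continuousAt_const.mul continuous_fst.continuousAt)
  have hsmall : ∀ᶠ y in 𝓝 q, ‖c + ρ * (χ.q (χ'.σ y)).1 - (c' + ρ' * y.1)‖ < δ := by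
    have h1 := hcont.norm
    have h2 : ‖c + ρ * (χ.q (χ'.σ q)).1 - (c' + ρ' * q.1)‖ < δ := by
      rw [he, sub_self, norm_zero]
      exact hδ
    exact h1.eventually_lt_const h2
  filter_upwards [hsmall, isOpen_ball.mem_nhds hq, hσ (χ.isOpen_U.mem_nhds hU)] with y h1 h2 h3
  have hyX := (χ'.σ_mem y h2).1
  obtain ⟨hb, a, ha, hay⟩ := χ.surj _ hyX h3
  have h4 := hm'.lift y h2
  have h5 := hm.lift _ hb
  have h6 : u (χ'.σ y) - u (χ.σ (χ.q (χ'.σ y))) ∈ Λ := by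
    have := hu.smul _ (χ.σ_mem _ hb).1 a ha
    rwa [← hay] at this
  rw [Un_mo] at h4 h5
  have h7 : c + ρ * (χ.q (χ'.σ y)).1 - (c' + ρ' * y.1) ∈ Λ := by
    have h8 := Λ.sub_mem (Λ.sub_mem h4 h6) h5
    convert h8 using 1
    ring
  exact sub_eq_zero.mp (hdisc _ h7 h1)

/-- The derivatives of the two primitives agree. -/
private theorem Un_deriv (hX : IsCone X) (hu : TorusMap X Λ u) (hΛ : Lat Λ) (α : TForm X Λ u) {χ χ' : Chart X} {c c' : ℂ} {ρ ρ' : ℝ}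
    (hm : Mon Λ u χ c ρ 1 0) (hm' : Mon Λ u χ' c' ρ' 1 0) {A A' : ℂ × ℂ → ℂ} (hA : IsPrim α χ (mo c ρ 1 0) A)
    (hA' : IsPrim α χ' (mo c' ρ' 1 0) A') {q : ℂ × ℂ} (hq : q ∈ ball (0 : ℂ × ℂ) 2) (hU : χ'.σ q ∈ χ.U)
    (he : c + ρ * (χ.q (χ'.σ q)).1 = c' + ρ' * q.1) {d : ℂ × ℂ} (hd : d.1 = 0) :
    HasFDerivAt (fun y => A (χ.q (χ'.σ y))) (fderiv ℂ (fun y => A (χ.q (χ'.σ y))) q) q ∧
      fderiv ℂ A' q d / ρ' = fderiv ℂ (fun y => A (χ.q (χ'.σ y))) q d / ρ := by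
  have hρ : (ρ : ℂ) ≠ 0 := by exact_mod_cast hm.pos.ne'
  have hρ' : (ρ' : ℂ) ≠ 0 := by exact_mod_cast hm'.pos.ne'
  have hσ : HasFDerivAt χ'.σ (fderiv ℂ χ'.σ q) q := (χ'.σ_an q hq).differentiableAt.hasFDerivAt
  have hb : χ.q (χ'.σ q) ∈ ball (0 : ℂ × ℂ) 2 := (χ.surj _ (χ'.σ_mem q hq).1 hU).1
  have hτ : HasFDerivAt (fun y => χ.q (χ'.σ y)) (fderiv ℂ (fun y => χ.q (χ'.σ y)) q) q :=
    ((χ.q_an _ hU).differentiableAt.comp q (χ'.σ_an q hq).differentiableAt).hasFDerivAt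
  have hAd : HasFDerivAt A (fderiv ℂ A (χ.q (χ'.σ q))) (χ.q (χ'.σ q)) := (hA.an _ hb).differentiableAt.hasFDerivAt
  have hcomp : HasFDerivAt (fun y => A (χ.q (χ'.σ y))) ((fderiv ℂ A (χ.q (χ'.σ q))).comp (fderiv ℂ (fun y => χ.q (χ'.σ y)) q)) q :=
    hAd.comp q hτ
  set D := fderiv ℂ (fun y => χ.q (χ'.σ y)) q with hD
  have hfst : ∀ w : ℂ × ℂ, ρ * (D w).1 = ρ' * w.1 := by
    intro w
    have h1 := Un_trans hX hu hΛ hm hm' hq hU he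
    have h2 : HasFDerivAt (fun y : ℂ × ℂ => c + ρ * (χ.q (χ'.σ y)).1)
        ((ρ : ℂ) • ((ContinuousLinearMap.fst ℂ ℂ ℂ).comp D)) q := by
      have h3 : HasFDerivAt (fun y => (χ.q (χ'.σ y)).1) ((ContinuousLinearMap.fst ℂ ℂ ℂ).comp D) q :=
        (ContinuousLinearMap.fst ℂ ℂ ℂ).hasFDerivAt.comp q hτ
      exact (h3.const_mul (ρ : ℂ)).const_add c
    have h4 : HasFDerivAt (fun y : ℂ × ℂ => c' + ρ' * y.1) ((ρ' : ℂ) • (ContinuousLinearMap.fst ℂ ℂ ℂ)) q :=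
      ((ContinuousLinearMap.fst ℂ ℂ ℂ).hasFDerivAt.const_mul (ρ' : ℂ)).const_add c'
    have h5 : HasFDerivAt (fun y : ℂ × ℂ => c + ρ * (χ.q (χ'.σ y)).1) ((ρ' : ℂ) • (ContinuousLinearMap.fst ℂ ℂ ℂ)) q :=
      h4.congr_of_eventuallyEq h1
    have h6 := h2.unique h5
    have h7 := congrArg (fun L : ℂ × ℂ →L[ℂ] ℂ => L w) h6
    simpa using h7
  have hDd : (D d).1 = 0 := by
    have h1 := hfst d
    rw [hd, mul_zero] at h1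
    exact (mul_eq_zero.mp h1).resolve_left hρ
  have hD01 : (D (0, 1)).1 = 0 := by
    have h1 := hfst (0, 1)
    simp only [mul_zero] at h1
    exact (mul_eq_zero.mp h1).resolve_left hρ
  have hD10 : (D (1, 0)).1 = ρ' / ρ := by
    have h1 := hfst (1, 0)
    simp only [mul_one] at h1
    field_simp
    rw [← h1]
    ring
  have hD2 : (D d).2 = d.2 * (D (0, 1)).2 := by
    have h1 := Un_vert ((ContinuousLinearMap.snd ℂ ℂ ℂ).comp D) d hd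
    simpa using h1
  have htc := tc_trans hX hu α χ χ' (υ := mo c ρ 1 0) (υ' := mo c' ρ' 1 0) hq hU (hm'.lift q hq)
    (by rw [Un_mo, Un_mo]; exact he)
  have hjac : jac (fun y => χ.q (χ'.σ y)) q = ρ' / ρ * (D (0, 1)).2 := by
    unfold jac
    rw [← hD, hD10, hD01]
    ring
  refine ⟨by rw [hcomp.fderiv]; exact hcomp, ?_⟩
  rw [hcomp.fderiv, ContinuousLinearMap.comp_apply, Un_vert _ _ hDd, hA.der _ hb, hD2, Un_vert _ _ hd, hA'.der _ hq, htc, hjac]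
  field_simp

theorem eq_capz (hX : IsCone X) (hu : TorusMap X Λ u) (hΛ : Lat Λ) {α : TForm X Λ u} {ε : ℝ} {z v : ℂ} {y y' : MN N}
    (h : IRel α ε z y y' v) {χ : Chart X} {c : ℂ} {ρ : ℝ} {y₀ : MN N} {r : ℝ} (hc : Capz Λ u χ c ρ z y₀ r)
    {A : ℂ × ℂ → ℂ} (hA : IsPrim α χ (mo c ρ 1 0) A) (hy : dist y y₀ + ε ≤ r) {x x' : EN N}
    (hx : x ∈ X) (hx' : x' ∈ X) (hxy : pr x = y) (hxy' : pr x' = y') : v = (A (χ.q x') - A (χ.q x)) / ρ := by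
  obtain ⟨χ', c', ρ', A', p, p', hm', hA', hp, hp', hpz, hpz', hpy, hpy', hseg, hv⟩ := h
  have hm := hc.mon
  have hρ : (ρ : ℂ) ≠ 0 := by exact_mod_cast hm.pos.ne'
  have hρ' : (ρ' : ℂ) ≠ 0 := by exact_mod_cast hm'.pos.ne'
  have hd : (p' - p).1 = 0 := by
    have h1 : (ρ' : ℂ) * (p'.1 - p.1) = 0 := by linear_combination hpz' - hpz
    exact (mul_eq_zero.mp h1).resolve_left hρ'
  have hP1 : ∀ t : ℂ, (Un_P p p' t).1 = p.1 := by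
    intro t
    have h1 : (Un_P p p' t).1 = p.1 + t * (p' - p).1 := rfl
    rw [h1, hd, mul_zero, add_zero]
  have hcap : ∀ θ ∈ Set.Icc (0 : ℝ) 1, χ'.σ (Un_P p p' (θ : ℂ)) ∈ χ.U ∧
      c + ρ * (χ.q (χ'.σ (Un_P p p' (θ : ℂ)))).1 = c' + ρ' * (Un_P p p' (θ : ℂ)).1 := by
    intro θ hθ
    have hb := Un_P_mem hp hp' hθ
    have h1 : u (χ'.σ (Un_P p p' (θ : ℂ))) - z ∈ Λ := by
      have h2 := hm'.lift _ hb
      rwa [Un_mo, hP1, hpz] at h2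
    have h2 : dist (pr (χ'.σ (Un_P p p' (θ : ℂ)))) y₀ ≤ r := by
      have h3 : dist (pr (χ'.σ (Un_P p p' (θ : ℂ)))) y ≤ ε := hseg θ hθ
      linarith [dist_triangle (pr (χ'.σ (Un_P p p' (θ : ℂ)))) y y₀]
    obtain ⟨h3, _, h4⟩ := hc.cap _ (χ'.σ_mem _ hb).1 h1 h2
    exact ⟨h3, by rw [h4, hP1, hpz]⟩
  set f : ℝ → ℂ := fun θ => A' (Un_P p p' (θ : ℂ)) / ρ' - A (χ.q (χ'.σ (Un_P p p' (θ : ℂ)))) / ρ with hf
  have hder : ∀ θ ∈ Set.Icc (0 : ℝ) 1, HasDerivAt f 0 θ := by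
    intro θ hθ
    have hb := Un_P_mem hp hp' hθ
    obtain ⟨h1, h2⟩ := Un_deriv hX hu hΛ α hm hm' hA hA' hb (hcap θ hθ).1 (hcap θ hθ).2 hd
    have hPd : HasDerivAt (fun t : ℂ => Un_P p p' t) (p' - p) (θ : ℂ) := by
      have h3 := ((hasDerivAt_id (θ : ℂ)).smul_const (p' - p)).const_add p
      rw [one_smul] at h3
      exact h3
    have h4 : HasDerivAt (fun t : ℂ => A' (Un_P p p' t)) (fderiv ℂ A' (Un_P p p' (θ : ℂ)) (p' - p)) (θ : ℂ) :=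
      (hA'.an _ hb).differentiableAt.hasFDerivAt.comp_hasDerivAt (θ : ℂ) hPd
    have h5 : HasDerivAt (fun t : ℂ => A (χ.q (χ'.σ (Un_P p p' t))))
        (fderiv ℂ (fun y => A (χ.q (χ'.σ y))) (Un_P p p' (θ : ℂ)) (p' - p)) (θ : ℂ) :=
      h1.comp_hasDerivAt (θ : ℂ) hPd
    have h6 := ((h4.div_const (ρ' : ℂ)).sub (h5.div_const (ρ : ℂ))).comp_ofReal
    rw [h2, sub_self] at h6
    exact h6
  have hconst := constant_of_has_deriv_right_zero (f := f) (a := 0) (b := 1)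
    (fun θ hθ => (hder θ hθ).continuousAt.continuousWithinAt)
    (fun θ hθ => (hder θ ⟨hθ.1, hθ.2.le⟩).hasDerivWithinAt) 1 ⟨zero_le_one, le_rfl⟩
  have hP0 : Un_P p p' ((0 : ℝ) : ℂ) = p := by
    unfold Un_P
    simp
  have hP1' : Un_P p p' ((1 : ℝ) : ℂ) = p' := by
    unfold Un_P
    simp
  have hX0 : ∀ w ∈ X, w ≠ 0 := fun w hw h => hX.zero_notMem (h ▸ hw)
  have hq : χ.q x = χ.q (χ'.σ p) := by
    have hU := (hcap 0 ⟨le_rfl, zero_le_one⟩).1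
    rw [hP0] at hU
    obtain ⟨a, ha, hax⟩ := (Pool.Agent.H62.EF.pr_eq_iff (hX0 x hx) (hX0 _ (χ'.σ_mem p hp).1)).mp (hxy.trans hpy.symm)
    rw [hax]
    exact χ.q_smul _ hU a ha
  have hq' : χ.q x' = χ.q (χ'.σ p') := by
    have hU := (hcap 1 ⟨zero_le_one, le_rfl⟩).1
    rw [hP1'] at hU
    obtain ⟨a, ha, hax⟩ := (Pool.Agent.H62.EF.pr_eq_iff (hX0 x' hx') (hX0 _ (χ'.σ_mem p' hp').1)).mp (hxy'.trans hpy'.symm)
    rw [hax]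
    exact χ.q_smul _ hU a ha
  simp only [hf] at hconst
  rw [hP0, hP1'] at hconst
  rw [hv, hq, hq']
  rw [sub_div, sub_div]
  linear_combination hconst

theorem II_eqz (hX : IsCone X) (hu : TorusMap X Λ u) (hΛ : Lat Λ) {α : TForm X Λ u} {ε : ℝ} {z : ℂ} {y y' : MN N}
    (h : ∃ v, IRel α ε z y y' v) {χ : Chart X} {c : ℂ} {ρ : ℝ} {y₀ : MN N} {r : ℝ} (hc : Capz Λ u χ c ρ z y₀ r)
    {A : ℂ × ℂ → ℂ} (hA : IsPrim α χ (mo c ρ 1 0) A) (hy : dist y y₀ + ε ≤ r) {x x' : EN N}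
    (hx : x ∈ X) (hx' : x' ∈ X) (hxy : pr x = y) (hxy' : pr x' = y') : II α ε z y y' = (A (χ.q x') - A (χ.q x)) / ρ := by
  have h1 : II α ε z y y' = h.choose := by
    unfold II
    rw [dif_pos h]
  rw [h1]
  exact eq_capz hX hu hΛ h.choose_spec hc hA hy hx hx' hxy hxy'

private theorem Un_prim {α : TForm X Λ u} {χ : Chart X} {c : ℂ} {ρ : ℝ} {A : ℂ × ℂ → ℂ} (hA : IsPrim α χ (mo c ρ 1 0) A) (b : ℂ) (n : ℕ) :
    IsPrim (α.mulPow b n) χ (mo c ρ 1 0) (fun q => (mo c ρ 1 0 q - b) ^ n * A q) := by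
  refine ⟨fun p hp => ?_, fun p hp => ?_, fun s hs => ?_⟩
  · exact (((mo_an c ρ 1 0 p).sub analyticAt_const).pow n).mul (hA.an p hp)
  · have h1 : HasFDerivAt (fun q : ℂ × ℂ => mo c ρ 1 0 q - b) ((ρ : ℂ) • (ContinuousLinearMap.fst ℂ ℂ ℂ)) p := by
      have h2 : (fun q : ℂ × ℂ => mo c ρ 1 0 q - b) = fun q => c + ρ * q.1 - b := by
        funext q
        rw [Un_mo]
      rw [h2]
      exact (((ContinuousLinearMap.fst ℂ ℂ ℂ).hasFDerivAt.const_mul (ρ : ℂ)).const_add c).sub_const b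
    have h3 := h1.pow n
    have h4 := h3.mul (hA.an p hp).differentiableAt.hasFDerivAt
    have h5 : fderiv ℂ (fun q => (mo c ρ 1 0 q - b) ^ n * A q) p = _ := h4.fderiv
    rw [h5]
    simp only [ContinuousLinearMap.add_apply, ContinuousLinearMap.smul_apply, ContinuousLinearMap.coe_fst', smul_eq_mul, mul_zero,
      add_zero, hA.der p hp]
    rfl
  · simp only [hA.zero s hs, mul_zero]

theorem II_mulPowz (hX : IsCone X) (hu : TorusMap X Λ u) (hΛ : Lat Λ) {α : TForm X Λ u} {ε : ℝ} {z : ℂ} {y y' : MN N}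
    (h : ∃ v, IRel α ε z y y' v) {χ : Chart X} {c : ℂ} {ρ : ℝ} {y₀ : MN N} {r : ℝ} (hc : Capz Λ u χ c ρ z y₀ r)
    (hy : dist y y₀ + ε ≤ r) (b : ℂ) (n : ℕ) :
    II (α.mulPow b n) ε z y y' = (z - b) ^ n * II α ε z y y' := by
  obtain ⟨v, hv⟩ := h
  obtain ⟨A, hA⟩ := exists_prim α χ hc.mon
  obtain ⟨x, hx, hxy, x', hx', hxy'⟩ : ∃ x ∈ X, pr x = y ∧ ∃ x' ∈ X, pr x' = y' := by
    obtain ⟨χ', c', ρ', A', p, p', _, _, hp, hp', _, _, hpy, hpy', _, _⟩ := hv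
    exact ⟨_, (χ'.σ_mem p hp).1, hpy, _, (χ'.σ_mem p' hp').1, hpy'⟩
  rw [II_eqz hX hu hΛ ⟨v, hv⟩ hc hA hy hx hx' hxy hxy',
    II_eqz hX hu hΛ ⟨_, hv.mulPow b n⟩ hc (Un_prim hA b n) hy hx hx' hxy hxy',
    ← eq_capz hX hu hΛ hv hc hA hy hx hx' hxy hxy',
    ← eq_capz hX hu hΛ (hv.mulPow b n) hc (Un_prim hA b n) hy hx hx' hxy hxy']

theorem II_analytic_z (hX : IsCone X) (hu : TorusMap X Λ u) (hΛ : Lat Λ) {α : TForm X Λ u} {ε r : ℝ} {Ψ Φ : ℂ → EN N} {z₀ : ℂ}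
    (hΨ : AnalyticAt ℂ Ψ z₀) (hΦ : AnalyticAt ℂ Φ z₀) (hΨ' : ∀ᶠ z in 𝓝 z₀, Ψ z ∈ X ∧ u (Ψ z) - z ∈ Λ)
    (hΦ' : ∀ᶠ z in 𝓝 z₀, Φ z ∈ X ∧ u (Φ z) - z ∈ Λ) {χ : Chart X} {c : ℂ} {ρ : ℝ} (hc : ∀ᶠ z in 𝓝 z₀, Capz Λ u χ c ρ z (pr (Ψ z₀)) r) (hr : ε < r)
    (hrel : ∀ᶠ z in 𝓝 z₀, ∃ v, IRel α ε z (pr (Ψ z)) (pr (Φ z)) v) :
    AnalyticAt ℂ (fun z => II α ε z (pr (Ψ z)) (pr (Φ z))) z₀ := by
  have hc0 : Capz Λ u χ c ρ z₀ (pr (Ψ z₀)) r := hc.self_of_nhds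
  obtain ⟨A, hA⟩ := exists_prim α χ hc0.mon
  obtain ⟨v₀, hv₀⟩ := hrel.self_of_nhds
  obtain ⟨hε, hfg⟩ := Pool.Agent.TGY.rel_eps hv₀
  have hr0 : 0 < r := lt_of_le_of_lt hε hr
  have hne : ∀ {x : EN N}, x ∈ X → x ≠ 0 := fun hx h => hX.zero_notMem (h ▸ hx)
  have hcl : closedBall (0 : ℂ × ℂ) 1 ⊆ ball (0 : ℂ × ℂ) 2 := closedBall_subset_ball (by norm_num)
  obtain ⟨hΨX, hΨu⟩ := hΨ'.self_of_nhds
  obtain ⟨hΦX, hΦu⟩ := hΦ'.self_of_nhds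
  obtain ⟨hΨU, hΨq, -⟩ := hc0.cap (Ψ z₀) hΨX hΨu (by rw [dist_self]; exact hr0.le)
  obtain ⟨hΦU, hΦq, -⟩ := hc0.cap (Φ z₀) hΦX hΦu (hfg.trans hr.le)
  have a1 : AnalyticAt ℂ (fun z => A (χ.q (Ψ z))) z₀ :=
    AnalyticAt.comp (f := fun z => χ.q (Ψ z)) (g := A) (hA.an _ (hcl hΨq))
      (AnalyticAt.comp (f := Ψ) (g := χ.q) (χ.q_an _ hΨU) hΨ)
  have a2 : AnalyticAt ℂ (fun z => A (χ.q (Φ z))) z₀ :=
    AnalyticAt.comp (f := fun z => χ.q (Φ z)) (g := A) (hA.an _ (hcl hΦq))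
      (AnalyticAt.comp (f := Φ) (g := χ.q) (χ.q_an _ hΦU) hΦ)
  have hρ : (ρ : ℂ) ≠ 0 := by
    have := hc0.mon.pos
    exact_mod_cast this.ne'
  have a3 : AnalyticAt ℂ (fun z => (A (χ.q (Φ z)) - A (χ.q (Ψ z))) / (ρ : ℂ)) z₀ := (a2.sub a1).div analyticAt_const hρ
  refine a3.congr ?_
  have e4 : ∀ᶠ z in 𝓝 z₀, dist (pr (Ψ z)) (pr (Ψ z₀)) < r - ε := by
    have h1 : ContinuousAt (fun z => pr (Ψ z)) z₀ := ContinuousAt.comp (f := Ψ) (g := pr)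
      (Pool.Agent.H62.EF.continuousAt_pr (hne hΨX)) hΨ.continuousAt
    exact h1.eventually (ball_mem_nhds _ (by linarith))
  filter_upwards [hc, e4, hrel, hΨ', hΦ'] with z h3 h4 h5 h6 h7
  exact (II_eqz hX hu hΛ h5 h3 hA (by linarith) h6.1 h7.1 rfl rfl).symm

end Pool.Agent.GXE
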