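import Pool.Agent.G3.X.Pot
import Pool.Agent.G3.X.UnZ

/-!
# G3 X CrF: crossing with free caps

`exists_Kz`: as `Pool.Agent.TGY.exists_K` (`TG/Y/Kz.lean`), but the charts of `hcap` need not be in one `W k`.  `HF`, `HG` from `TGY.exists_H`; for each `z₀` of the annulus `χ, c, ρ` from `hcap`, `A₀` from `exists_prim`, `Ψ` from
`exists_pot`.  `K z = Ψ_z (χ_z.q (G z)) - Ψ_z (χ_z.q (F z)) - HG z + HF z` (`Ψ_z, χ_z` the ones of the point `z`).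
(1) consistency: for `z` near `z₀` one may replace `Ψ_z, χ_z` by `Ψ_z₀, χ_z₀`: along the path `θ ↦ χ'.σ (p + θ (p' - p))` of `IRel` (`θ` in a neighbourhood of `[0, 1]` in `ℂ`; it is in the fibre over `z` and within `ε` of `pr (F z)`, so
in both caps, `Capz.cap`; `dist (pr (F z)) (pr (F z₀)) < r - ε`), the function `Ψ_z (χ_z.q ·) - Ψ_z₀ (χ_z₀.q ·)` has the derivative `0`: `exists_pot` for both charts with the same `k` (`TubeG.cover`), the first coordinates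
of `χ.q` are constant on the fibre (see `kz_point`, `kz_cons` in `TG/Y/Kz.lean`).
(2) derivative of the local function at `z₀`: `F z₀ ∈ W k`, `G z₀ ∈ W l` (`cover`); `exists_pot` for the curves `F`, `G`: `(χ₀.q (F z)).1 = (z - c) / ρ` near `z₀`, derivative `1 / ρ`; subtract `exists_H`; `II_eqz`.
`crossing_free`: as `crossing_on` (`TG/Y/Cr.lean`) with `exists_Kz`, `II_analytic_z`, `II_mulPowz`, `IRel.mulPow`.
-/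

set_option autoImplicit false

open Topology Filter Metric

namespace Pool.Agent.GXE

open Pool.Agent.H36.BP (EN fs wd IsGermChart)
open Pool.Agent.H14.PP (IsCone Chart Tan CurveAt jac)
open Pool.Agent.H62.EF (Lat MN pr TorusMap Charts DU)
open Pool.Agent.H62.EL
open Pool.Agent.TGY (SecOn)

variable {N : ℕ} {X : Set (EN N)} {Λ : AddSubgroup ℂ} {u : EN N → ℂ}

/-- the complex line through `p` and `p'` -/
private noncomputable def kz_line (p p' : ℂ × ℂ) (θ : ℂ) : ℂ × ℂ := p + θ • (p' - p)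

private theorem kz_line_an (p p' : ℂ × ℂ) (θ : ℂ) : AnalyticAt ℂ (kz_line p p') θ := by
  unfold kz_line
  exact analyticAt_const.add (analyticAt_id.smul analyticAt_const)

private theorem kz_line_mem {p p' : ℂ × ℂ} (hp : p ∈ ball (0 : ℂ × ℂ) 2) (hp' : p' ∈ ball (0 : ℂ × ℂ) 2) {θ : ℝ}
    (hθ : θ ∈ Set.Icc (0 : ℝ) 1) : kz_line p p' (θ : ℂ) ∈ ball (0 : ℂ × ℂ) 2 := by
  have h1 := (convex_ball (0 : ℂ × ℂ) 2).add_smul_sub_mem hp hp' hθ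
  unfold kz_line
  rwa [Complex.coe_smul]

private theorem kz_line_fst {p p' : ℂ × ℂ} (h : p.1 = p'.1) (θ : ℂ) : (kz_line p p' θ).1 = p.1 := by
  unfold kz_line
  simp [h]

private theorem kz_mo (c : ℂ) (ρ : ℝ) (p : ℂ × ℂ) : mo c ρ 1 0 p = c + ρ * p.1 := by
  unfold mo
  simp

private theorem sub_pt {Z : Type} [PseudoMetricSpace Z] {a b c : Z} {ε r d : ℝ} (h1 : dist a b ≤ ε) (h2 : dist b c ≤ d) (h3 : d + ε ≤ r) : dist a c ≤ r :=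
  (dist_triangle a b c).trans (by linarith)

/-- the derivative of the first coordinate of a curve in a straight chart, from the values of `u` -/
private theorem fst_deriv {χ : Chart X} {c : ℂ} {ρ : ℝ} (hρ : 0 < ρ) {γ : ℂ → EN N} {ζ : ℂ} (hγ : AnalyticAt ℂ γ ζ) (hU : γ ζ ∈ χ.U) {υ : ℂ → ℂ} {e : ℂ}
    (hυ : HasDerivAt υ e ζ) (h : ∀ᶠ ξ in 𝓝 ζ, c + ρ * (χ.q (γ ξ)).1 = υ ξ) : (deriv (fun ξ => χ.q (γ ξ)) ζ).1 = e / ρ := by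
  have hρ' : (ρ : ℂ) ≠ 0 := by exact_mod_cast hρ.ne'
  have hqan : AnalyticAt ℂ (fun ξ => χ.q (γ ξ)) ζ := AnalyticAt.fun_comp (χ.q_an _ hU) hγ
  have hd1 : HasDerivAt (fun ξ => χ.q (γ ξ)) (deriv (fun ξ => χ.q (γ ξ)) ζ) ζ := hqan.differentiableAt.hasDerivAt
  have hd2 : HasDerivAt (fun ξ => (χ.q (γ ξ)).1) (deriv (fun ξ => χ.q (γ ξ)) ζ).1 ζ :=
    (hasFDerivAt_fst (𝕜 := ℂ) (E := ℂ) (F := ℂ)).comp_hasDerivAt ζ hd1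
  have hd3 : HasDerivAt (fun ξ => (χ.q (γ ξ)).1) (e / ρ) ζ := by
    refine ((hυ.sub_const c).div_const (ρ : ℂ)).congr_of_eventuallyEq ?_
    filter_upwards [h] with ξ hξ
    rw [eq_div_iff hρ', ← hξ]
    ring
  exact hd2.unique hd3

/-- the situation at a point of the path -/
private theorem kz_point (hu : TorusMap X Λ u) (hΛ : Lat Λ) {χ : Chart X} {c : ℂ} {ρ : ℝ} {z : ℂ} {y₀ : MN N} {r : ℝ}
    (hc : Capz Λ u χ c ρ z y₀ r)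
    {χ' : Chart X} {c' : ℂ} {ρ' : ℝ} (hm' : Mon Λ u χ' c' ρ' 1 0) {p p' : ℂ × ℂ} (hp : p ∈ ball (0 : ℂ × ℂ) 2)
    (hp' : p' ∈ ball (0 : ℂ × ℂ) 2) (hpz : c' + ρ' * p.1 = z) (hpp : p.1 = p'.1)
    {θ : ℝ} (hθ : θ ∈ Set.Icc (0 : ℝ) 1) (hd : dist (pr (χ'.σ (kz_line p p' θ))) y₀ ≤ r) :
    CurveAt X (fun ξ => χ'.σ (kz_line p p' ξ)) (θ : ℂ) ∧ u (χ'.σ (kz_line p p' θ)) - z ∈ Λ ∧
      χ'.σ (kz_line p p' θ) ∈ χ.U ∧ χ.q (χ'.σ (kz_line p p' θ)) ∈ closedBall (0 : ℂ × ℂ) 1 ∧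
      (deriv (fun ξ => χ.q (χ'.σ (kz_line p p' ξ))) (θ : ℂ)).1 = 0 := by
  have hmem := kz_line_mem hp hp' hθ
  have hlc : ContinuousAt (kz_line p p') (θ : ℂ) := (kz_line_an p p' θ).continuousAt
  have hevb : ∀ᶠ ξ in 𝓝 (θ : ℂ), kz_line p p' ξ ∈ ball (0 : ℂ × ℂ) 2 := hlc.eventually (isOpen_ball.mem_nhds hmem)
  have hγan : AnalyticAt ℂ (fun ξ => χ'.σ (kz_line p p' ξ)) (θ : ℂ) := AnalyticAt.fun_comp (χ'.σ_an _ hmem) (kz_line_an p p' θ)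
  have hcurve : CurveAt X (fun ξ => χ'.σ (kz_line p p' ξ)) (θ : ℂ) := by
    refine ⟨hγan, ?_⟩
    filter_upwards [hevb] with ξ hξ
    exact (χ'.σ_mem _ hξ).1
  have hlift : ∀ ξ : ℂ, kz_line p p' ξ ∈ ball (0 : ℂ × ℂ) 2 → u (χ'.σ (kz_line p p' ξ)) - z ∈ Λ := by
    intro ξ hξ
    have h1 := hm'.lift _ hξ
    rwa [kz_mo, kz_line_fst hpp, hpz] at h1
  have hX1 : χ'.σ (kz_line p p' θ) ∈ X := (χ'.σ_mem _ hmem).1
  obtain ⟨hU, hq1, hqz⟩ := hc.cap _ hX1 (hlift _ hmem) hd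
  refine ⟨hcurve, hlift _ hmem, hU, hq1, ?_⟩
  have hevU : ∀ᶠ ξ in 𝓝 (θ : ℂ), χ'.σ (kz_line p p' ξ) ∈ χ.U := hγan.continuousAt.eventually (χ.isOpen_U.mem_nhds hU)
  have hqan : AnalyticAt ℂ (fun ξ => χ.q (χ'.σ (kz_line p p' ξ))) (θ : ℂ) := AnalyticAt.fun_comp (χ.q_an _ hU) hγan
  have hzero : ∀ᶠ ξ in 𝓝 (θ : ℂ), c + ρ * (χ.q (χ'.σ (kz_line p p' ξ))).1 = z := by
    obtain ⟨δ, hδ, hdisc⟩ := hΛ.discrete
    have hcont : ContinuousAt (fun ξ => c + ρ * (χ.q (χ'.σ (kz_line p p' ξ))).1 - z) (θ : ℂ) :=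
      ((continuousAt_const.mul (continuousAt_fst.comp (f := fun ξ => χ.q (χ'.σ (kz_line p p' ξ))) hqan.continuousAt)).const_add _).sub
        continuousAt_const
    have h0 : (fun ξ => c + ρ * (χ.q (χ'.σ (kz_line p p' ξ))).1 - z) (θ : ℂ) = 0 := by
      show c + ρ * (χ.q (χ'.σ (kz_line p p' (θ : ℂ)))).1 - z = 0
      rw [hqz, sub_self]
    have hsmall : ∀ᶠ ξ in 𝓝 (θ : ℂ), ‖c + ρ * (χ.q (χ'.σ (kz_line p p' ξ))).1 - z‖ < δ := by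
      have h1 := hcont.norm
      have h2 : ‖(fun ξ => c + ρ * (χ.q (χ'.σ (kz_line p p' ξ))).1 - z) (θ : ℂ)‖ < δ := by rw [h0, norm_zero]; exact hδ
      exact h1.eventually_lt_const h2
    filter_upwards [hsmall, hevb, hevU] with ξ h1 h2 h3
    rw [← sub_eq_zero]
    refine hdisc _ ?_ h1
    obtain ⟨h4, a', ha', h5⟩ := χ.surj _ (χ'.σ_mem _ h2).1 h3
    have h6 := hc.mon.lift _ h4
    have h7 := hu.smul _ (χ.σ_mem _ h4).1 a' ha'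
    rw [← h5] at h7
    rw [kz_mo] at h6
    have h8 := Λ.sub_mem (hlift ξ h2) (Λ.add_mem h7 h6)
    convert h8 using 1
    ring
  have h1 := fst_deriv hc.mon.pos hγan hU (hasDerivAt_const (θ : ℂ) z) hzero
  rw [h1, zero_div]

/-- the property of the potential on a straight chart -/
private def Pot {T : TubeData X} (A : Fin T.m → ℂ × ℂ → ℂ) (lam : Fin T.m → EN N → ℂ) (χ₀ : Chart X) (A₀ Ψ : ℂ × ℂ → ℂ) : Prop :=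
  ∀ (γ : ℂ → EN N) (ζ : ℂ) (k : Fin T.m), CurveAt X γ ζ → γ ζ ∈ χ₀.U → χ₀.q (γ ζ) ∈ ball (0 : ℂ × ℂ) (3 / 2) → γ ζ ∈ T.W k →
      HasDerivAt (fun ξ => Ψ (χ₀.q (γ ξ)) + lam k (γ ξ))
        (bt (T.χ k) (A k) γ ζ + A₀ (χ₀.q (γ ζ)) * (deriv (fun ξ => χ₀.q (γ ξ)) ζ).1) ζ

private theorem ball_32 {q : ℂ × ℂ} (h : q ∈ closedBall (0 : ℂ × ℂ) 1) : q ∈ ball (0 : ℂ × ℂ) (3 / 2) :=
  closedBall_subset_ball (by norm_num) h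

/-- two potentials have the same increment along the path -/
private theorem kz_cons (hX : IsCone X) (hu : TorusMap X Λ u) (hΛ : Lat Λ) {b : ℂ} {s η : ℝ} {T : TubeData X} (hT : TubeG Λ u b s η T)
    {α : TForm X Λ u} {A : Fin T.m → ℂ × ℂ → ℂ} {lam : Fin T.m → EN N → ℂ} {x x' : EN N}
    (hx : x ∈ X) (hx' : x' ∈ X) {ε r : ℝ} {z v : ℂ} (hzb : z ∈ ball b s) (hrel : IRel α ε z (pr x) (pr x') v)
    {χ₀ : Chart X} {c₀ : ℂ} {ρ₀ : ℝ} {y₀ : MN N} (hc₀ : Capz Λ u χ₀ c₀ ρ₀ z y₀ r) {A₀ Ψ₀ : ℂ × ℂ → ℂ} (hP₀ : Pot A lam χ₀ A₀ Ψ₀) (hy₀ : dist (pr x) y₀ + ε ≤ r)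
    {χ₁ : Chart X} {c₁ : ℂ} {ρ₁ : ℝ} {y₁ : MN N} (hc₁ : Capz Λ u χ₁ c₁ ρ₁ z y₁ r) {A₁ Ψ₁ : ℂ × ℂ → ℂ} (hP₁ : Pot A lam χ₁ A₁ Ψ₁) (hy₁ : dist (pr x) y₁ + ε ≤ r) :
    Ψ₀ (χ₀.q x') - Ψ₀ (χ₀.q x) = Ψ₁ (χ₁.q x') - Ψ₁ (χ₁.q x) := by
  obtain ⟨χ', c', ρ', A', p, p', hm', -, hp, hp', hpz, hpz', hpx, hpx', hdist, -⟩ := hrel
  have hρ' : (ρ' : ℂ) ≠ 0 := by exact_mod_cast hm'.pos.ne'
  have hpp : p.1 = p'.1 := by
    have h1 : (ρ' : ℂ) * p.1 = ρ' * p'.1 := by linear_combination hpz - hpz'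
    exact mul_left_cancel₀ hρ' h1
  have hdl : ∀ θ ∈ Set.Icc (0 : ℝ) 1, dist (pr (χ'.σ (kz_line p p' (θ : ℂ)))) (pr x) ≤ ε := hdist
  have hQ₀ := fun (θ : ℝ) (hθ : θ ∈ Set.Icc (0 : ℝ) 1) => kz_point hu hΛ hc₀ hm' hp hp' hpz hpp hθ (sub_pt (hdl θ hθ) le_rfl hy₀)
  have hQ₁ := fun (θ : ℝ) (hθ : θ ∈ Set.Icc (0 : ℝ) 1) => kz_point hu hΛ hc₁ hm' hp hp' hpz hpp hθ (sub_pt (hdl θ hθ) le_rfl hy₁)
  obtain ⟨h, hh⟩ : ∃ h : ℂ → ℂ, h = fun ξ => Ψ₀ (χ₀.q (χ'.σ (kz_line p p' ξ))) - Ψ₁ (χ₁.q (χ'.σ (kz_line p p' ξ))) := ⟨_, rfl⟩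
  have hder : ∀ θ ∈ Set.Icc (0 : ℝ) 1, HasDerivAt h 0 (θ : ℂ) := by
    intro θ hθ
    obtain ⟨h1, h2, h3, h4, h5⟩ := hQ₀ θ hθ
    obtain ⟨-, -, h6, h7, h8⟩ := hQ₁ θ hθ
    obtain ⟨k, hk⟩ := hT.cover z hzb _ h1.2.self_of_nhds h2
    have g1 := hP₀ _ _ k h1 h3 (ball_32 h4) hk
    have g2 := hP₁ _ _ k h1 h6 (ball_32 h7) hk
    rw [h5, mul_zero, add_zero] at g1
    rw [h8, mul_zero, add_zero] at g2
    have g3 := g1.sub g2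
    rw [sub_self] at g3
    refine g3.congr_of_eventuallyEq (Eventually.of_forall fun ξ => ?_)
    rw [hh]
    simp only [Pi.sub_apply]
    ring
  have hconst : h ((1 : ℝ) : ℂ) = h ((0 : ℝ) : ℂ) := by
    refine constant_of_has_deriv_right_zero (f := fun t : ℝ => h (t : ℂ)) (a := 0) (b := 1) ?_ ?_ 1 (by simp)
    · intro t ht
      exact ((hder t ht).comp_ofReal).continuousAt.continuousWithinAt
    · intro t ht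
      exact ((hder t ⟨ht.1, ht.2.le⟩).comp_ofReal).hasDerivWithinAt
  have hx0 : x ≠ 0 := fun h0 => hX.zero_notMem (h0 ▸ hx)
  have hx0' : x' ≠ 0 := fun h0 => hX.zero_notMem (h0 ▸ hx')
  have hl0 : kz_line p p' ((0 : ℝ) : ℂ) = p := by unfold kz_line; simp
  have hl1 : kz_line p p' ((1 : ℝ) : ℂ) = p' := by unfold kz_line; simp
  have hσ0 : χ'.σ p ≠ 0 := fun h0 => hX.zero_notMem (h0 ▸ (χ'.σ_mem p hp).1)
  have hσ1 : χ'.σ p' ≠ 0 := fun h0 => hX.zero_notMem (h0 ▸ (χ'.σ_mem p' hp').1)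
  obtain ⟨a, ha, hax⟩ := (Pool.Agent.H62.EF.pr_eq_iff hσ0 hx0).1 hpx
  obtain ⟨a', ha', hax'⟩ := (Pool.Agent.H62.EF.pr_eq_iff hσ1 hx0').1 hpx'
  have hU₀ := (hQ₀ 0 (by simp)).2.2.1
  have hU₀' := (hQ₀ 1 (by simp)).2.2.1
  have hU₁ := (hQ₁ 0 (by simp)).2.2.1
  have hU₁' := (hQ₁ 1 (by simp)).2.2.1
  rw [hl0, hax] at hU₀ hU₁
  rw [hl1, hax'] at hU₀' hU₁'
  have hback : ∀ (χ : Chart X) (y : EN N) (d : ℂ), d ≠ 0 → d • y ∈ χ.U → y ∈ χ.U := by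
    intro χ y d hd hy
    have h1 := χ.smul_U _ hy d⁻¹ (inv_ne_zero hd)
    rwa [smul_smul, inv_mul_cancel₀ hd, one_smul] at h1
  simp only [hh, hl0, hl1, hax, hax'] at hconst
  rw [χ₀.q_smul _ (hback χ₀ x a ha hU₀) a ha, χ₀.q_smul _ (hback χ₀ x' a' ha' hU₀') a' ha', χ₁.q_smul _ (hback χ₁ x a ha hU₁) a ha,
    χ₁.q_smul _ (hback χ₁ x' a' ha' hU₁') a' ha'] at hconst
  linear_combination hconst

theorem exists_Kz (hX : IsCone X) (hu : TorusMap X Λ u) (hΛ : Lat Λ) {b : ℂ} {s η : ℝ} {T : TubeData X} (hT : TubeG Λ u b s η T)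
    {α : TForm X Λ u} {A : Fin T.m → ℂ × ℂ → ℂ} (hA : ∀ k, IsPrim α (T.χ k) (mo b (T.ρ k) (T.i k) (T.j k)) (A k))
    {lam : Fin T.m → EN N → ℂ} (hs : Split Λ u b s T A lam) {F G : ℂ → EN N} {t : ℝ} (hts : t ≤ s) (hF : SecOn X Λ u b t F) (hG : SecOn X Λ u b t G)
    {r₁ r₂ ε r : ℝ} (hr₂ : r₂ < t) (hεr : ε < r)
    (hcap : ∀ z₀, r₁ < ‖z₀ - b‖ → ‖z₀ - b‖ < r₂ → ∃ (χ : Chart X) (c : ℂ) (ρ : ℝ),
      (∀ᶠ z in 𝓝 z₀, Capz Λ u χ c ρ z (pr (F z₀)) r) ∧ ∀ p ∈ ball (0 : ℂ × ℂ) 2, c + ρ * p.1 ∈ ball b s)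
    (hrel : ∀ z₀, r₁ < ‖z₀ - b‖ → ‖z₀ - b‖ < r₂ → ∃ v, IRel α ε z₀ (pr (F z₀)) (pr (G z₀)) v) :
    ∃ K : ℂ → ℂ, ∀ z, r₁ < ‖z - b‖ → ‖z - b‖ < r₂ → HasDerivAt K (II α ε z (pr (F z)) (pr (G z))) z := by
  classical
  obtain ⟨HF, hHF⟩ := Pool.Agent.TGY.exists_H hT (fun k => (hA k).an) hs hF hts hr₂
  obtain ⟨HG, hHG⟩ := Pool.Agent.TGY.exists_H hT (fun k => (hA k).an) hs hG hts hr₂
  have hex : ∀ z, (r₁ < ‖z - b‖ ∧ ‖z - b‖ < r₂) → ∃ (χ : Chart X) (c : ℂ) (ρ : ℝ) (A₀ Ψ : ℂ × ℂ → ℂ),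
      (∀ᶠ z' in 𝓝 z, Capz Λ u χ c ρ z' (pr (F z)) r) ∧ IsPrim α χ (mo c ρ 1 0) A₀ ∧ Pot A lam χ A₀ Ψ := by
    rintro z ⟨hz1, hz2⟩
    obtain ⟨χ, c, ρ, hcap, hrg⟩ := hcap z hz1 hz2
    have hm := hcap.self_of_nhds.mon
    obtain ⟨A₀, hA₀⟩ := exists_prim α χ hm
    obtain ⟨Ψ, hΨ⟩ := exists_pot hX hu hT hA hs hm hrg hA₀
    exact ⟨χ, c, ρ, A₀, Ψ, hcap, hA₀, hΨ⟩
  choose χ c ρ A₀ Ψ hC hA₀ hΨ using hex
  obtain ⟨KL, hKL⟩ : ∃ KL : ∀ z₀, (r₁ < ‖z₀ - b‖ ∧ ‖z₀ - b‖ < r₂) → ℂ → ℂ, KL = fun z₀ h₀ z =>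
    (Ψ z₀ h₀ ((χ z₀ h₀).q (G z)) - Ψ z₀ h₀ ((χ z₀ h₀).q (F z))) - HG z + HF z := ⟨_, rfl⟩
  refine ⟨fun z => if h : r₁ < ‖z - b‖ ∧ ‖z - b‖ < r₂ then KL z h z else 0, fun z₀ h1 h2 => ?_⟩
  have h₀ : r₁ < ‖z₀ - b‖ ∧ ‖z₀ - b‖ < r₂ := ⟨h1, h2⟩
  have hX0 : ∀ x ∈ X, x ≠ 0 := fun x hx h => hX.zero_notMem (h ▸ hx)
  have hbt : ∀ z : ℂ, ‖z - b‖ < r₂ → z ∈ ball b t := fun z hz => by
    rw [mem_ball, dist_eq_norm]
    exact hz.trans hr₂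
  have hbs : ∀ z : ℂ, ‖z - b‖ < r₂ → z ∈ ball b s := fun z hz => ball_subset_ball hts (hbt z hz)
  have hcF : ∀ z : ℂ, z ∈ ball b t → CurveAt X F z := fun z hz =>
    ⟨hF.1.analyticAt (isOpen_ball.mem_nhds hz), by
      filter_upwards [isOpen_ball.mem_nhds hz] with w hw
      exact hF.2.1 w hw⟩
  have hcG : ∀ z : ℂ, z ∈ ball b t → CurveAt X G z := fun z hz =>
    ⟨hG.1.analyticAt (isOpen_ball.mem_nhds hz), by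
      filter_upwards [isOpen_ball.mem_nhds hz] with w hw
      exact hG.2.1 w hw⟩
  have hbz₀ : z₀ ∈ ball b t := hbt z₀ h2
  have hprF : ContinuousAt (fun z => pr (F z)) z₀ :=
    (Pool.Agent.H62.EF.continuousAt_pr (hX0 _ (hF.2.1 z₀ hbz₀))).comp (f := F) (hcF z₀ hbz₀).1.continuousAt
  have hprG : ContinuousAt (fun z => pr (G z)) z₀ :=
    (Pool.Agent.H62.EF.continuousAt_pr (hX0 _ (hG.2.1 z₀ hbz₀))).comp (f := G) (hcG z₀ hbz₀).1.continuousAt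
  -- the function agrees with the local one
  have e1 : ∀ᶠ z in 𝓝 z₀, r₁ < ‖z - b‖ ∧ ‖z - b‖ < r₂ := by
    have hc : ContinuousAt (fun z : ℂ => ‖z - b‖) z₀ := (continuous_id.sub continuous_const).norm.continuousAt
    exact (hc.eventually_const_lt h1).and (hc.eventually_lt_const h2)
  have hev : (fun z => if h : r₁ < ‖z - b‖ ∧ ‖z - b‖ < r₂ then KL z h z else 0) =ᶠ[𝓝 z₀] KL z₀ h₀ := by
    have e3 : ∀ᶠ z in 𝓝 z₀, dist (pr (F z)) (pr (F z₀)) < r - ε := hprF.eventually (ball_mem_nhds _ (by linarith))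
    filter_upwards [e1, hC z₀ h₀, e3] with z g1 g2 g3
    rw [dif_pos g1]
    obtain ⟨v, hv⟩ := hrel z g1.1 g1.2
    have hcons := kz_cons hX hu hΛ hT (hF.2.1 z (hbt z g1.2)) (hG.2.1 z (hbt z g1.2)) (z := z) (hbs z g1.2) hv (hC z g1).self_of_nhds (hΨ z g1)
      (by rw [dist_self]; linarith) g2 (hΨ z₀ h₀) (by linarith)
    rw [hKL]
    simp only
    rw [hcons]
  refine HasDerivAt.congr_of_eventuallyEq ?_ hev
  -- the derivative of the local function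
  obtain ⟨v, hv⟩ := hrel z₀ h1 h2
  have hεr0 : 0 ≤ ε := by
    obtain ⟨χ', c', ρ', A', p, p', hm', -, hp, hp', hpz, hpz', hpx, hpx', hdist, -⟩ := hv
    exact dist_nonneg.trans (hdist 0 (by simp))
  have hdG : dist (pr (G z₀)) (pr (F z₀)) ≤ ε := by
    obtain ⟨χ', c', ρ', A', p, p', hm', -, hp, hp', hpz, hpz', hpx, hpx', hdist, -⟩ := hv
    have h3 := hdist 1 (by simp)
    have h4 : p + ((1 : ℝ) : ℂ) • (p' - p) = p' := by simp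
    rwa [h4, hpx'] at h3
  have eF : ∀ᶠ z in 𝓝 z₀, dist (pr (F z)) (pr (F z₀)) < r := hprF.eventually (ball_mem_nhds _ (by linarith))
  have eG : ∀ᶠ z in 𝓝 z₀, dist (pr (G z)) (pr (F z₀)) < r := hprG.eventually (isOpen_ball.mem_nhds (mem_ball.2 (by linarith)))
  have eb : ∀ᶠ z in 𝓝 z₀, z ∈ ball b t := isOpen_ball.mem_nhds hbz₀
  obtain ⟨hFU, hFq, hFz⟩ := (hC z₀ h₀).self_of_nhds.cap (F z₀) (hF.2.1 z₀ hbz₀) (hF.2.2 z₀ hbz₀) eF.self_of_nhds.le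
  obtain ⟨hGU, hGq, hGz⟩ := (hC z₀ h₀).self_of_nhds.cap (G z₀) (hG.2.1 z₀ hbz₀) (hG.2.2 z₀ hbz₀) eG.self_of_nhds.le
  have hρ := (hC z₀ h₀).self_of_nhds.mon.pos
  have hdF := fst_deriv hρ (hcF z₀ hbz₀).1 hFU (hasDerivAt_id z₀) (by
    filter_upwards [hC z₀ h₀, eF, eb] with z g1 g2 g3
    exact (g1.cap (F z) (hF.2.1 z g3) (hF.2.2 z g3) g2.le).2.2)
  have hdG' := fst_deriv hρ (hcG z₀ hbz₀).1 hGU (hasDerivAt_id z₀) (by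
    filter_upwards [hC z₀ h₀, eG, eb] with z g1 g2 g3
    exact (g1.cap (G z) (hG.2.1 z g3) (hG.2.2 z g3) g2.le).2.2)
  obtain ⟨k, hk⟩ := hT.cover z₀ (hbs z₀ h2) _ (hF.2.1 z₀ hbz₀) (hF.2.2 z₀ hbz₀)
  obtain ⟨l, hl⟩ := hT.cover z₀ (hbs z₀ h2) _ (hG.2.1 z₀ hbz₀) (hG.2.2 z₀ hbz₀)
  have dF := hΨ z₀ h₀ F z₀ k (hcF z₀ hbz₀) hFU (ball_32 hFq) hk
  have dG := hΨ z₀ h₀ G z₀ l (hcG z₀ hbz₀) hGU (ball_32 hGq) hl
  rw [hdF] at dF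
  rw [hdG'] at dG
  have hb₂ : z₀ ∈ ball b r₂ := by
    rw [mem_ball, dist_eq_norm]
    exact h2
  have eHF := hHF z₀ hb₂ k hk
  have eHG := hHG z₀ hb₂ l hl
  have hII := II_eqz hX hu hΛ ⟨v, hv⟩ (hC z₀ h₀).self_of_nhds (hA₀ z₀ h₀) (by rw [dist_self]; linarith) (hF.2.1 z₀ hbz₀) (hG.2.1 z₀ hbz₀) rfl rfl
  rw [hII]
  have htot := ((dG.sub dF).sub eHG).add eHF
  refine (htot.congr_deriv ?_).congr_of_eventuallyEq (Eventually.of_forall fun z => ?_)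
  · ring
  · rw [hKL]
    simp only [Pi.add_apply, Pi.sub_apply]
    ring

theorem crossing_free (hX : IsCone X) (hu : TorusMap X Λ u) (hΛ : Lat Λ) {b : ℂ} {s η : ℝ} {T : TubeData X} (hT : Tube Λ u b s η T)
    {α : TForm X Λ u} {r₁ r₂ ε r t : ℝ} (hr₁ : 0 < r₁) (hr : r₁ < r₂) (hr₂ : r₂ < t) (hts : t ≤ s) (hεr : ε < r)
    {F G : ℂ → EN N} (hF : SecOn X Λ u b t F) (hG : SecOn X Λ u b t G)
    (hcap : ∀ z₀, r₁ < ‖z₀ - b‖ → ‖z₀ - b‖ < r₂ → ∃ (χ : Chart X) (c : ℂ) (ρ : ℝ),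
      (∀ᶠ z in 𝓝 z₀, Capz Λ u χ c ρ z (pr (F z₀)) r) ∧ ∀ p ∈ ball (0 : ℂ × ℂ) 2, c + ρ * p.1 ∈ ball b s)
    (hrel : ∀ z₀, r₁ < ‖z₀ - b‖ → ‖z₀ - b‖ < r₂ → ∃ v, IRel α ε z₀ (pr (F z₀)) (pr (G z₀)) v) :
    ∃ J : ℂ → ℂ, DifferentiableOn ℂ J (ball b r₂) ∧ ∀ z, r₁ < ‖z - b‖ → ‖z - b‖ < r₂ → J z = II α ε z (pr (F z)) (pr (G z)) := by
  have hopen : IsOpen {z : ℂ | r₁ < ‖z - b‖ ∧ ‖z - b‖ < r₂} := by
    have h1 : IsOpen {z : ℂ | r₁ < ‖z - b‖} := isOpen_lt continuous_const (by fun_prop)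
    have h2 : IsOpen {z : ℂ | ‖z - b‖ < r₂} := isOpen_lt (by fun_prop) continuous_const
    exact h1.inter h2
  have hbt : ∀ z : ℂ, ‖z - b‖ < r₂ → z ∈ ball b t := fun z hz => by
    rw [mem_ball, dist_eq_norm]
    exact hz.trans hr₂
  refine ext_annulus hr₁ hr (J := fun z => II α ε z (pr (F z)) (pr (G z))) ?_ ?_
  · intro z₀ hz₀
    obtain ⟨χ, c, ρ, hc, _⟩ := hcap z₀ hz₀.1 hz₀.2
    have hb := isOpen_ball.mem_nhds (hbt z₀ hz₀.2)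
    have h := II_analytic_z hX hu hΛ (α := α) (ε := ε) (r := r) (hF.1.analyticAt hb) (hG.1.analyticAt hb)
      (Filter.mem_of_superset hb fun z hz => ⟨hF.2.1 z hz, hF.2.2 z hz⟩) (Filter.mem_of_superset hb fun z hz => ⟨hG.2.1 z hz, hG.2.2 z hz⟩)
      hc hεr (Filter.mem_of_superset (hopen.mem_nhds hz₀) fun z hz => hrel z hz.1 hz.2)
    exact h.differentiableAt.differentiableWithinAt
  · intro n r' hr₁r hrr₂
    choose A hA using fun k : Fin T.m => exists_prim (α.mulPow b n) (T.χ k) (hT.geo.mon k)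
    obtain ⟨lam, hlam⟩ := hT.split (α.mulPow b n) A hA
    obtain ⟨K, hK⟩ := exists_Kz hX hu hΛ hT.geo hA hlam hts hF hG (r₁ := r₁) hr₂ hεr hcap
      (fun z h₁ h₂ => by
        obtain ⟨v, hv⟩ := hrel z h₁ h₂
        exact ⟨_, hv.mulPow b n⟩)
    refine circleIntegral.integral_eq_zero_of_hasDerivWithinAt (f := K) (by linarith) fun z hz => ?_
    have hz' : ‖z - b‖ = r' := by rwa [mem_sphere, dist_eq_norm] at hz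
    have h₁ : r₁ < ‖z - b‖ := by rw [hz']; exact hr₁r
    have h₂ : ‖z - b‖ < r₂ := by rw [hz']; exact hrr₂
    obtain ⟨χ, c, ρ, hc, _⟩ := hcap z h₁ h₂
    have h := II_mulPowz hX hu hΛ (hrel z h₁ h₂) hc.self_of_nhds (by rw [dist_self]; linarith) b n
    have h3 := hK z h₁ h₂
    rw [h] at h3
    exact h3.hasDerivWithinAt

end Pool.Agent.GXE
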