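import Pool.Agent.G3.X.Nc3
import Pool.Agent.TG.Gd

/-!
# G3 X Tb3: the tube round the fibre over `p` in the total space

Finitely many charts of `X` in which `u` is `κ (x ^ a * y ^ b, s)`, with open cones `W i` covering a neighbourhood of the fibre, and finitely many witness charts: the family version of
`TG/Y/TbA`.  No arcs yet; the tubes of the slabs over arcs are sliced out of these charts.
-/

set_option autoImplicit false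

open Topology Filter Metric Set

namespace Pool.Agent.G3.X

open Pool.Agent.TG (TMap Lat IsNC nm ne_zero compact_unit exists_unit lim_mem smul_mem_lat)
open Pool.Agent.H36.BP (EN)
open Pool.Agent.H14.PP (IsCone)
open Pool.Agent.H62.EF (pr)
open Pool.Agent.AD (Vd Chart)

variable {N k : ℕ}

/-- a chart with its constants; `R` is the radius of the part which is used -/
structure C3 (X : Set (EN N)) (k : ℕ) where
  /-- the chart -/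
  χ : Chart (k + 2) X
  /-- the scale -/
  r : ℝ
  /-- exponents -/
  a : ℕ
  /-- exponents -/
  b : ℕ
  /-- the radius of the part which is used -/
  R : ℝ

/-- the data of the tube -/
structure T3 (X : Set (EN N)) (k : ℕ) where
  /-- the number of charts -/
  m : ℕ
  /-- the charts -/
  c : Fin m → C3 X k
  /-- the open cones -/
  W : Fin m → Set (EN N)
  /-- the number of witness charts -/
  n : ℕ
  /-- the witness charts -/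
  w : Fin n → C3 X k

variable {X : Set (EN N)} {Λ : AddSubgroup (Vd (k + 1))} {u : EN N → Vd (k + 1)} {κ : Vd (k + 1) → Vd (k + 1)} {p : Vd (k + 1)}

/-- the tube round the fibre over `p`, over `ball p s` -/
structure Tb3 (Λ : AddSubgroup (Vd (k + 1))) (u : EN N → Vd (k + 1)) (κ : Vd (k + 1) → Vd (k + 1)) (p : Vd (k + 1)) (η s : ℝ) (T : T3 X k) : Prop where
  pos : 0 < s
  ncc : ∀ i, NCC Λ u κ (T.c i).χ (T.c i).r (T.c i).a (T.c i).b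
  le : ∀ i, 2 * (T.c i).r ≤ η
  W_open : ∀ i, IsOpen (T.W i)
  W_sub : ∀ i, T.W i ⊆ (T.c i).χ.U
  W_smul : ∀ i, ∀ x ∈ T.W i, ∀ c : ℂ, c ≠ 0 → c • x ∈ T.W i
  cover : ∀ y ∈ ball p s, ∀ x ∈ X, u x - y ∈ Λ → ∃ i, x ∈ T.W i
  wncc : ∀ j, NCC Λ u κ (T.w j).χ (T.w j).r (T.w j).a (T.w j).b
  wle : ∀ j, 2 * (T.w j).r ≤ η
  wR : ∀ j, 0 < (T.w j).R ∧ (T.w j).R ≤ 2
  wsub : ∀ j i, (∃ q ∈ ball (0 : Vd (k + 2)) (T.w j).R, (T.w j).χ.σ q ∈ T.W i) → ∀ q ∈ ball (0 : Vd (k + 2)) 2, (T.w j).χ.σ q ∈ (T.c i).χ.U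
  wnest : ∀ j j', (∃ q ∈ ball (0 : Vd (k + 2)) (T.w j).R, ∃ q' ∈ ball (0 : Vd (k + 2)) (T.w j').R, pr ((T.w j).χ.σ q) = pr ((T.w j').χ.σ q')) →
    (∀ q ∈ ball (0 : Vd (k + 2)) (T.w j).R, (T.w j).χ.σ q ∈ (T.w j').χ.U) ∨ (∀ q' ∈ ball (0 : Vd (k + 2)) (T.w j').R, (T.w j').χ.σ q' ∈ (T.w j).χ.U)
  wcover : ∀ y ∈ ball p s, ∀ x ∈ X, u x - y ∈ Λ → ∃ j, x ∈ (T.w j).χ.U ∧ (T.w j).χ.q x ∈ ball (0 : Vd (k + 2)) (T.w j).R

/-- a property which holds near the fibre over `p` holds over a ball -/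
private theorem exists_rad (hX : IsCone X) (hΛ : Lat Λ) (hu : TMap X Λ u) {p : Vd (k + 1)} (P : EN N → Prop)
    (hP : ∀ x ∈ X, P x → ∀ c : ℂ, c ≠ 0 → P (c • x))
    (h : ∀ x ∈ X, u x - p ∈ Λ → ∀ᶠ y in 𝓝 x, y ∈ X → P y) : ∃ s : ℝ, 0 < s ∧ ∀ y ∈ ball p s, ∀ x ∈ X, u x - y ∈ Λ → P x := by
  by_contra hcon
  push Not at hcon
  have h1 : ∀ n : ℕ, ∃ (y : EN N) (z : Vd (k + 1)), y ∈ X ∩ sphere (0 : EN N) 1 ∧ z ∈ ball p (1 / ((n : ℝ) + 1)) ∧ u y - z ∈ Λ ∧ ¬ P y := by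
    intro n
    obtain ⟨z, hz, x, hx, hxz, hPx⟩ := hcon (1 / ((n : ℝ) + 1)) (by positivity)
    obtain ⟨c, hc, hcx⟩ := exists_unit hX hx
    refine ⟨c • x, z, hcx, hz, smul_mem_lat hu hx hxz hc, ?_⟩
    intro hP'
    have := hP _ hcx.1 hP' c⁻¹ (inv_ne_zero hc)
    rw [smul_smul, inv_mul_cancel₀ hc, one_smul] at this
    exact hPx this
  choose y z hy hz hyz hPy using h1
  obtain ⟨x, hx, φ, hφ, hlim⟩ := (compact_unit hX).tendsto_subseq hy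
  have hzl : Tendsto z atTop (𝓝 p) := by
    rw [tendsto_iff_dist_tendsto_zero]
    exact squeeze_zero (fun _ => dist_nonneg) (fun n => (mem_ball.mp (hz n)).le) tendsto_one_div_add_atTop_nhds_zero_nat
  have hxb : u x - p ∈ Λ := lim_mem hΛ hu hx.1 hlim (hzl.comp hφ.tendsto_atTop) (Eventually.of_forall fun n => ⟨(hy _).1, hyz _⟩)
  obtain ⟨n, hn⟩ := (hlim.eventually (h x hx.1 hxb)).exists
  exact hPy _ (hn (hy _).1)

private theorem compact_fib (hX : IsCone X) (hΛ : Lat Λ) (hu : TMap X Λ u) (p : Vd (k + 1)) :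
    IsCompact {x : EN N | x ∈ X ∩ sphere (0 : EN N) 1 ∧ u x - p ∈ Λ} := by
  refine IsSeqCompact.isCompact ?_
  intro y hy
  obtain ⟨x, hx, φ, hφ, hlim⟩ := (compact_unit hX).tendsto_subseq (fun n => (hy n).1)
  exact ⟨x, ⟨hx, lim_mem hΛ hu hx.1 hlim tendsto_const_nhds (Eventually.of_forall fun n => ⟨(hy _).1.1, (hy _).2⟩)⟩, φ, hφ, hlim⟩

private theorem exists_R (hX : IsCone X) (χ : Chart (k + 2) X) {x : EN N} (hx : x ∈ X) (hxU : x ∈ χ.U) :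
    ∃ R : ℝ, 0 < R ∧ ∀ w ∈ X, dist (pr w) (pr x) < R → w ∈ χ.U := by
  obtain ⟨R, hR, h⟩ := Pool.Agent.H62.EF.near_of_pr (ne_zero hX hx) (χ.isOpen_U.mem_nhds hxU)
  refine ⟨R, hR, fun w hw hd => ?_⟩
  obtain ⟨c, hc, hcw⟩ := h w (ne_zero hX hw) hd
  have := χ.smul_U _ hcw c⁻¹ (inv_ne_zero hc)
  rwa [smul_smul, inv_mul_cancel₀ hc, one_smul] at this

private theorem exists_r (hX : IsCone X) (χ : Chart (k + 2) X) {x : EN N} (hx : x ∈ X) (hxU : x ∈ χ.U) (hq : χ.q x = 0) {ε : ℝ} (hε : 0 < ε) :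
    ∃ r : ℝ, 0 < r ∧ r ≤ 2 ∧ ∀ q ∈ ball (0 : Vd (k + 2)) r, dist (pr (χ.σ q)) (pr x) < ε := by
  have h0 : (0 : Vd (k + 2)) ∈ ball (0 : Vd (k + 2)) 2 := mem_ball_self two_pos
  obtain ⟨c, hc, hxc⟩ := (χ.surj x hx hxU).2
  rw [hq] at hxc
  have h1 : pr x = pr (χ.σ 0) := by
    conv_lhs => rw [hxc]
    exact Pool.Agent.H62.EF.pr_smul _ hc
  have hc1 : ContinuousAt (fun q => pr (χ.σ q)) 0 :=
    ContinuousAt.comp (f := χ.σ) (Pool.Agent.H62.EF.continuousAt_pr (ne_zero hX (χ.σ_mem 0 h0).1)) (χ.σ_an 0 h0).continuousAt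
  have h2 : ∀ᶠ q in 𝓝 (0 : Vd (k + 2)), dist (pr (χ.σ q)) (pr x) < ε := by
    rw [h1]
    exact Metric.tendsto_nhds.mp hc1.tendsto ε hε
  obtain ⟨r, hr, h⟩ := Metric.eventually_nhds_iff_ball.mp h2
  exact ⟨min r 2, lt_min hr two_pos, min_le_right _ _, fun q hq => h q (ball_subset_ball (min_le_left _ _) hq)⟩

theorem exists_tb3 (hX : IsCone X) (hu : TMap X Λ u) (hΛ : Lat Λ) {p : Vd (k + 1)} (hnc : ∀ x ∈ X, u x - p ∈ Λ → IsNC X Λ u κ x) {η : ℝ} (hη0 : 0 < η) :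
    ∃ (T : T3 X k) (s : ℝ), Tb3 Λ u κ p η s T := by
  -- the covering charts
  have h1 : ∀ x : {x : EN N // x ∈ X ∧ u x - p ∈ Λ}, ∃ (χ : Chart (k + 2) X) (ρ : ℝ) (i j : ℕ) (R : ℝ), x.1 ∈ χ.U ∧ NCC Λ u κ χ ρ i j ∧
      2 * ρ ≤ η ∧ 0 < R ∧ ∀ w ∈ X, dist (pr w) (pr x.1) < R → w ∈ χ.U := by
    rintro ⟨x, hx, hxb⟩
    obtain ⟨χ, ρ, i, j, hxU, -, hm, hle, hs⟩ := exists_ncc hX hu (hnc x hx hxb) hη0
    obtain ⟨R, hR, hRU⟩ := exists_R hX χ hx hxU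
    exact ⟨χ, ρ, i, j, R, hxU, hm, hle, hR, hRU⟩
  choose χ ρ i j R hxU hmon hrange hR hRU using h1
  -- the open cones
  set O : {x : EN N // x ∈ X ∧ u x - p ∈ Λ} → Set (EN N) := fun x => {w | w ≠ 0 ∧ w ∈ (χ x).U ∧ dist (pr w) (pr x.1) < R x / 2} with hO
  have hOopen : ∀ x, IsOpen (O x) := by
    intro x
    rw [isOpen_iff_mem_nhds]
    rintro w ⟨hw0, hwU, hwd⟩
    have e1 : ∀ᶠ y in 𝓝 w, y ≠ 0 := isOpen_ne.mem_nhds hw0
    have e2 : ∀ᶠ y in 𝓝 w, y ∈ (χ x).U := (χ x).isOpen_U.mem_nhds hwU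
    have e3 : ∀ᶠ y in 𝓝 w, dist (pr y) (pr x.1) < R x / 2 :=
      ((Pool.Agent.H62.EF.continuousAt_pr hw0).dist continuousAt_const).eventually (gt_mem_nhds hwd)
    filter_upwards [e1, e2, e3] with y h1 h2 h3
    exact ⟨h1, h2, h3⟩
  have hOsmul : ∀ x, ∀ w ∈ O x, ∀ c : ℂ, c ≠ 0 → c • w ∈ O x := by
    rintro x w ⟨hw0, hwU, hwd⟩ c hc
    refine ⟨smul_ne_zero hc hw0, (χ x).smul_U w hwU c hc, ?_⟩
    rw [Pool.Agent.H62.EF.pr_smul w hc]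
    exact hwd
  obtain ⟨t, ht⟩ := (compact_fib hX hΛ hu p).elim_finite_subcover O hOopen (by
    rintro x ⟨⟨hx, -⟩, hxb⟩
    refine Set.mem_iUnion.mpr ⟨⟨x, hx, hxb⟩, ne_zero hX hx, hxU _, ?_⟩
    rw [dist_self]
    exact half_pos (hR _))
  have hcov : ∀ x ∈ X, u x - p ∈ Λ → ∃ y ∈ t, x ∈ O y := by
    intro x hx hxb
    obtain ⟨c, hc, hcx⟩ := exists_unit hX hx
    obtain ⟨y, hyt, hy⟩ := Set.mem_iUnion₂.mp (ht ⟨hcx, smul_mem_lat hu hx hxb hc⟩)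
    refine ⟨y, hyt, ?_⟩
    have := hOsmul y _ hy c⁻¹ (inv_ne_zero hc)
    rwa [smul_smul, inv_mul_cancel₀ hc, one_smul] at this
  obtain ⟨R₀, hR₀, hR₀t⟩ : ∃ R₀ : ℝ, 0 < R₀ ∧ ∀ x ∈ t, R₀ ≤ R x := by
    have e1 : ∀ᶠ r in 𝓝[>] (0 : ℝ), ∀ x ∈ t, r ≤ R x :=
      (Finset.eventually_all t).mpr fun x _ => mem_nhdsWithin_of_mem_nhds (ge_mem_nhds (hR x))
    obtain ⟨r, hr, hr'⟩ := (e1.and self_mem_nhdsWithin).exists
    exact ⟨r, hr', hr⟩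
  -- the witnesses
  have h2 : ∀ x : {x : EN N // x ∈ X ∧ u x - p ∈ Λ}, ∃ (χ' : Chart (k + 2) X) (ρ' : ℝ) (i' j' : ℕ) (R' r' : ℝ), x.1 ∈ χ'.U ∧ χ'.q x.1 = 0 ∧
      NCC Λ u κ χ' ρ' i' j' ∧ (∀ q ∈ ball (0 : Vd (k + 2)) 2, dist (pr (χ'.σ q)) (pr x.1) < R₀ / 8) ∧
      2 * ρ' ≤ η ∧ 0 < R' ∧ (∀ w ∈ X, dist (pr w) (pr x.1) < R' → w ∈ χ'.U) ∧
      0 < r' ∧ r' ≤ 2 ∧ ∀ q ∈ ball (0 : Vd (k + 2)) r', dist (pr (χ'.σ q)) (pr x.1) < R' / 4 := by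
    rintro ⟨x, hx, hxb⟩
    obtain ⟨χ', ρ', i', j', hxU', hq, hm, hle, hs⟩ := exists_ncc hX hu (hnc x hx hxb) (lt_min hη0 (by positivity : 0 < R₀ / 8))
    obtain ⟨R', hR', hRU'⟩ := exists_R hX χ' hx hxU'
    obtain ⟨r', hr', hr2, hrr⟩ := exists_r hX χ' hx hxU' hq (by positivity : 0 < R' / 4)
    exact ⟨χ', ρ', i', j', R', r', hxU', hq, hm, fun q hq => lt_of_lt_of_le (hs q hq) (min_le_right _ _),
      hle.trans (min_le_left _ _), hR', hRU', hr', hr2, hrr⟩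
  choose χ' ρ' i' j' R' r' hxU' hq' hmon' hsm' hrange' hR' hRU' hr' hr2' hrr' using h2
  -- the open cones of the witnesses
  set O' : {x : EN N // x ∈ X ∧ u x - p ∈ Λ} → Set (EN N) := fun x => {y | y ∈ (χ' x).U ∧ (χ' x).q y ∈ ball (0 : Vd (k + 2)) (r' x)} with hO'
  have hO'open : ∀ x, IsOpen (O' x) := by
    intro x
    rw [isOpen_iff_mem_nhds]
    rintro w ⟨hwU, hwq⟩
    have e2 : ∀ᶠ y in 𝓝 w, y ∈ (χ' x).U := (χ' x).isOpen_U.mem_nhds hwU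
    have e3 : ∀ᶠ y in 𝓝 w, (χ' x).q y ∈ ball (0 : Vd (k + 2)) (r' x) := ((χ' x).q_an w hwU).continuousAt.eventually (isOpen_ball.mem_nhds hwq)
    filter_upwards [e2, e3] with y h2 h3
    exact ⟨h2, h3⟩
  have hO'smul : ∀ x, ∀ w ∈ O' x, ∀ c : ℂ, c ≠ 0 → c • w ∈ O' x := by
    rintro x w ⟨hwU, hwq⟩ c hc
    refine ⟨(χ' x).smul_U w hwU c hc, ?_⟩
    rw [(χ' x).q_smul w hwU c hc]
    exact hwq
  obtain ⟨t', ht'⟩ := (compact_fib hX hΛ hu p).elim_finite_subcover O' hO'open (by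
    rintro x ⟨⟨hx, -⟩, hxb⟩
    refine Set.mem_iUnion.mpr ⟨⟨x, hx, hxb⟩, hxU' _, ?_⟩
    rw [hq' ⟨x, hx, hxb⟩]
    exact mem_ball_self (hr' _))
  have hcov' : ∀ x ∈ X, u x - p ∈ Λ → ∃ y ∈ t', x ∈ O' y := by
    intro x hx hxb
    obtain ⟨c, hc, hcx⟩ := exists_unit hX hx
    obtain ⟨y, hyt, hy⟩ := Set.mem_iUnion₂.mp (ht' ⟨hcx, smul_mem_lat hu hx hxb hc⟩)
    refine ⟨y, hyt, ?_⟩
    have := hO'smul y _ hy c⁻¹ (inv_ne_zero hc)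
    rwa [smul_smul, inv_mul_cancel₀ hc, one_smul] at this
  -- the radius
  obtain ⟨s₀, hs₀, hs₀P⟩ := exists_rad hX hΛ hu (p := p)
    (fun y => (∃ x ∈ t, y ∈ O x) ∧ ∃ x ∈ t', y ∈ O' x)
    (by
      rintro y - ⟨⟨x, hx, hyx⟩, x', hx', hyx'⟩ c hc
      exact ⟨⟨x, hx, hOsmul x y hyx c hc⟩, x', hx', hO'smul x' y hyx' c hc⟩)
    (by
      intro x hx hxb
      obtain ⟨x₁, hx₁, hxO⟩ := hcov x hx hxb
      obtain ⟨x₂, hx₂, hxO'⟩ := hcov' x hx hxb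
      have e1 : ∀ᶠ y in 𝓝 x, y ∈ O x₁ := (hOopen x₁).mem_nhds hxO
      have e2 : ∀ᶠ y in 𝓝 x, y ∈ O' x₂ := (hO'open x₂).mem_nhds hxO'
      filter_upwards [e1, e2] with y h1 h2 _
      exact ⟨⟨x₁, hx₁, h1⟩, x₂, hx₂, h2⟩)
  refine ⟨⟨t.card, fun l => ⟨χ (t.equivFin.symm l).1, ρ (t.equivFin.symm l).1, i (t.equivFin.symm l).1, j (t.equivFin.symm l).1, 1⟩,
    fun l => O (t.equivFin.symm l).1, t'.card,
    fun l => ⟨χ' (t'.equivFin.symm l).1, ρ' (t'.equivFin.symm l).1, i' (t'.equivFin.symm l).1, j' (t'.equivFin.symm l).1, r' (t'.equivFin.symm l).1⟩⟩, s₀,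
    ⟨hs₀, fun l => hmon _, fun l => hrange _, fun l => hOopen _, ?_, fun l => hOsmul _, ?_, fun l => hmon' _, fun l => hrange' _, fun l => ⟨hr' _, hr2' _⟩,
      ?_, ?_, ?_⟩⟩
  · rintro l w ⟨-, hw, -⟩
    exact hw
  · intro y hy x hx hxy
    obtain ⟨⟨z, hz, hxz⟩, -⟩ := hs₀P y hy x hx hxy
    refine ⟨t.equivFin ⟨z, hz⟩, ?_⟩
    simp only [Equiv.symm_apply_apply]
    exact hxz
  · rintro l l₁ ⟨q, hq, -, -, hqd⟩ q' hq₂
    dsimp only at hq hqd hq₂ ⊢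
    set x := (t'.equivFin.symm l).1 with hx
    have hk := hR₀t _ (t.equivFin.symm l₁).2
    have a1 := hsm' x q (ball_subset_ball (hr2' x) hq)
    have a2 := hsm' x q' hq₂
    refine hRU _ _ ((χ' x).σ_mem q' hq₂).1 ?_
    have a3 := dist_triangle (pr ((χ' x).σ q')) (pr x.1) (pr (t.equivFin.symm l₁).1.1)
    have a4 := dist_triangle (pr x.1) (pr ((χ' x).σ q)) (pr (t.equivFin.symm l₁).1.1)
    rw [dist_comm (pr x.1) (pr ((χ' x).σ q))] at a4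
    have a5 : dist (pr ((χ' x).σ q)) (pr (t.equivFin.symm l₁).1.1) < R (t.equivFin.symm l₁).1 / 2 := hqd
    have a6 : 0 < R (t.equivFin.symm l₁).1 := hR _
    linarith
  · rintro l l' ⟨q, hq, q', hq₂, hpp⟩
    dsimp only at hq hq₂ hpp ⊢
    set x := (t'.equivFin.symm l).1 with hx
    set x' := (t'.equivFin.symm l').1 with hx'
    have a1 : dist (pr ((χ' x).σ q)) (pr x.1) < R' x / 4 := hrr' x q hq
    have a2 : dist (pr ((χ' x').σ q')) (pr x'.1) < R' x' / 4 := hrr' x' q' hq₂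
    have hpp' : pr ((χ' x).σ q) = pr ((χ' x').σ q') := hpp
    rw [hpp'] at a1
    have a3 := dist_triangle (pr x.1) (pr ((χ' x').σ q')) (pr x'.1)
    rw [dist_comm (pr x.1) (pr ((χ' x').σ q'))] at a3
    have b1 := hR' x
    have b2 := hR' x'
    rcases le_total (R' x) (R' x') with hle | hle
    · left
      intro q₁ hq₁
      refine hRU' x' _ ((χ' x).σ_mem q₁ (ball_subset_ball (hr2' x) hq₁)).1 ?_
      have a4 := hrr' x q₁ hq₁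
      have a5 := dist_triangle (pr ((χ' x).σ q₁)) (pr x.1) (pr x'.1)
      linarith
    · right
      intro q₁ hq₁
      refine hRU' x _ ((χ' x').σ_mem q₁ (ball_subset_ball (hr2' x') hq₁)).1 ?_
      have a4 := hrr' x' q₁ hq₁
      have a5 := dist_triangle (pr ((χ' x').σ q₁)) (pr x'.1) (pr x.1)
      rw [dist_comm (pr x'.1) (pr x.1)] at a5
      linarith
  · intro y hy x hx hxy
    obtain ⟨-, z, hz, hxz⟩ := hs₀P y hy x hx hxy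
    refine ⟨t'.equivFin ⟨z, hz⟩, ?_⟩
    simp only [Equiv.symm_apply_apply]
    exact hxz

end Pool.Agent.G3.X
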