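import Pool.Agent.G3.X.Defs
import Pool.Agent.TG.ChN
import Pool.Agent.G3.X.Tb3

/-!
# G3 X Fam: the finite families of charts

`exists_nch`: `IsNC` gives a germ `σ, τ, a, b` at `x`; `exists_small_chart` with a small `η'`: `χ.σ q = c • σ (r • q)`, `‖r • q‖ < η'` for `q ∈ ball 0 2` (so `2 r ≤ η'`: take `q` of norm near `2`; if `k + 2` coordinates, `q = Pi.single 0 t`), `u (χ.σ q) - κ (nm a b (r • q)) ∈ Λ` (`TMap.smul`).
`exists_fam`: the proof of `Pool.Agent.TGY.exists_tube_geo` (`TG/Y/TbA.lean`) with `ℂ × ℂ` replaced by `Vd (k + 2)`, the fibre over `b` by the fibre over `κ 0`; `exists_rad` in the form: `∃ ρ > 0, ∀ q ∈ ball 0 ρ, ∀ x ∈ X, u x - κ q ∈ Λ → P x` (`κ` is continuous at `0`; `TG.lim_mem`, `TG.compact_unit`, `TG.exists_unit`,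
`TG.smul_mem_lat` of `TG/Gd.lean`).  New: the witness charts are also FINITELY many: `χ'_x` (for all `x` of the fibre) with radii `t_x` as there; the open cones `{y ∈ χ'_x.U, χ'_x.q y ∈ ball 0 t_x}` cover the compact set (unit vectors of the fibre), choose a finite subcover.  In the end `ρ` is so small that
`ρ ≤ s`, `ρ ≤ R`, `ρ ≤ r i` and `ρ ≤ r' j * t j` for the finitely many `i, j`.
-/

set_option autoImplicit false

open Topology Filter Metric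

namespace Pool.Agent.GX

open Pool.Agent.H36.BP (EN fs wd)
open Pool.Agent.H14.PP (IsCone CurveAt Tan)
open Pool.Agent.H62.EF (MN pr)
open Pool.Agent.AD (Vd Chart Charts IsGerm)
open Pool.Agent.TG (TMap Lat tl nm IsStr IsNC IsCoord Geo VForm ms Str IsPrim Cap IRel II TransAt Gd Cst DV fr tc)

variable {N k : ℕ}

variable {X : Set (EN N)} {Λ : AddSubgroup (Vd (k + 1))} {u : EN N → Vd (k + 1)} {D B : Set (Vd (k + 1))}
  {κ ψ : Vd (k + 1) → Vd (k + 1)} {R : ℝ} {g : ℂ → Fin k → ℂ} {Γ₀ : AddSubgroup ℂ} {s : ℝ}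

/-- small constants -/
private theorem Fam_const {R s : ℝ} {r : ℝ} (hr : 0 < r) {a b : ℕ} (hab : 0 < a + b) (hle : 2 * r ≤ min (R / 2) (min s 1)) :
    2 * r < R ∧ (2 * r) ^ (a + b) < R ∧ (2 * r) ^ (a + b) ≤ s := by
  have h1 : 2 * r ≤ R / 2 := hle.trans (min_le_left _ _)
  have h2 : 2 * r ≤ s := hle.trans ((min_le_right _ _).trans (min_le_left _ _))
  have h3 : 2 * r ≤ 1 := hle.trans ((min_le_right _ _).trans (min_le_right _ _))
  have h4 : (2 * r) ^ (a + b) ≤ 2 * r := pow_le_of_le_one (by positivity) h3 hab.ne'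
  exact ⟨by linarith, by linarith, by linarith⟩

private theorem Fam_nch {R s : ℝ} {χ : Chart (k + 2) X} {r : ℝ} {a b : ℕ} (h : Pool.Agent.G3.X.NCC Λ u κ χ r a b)
    (hle : 2 * r ≤ min (R / 2) (min s 1)) : NCh Λ u κ R χ r a b ∧ (2 * r) ^ (a + b) ≤ s := by
  obtain ⟨h1, h2, h3⟩ := Fam_const h.pos h.ab hle
  exact ⟨⟨h.pos, h.ab, h1, h2, h.lift⟩, h3⟩

theorem exists_nch (K : Kp X Λ u D κ ψ R) {x : EN N} (h : IsNC X Λ u κ x) {η s : ℝ} (hη : 0 < η) (hs : 0 < s) :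
    ∃ (χ : Chart (k + 2) X) (r : ℝ) (a b : ℕ), x ∈ χ.U ∧ χ.q x = 0 ∧ NCh Λ u κ R χ r a b ∧ (2 * r) ^ (a + b) ≤ s ∧
      ∀ q ∈ ball (0 : Vd (k + 2)) 2, dist (pr (χ.σ q)) (pr x) < η := by
  have hR := K.pos
  obtain ⟨χ, r, a, b, h1, h2, h3, h4, h5⟩ := Pool.Agent.G3.X.exists_ncc K.cone K.tor h (lt_min hη (by positivity : 0 < min (R / 2) (min s 1)))
  obtain ⟨h6, h7⟩ := Fam_nch h3 (h4.trans (min_le_right _ _))
  exact ⟨χ, r, a, b, h1, h2, h6, h7, fun q hq => (h5 q hq).trans_le (min_le_left _ _)⟩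

theorem exists_fam (K : Kp X Λ u D κ ψ R) (hnc : ∀ x ∈ X, u x - κ 0 ∈ Λ → IsNC X Λ u κ x) (hs : 0 < s) :
    ∃ (Φ : Fam X k) (ρ : ℝ), FamG Λ u κ R s ρ Φ := by
  have hR := K.pos
  obtain ⟨T, s₃, hT⟩ := Pool.Agent.G3.X.exists_tb3 K.cone K.tor K.lat hnc (by positivity : 0 < min (R / 2) (min s 1))
  have hc := fun i => Fam_nch (hT.ncc i) (hT.le i)
  have hw := fun j => Fam_nch (hT.wncc j) (hT.wle j)
  -- the radius
  have e1 : ∀ᶠ ρ in 𝓝[>] (0 : ℝ), ∀ i, ρ ≤ (T.c i).r :=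
    Filter.eventually_all.2 fun i => mem_nhdsWithin_of_mem_nhds (ge_mem_nhds (hT.ncc i).pos)
  have e2 : ∀ᶠ ρ in 𝓝[>] (0 : ℝ), ∀ j, ρ ≤ (T.w j).r * (T.w j).R :=
    Filter.eventually_all.2 fun j => mem_nhdsWithin_of_mem_nhds (ge_mem_nhds (mul_pos (hT.wncc j).pos (hT.wR j).1))
  have e3 : ∀ᶠ ρ in 𝓝[>] (0 : ℝ), ρ ≤ s ∧ ρ ≤ R :=
    Filter.Eventually.and (mem_nhdsWithin_of_mem_nhds (ge_mem_nhds hs)) (mem_nhdsWithin_of_mem_nhds (ge_mem_nhds hR))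
  have e4 : ∀ᶠ ρ in 𝓝[>] (0 : ℝ), ∀ q ∈ ball (0 : Vd (k + 1)) ρ, κ q ∈ ball (κ 0) s₃ := by
    have h1 : ContinuousAt κ 0 := (K.κ_an 0 (mem_ball_self hR)).continuousAt
    obtain ⟨δ, hδ, h2⟩ := Metric.eventually_nhds_iff_ball.1 (h1.eventually (ball_mem_nhds (κ 0) hT.pos))
    filter_upwards [mem_nhdsWithin_of_mem_nhds (ge_mem_nhds hδ)] with ρ hρ q hq
    exact h2 q (ball_subset_ball hρ hq)
  obtain ⟨ρ, ⟨⟨⟨h1, h2⟩, h3⟩, h4⟩, hρ⟩ := ((((e1.and e2).and e3).and e4).and self_mem_nhdsWithin).exists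
  refine ⟨⟨T.m, fun i => (T.c i).χ, fun i => (T.c i).r, fun i => (T.c i).a, fun i => (T.c i).b, T.W, T.n, fun j => (T.w j).χ, fun j => (T.w j).r,
    fun j => (T.w j).a, fun j => (T.w j).b, fun j => (T.w j).R⟩, ρ, ?_⟩
  exact ⟨hρ, h3.1, h3.2, fun i => (hc i).1, fun i => (hc i).2, h1, hT.W_open, hT.W_sub, hT.W_smul, fun q hq x hx hxq => hT.cover _ (h4 q hq) x hx hxq,
    fun j => (hw j).1, fun j => (hw j).2, hT.wR, h2, hT.wsub, hT.wnest, fun q hq x hx hxq => hT.wcover _ (h4 q hq) x hx hxq⟩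

end Pool.Agent.GX
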