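import Pool.Agent.G3.X.SlN
import Pool.Agent.G3.X.Fam

/-!
# G3 X FamT: the tube of an arc

`la_of_fam`: all fields are given; `nc`: `FamG.cover` at `q = cg g 0 ∈ ball 0 ρ`, `W_sub`, `nch`.
`La.tube_geo`: `T = ⟨Φ.m, slices of Φ.C i, r i ^ (a i + b i), a i, b i, Φ.W⟩` (`La.slice_nc`, `choose`), `𝒲 = range` of the slices of `Φ.C' j` with the radii `t j`.  `TubeG`: `inj`: `L.big` (`2 s ≤ 8 s`); `range`: `‖mo 0 (r ^ (a + b)) a b w - 0‖ < s` (fourth part of `slice_nc`);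
`cover`: `wa x - z ∈ Γ₀`, `La.nb`: `wa x = z`, `FamG.cover` at `cg g z ∈ ball 0 ρ`.  `WitG`: `sub`: `emb w ∈ ball 0 (t j)` (`emb_mem`), `FamG.sub`; `nest`: the same with `FamG.nest`; `cover`: `FamG.cover'`, `χ'.q x = (χ.q x 0, χ.q x 1) ∈ ball 0 (t j)`.
-/

set_option autoImplicit false

open Topology Filter Metric

namespace Pool.Agent.GX

open Pool.Agent.H36.BP (EN fs wd)
open Pool.Agent.H14.PP (IsCone CurveAt Tan)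
open Pool.Agent.H62.EF (MN pr)
open Pool.Agent.AD (Vd Chart Charts IsGerm)
open Pool.Agent.TG (TMap Lat tl nm IsStr IsNC IsCoord Geo VForm ms Str IsPrim Cap IRel II TransAt Gd Cst DV fr tc)

variable {N k : ℕ}

variable {X : Set (EN N)} {Λ : AddSubgroup (Vd (k + 1))} {u : EN N → Vd (k + 1)} {D B : Set (Vd (k + 1))}
  {κ ψ : Vd (k + 1) → Vd (k + 1)} {R : ℝ} {g : ℂ → Fin k → ℂ} {Γ₀ : AddSubgroup ℂ} {s : ℝ}

variable {ρ : ℝ} {Φ : Fam X k}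

private theorem famT_cg {z : ℂ} {ρ : ℝ} (hρ : 0 < ρ) (hz : ‖z‖ < ρ) (hg : ‖g z‖ < ρ) : cg g z ∈ ball (0 : Vd (k + 1)) ρ := by
  rw [mem_ball_zero_iff, pi_norm_lt_iff hρ]
  intro i
  refine Fin.cases ?_ (fun j => ?_) i
  · exact hz
  · exact lt_of_le_of_lt (norm_le_pi_norm (g z) j) hg

theorem la_of_fam (K : Kp X Λ u D κ ψ R) (H : FamG Λ u κ R s ρ Φ) (hs : 2 * s ≤ R) (h₀ : Pool.Agent.H62.EF.Lat Γ₀) (hb : ∀ l ∈ Γ₀, ‖l‖ ≤ 8 * s → l = 0)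
    (hg : DifferentiableOn ℂ g (ball (0 : ℂ) (2 * s))) (hρ : ∀ z ∈ ball (0 : ℂ) (2 * s), ‖g z‖ < ρ) : La X Λ u D κ ψ R g Γ₀ s := by
  have hs0 : 0 < s := lt_of_lt_of_le H.pos H.le
  have h0 : (0 : ℂ) ∈ ball (0 : ℂ) (2 * s) := mem_ball_self (by linarith)
  refine ⟨K, h₀, hs0, hs, hb, hg, fun z hz => lt_of_lt_of_le (hρ z hz) H.leR, fun x hx hux => ?_⟩
  have hq : cg g 0 ∈ ball (0 : Vd (k + 1)) ρ := famT_cg H.pos (by rw [norm_zero]; exact H.pos) (hρ 0 h0)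
  obtain ⟨i, hi⟩ := H.cover (cg g 0) hq x hx hux
  exact ⟨Φ.C i, Φ.r i, Φ.a i, Φ.b i, H.W_sub i hi, H.nch i⟩

theorem La.tube_geo (L : La X Λ u D κ ψ R g Γ₀ s) (H : FamG Λ u κ R s ρ Φ) (hρ : ∀ z ∈ ball (0 : ℂ) (2 * s), ‖g z‖ < ρ) :
    ∃ (T : Pool.Agent.H62.EL.TubeData (Ya X Λ u κ g s)) (𝒲 : Set (Pool.Agent.H62.EL.Wit (Ya X Λ u κ g s))),
      Pool.Agent.H62.EL.TubeG Γ₀ (wa Λ u κ g s) 0 ρ s T ∧ Pool.Agent.H62.EL.WitG Γ₀ (wa Λ u κ g s) 0 ρ s T 𝒲 := by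
  have hgi : ∀ i, ∀ z ∈ ball (0 : ℂ) (2 * s), ‖g z‖ < 2 * Φ.r i := by
    intro i z hz
    have h1 := hρ z hz
    have h2 := H.lt i
    have h3 := (H.nch i).pos
    linarith
  have hgj : ∀ j, ∀ z ∈ ball (0 : ℂ) (2 * s), ‖g z‖ < Φ.r' j * Φ.t j := fun j z hz => lt_of_lt_of_le (hρ z hz) (H.lt' j)
  have hgj2 : ∀ j, ∀ z ∈ ball (0 : ℂ) (2 * s), ‖g z‖ < 2 * Φ.r' j := by
    intro j z hz
    refine lt_of_lt_of_le (hgj j z hz) ?_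
    rw [mul_comm]
    exact mul_le_mul_of_nonneg_right (H.t_pos j).2 (H.nch' j).pos.le
  choose χ hmon hU hq hσ using fun i => L.slice_nc (H.nch i) (H.rng i) (hgi i)
  choose χ' hmon' hU' hq' hσ' using fun j => L.slice_nc (H.nch' j) (H.rng' j) (hgj2 j)
  have hemb : ∀ j, ∀ w ∈ ball (0 : ℂ × ℂ) (Φ.t j), emb g (Φ.r' j) (Φ.a' j) (Φ.b' j) w ∈ ball (0 : Vd (k + 2)) (Φ.t j) := fun j w hw =>
    emb_mem L (H.nch' j).pos (H.nch' j).ab (H.rng' j) (H.t_pos j).2 (hgj j) hw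
  have hsub2 : ∀ j, ball (0 : ℂ × ℂ) (Φ.t j) ⊆ ball (0 : ℂ × ℂ) 2 := fun j => ball_subset_ball (H.t_pos j).2
  have hcv : ∀ z ∈ ball (0 : ℂ) ρ, ∀ x ∈ Ya X Λ u κ g s, wa Λ u κ g s x - z ∈ Γ₀ → cg g z ∈ ball (0 : Vd (k + 1)) ρ ∧ x ∈ X ∧ u x - κ (cg g z) ∈ Λ := by
    intro z hz x hx hxz
    have hzρ : ‖z‖ < ρ := by simpa using hz
    have hzs : ‖z‖ ≤ s := hzρ.le.trans H.le
    obtain ⟨h1, h2⟩ := wa_spec hx
    have h3 : wa Λ u κ g s x = z := L.nb h1 hzs hxz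
    rw [h3] at h2
    exact ⟨famT_cg H.pos hzρ (hρ z (L.mem2 hzs)), hx.1, h2⟩
  have hran : ∀ (r : ℝ) (a b : ℕ) (p : ℂ × ℂ), ‖(r : ℂ) ^ (a + b) * (p.1 ^ a * p.2 ^ b)‖ < s → ‖Pool.Agent.H62.EL.mo 0 (r ^ (a + b)) a b p - 0‖ < s := by
    intro r a b p h
    unfold Pool.Agent.H62.EL.mo
    rw [zero_add, sub_zero]
    push_cast
    exact h
  refine ⟨⟨Φ.m, χ, fun i => Φ.r i ^ (Φ.a i + Φ.b i), Φ.a, Φ.b, Φ.W⟩, Set.range fun j => ⟨χ' j, Φ.r' j ^ (Φ.a' j + Φ.b' j), Φ.a' j, Φ.b' j, Φ.t j⟩,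
    ⟨H.pos, H.le, fun l hl h => L.big l hl (by linarith [L.pos]), hmon, fun i p hp => hran _ _ _ p (hσ i p hp).1, H.W_open, fun i => ?_, H.W_smul,
      fun z hz x hx hxz => ?_⟩, ?_⟩
  · show Φ.W i ⊆ (χ i).U
    rw [hU i]
    exact H.W_sub i
  · obtain ⟨h1, h2, h3⟩ := hcv z hz x hx hxz
    exact H.cover _ h1 x h2 h3
  · refine ⟨?_, ?_, ?_, ?_, ?_, ?_⟩
    · rintro w ⟨j, rfl⟩
      exact H.t_pos j
    · rintro w ⟨j, rfl⟩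
      exact hmon' j
    · rintro w ⟨j, rfl⟩ p hp
      exact hran _ _ _ p (hσ' j p hp).1
    · rintro w ⟨j, rfl⟩ i ⟨p, hp, hpW⟩ p₁ hp₁
      have hpW' : (χ' j).σ p ∈ Φ.W i := hpW
      have hp' : p ∈ ball (0 : ℂ × ℂ) (Φ.t j) := hp
      rw [(hσ' j p (hsub2 j hp')).2.2] at hpW'
      show (χ' j).σ p₁ ∈ (χ i).U
      rw [hU i, (hσ' j p₁ hp₁).2.2]
      exact H.sub j i ⟨_, hemb j p hp', hpW'⟩ _ (hσ' j p₁ hp₁).2.1
    · rintro w ⟨j, rfl⟩ w' ⟨j', rfl⟩ ⟨p, hp, p', hp', hpp⟩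
      have hp1 : p ∈ ball (0 : ℂ × ℂ) (Φ.t j) := hp
      have hp2 : p' ∈ ball (0 : ℂ × ℂ) (Φ.t j') := hp'
      have hpp' : pr ((χ' j).σ p) = pr ((χ' j').σ p') := hpp
      rw [(hσ' j p (hsub2 j hp1)).2.2, (hσ' j' p' (hsub2 j' hp2)).2.2] at hpp'
      rcases H.nest j j' ⟨_, hemb j p hp1, _, hemb j' p' hp2, hpp'⟩ with h | h
      · left
        intro q hq1
        have hq2 : q ∈ ball (0 : ℂ × ℂ) (Φ.t j) := hq1
        show (χ' j).σ q ∈ (χ' j').U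
        rw [hU' j', (hσ' j q (hsub2 j hq2)).2.2]
        exact h _ (hemb j q hq2)
      · right
        intro q hq1
        have hq2 : q ∈ ball (0 : ℂ × ℂ) (Φ.t j') := hq1
        show (χ' j').σ q ∈ (χ' j).U
        rw [hU' j, (hσ' j' q (hsub2 j' hq2)).2.2]
        exact h _ (hemb j' q hq2)
    · intro z hz x hx hxz
      obtain ⟨h1, h2, h3⟩ := hcv z hz x hx hxz
      obtain ⟨j, hj1, hj2⟩ := H.cover' _ h1 x h2 h3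
      refine ⟨_, ⟨j, rfl⟩, ?_, ?_⟩
      · show x ∈ (χ' j).U
        rw [hU' j]
        exact hj1
      · show (χ' j).q x ∈ ball (0 : ℂ × ℂ) (Φ.t j)
        rw [hq' j x, mem_ball_zero_iff, Prod.norm_def]
        rw [mem_ball_zero_iff] at hj2
        exact max_lt (lt_of_le_of_lt (norm_le_pi_norm _ 0) hj2) (lt_of_le_of_lt (norm_le_pi_norm _ 1) hj2)

end Pool.Agent.GX
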