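import Pool.Agent.G3.X.BrI
import Pool.Agent.G3.X.FamT
import Pool.Agent.G3.X.TbG
import Pool.Agent.G3.X.CrF

/-!
# G3 X CrG: crossing for graphs

`Γ₀` from `TG.exists_lat₀ (8 * s)`, `L` from `la_of_fam`, `T` from `La.tube_geo` and `GXE.tube_of_geo`.  `F, H` are `TGY.SecOn` for `Ya` on `ball 0 t` (`wa (F z) = z` by `wa_eq`).  As in the proof of `TG.crossing` (`TG/Cross.lean`): `GXE.crossing_free` for `L.form α`, `hcap` from `capz_bridge` (`s₁ = ρ`), `hrel` from `irel_bridge`;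
`EL.II (L.form α) ε z .. = - dta κ g z * II α ε (ar κ g z) ..` by `eq_capz`, `II_eqz`, `EL.exists_prim`; `J z = - J' z / dta κ g z` (`dta_ne`, `dta_an`).
-/

set_option autoImplicit false

open Topology Filter Metric

namespace Pool.Agent.GX

open Pool.Agent.H36.BP (EN fs wd)
open Pool.Agent.H14.PP (IsCone CurveAt Tan)
open Pool.Agent.H62.EF (MN pr)
open Pool.Agent.AD (Vd Chart Charts IsGerm)
open Pool.Agent.TG (TMap Lat tl nm IsStr IsNC IsCoord Geo VForm ms Str IsPrim Cap IRel II TransAt Gd Cst DV fr tc)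

variable {N k : ℕ}

variable {X : Set (EN N)} {Λ : AddSubgroup (Vd (k + 1))} {u : EN N → Vd (k + 1)} {D B : Set (Vd (k + 1))}
  {κ ψ : Vd (k + 1) → Vd (k + 1)} {R : ℝ} {g : ℂ → Fin k → ℂ} {Γ₀ : AddSubgroup ℂ} {s : ℝ}

variable {ρ : ℝ} {Φ : Fam X k}

theorem cross_graph (K : Kp X Λ u D κ ψ R) (H : FamG Λ u κ R s ρ Φ) (hs : 2 * s ≤ R) (hg : DifferentiableOn ℂ g (ball (0 : ℂ) (2 * s)))
    (hρ : ∀ z ∈ ball (0 : ℂ) (2 * s), ‖g z‖ < ρ) {r₁ r₂ t ε r : ℝ} (hr₁ : 0 < r₁) (hr₁₂ : r₁ < r₂) (hr₂ : r₂ < t) (ht : t ≤ ρ) (hε : ε < r)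
    (α : VForm X Λ u) {F F' : ℂ → EN N} (hF : DifferentiableOn ℂ F (ball 0 t)) (hF' : DifferentiableOn ℂ F' (ball 0 t))
    (hFX : ∀ z ∈ ball (0 : ℂ) t, F z ∈ X ∧ u (F z) - ar κ g z ∈ Λ) (hFX' : ∀ z ∈ ball (0 : ℂ) t, F' z ∈ X ∧ u (F' z) - ar κ g z ∈ Λ)
    (hcap : ∀ z : ℂ, r₁ < ‖z‖ → ‖z‖ < r₂ → ∃ (χ : Chart (k + 2) X) (c' : Vd (k + 1)) (ρ' : ℝ), Cap Λ u χ c' ρ' (ar κ g z) (pr (F z)) r)
    (hrel : ∀ z : ℂ, r₁ < ‖z‖ → ‖z‖ < r₂ → ∃ v, IRel α ε (ar κ g z) (pr (F z)) (pr (F' z)) v) :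
    ∃ J : ℂ → ℂ, DifferentiableOn ℂ J (ball 0 r₂) ∧
      ∀ z : ℂ, r₁ < ‖z‖ → ‖z‖ < r₂ → J z = II α ε (ar κ g z) (pr (F z)) (pr (F' z)) := by
  obtain ⟨Γ₀, h₀, hb⟩ := Pool.Agent.TG.exists_lat₀ (8 * s)
  have L : La X Λ u D κ ψ R g Γ₀ s := la_of_fam K H hs h₀ hb hg hρ
  obtain ⟨T, 𝒲, hT, hW⟩ := L.tube_geo H hρ
  have hTube := Pool.Agent.GXE.tube_of_geo L.isCone L.torusMap hT hW
  have hts : t ≤ s := ht.trans H.le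
  have hr₂ρ : r₂ < ρ := hr₂.trans_le ht
  have hr₂s : r₂ < s := hr₂.trans_le hts
  have hsec : ∀ {G : ℂ → EN N}, DifferentiableOn ℂ G (ball 0 t) → (∀ z ∈ ball (0 : ℂ) t, G z ∈ X ∧ u (G z) - ar κ g z ∈ Λ) →
      Pool.Agent.TGY.SecOn (Ya X Λ u κ g s) Γ₀ (wa Λ u κ g s) 0 t G := by
    intro G h1 h2
    refine ⟨h1, fun z hz => ?_, fun z hz => ?_⟩
    · exact ⟨(h2 z hz).1, z, (mem_ball_zero_iff.1 hz).le.trans hts, (h2 z hz).2⟩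
    · rw [L.wa_eq ((mem_ball_zero_iff.1 hz).le.trans hts) (h2 z hz).2, sub_self]
      exact Γ₀.zero_mem
  have hS := hsec hF hFX
  have hS' := hsec hF' hFX'
  have hbt : ∀ z : ℂ, ‖z‖ < r₂ → z ∈ ball (0 : ℂ) t := fun z hz => mem_ball_zero_iff.2 (hz.trans hr₂)
  have hr0 : 0 < r := by
    have h1 : ‖(((r₁ + r₂) / 2 : ℝ) : ℂ)‖ = (r₁ + r₂) / 2 := by
      rw [Complex.norm_real, Real.norm_eq_abs, abs_of_pos (by linarith)]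
    obtain ⟨v, hv⟩ := hrel (((r₁ + r₂) / 2 : ℝ) : ℂ) (by rw [h1]; linarith) (by rw [h1]; linarith)
    obtain ⟨χ, c', ρ', A, q, q', -, -, -, -, -, -, -, -, hpath, -⟩ := hv
    exact lt_of_le_of_lt (dist_nonneg.trans (hpath 0 (by simp))) hε
  have hcapz : ∀ z₀ : ℂ, r₁ < ‖z₀‖ → ‖z₀‖ < r₂ → ∃ (χ : Pool.Agent.H14.PP.Chart (Ya X Λ u κ g s)) (c : ℂ) (ρ' : ℝ),
      (∀ᶠ z in 𝓝 z₀, Pool.Agent.GXE.Capz Γ₀ (wa Λ u κ g s) χ c ρ' z (pr (F z₀)) r) ∧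
        ∀ p ∈ ball (0 : ℂ × ℂ) 2, ‖c + ρ' * p.1‖ < ρ := by
    intro z₀ h1 h2
    obtain ⟨χ, c', ρ', hc⟩ := hcap z₀ h1 h2
    exact L.capz_bridge hc hr0 H.le (h2.trans hr₂ρ) (hFX z₀ (hbt z₀ h2)).1 (hFX z₀ (hbt z₀ h2)).2 (by rw [dist_self]; exact hr0.le)
  have hrelY : ∀ z₀ : ℂ, r₁ < ‖z₀‖ → ‖z₀‖ < r₂ → Pool.Agent.H62.EL.IRel (L.form α) ε z₀ (pr (F z₀)) (pr (F' z₀))
      (-dta κ g z₀ * II α ε (ar κ g z₀) (pr (F z₀)) (pr (F' z₀))) := by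
    intro z₀ h1 h2
    refine L.irel_bridge (h2.trans hr₂s) ?_
    have h4 := hrel z₀ h1 h2
    have h5 : II α ε (ar κ g z₀) (pr (F z₀)) (pr (F' z₀)) = h4.choose := by
      unfold II
      rw [dif_pos h4]
    rw [h5]
    exact h4.choose_spec
  obtain ⟨J', hJ'1, hJ'2⟩ := Pool.Agent.GXE.crossing_free (b := 0) L.isCone L.torusMap L.lat₀ hTube (α := L.form α) hr₁ hr₁₂ hr₂ ht hε hS hS'
    (fun z₀ h1 h2 => by
      rw [sub_zero] at h1 h2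
      obtain ⟨χ, c, ρ', hc, hrg⟩ := hcapz z₀ h1 h2
      exact ⟨χ, c, ρ', hc, fun p hp => mem_ball_zero_iff.2 (hrg p hp)⟩)
    (fun z₀ h1 h2 => by
      rw [sub_zero] at h1 h2
      exact ⟨_, hrelY z₀ h1 h2⟩)
  refine ⟨fun z => -(J' z / dta κ g z), ?_, fun z h1 h2 => ?_⟩
  · intro z hz
    have hzs : z ∈ ball (0 : ℂ) (2 * s) := L.mem2 ((mem_ball_zero_iff.1 hz).le.trans hr₂s.le)
    exact ((hJ'1 z hz).div (L.dta_an hzs).differentiableAt.differentiableWithinAt (L.dta_ne hzs)).neg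
  · have hzs : z ∈ ball (0 : ℂ) (2 * s) := L.mem2 (h2.le.trans hr₂s.le)
    have h3 := hJ'2 z (by rwa [sub_zero]) (by rwa [sub_zero])
    obtain ⟨χ, c, ρ', hc, -⟩ := hcapz z h1 h2
    have hc0 := hc.self_of_nhds
    obtain ⟨A, hA⟩ := Pool.Agent.H62.EL.exists_prim (L.form α) χ hc0.mon
    have hv := hrelY z h1 h2
    have hFz := hS.2.1 z (hbt z h2)
    have hFz' := hS'.2.1 z (hbt z h2)
    have hd0 : dist (pr (F z)) (pr (F z)) + ε ≤ r := by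
      rw [dist_self]
      linarith
    have e1 := Pool.Agent.GXE.eq_capz L.isCone L.torusMap L.lat₀ hv hc0 hA hd0 hFz hFz' rfl rfl
    have e2 := Pool.Agent.GXE.II_eqz L.isCone L.torusMap L.lat₀ ⟨_, hv⟩ hc0 hA hd0 hFz hFz' rfl rfl
    have hdt := L.dta_ne hzs
    show -(J' z / dta κ g z) = _
    rw [h3, e2, ← e1]
    field_simp

end Pool.Agent.GX
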