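import Pool.Agent.TG.Cross

/-!
# G3 X Defs: uniform crossing for arcs, definitions

Plan of the block `G3/X` (helper19).  Near a point `p ∈ D \ B` choose coordinates `κ` of the base in which `D` is `{q 0 = 0}` and the given line `p + z e` is `{q_1 = .. = q_k = 0}` (`LnC`).  An
arc near the line is `ar κ g`, the graph of a small function `g` (`Inv`).  `X` is covered near the fibre over `p` by finitely many normal crossing charts (`NCh`: `u = κ (x ^ a y ^ b, s)` in suitable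
coordinates) and finitely many witness charts (`Fam`, `FamG`); cut with the graph of `g` (`emb`) they give a tube (in the sense of `H62/EL`) for the surface `Ya`, the part of `X` over the arc,
with constants which do not depend on `g`.
-/

set_option autoImplicit false

open Topology Filter Metric

namespace Pool.Agent.GX

open Pool.Agent.H36.BP (EN fs wd)
open Pool.Agent.H14.PP (IsCone CurveAt Tan)
open Pool.Agent.H62.EF (MN pr)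
open Pool.Agent.AD (Vd Chart Charts IsGerm)
open Pool.Agent.TG (TMap Lat tl nm IsStr IsNC IsCoord Geo VForm ms Str IsPrim Cap IRel II TransAt Gd Cst DV fr)

variable {N k : ℕ}

/-- the graph of `g` -/
def cg (g : ℂ → Fin k → ℂ) (z : ℂ) : Vd (k + 1) := Fin.cons (α := fun _ => ℂ) z (g z)

/-- the arc with the coordinates `cg g` -/
def ar (κ : Vd (k + 1) → Vd (k + 1)) (g : ℂ → Fin k → ℂ) (z : ℂ) : Vd (k + 1) := κ (cg g z)

variable (X : Set (EN N)) (Λ : AddSubgroup (Vd (k + 1))) (u : EN N → Vd (k + 1))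

/-- the part of `X` over the closed disc of radius `s` in the arc -/
def Ya (κ : Vd (k + 1) → Vd (k + 1)) (g : ℂ → Fin k → ℂ) (s : ℝ) : Set (EN N) := {x | x ∈ X ∧ ∃ z : ℂ, ‖z‖ ≤ s ∧ u x - ar κ g z ∈ Λ}

open Classical in
/-- the coordinate `z` -/
noncomputable def wa (κ : Vd (k + 1) → Vd (k + 1)) (g : ℂ → Fin k → ℂ) (s : ℝ) (x : EN N) : ℂ :=
  if h : ∃ z : ℂ, ‖z‖ ≤ s ∧ u x - ar κ g z ∈ Λ then h.choose else 0

/-- the determinant of the tangent vector of the arc and the vectors `fr` -/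
noncomputable def dta (κ : Vd (k + 1) → Vd (k + 1)) (g : ℂ → Fin k → ℂ) (z : ℂ) : ℂ :=
  (Matrix.of fun i j => (Fin.cons (deriv (ar κ g) z) (fr κ (cg g) z) : Fin (k + 1) → Vd (k + 1)) i j).det

/-- the geometric data and the coordinates `κ` on the polydisc of radius `R`, with the inverse `ψ` -/
structure Kp (D : Set (Vd (k + 1))) (κ ψ : Vd (k + 1) → Vd (k + 1)) (R : ℝ) : Prop where
  cone : IsCone X
  charts : Charts (k + 2) X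
  tor : TMap X Λ u
  lat : Lat Λ
  sub : ∀ y ∉ D, ∀ x ∈ X, u x - y ∈ Λ → IsStr X Λ u x y
  pos : 0 < R
  κ_an : ∀ q ∈ ball (0 : Vd (k + 1)) R, AnalyticAt ℂ κ q
  ψ_an : ∀ q ∈ ball (0 : Vd (k + 1)) R, AnalyticAt ℂ ψ (κ q)
  ψ_κ : ∀ q ∈ ball (0 : Vd (k + 1)) R, ψ (κ q) = q
  κ_ψ : ∀ q ∈ ball (0 : Vd (k + 1)) R, ∀ᶠ y in 𝓝 (κ q), κ (ψ y) = y
  inj : ∀ q ∈ ball (0 : Vd (k + 1)) R, ∀ q' ∈ ball (0 : Vd (k + 1)) R, κ q - κ q' ∈ Λ → q = q'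
  mem_iff : ∀ q ∈ ball (0 : Vd (k + 1)) R, (κ q ∈ D ↔ q 0 = 0)

variable {X}

/-- a normal crossing chart: `u` is `κ (r ^ (a + b) x ^ a y ^ b, r s)` -/
structure NCh (κ : Vd (k + 1) → Vd (k + 1)) (R : ℝ) (χ : Chart (k + 2) X) (r : ℝ) (a b : ℕ) : Prop where
  pos : 0 < r
  ab : 0 < a + b
  lt : 2 * r < R
  rng : (2 * r) ^ (a + b) < R
  lift : ∀ q ∈ ball (0 : Vd (k + 2)) 2, u (χ.σ q) - κ (nm a b ((r : ℂ) • q)) ∈ Λ

variable (X)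

/-- the data for one arc -/
structure La (D : Set (Vd (k + 1))) (κ ψ : Vd (k + 1) → Vd (k + 1)) (R : ℝ) (g : ℂ → Fin k → ℂ) (Γ₀ : AddSubgroup ℂ) (s : ℝ) : Prop where
  kp : Kp X Λ u D κ ψ R
  lat₀ : Pool.Agent.H62.EF.Lat Γ₀
  pos : 0 < s
  le : 2 * s ≤ R
  big : ∀ l ∈ Γ₀, ‖l‖ ≤ 8 * s → l = 0
  g_an : DifferentiableOn ℂ g (ball (0 : ℂ) (2 * s))
  g_lt : ∀ z ∈ ball (0 : ℂ) (2 * s), ‖g z‖ < R
  nc : ∀ x ∈ X, u x - ar κ g 0 ∈ Λ → ∃ (χ : Chart (k + 2) X) (r : ℝ) (a b : ℕ), x ∈ χ.U ∧ NCh Λ u κ R χ r a b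

/-- the points of the normal crossing chart over the arc -/
noncomputable def emb (g : ℂ → Fin k → ℂ) (r : ℝ) (a b : ℕ) (w : ℂ × ℂ) : Vd (k + 2) :=
  Fin.cons (α := fun _ => ℂ) w.1 (Fin.cons (α := fun _ => ℂ) w.2 ((r : ℂ)⁻¹ • g ((r : ℂ) ^ (a + b) * (w.1 ^ a * w.2 ^ b))))

/-- finitely many normal crossing charts with open cones `W`, and finitely many witness charts with radii `t` -/
structure Fam (k : ℕ) where
  /-- number of charts -/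
  m : ℕ
  /-- the charts -/
  C : Fin m → Chart (k + 2) X
  /-- sizes -/
  r : Fin m → ℝ
  /-- exponents -/
  a : Fin m → ℕ
  /-- exponents -/
  b : Fin m → ℕ
  /-- open cones -/
  W : Fin m → Set (EN N)
  /-- number of witness charts -/
  n : ℕ
  /-- the witness charts -/
  C' : Fin n → Chart (k + 2) X
  /-- sizes -/
  r' : Fin n → ℝ
  /-- exponents -/
  a' : Fin n → ℕ
  /-- exponents -/
  b' : Fin n → ℕ
  /-- radii -/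
  t : Fin n → ℝ

variable {X}

/-- the charts cover `X` over the polydisc of radius `ρ` in the coordinates `κ` -/
structure FamG (κ : Vd (k + 1) → Vd (k + 1)) (R s ρ : ℝ) (Φ : Fam X k) : Prop where
  pos : 0 < ρ
  le : ρ ≤ s
  leR : ρ ≤ R
  nch : ∀ i, NCh Λ u κ R (Φ.C i) (Φ.r i) (Φ.a i) (Φ.b i)
  rng : ∀ i, (2 * Φ.r i) ^ (Φ.a i + Φ.b i) ≤ s
  lt : ∀ i, ρ ≤ Φ.r i
  W_open : ∀ i, IsOpen (Φ.W i)
  W_sub : ∀ i, Φ.W i ⊆ (Φ.C i).U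
  W_smul : ∀ i, ∀ x ∈ Φ.W i, ∀ c : ℂ, c ≠ 0 → c • x ∈ Φ.W i
  cover : ∀ q ∈ ball (0 : Vd (k + 1)) ρ, ∀ x ∈ X, u x - κ q ∈ Λ → ∃ i, x ∈ Φ.W i
  nch' : ∀ j, NCh Λ u κ R (Φ.C' j) (Φ.r' j) (Φ.a' j) (Φ.b' j)
  rng' : ∀ j, (2 * Φ.r' j) ^ (Φ.a' j + Φ.b' j) ≤ s
  t_pos : ∀ j, 0 < Φ.t j ∧ Φ.t j ≤ 2
  lt' : ∀ j, ρ ≤ Φ.r' j * Φ.t j
  sub : ∀ j i, (∃ q ∈ ball (0 : Vd (k + 2)) (Φ.t j), (Φ.C' j).σ q ∈ Φ.W i) → ∀ q ∈ ball (0 : Vd (k + 2)) 2, (Φ.C' j).σ q ∈ (Φ.C i).U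
  nest : ∀ j j', (∃ q ∈ ball (0 : Vd (k + 2)) (Φ.t j), ∃ q' ∈ ball (0 : Vd (k + 2)) (Φ.t j'), pr ((Φ.C' j).σ q) = pr ((Φ.C' j').σ q')) →
    (∀ q ∈ ball (0 : Vd (k + 2)) (Φ.t j), (Φ.C' j).σ q ∈ (Φ.C' j').U) ∨ (∀ q ∈ ball (0 : Vd (k + 2)) (Φ.t j'), (Φ.C' j').σ q ∈ (Φ.C' j).U)
  cover' : ∀ q ∈ ball (0 : Vd (k + 1)) ρ, ∀ x ∈ X, u x - κ q ∈ Λ → ∃ j, x ∈ (Φ.C' j).U ∧ (Φ.C' j).q x ∈ ball (0 : Vd (k + 2)) (Φ.t j)

/-- the slice of a straight chart over the arc -/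
noncomputable def sla (κ : Vd (k + 1) → Vd (k + 1)) (g : ℂ → Fin k → ℂ) (c' : Vd (k + 1)) (ρ : ℝ) (z₀ : ℂ) (r : ℝ) (y : ℂ × ℂ) : Vd (k + 2) :=
  Fin.cons (α := fun _ => ℂ) y.2 ((ρ : ℂ)⁻¹ • (ar κ g (z₀ + r * y.1) - c'))

end Pool.Agent.GX
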