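import Pool.Agent.TG.Y.Cr

/-!
# G3 X Hc: primitives along curves, local potentials

`exists_Hc`: copy of `Pool.Agent.TGY.exists_H` (`TG/Y/Hf.lean`) for an arbitrary curve in the tube.

`loc_pot`: the form with the coefficients `(bc χ A χ₀ (1, 0) + A₀, bc χ A χ₀ (0, 1))` is closed near `p₀`: near `p₀` the points `χ₀.σ p` are in `χ.U`, `mo b ρ i j (χ.q (χ₀.σ p)) = mo c₀ ρ₀ 1 0 p` (both are
`u (χ₀.σ p)` modulo `Λ`: `Mon.lift`, `TorusMap.smul`, and within `η` of `b`: `hinj`; see `ps_lift` in `EL/Ps.lean`), so `bc_closed` (`EL/Db`) and `IsPrim.der` give `∂₁ b₂ - ∂₂ b₁ = tc α χ₀ = ∂₂ A₀`.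
`exists_potential` (`EL/Prm`) on a small bidisc about `p₀` (translate: `p ↦ p₀ + p`); `bc_an`.
-/

set_option autoImplicit false

open Topology Filter Metric

namespace Pool.Agent.GXE

open Pool.Agent.H36.BP (EN fs wd IsGermChart)
open Pool.Agent.H14.PP (IsCone Chart Tan CurveAt jac)
open Pool.Agent.H62.EF (Lat MN pr TorusMap Charts DU)
open Pool.Agent.H62.EL

variable {N : ℕ} {X : Set (EN N)} {Λ : AddSubgroup ℂ} {u : EN N → ℂ}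

theorem exists_Hc {b : ℂ} {s η : ℝ} {T : TubeData X} (hT : TubeG Λ u b s η T) {A : Fin T.m → ℂ × ℂ → ℂ}
    (hA : ∀ k, ∀ p ∈ ball (0 : ℂ × ℂ) 2, AnalyticAt ℂ (A k) p) {lam : Fin T.m → EN N → ℂ} (hs : Split Λ u b s T A lam)
    {Φ : ℂ → EN N} {ζ : ℂ} {t t' : ℝ} (hΦ : DifferentiableOn ℂ Φ (ball ζ t)) (hΦX : ∀ ξ ∈ ball ζ t, Φ ξ ∈ X)
    (hΦb : ∀ ξ ∈ ball ζ t, ∃ z ∈ ball b s, u (Φ ξ) - z ∈ Λ) (ht : t' < t) :
    ∃ H : ℂ → ℂ, ∀ ξ ∈ ball ζ t', ∀ k, Φ ξ ∈ T.W k → HasDerivAt (fun w => H w + lam k (Φ w)) (bt (T.χ k) (A k) Φ ξ) ξ := by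
  have hFa : ∀ z ∈ ball ζ t, AnalyticAt ℂ Φ z := fun z hz => hΦ.analyticAt (isOpen_ball.mem_nhds hz)
  have hcv : ∀ z ∈ ball ζ t, CurveAt X Φ z := fun z hz => ⟨hFa z hz, by
    filter_upwards [isOpen_ball.mem_nhds hz] with w hw
    exact hΦX w hw⟩
  have hbt : ∀ k, ∀ z ∈ ball ζ t, Φ z ∈ T.W k → AnalyticAt ℂ (fun w => bt (T.χ k) (A k) Φ w) z := by
    intro k z hzt hz
    have hU : Φ z ∈ (T.χ k).U := hT.W_sub k hz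
    have hq : AnalyticAt ℂ (fun ξ => (T.χ k).q (Φ ξ)) z :=
      AnalyticAt.comp (g := (T.χ k).q) (f := Φ) ((T.χ k).q_an _ hU) (hFa z hzt)
    have hA' : AnalyticAt ℂ (fun ξ => A k ((T.χ k).q (Φ ξ))) z :=
      AnalyticAt.comp (g := A k) (f := fun ξ => (T.χ k).q (Φ ξ)) (hA k _ ((T.χ k).surj _ (hΦX z hzt) hU).1) hq
    have hd : AnalyticAt ℂ (fun ζ => (deriv (fun ξ => (T.χ k).q (Φ ξ)) ζ).1) z :=
      AnalyticAt.comp (g := Prod.fst) (f := deriv (fun ξ => (T.χ k).q (Φ ξ))) analyticAt_fst hq.deriv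
    unfold bt
    exact (hA'.mul hd).neg
  apply glue ht (fun H z => ∀ k, Φ z ∈ T.W k →
    HasDerivAt (fun w => H w + lam k (Φ w)) (bt (T.χ k) (A k) Φ z) z)
  · intro z hz
    obtain ⟨z', hz', hzu⟩ := hΦb z hz
    obtain ⟨k, hk⟩ := hT.cover z' hz' (Φ z) (hΦX z hz) hzu
    have ho : IsOpen (ball ζ t ∩ Φ ⁻¹' T.W k) :=
      hΦ.continuousOn.isOpen_inter_preimage isOpen_ball (hT.W_open k)
    obtain ⟨r, hr, hsub⟩ := Metric.isOpen_iff.1 ho z ⟨hz, hk⟩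
    have hex : DifferentiableOn ℂ (fun w => bt (T.χ k) (A k) Φ w) (ball z r) := fun w hw =>
      (hbt k w (hsub hw).1 (hsub hw).2).differentiableAt.differentiableWithinAt
    obtain ⟨P, hP⟩ := hex.isExactOn_ball
    refine ⟨r, fun w => P w - lam k (Φ w), hr, ?_⟩
    intro w hw l hl
    have h1 := hP w hw
    have h2 := hs.2 k l Φ w (hcv w (hsub hw).1) (hΦb w (hsub hw).1) (hsub hw).2 hl
    have h3 := h1.sub h2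
    have e1 : bt (T.χ k) (A k) Φ w - (bt (T.χ k) (A k) Φ w - bt (T.χ l) (A l) Φ w) = bt (T.χ l) (A l) Φ w := by
      ring
    rw [e1] at h3
    refine h3.congr_of_eventuallyEq (Eventually.of_forall fun ξ => ?_)
    simp only [Pi.sub_apply]
    ring
  · intro H H' z hz h h'
    obtain ⟨z', hz', hzu⟩ := hΦb z hz
    obtain ⟨k, hk⟩ := hT.cover z' hz' (Φ z) (hΦX z hz) hzu
    have h1 := (h k hk).sub (h' k hk)
    rw [sub_self] at h1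
    refine h1.congr_of_eventuallyEq (Eventually.of_forall fun ξ => ?_)
    simp only [Pi.sub_apply]
    ring
  · intro H H' z c h hc k hk
    have h1 := (h k hk).add_const c
    refine h1.congr_of_eventuallyEq ?_
    filter_upwards [hc] with ξ hξ
    rw [hξ]
    ring

/-- the lifts of `u` agree -/
private theorem hc_lift (hu : TorusMap X Λ u) {b c₀ : ℂ} {η : ℝ} (hinj : ∀ l ∈ Λ, ‖l‖ < 2 * η → l = 0)
    {χ χ₀ : Chart X} {ρ ρ₀ : ℝ} {i j : ℕ} (hm : Mon Λ u χ b ρ i j) (hm₀ : Mon Λ u χ₀ c₀ ρ₀ 1 0)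
    (hr : ∀ p ∈ ball (0 : ℂ × ℂ) 2, ‖mo b ρ i j p - b‖ < η)
    {p : ℂ × ℂ} (hp : p ∈ ball (0 : ℂ × ℂ) 2) (hU : χ₀.σ p ∈ χ.U) (hb : ‖c₀ + ρ₀ * p.1 - b‖ < η) :
    mo b ρ i j (χ.q (χ₀.σ p)) = mo c₀ ρ₀ 1 0 p := by
  obtain ⟨hτ, c, hc, hx⟩ := χ.surj _ (χ₀.σ_mem p hp).1 hU
  have h1 := hm₀.lift p hp
  have h2 := hm.lift _ hτ
  have h3 := hu.smul (χ.σ (χ.q (χ₀.σ p))) (χ.σ_mem _ hτ).1 c hc
  rw [← hx] at h3
  have h4 : mo b ρ i j (χ.q (χ₀.σ p)) - mo c₀ ρ₀ 1 0 p ∈ Λ := by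
    have h5 := Λ.sub_mem h1 (Λ.add_mem h3 h2)
    have h6 : u (χ₀.σ p) - mo c₀ ρ₀ 1 0 p - (u (χ₀.σ p) - u (χ.σ (χ.q (χ₀.σ p))) +
        (u (χ.σ (χ.q (χ₀.σ p))) - mo b ρ i j (χ.q (χ₀.σ p)))) =
        mo b ρ i j (χ.q (χ₀.σ p)) - mo c₀ ρ₀ 1 0 p := by ring
    rwa [h6] at h5
  have h9 : ‖mo c₀ ρ₀ 1 0 p - b‖ < η := by
    have h10 : mo c₀ ρ₀ 1 0 p = c₀ + ρ₀ * p.1 := by
      unfold mo
      ring
    rw [h10]
    exact hb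
  have h5 : ‖mo b ρ i j (χ.q (χ₀.σ p)) - mo c₀ ρ₀ 1 0 p‖ < 2 * η := by
    have h6 : mo b ρ i j (χ.q (χ₀.σ p)) - mo c₀ ρ₀ 1 0 p =
        (mo b ρ i j (χ.q (χ₀.σ p)) - b) - (mo c₀ ρ₀ 1 0 p - b) := by ring
    rw [h6]
    have h7 := norm_sub_le (mo b ρ i j (χ.q (χ₀.σ p)) - b) (mo c₀ ρ₀ 1 0 p - b)
    have h8 := hr _ hτ
    linarith
  exact sub_eq_zero.1 (hinj _ h4 h5)

private theorem hc_tr (f : ℂ × ℂ → ℂ) {a p : ℂ × ℂ} (hf : AnalyticAt ℂ f (a + p)) :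
    AnalyticAt ℂ (fun y => f (a + y)) p ∧ fderiv ℂ (fun y => f (a + y)) p = fderiv ℂ f (a + p) := by
  constructor
  · exact AnalyticAt.comp (g := f) (f := fun y => a + y) hf (analyticAt_const.add analyticAt_id)
  · exact fderiv_comp_add_left a

theorem loc_pot (hX : IsCone X) (hu : TorusMap X Λ u) {α : TForm X Λ u} {χ χ₀ : Chart X} {b c₀ : ℂ} {ρ ρ₀ η : ℝ} {i j : ℕ}
    (hinj : ∀ l ∈ Λ, ‖l‖ < 2 * η → l = 0) (hm : Mon Λ u χ b ρ i j) (hr : ∀ p ∈ ball (0 : ℂ × ℂ) 2, ‖mo b ρ i j p - b‖ < η)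
    (hm₀ : Mon Λ u χ₀ c₀ ρ₀ 1 0) {A A₀ : ℂ × ℂ → ℂ} (hA : IsPrim α χ (mo b ρ i j) A) (hA₀ : IsPrim α χ₀ (mo c₀ ρ₀ 1 0) A₀)
    {p₀ : ℂ × ℂ} (hp₀ : p₀ ∈ ball (0 : ℂ × ℂ) 2) (hU : χ₀.σ p₀ ∈ χ.U) (hb : ‖c₀ + ρ₀ * p₀.1 - b‖ < η) :
    ∃ ψ : ℂ × ℂ → ℂ, ∀ᶠ p in 𝓝 p₀, AnalyticAt ℂ ψ p ∧ fderiv ℂ ψ p (1, 0) = bc χ A χ₀ (1, 0) p + A₀ p ∧
      fderiv ℂ ψ p (0, 1) = bc χ A χ₀ (0, 1) p := by
  have hev : ∀ᶠ p in 𝓝 p₀, p ∈ ball (0 : ℂ × ℂ) 2 ∧ χ₀.σ p ∈ χ.U ∧ ‖c₀ + ρ₀ * p.1 - b‖ < η := by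
    have h1 := isOpen_ball.mem_nhds hp₀
    have h2 : ∀ᶠ p in 𝓝 p₀, χ₀.σ p ∈ χ.U :=
      (χ₀.σ_an p₀ hp₀).continuousAt.eventually (χ.isOpen_U.mem_nhds hU)
    have h3 : IsOpen {p : ℂ × ℂ | ‖c₀ + ρ₀ * p.1 - b‖ < η} := isOpen_lt (by fun_prop) continuous_const
    filter_upwards [h1, h2, h3.mem_nhds hb] with p h4 h5 h6
    exact ⟨h4, h5, h6⟩
  obtain ⟨r, hr0, hsub⟩ := Metric.eventually_nhds_iff_ball.1 hev
  have htr : ∀ p ∈ ball (0 : ℂ × ℂ) r, p₀ + p ∈ ball p₀ r := by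
    intro p hp
    rw [mem_ball_zero_iff] at hp
    rw [mem_ball, dist_eq_norm, add_sub_cancel_left]
    exact hp
  have hb1 : ∀ p ∈ ball p₀ r, AnalyticAt ℂ (bc χ A χ₀ (1, 0)) p := fun p hp =>
    bc_an χ χ₀ hA.an (hsub p hp).1 (hsub p hp).2.1 (1, 0)
  have hb2 : ∀ p ∈ ball p₀ r, AnalyticAt ℂ (bc χ A χ₀ (0, 1)) p := fun p hp =>
    bc_an χ χ₀ hA.an (hsub p hp).1 (hsub p hp).2.1 (0, 1)
  have hb3 : ∀ p ∈ ball p₀ r, AnalyticAt ℂ (fun y => bc χ A χ₀ (1, 0) y + A₀ y) p := fun p hp =>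
    (hb1 p hp).fun_add (hA₀.an p (hsub p hp).1)
  obtain ⟨ψ, -, hψ⟩ := exists_potential (R := r) (b₁ := fun p => bc χ A χ₀ (1, 0) (p₀ + p) + A₀ (p₀ + p))
    (b₂ := fun p => bc χ A χ₀ (0, 1) (p₀ + p)) (fun p hp => (hc_tr _ (hb3 _ (htr p hp))).1)
    (fun p hp => (hc_tr _ (hb2 _ (htr p hp))).1) (by
      intro p hp
      have hq := htr p hp
      obtain ⟨g1, g2, g3⟩ := hsub _ hq
      have h1 := bc_closed hX hu α χ χ₀ hA g1 g2 (hm₀.lift _ g1) (hc_lift hu hinj hm hm₀ hr g1 g2 g3)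
      have h2 := hA₀.der _ g1
      have h3 : fderiv ℂ (fun y => bc χ A χ₀ (1, 0) y + A₀ y) (p₀ + p) =
          fderiv ℂ (bc χ A χ₀ (1, 0)) (p₀ + p) + fderiv ℂ A₀ (p₀ + p) :=
        fderiv_fun_add (hb1 _ hq).differentiableAt (hA₀.an _ g1).differentiableAt
      have h4 := (hc_tr (fun y => bc χ A χ₀ (1, 0) y + A₀ y) (hb3 _ hq)).2
      have h5 := (hc_tr (bc χ A χ₀ (0, 1)) (hb2 _ hq)).2
      rw [h4, h5, h3, _root_.add_apply, h2, ← h1]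
      ring)
  refine ⟨fun p => ψ (p - p₀), ?_⟩
  filter_upwards [ball_mem_nhds p₀ hr0] with p hp
  have hp' : p - p₀ ∈ ball (0 : ℂ × ℂ) r := by
    rw [mem_ball, dist_eq_norm] at hp
    rw [mem_ball_zero_iff]
    exact hp
  obtain ⟨h1, h2, h3⟩ := hψ _ hp'
  have e1 : (fun y => ψ (y - p₀)) = fun y => ψ (-p₀ + y) := by
    funext y
    rw [sub_eq_neg_add]
  have e2 : p - p₀ = -p₀ + p := sub_eq_neg_add _ _
  rw [e2] at h1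
  have h4 := hc_tr ψ h1
  rw [← e1, ← e2] at h4
  refine ⟨h4.1, ?_, ?_⟩
  · rw [h4.2, h2]
    simp only [add_sub_cancel]
  · rw [h4.2, h3]
    simp only [add_sub_cancel]

end Pool.Agent.GXE
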