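import Pool.Agent.G3.X.Defs
import Pool.Agent.TG.Un
import Pool.Agent.TG.Prm

/-!
# G3 X IIa: the integral is holomorphic along an arc

Port of `Pool.Agent.TGY.II_analytic_on` (`TG/Y/Jan.lean`): `A` a primitive of the coefficient in `χ` (`TG.exists_prim` in `TG/Prm.lean`), near `z₀` the function is `(A (χ.q (H z)) - A (χ.q (F z))) / ρ ^ (k + 1)` by `TG.II_eq` (`γ z ∈ closedBall (γ z₀) r`, `dist (pr (F z)) (pr (F z₀)) + ε ≤ r`).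
-/

set_option autoImplicit false

open Topology Filter Metric

namespace Pool.Agent.GX

open Pool.Agent.H36.BP (EN fs wd)
open Pool.Agent.H14.PP (IsCone CurveAt Tan)
open Pool.Agent.H62.EF (MN pr)
open Pool.Agent.AD (Vd Chart Charts IsGerm)
open Pool.Agent.TG (TMap Lat tl nm IsStr IsNC IsCoord Geo VForm ms Str IsPrim Cap IRel II TransAt Gd Cst DV fr tc)

variable {N k : ℕ}

variable {X : Set (EN N)} {Λ : AddSubgroup (Vd (k + 1))} {u : EN N → Vd (k + 1)} {D B : Set (Vd (k + 1))}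
  {κ ψ : Vd (k + 1) → Vd (k + 1)} {R : ℝ} {g : ℂ → Fin k → ℂ} {Γ₀ : AddSubgroup ℂ} {s : ℝ}

theorem II_arc (hX : IsCone X) (hu : TMap X Λ u) (hΛ : Lat Λ) {α : VForm X Λ u} {ε r : ℝ} {γ : ℂ → Vd (k + 1)} {F H : ℂ → EN N} {z₀ : ℂ}
    (hγ : ContinuousAt γ z₀) (hF : AnalyticAt ℂ F z₀) (hH : AnalyticAt ℂ H z₀) (hF' : ∀ᶠ z in 𝓝 z₀, F z ∈ X ∧ u (F z) - γ z ∈ Λ)
    (hH' : ∀ᶠ z in 𝓝 z₀, H z ∈ X ∧ u (H z) - γ z ∈ Λ) {χ : Chart (k + 2) X} {c : Vd (k + 1)} {ρ : ℝ} (hc : Cap Λ u χ c ρ (γ z₀) (pr (F z₀)) r)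
    (hr : ε < r) (hrel : ∀ᶠ z in 𝓝 z₀, ∃ v, IRel α ε (γ z) (pr (F z)) (pr (H z)) v) :
    AnalyticAt ℂ (fun z => II α ε (γ z) (pr (F z)) (pr (H z))) z₀ := by
  obtain ⟨A, hA⟩ := Pool.Agent.TG.exists_prim α χ hc.str
  obtain ⟨v₀, hv₀⟩ := hrel.self_of_nhds
  obtain ⟨-, -, hfg⟩ := hv₀.mem
  have hε : 0 ≤ ε := dist_nonneg.trans hfg
  have hr0 : 0 < r := lt_of_le_of_lt hε hr
  obtain ⟨hFX, hFu⟩ := hF'.self_of_nhds
  obtain ⟨hHX, hHu⟩ := hH'.self_of_nhds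
  have hF0 : F z₀ ≠ 0 := fun h => hX.zero_notMem (h ▸ hFX)
  have hsub : closedBall (0 : Vd (k + 2)) 1 ⊆ ball (0 : Vd (k + 2)) 2 := closedBall_subset_ball (by norm_num)
  have hy₀r : γ z₀ ∈ closedBall (γ z₀) r := mem_closedBall_self hr0.le
  obtain ⟨hFU, hFq, -⟩ := hc.cap (γ z₀) hy₀r (F z₀) hFX hFu (by rw [dist_self]; exact hr0.le)
  obtain ⟨hHU, hHq, -⟩ := hc.cap (γ z₀) hy₀r (H z₀) hHX hHu (hfg.trans hr.le)
  have a1 : AnalyticAt ℂ (fun z => A (χ.q (F z))) z₀ :=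
    AnalyticAt.comp (f := fun z => χ.q (F z)) (g := A) (hA.an _ (hsub hFq))
      (AnalyticAt.comp (f := F) (g := χ.q) (χ.q_an _ hFU) hF)
  have a2 : AnalyticAt ℂ (fun z => A (χ.q (H z))) z₀ :=
    AnalyticAt.comp (f := fun z => χ.q (H z)) (g := A) (hA.an _ (hsub hHq))
      (AnalyticAt.comp (f := H) (g := χ.q) (χ.q_an _ hHU) hH)
  have hρ : (ρ : ℂ) ^ (k + 1) ≠ 0 := by
    have := hc.str.pos
    exact pow_ne_zero _ (by exact_mod_cast this.ne')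
  have a3 : AnalyticAt ℂ (fun z => (A (χ.q (H z)) - A (χ.q (F z))) / (ρ : ℂ) ^ (k + 1)) z₀ := (a2.sub a1).div analyticAt_const hρ
  refine a3.congr ?_
  have e3 : ∀ᶠ z in 𝓝 z₀, γ z ∈ closedBall (γ z₀) r := hγ.eventually (closedBall_mem_nhds _ hr0)
  have e4 : ∀ᶠ z in 𝓝 z₀, dist (pr (F z)) (pr (F z₀)) < r - ε := by
    have h1 : ContinuousAt (fun z => pr (F z)) z₀ := ContinuousAt.comp (f := F) (g := pr)
      (Pool.Agent.H62.EF.continuousAt_pr hF0) hF.continuousAt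
    exact h1.eventually (ball_mem_nhds _ (by linarith))
  filter_upwards [e3, e4, hrel, hF', hH'] with z h3 h4 h5 h6 h7
  exact (Pool.Agent.TG.II_eq hX hu hΛ h5 hc hA h3 (by linarith) h6.1 h7.1 rfl rfl).symm

end Pool.Agent.GX
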