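import Mathlib

/-!
# G3 X Inv: the inverse of a small perturbation of a function with `ξ₀ 0 = 0`, `ξ₀' 0 = a ≠ 0`

`S₁ ≤ S` such that `ξ₀` is differentiable on `ball 0 S₁` and `‖deriv ξ₀ z - a‖ ≤ ‖a‖ / 20` there.  For `ξ` as stated and `z ∈ ball 0 (S₁ / 2)`: `‖deriv ξ z - deriv ξ₀ z‖ ≤ δ / (S₁ / 2) ≤ ‖a‖ / 50` (Cauchy,
`Complex.norm_deriv_le_of_forall_mem_sphere_norm_le`, on circles of radius `< S₁ / 2`), so `‖deriv ξ z - a‖ ≤ ‖a‖ / 10` and on the convex set `ball 0 (S₁ / 2)` the function `ξ z - a z` is Lipschitz with the constant `‖a‖ / 10`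
(`Convex.norm_image_sub_le_of_norm_deriv_le`): the two inequalities.
`θ`: `ξ` is injective with nonvanishing derivative on `ball 0 (S₁ / 2)`, and its image contains `ball 0 (‖a‖ S₁ / 4)`: for `w` in it the map `z ↦ z - (ξ z - w) / a` maps `closedBall 0 (2 S₁ / 5)` into itself (`‖ξ 0‖ ≤ δ ≤ ‖a‖ S₁ / 100`) and is a contraction with the constant `1/10`
(`ContractingWith`), or `ApproximatesLinearOn.surjOn_closedBall_of_nonlinearRightInverse`.  The inverse function is continuous (expansion) and differentiable (`HasDerivAt.of_local_left_inverse`).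
-/

set_option autoImplicit false

open Topology Filter Metric

namespace Pool.Agent.GX

theorem exists_inv {ξ₀ : ℂ → ℂ} {a : ℂ} (ha : a ≠ 0) (h : AnalyticAt ℂ ξ₀ 0) (h0 : ξ₀ 0 = 0) (hd : deriv ξ₀ 0 = a) {S : ℝ} (hS : 0 < S) :
    ∃ S₁ : ℝ, 0 < S₁ ∧ S₁ ≤ S ∧ DifferentiableOn ℂ ξ₀ (ball 0 S₁) ∧ ∀ (δ : ℝ) (ξ : ℂ → ℂ), δ ≤ ‖a‖ * S₁ / 100 → DifferentiableOn ℂ ξ (ball 0 S₁) →
      (∀ z ∈ ball (0 : ℂ) S₁, ‖ξ z - ξ₀ z‖ ≤ δ) →
      (∀ z ∈ ball (0 : ℂ) (S₁ / 2), ∀ w ∈ ball (0 : ℂ) (S₁ / 2), 9 / 10 * ‖a‖ * ‖z - w‖ ≤ ‖ξ z - ξ w‖ ∧ ‖ξ z - ξ w‖ ≤ 11 / 10 * ‖a‖ * ‖z - w‖) ∧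
      ∃ θ : ℂ → ℂ, DifferentiableOn ℂ θ (ball 0 (‖a‖ * S₁ / 4)) ∧ (∀ w ∈ ball (0 : ℂ) (‖a‖ * S₁ / 4), θ w ∈ ball (0 : ℂ) (S₁ / 2) ∧ ξ (θ w) = w) ∧
        ∀ z ∈ ball (0 : ℂ) (S₁ / 2), ξ z ∈ ball (0 : ℂ) (‖a‖ * S₁ / 4) → θ (ξ z) = z := by
  have ha' : 0 < ‖a‖ := norm_pos_iff.2 ha
  -- the radius
  have e1 : ∀ᶠ z in 𝓝 (0 : ℂ), AnalyticAt ℂ ξ₀ z ∧ ‖deriv ξ₀ z - a‖ < ‖a‖ / 20 := by
    have h1 : ContinuousAt (fun z => ‖deriv ξ₀ z - a‖) 0 := (h.deriv.continuousAt.sub continuousAt_const).norm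
    have h2 : ∀ᶠ z in 𝓝 (0 : ℂ), ‖deriv ξ₀ z - a‖ < ‖a‖ / 20 := by
      refine h1.eventually_lt_const ?_
      show ‖deriv ξ₀ 0 - a‖ < ‖a‖ / 20
      rw [hd, sub_self, norm_zero]
      positivity
    exact h.eventually_analyticAt.and h2
  obtain ⟨S₂, hS₂, hb⟩ := Metric.eventually_nhds_iff_ball.1 e1
  refine ⟨min S S₂, lt_min hS hS₂, min_le_left _ _, fun z hz => (hb z (ball_subset_ball (min_le_right _ _) hz)).1.differentiableAt.differentiableWithinAt, ?_⟩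
  have hb' : ∀ z ∈ ball (0 : ℂ) (min S S₂), AnalyticAt ℂ ξ₀ z ∧ ‖deriv ξ₀ z - a‖ < ‖a‖ / 20 := fun z hz => hb z (ball_subset_ball (min_le_right _ _) hz)
  have hS₁ : 0 < min S S₂ := lt_min hS hS₂
  clear hb e1
  generalize min S S₂ = S₁ at hb' hS₁ ⊢
  intro δ ξ hδ hξ hξξ
  have hfd : DifferentiableOn ℂ (fun z => ξ z - ξ₀ z) (ball 0 S₁) := fun z hz => (hξ z hz).sub (hb' z hz).1.differentiableAt.differentiableWithinAt
  have hsub : ∀ z ∈ ball (0 : ℂ) (S₁ / 2), z ∈ ball (0 : ℂ) S₁ := fun z hz => ball_subset_ball (by linarith) hz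
  have hξa : ∀ z ∈ ball (0 : ℂ) (S₁ / 2), HasDerivAt ξ (deriv ξ z) z := fun z hz =>
    ((hξ z (hsub z hz)).differentiableAt (isOpen_ball.mem_nhds (hsub z hz))).hasDerivAt
  have hder : ∀ z ∈ ball (0 : ℂ) (S₁ / 2), ‖deriv ξ z - a‖ ≤ ‖a‖ / 10 := by
    intro z hz
    have hcl : closedBall z (S₁ / 2) ⊆ ball (0 : ℂ) S₁ := by
      intro w hw
      rw [mem_closedBall, dist_eq_norm] at hw
      rw [mem_ball_zero_iff] at hz ⊢
      have := norm_add_le (w - z) z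
      rw [sub_add_cancel] at this
      linarith
    have h1 : DiffContOnCl ℂ (fun z => ξ z - ξ₀ z) (ball z (S₁ / 2)) := by
      refine DifferentiableOn.diffContOnCl ?_
      rw [closure_ball z (by positivity : S₁ / 2 ≠ 0)]
      exact hfd.mono hcl
    have h2 := Complex.norm_deriv_le_of_forall_mem_sphere_norm_le (by positivity : 0 < S₁ / 2) h1 (C := δ) (fun w hw => hξξ w (hcl (sphere_subset_closedBall hw)))
    have h3 : deriv (fun z => ξ z - ξ₀ z) z = deriv ξ z - deriv ξ₀ z := ((hξa z hz).sub (hb' z (hsub z hz)).1.differentiableAt.hasDerivAt).deriv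
    rw [h3] at h2
    have h4 : δ / (S₁ / 2) ≤ ‖a‖ / 50 := by
      rw [div_le_iff₀ (by positivity)]
      linarith
    have h5 : deriv ξ z - a = (deriv ξ z - deriv ξ₀ z) + (deriv ξ₀ z - a) := by ring
    rw [h5]
    have h6 := norm_add_le (deriv ξ z - deriv ξ₀ z) (deriv ξ₀ z - a)
    have h7 := (hb' z (hsub z hz)).2
    linarith
  have hne : ∀ z ∈ ball (0 : ℂ) (S₁ / 2), deriv ξ z ≠ 0 := by
    intro z hz h0'
    have h1 := hder z hz
    rw [h0', zero_sub, norm_neg] at h1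
    linarith
  -- the function `ξ z - a z` is Lipschitz
  have hlip : ∀ z ∈ ball (0 : ℂ) (S₁ / 2), ∀ w ∈ ball (0 : ℂ) (S₁ / 2), ‖(ξ z - a * z) - (ξ w - a * w)‖ ≤ ‖a‖ / 10 * ‖z - w‖ := by
    intro z hz w hw
    have h1 : ∀ y ∈ ball (0 : ℂ) (S₁ / 2), HasDerivAt (fun z => ξ z - a * z) (deriv ξ y - a) y := by
      intro y hy
      have h2 : HasDerivAt (fun z : ℂ => a * z) a y := by
        have := (hasDerivAt_id y).const_mul a
        rwa [mul_one] at this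
      exact (hξa y hy).sub h2
    exact (convex_ball (0 : ℂ) (S₁ / 2)).norm_image_sub_le_of_norm_deriv_le (f := fun z => ξ z - a * z) (fun y hy => (h1 y hy).differentiableAt)
      (fun y hy => by rw [(h1 y hy).deriv]; exact hder y hy) hw hz
  have hexp : ∀ z ∈ ball (0 : ℂ) (S₁ / 2), ∀ w ∈ ball (0 : ℂ) (S₁ / 2), 9 / 10 * ‖a‖ * ‖z - w‖ ≤ ‖ξ z - ξ w‖ ∧ ‖ξ z - ξ w‖ ≤ 11 / 10 * ‖a‖ * ‖z - w‖ := by
    intro z hz w hw
    have h1 := hlip z hz w hw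
    have h2 : (ξ z - a * z) - (ξ w - a * w) = (ξ z - ξ w) - a * (z - w) := by ring
    rw [h2] at h1
    have h3 : ‖a * (z - w)‖ = ‖a‖ * ‖z - w‖ := norm_mul _ _
    have h4 : ‖a * (z - w)‖ ≤ ‖ξ z - ξ w‖ + ‖(ξ z - ξ w) - a * (z - w)‖ := by
      have := norm_sub_le (ξ z - ξ w) ((ξ z - ξ w) - a * (z - w))
      rwa [sub_sub_cancel] at this
    have h5 : ‖ξ z - ξ w‖ ≤ ‖(ξ z - ξ w) - a * (z - w)‖ + ‖a * (z - w)‖ := by
      have := norm_add_le ((ξ z - ξ w) - a * (z - w)) (a * (z - w))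
      rwa [sub_add_cancel] at this
    constructor
    · linarith
    · linarith
  refine ⟨hexp, ?_⟩
  have hinj : ∀ z ∈ ball (0 : ℂ) (S₁ / 2), ∀ w ∈ ball (0 : ℂ) (S₁ / 2), ξ z = ξ w → z = w := by
    intro z hz w hw hzw
    have h1 := (hexp z hz w hw).1
    rw [hzw, sub_self, norm_zero] at h1
    have h2 : ‖z - w‖ = 0 := by
      by_contra hcon
      have h3 : 0 < ‖z - w‖ := lt_of_le_of_ne (norm_nonneg _) (Ne.symm hcon)
      have : 0 < 9 / 10 * ‖a‖ * ‖z - w‖ := by positivity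
      linarith
    exact sub_eq_zero.1 (norm_eq_zero.1 h2)
  -- the inverse, by the contraction principle
  have hex : ∀ w ∈ ball (0 : ℂ) (‖a‖ * S₁ / 4), ∃ z : ℂ, z ∈ ball (0 : ℂ) (S₁ / 2) ∧ ξ z = w := by
    intro w hw
    rw [mem_ball_zero_iff] at hw
    set K : Set ℂ := closedBall 0 (2 * S₁ / 5) with hK
    have hKs : K ⊆ ball (0 : ℂ) (S₁ / 2) := closedBall_subset_ball (by linarith)
    have h0K : (0 : ℂ) ∈ K := mem_closedBall_self (by positivity)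
    have hF0 : ‖ξ 0‖ ≤ ‖a‖ * S₁ / 100 := by
      have h1 := hξξ 0 (mem_ball_self hS₁)
      rw [h0, sub_zero] at h1
      exact h1.trans hδ
    have hmaps : Set.MapsTo (fun z => (w - (ξ z - a * z)) / a) K K := by
      intro z hz
      have h1 := hlip z (hKs hz) 0 (hKs h0K)
      rw [mul_zero, sub_zero, sub_zero] at h1
      rw [hK, mem_closedBall_zero_iff] at hz
      rw [hK, mem_closedBall_zero_iff, norm_div, div_le_iff₀ ha']
      have h2 : ‖w - (ξ z - a * z)‖ ≤ ‖w‖ + ‖ξ z - a * z‖ := norm_sub_le _ _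
      have h3 : ‖ξ z - a * z‖ ≤ ‖(ξ z - a * z) - ξ 0‖ + ‖ξ 0‖ := by
        have := norm_add_le ((ξ z - a * z) - ξ 0) (ξ 0)
        rwa [sub_add_cancel] at this
      have h4 : ‖a‖ / 10 * ‖z‖ ≤ ‖a‖ / 10 * (2 * S₁ / 5) := mul_le_mul_of_nonneg_left hz (by positivity)
      have h5 : 0 < ‖a‖ * S₁ := by positivity
      nlinarith
    have hcon : ContractingWith (1 / 10 : NNReal) (hmaps.restrict (fun z => (w - (ξ z - a * z)) / a) K K) := by
      refine ⟨?_, ?_⟩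
      · rw [← NNReal.coe_lt_coe]
        push_cast
        norm_num
      · refine LipschitzWith.of_dist_le_mul fun x y => ?_
        rw [Subtype.dist_eq, Subtype.dist_eq, dist_eq_norm, dist_eq_norm]
        have h1 := hlip y.1 (hKs y.2) x.1 (hKs x.2)
        have h2 : ((hmaps.restrict (fun z => (w - (ξ z - a * z)) / a) K K) x : ℂ) - ((hmaps.restrict (fun z => (w - (ξ z - a * z)) / a) K K) y : ℂ) =
            ((ξ y.1 - a * y.1) - (ξ x.1 - a * x.1)) / a := by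
          simp only [Set.MapsTo.val_restrict_apply]
          ring
        rw [h2, norm_div, div_le_iff₀ ha']
        push_cast
        rw [norm_sub_rev x.1 y.1]
        linarith
    obtain ⟨z, hz, hfix, -⟩ := hcon.exists_fixedPoint' isClosed_closedBall.isComplete hmaps h0K (edist_ne_top _ _)
    have hfix' : (w - (ξ z - a * z)) / a = z := hfix
    refine ⟨z, hKs hz, ?_⟩
    rw [div_eq_iff ha] at hfix'
    linear_combination -hfix'
  choose! θ h1 h2 using hex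
  have hinv : ∀ z ∈ ball (0 : ℂ) (S₁ / 2), ξ z ∈ ball (0 : ℂ) (‖a‖ * S₁ / 4) → θ (ξ z) = z := fun z hz hw => hinj _ (h1 _ hw) _ hz (h2 _ hw)
  have hcont : ContinuousOn θ (ball 0 (‖a‖ * S₁ / 4)) := by
    refine (LipschitzOnWith.of_dist_le_mul (K := ⟨10 / 9 / ‖a‖, by positivity⟩) fun x hx y hy => ?_).continuousOn
    rw [dist_eq_norm, dist_eq_norm]
    have h3 := (hexp _ (h1 x hx) _ (h1 y hy)).1
    rw [h2 x hx, h2 y hy] at h3
    show ‖θ x - θ y‖ ≤ 10 / 9 / ‖a‖ * ‖x - y‖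
    calc ‖θ x - θ y‖ = 10 / 9 / ‖a‖ * (9 / 10 * ‖a‖ * ‖θ x - θ y‖) := by field_simp
      _ ≤ _ := mul_le_mul_of_nonneg_left h3 (by positivity)
  refine ⟨θ, fun w hw => ?_, fun w hw => ⟨h1 w hw, h2 w hw⟩, hinv⟩
  have h4 : ContinuousAt θ w := hcont.continuousAt (isOpen_ball.mem_nhds hw)
  have h5 : ∀ᶠ v in 𝓝 w, ξ (θ v) = v := by
    filter_upwards [isOpen_ball.mem_nhds hw] with v hv
    exact h2 v hv
  exact (HasDerivAt.of_local_left_inverse h4 (hξa _ (h1 w hw)) (hne _ (h1 w hw)) h5).differentiableAt.differentiableWithinAt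

end Pool.Agent.GX
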