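import Pool.Agent.G3.X.Defs
import Pool.Agent.H62.BU.Inv

/-!
# G3 X KpE: the coordinates exist

`ψ` from `Pool.Agent.H62.BU.local_inverse` for `κ` at `0` (`IsCoord.an`, `inj`).  Choose `r₁ > 0` such that `ψ` is analytic and `κ (ψ y) = y` for `y ∈ ball p r₁`; then `R > 0` such that for `q ∈ ball 0 R`: `κ` is analytic at `q`, `ψ (κ q) = q`, `IsCoord.mem_iff`, `κ q ∈ ball p (min r₁ (δ / 2))` (`δ` from `Lat.disc`):
then `κ q - κ q' ∈ Λ` has norm `< δ`, so it is `0` and `q = ψ (κ q) = q'`.  `r₀`: `ψ y ∈ ball 0 R` for `y ∈ ball p r₀`, `r₀ ≤ r₁` (continuity of `ψ` at `p`, `ψ p = 0`).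
-/

set_option autoImplicit false

open Topology Filter Metric

namespace Pool.Agent.GX

open Pool.Agent.H36.BP (EN fs wd)
open Pool.Agent.H14.PP (IsCone CurveAt Tan)
open Pool.Agent.H62.EF (MN pr)
open Pool.Agent.AD (Vd Chart Charts IsGerm)
open Pool.Agent.TG (TMap Lat tl nm IsStr IsNC IsCoord Geo VForm ms Str IsPrim Cap IRel II TransAt Gd Cst DV fr tc)

variable {N k : ℕ}

variable {X : Set (EN N)} {Λ : AddSubgroup (Vd (k + 1))} {u : EN N → Vd (k + 1)} {D B : Set (Vd (k + 1))}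
  {κ ψ : Vd (k + 1) → Vd (k + 1)} {R : ℝ} {g : ℂ → Fin k → ℂ} {Γ₀ : AddSubgroup ℂ} {s : ℝ}

theorem exists_kp (G : Geo X Λ u D B) {p : Vd (k + 1)} (hκ : IsCoord D κ p) :
    ∃ (ψ : Vd (k + 1) → Vd (k + 1)) (R r₀ : ℝ), Kp X Λ u D κ ψ R ∧ 0 < r₀ ∧
      ∀ y ∈ ball p r₀, AnalyticAt ℂ ψ y ∧ ψ y ∈ ball (0 : Vd (k + 1)) R ∧ κ (ψ y) = y := by
  have hκ0 : κ 0 = p := hκ.zero
  obtain ⟨ψ, hψ, hψκ, hκψ, hψ0⟩ := Pool.Agent.H62.BU.local_inverse hκ.an fun v hv => hκ.inj (by rw [hv, map_zero])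
  rw [hκ0] at hψ hκψ hψ0
  obtain ⟨δ, hδ, hΛ⟩ := G.lat.disc
  -- a ball around `p`
  have hS : ∀ᶠ y in 𝓝 p, AnalyticAt ℂ ψ y ∧ ∀ᶠ y' in 𝓝 y, κ (ψ y') = y' := hψ.eventually_analyticAt.and (eventually_eventually_nhds.mpr hκψ)
  obtain ⟨r₁, hr₁, hb₁⟩ := Metric.mem_nhds_iff.mp hS
  -- a ball around `0`
  have hκc : Tendsto κ (𝓝 0) (𝓝 p) := by
    have := hκ.an.continuousAt.tendsto
    rwa [hκ0] at this
  have hQ : ∀ᶠ q in 𝓝 (0 : Vd (k + 1)), AnalyticAt ℂ κ q ∧ ψ (κ q) = q ∧ (κ q ∈ D ↔ q 0 = 0) ∧ κ q ∈ ball p (min r₁ (δ / 2)) := by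
    filter_upwards [hκ.an.eventually_analyticAt, hψκ, hκ.mem_iff, hκc.eventually (ball_mem_nhds p (lt_min hr₁ (half_pos hδ)))] with q h1 h2 h3 h4
    exact ⟨h1, h2, h3, h4⟩
  obtain ⟨R, hR, hbR⟩ := Metric.mem_nhds_iff.mp hQ
  -- the radius `r₀`
  have hψc : Tendsto ψ (𝓝 p) (𝓝 0) := by
    have := hψ.continuousAt.tendsto
    rwa [hψ0] at this
  obtain ⟨r₂, hr₂, hb₂⟩ := Metric.mem_nhds_iff.mp (hψc.eventually (ball_mem_nhds (0 : Vd (k + 1)) hR))
  refine ⟨ψ, R, min r₁ r₂, ?_, lt_min hr₁ hr₂, ?_⟩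
  · have hbd : ∀ q ∈ ball (0 : Vd (k + 1)) R, κ q ∈ ball p r₁ := fun q hq => ball_subset_ball (min_le_left _ _) (hbR hq).2.2.2
    exact
      { cone := G.cone
        charts := G.charts
        tor := G.tor
        lat := G.lat
        sub := G.sub
        pos := hR
        κ_an := fun q hq => (hbR hq).1
        ψ_an := fun q hq => (hb₁ (hbd q hq)).1
        ψ_κ := fun q hq => (hbR hq).2.1
        κ_ψ := fun q hq => (hb₁ (hbd q hq)).2
        inj := by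
          intro q hq q' hq' hqq
          have h1 : ‖κ q - p‖ < δ / 2 := by
            have := (mem_ball.mp (hbR hq).2.2.2).trans_le (min_le_right _ _)
            rwa [dist_eq_norm] at this
          have h2 : ‖κ q' - p‖ < δ / 2 := by
            have := (mem_ball.mp (hbR hq').2.2.2).trans_le (min_le_right _ _)
            rwa [dist_eq_norm] at this
          have h3 : ‖κ q - κ q'‖ < δ := by
            have h4 : κ q - κ q' = (κ q - p) - (κ q' - p) := by abel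
            rw [h4]
            have := norm_sub_le (κ q - p) (κ q' - p)
            linarith
          have h4 : κ q = κ q' := sub_eq_zero.mp (hΛ _ hqq h3)
          rw [← (hbR hq).2.1, ← (hbR hq').2.1, h4]
        mem_iff := fun q hq => (hbR hq).2.2.1 }
  · intro y hy
    have h1 := hb₁ (ball_subset_ball (min_le_left _ _) hy)
    exact ⟨h1.1, hb₂ (ball_subset_ball (min_le_right _ _) hy), h1.2.self_of_nhds⟩

end Pool.Agent.GX
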