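import Pool.Agent.G3.X.Defs
import Pool.Agent.TG.Y.LnE
import Pool.Agent.H62.BU.Inv

/-!
# G3 X LnC: coordinates in which the line is `{q_1 = .. = q_k = 0}`

`κ₀` from `G.nc p`.  `ψ₀` a local inverse of `κ₀` at `p`, `c z = ψ₀ (p + z • e)`, `ξ₀ z = c z 0`: `deriv ξ₀ 0 ≠ 0` by `TransAt` (see `hcne` in `TG/Y/LnE.lean`), `θ₀` a local inverse of `ξ₀` at `0`, `h w j = c (θ₀ w) j.succ` (analytic at `0`, `h 0 = 0`; outside of the region where it is analytic its values do not matter).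
`shear h q = cons (q 0) (fun j => q j.succ + h (q 0) j)`, `κ = κ₀ ∘ shear h`: near `0` `κ (cons (ξ₀ z) 0) = κ₀ (cons (ξ₀ z) (h (ξ₀ z))) = κ₀ (c z) = p + z • e`.
`isCoord_shear`: `shear h` is analytic at `0`, `shear h 0 = 0`, its derivative at `0` is injective (`v 0` and then the rest), `(shear h q) 0 = q 0`.
`isNC_shear`: let `σ, τ, a, b` be from `IsNC X Λ u κ₀ x`; `sh q = cons (q 0) (cons (q 1) (fun j => q j.succ.succ + h (q 0 ^ a * q 1 ^ b) j))`, inverse `sh'` with `- h`: `σ' = σ ∘ sh`, `τ' = sh' ∘ τ`: `u (σ' q) - κ₀ (nm a b (sh q)) ∈ Λ` and `nm a b (sh q) = shear h (nm a b q)`.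
-/

set_option autoImplicit false

open Topology Filter Metric

namespace Pool.Agent.GX

open Pool.Agent.H36.BP (EN fs wd)
open Pool.Agent.H14.PP (IsCone CurveAt Tan)
open Pool.Agent.H62.EF (MN pr)
open Pool.Agent.AD (Vd Chart Charts IsGerm)
open Pool.Agent.TG (TMap Lat tl nm IsStr IsNC IsCoord Geo VForm ms Str IsPrim Cap IRel II TransAt Gd Cst DV fr tc)

variable {N k : ℕ}

variable {X : Set (EN N)} {Λ : AddSubgroup (Vd (k + 1))} {u : EN N → Vd (k + 1)} {D B : Set (Vd (k + 1))}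
  {κ ψ : Vd (k + 1) → Vd (k + 1)} {R : ℝ} {g : ℂ → Fin k → ℂ} {Γ₀ : AddSubgroup ℂ} {s : ℝ}

/-- the shear with the graph of `h` -/
def shear (h : ℂ → Fin k → ℂ) (q : Vd (k + 1)) : Vd (k + 1) := Fin.cons (α := fun _ => ℂ) (q 0) fun j => q j.succ + h (q 0) j

private theorem an_proj {d : ℕ} (i : Fin d) (x : Vd d) : AnalyticAt ℂ (fun q : Vd d => q i) x :=
  (ContinuousLinearMap.proj (R := ℂ) (φ := fun _ : Fin d => ℂ) i).analyticAt x

private theorem an_cons {d : ℕ} {E : Type*} [NormedAddCommGroup E] [NormedSpace ℂ E] {f : E → ℂ} {g : E → Fin d → ℂ} {x : E} (hf : AnalyticAt ℂ f x)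
    (hg : ∀ j, AnalyticAt ℂ (fun q => g q j) x) : AnalyticAt ℂ (fun q => (Fin.cons (α := fun _ => ℂ) (f q) (g q) : Vd (d + 1))) x := by
  refine analyticAt_pi_iff.2 fun i => ?_
  refine Fin.cases ?_ (fun j => ?_) i
  · exact hf
  · exact hg j

private theorem fderiv_inj {d : ℕ} {S S' : Vd d → Vd d} (hS : AnalyticAt ℂ S 0) (hS' : AnalyticAt ℂ S' 0) (S0 : S 0 = 0)
    (h2 : ∀ q, S' (S q) = q) : Function.Injective (fderiv ℂ S 0) := by
  have h3 : HasFDerivAt (fun q => S' (S q)) ((fderiv ℂ S' 0).comp (fderiv ℂ S 0)) 0 := by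
    have h4 : HasFDerivAt S' (fderiv ℂ S' 0) (S 0) := by
      rw [S0]
      exact hS'.differentiableAt.hasFDerivAt
    exact h4.comp 0 hS.differentiableAt.hasFDerivAt
  have h5 : HasFDerivAt (fun q => S' (S q)) (ContinuousLinearMap.id ℂ (Vd d)) 0 := by
    have h6 : (fun q => S' (S q)) = fun q => q := funext h2
    rw [h6]
    exact hasFDerivAt_id (𝕜 := ℂ) (0 : Vd d)
  have h7 := h3.unique h5
  intro v w hvw
  have h8 := congrArg (fun L : Vd d →L[ℂ] Vd d => L v) h7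
  have h9 := congrArg (fun L : Vd d →L[ℂ] Vd d => L w) h7
  simp only [ContinuousLinearMap.comp_apply, ContinuousLinearMap.id_apply] at h8 h9
  rw [← h8, ← h9, hvw]

private theorem germ_comp {d : ℕ} {σ : Vd d → EN N} {τ : EN N → Vd d} (h : IsGerm X σ τ) {S S' : Vd d → Vd d} (hS : AnalyticAt ℂ S 0)
    (hS' : AnalyticAt ℂ S' 0) (S0 : S 0 = 0) (h1 : ∀ q, S (S' q) = q) (h2 : ∀ q, S' (S q) = q) :
    IsGerm X (fun q => σ (S q)) (fun y => S' (τ y)) := by
  have t : Tendsto S (𝓝 0) (𝓝 0) := by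
    have := hS.continuousAt.tendsto
    rwa [S0] at this
  have hτ : τ (σ 0) = 0 := h.left.self_of_nhds
  refine ⟨?_, t.eventually h.σ_mem, ?_, ?_, ?_, ?_⟩
  · refine AnalyticAt.fun_comp (g := σ) (f := S) ?_ hS
    rw [S0]
    exact h.σ_an
  · rw [S0]
    refine AnalyticAt.fun_comp (g := S') (f := τ) ?_ h.τ_an
    rw [hτ]
    exact hS'
  · filter_upwards [t.eventually h.left] with q hq
    rw [hq, h2]
  · rw [S0]
    filter_upwards [h.right] with y hy hyX
    rw [h1]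
    exact hy hyX
  · rw [S0]
    filter_upwards [h.inv] with z hz
    rw [hz]

private theorem shear_shear (h : ℂ → Fin k → ℂ) (q : Vd (k + 1)) : shear (fun w => -h w) (shear h q) = q := by
  funext i
  refine Fin.cases rfl (fun j => ?_) i
  show q j.succ + h (q 0) j + -h (q 0) j = q j.succ
  ring

private theorem shear_zero {h : ℂ → Fin k → ℂ} (h0 : h 0 = 0) : shear h 0 = 0 := by
  funext i
  refine Fin.cases rfl (fun j => ?_) i
  show (0 : ℂ) + h 0 j = 0
  rw [h0, zero_add, Pi.zero_apply]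

private theorem shear_an {h : ℂ → Fin k → ℂ} (hh : AnalyticAt ℂ h 0) : AnalyticAt ℂ (shear h) 0 := by
  refine an_cons (an_proj 0 0) fun j => ?_
  refine (an_proj j.succ 0).add ?_
  exact AnalyticAt.fun_comp (g := fun w => h w j) (f := fun q : Vd (k + 1) => q 0) (analyticAt_pi_iff.1 hh j) (an_proj 0 0)

theorem isCoord_shear {p : Vd (k + 1)} (hκ : IsCoord D κ p) {h : ℂ → Fin k → ℂ} (hh : AnalyticAt ℂ h 0) (h0 : h 0 = 0) :
    IsCoord D (fun q => κ (shear h q)) p := by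
  have t : Tendsto (shear h) (𝓝 0) (𝓝 0) := by
    have := (shear_an hh).continuousAt.tendsto
    rwa [shear_zero h0] at this
  refine ⟨?_, ?_, ?_, ?_⟩
  · refine AnalyticAt.fun_comp (g := κ) (f := shear h) ?_ (shear_an hh)
    rw [shear_zero h0]
    exact hκ.an
  · rw [shear_zero h0, hκ.zero]
  · have h1 : HasFDerivAt (fun q => κ (shear h q)) ((fderiv ℂ κ 0).comp (fderiv ℂ (shear h) 0)) 0 := by
      have h2 : HasFDerivAt κ (fderiv ℂ κ 0) (shear h 0) := by
        rw [shear_zero h0]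
        exact hκ.an.differentiableAt.hasFDerivAt
      exact h2.comp 0 (shear_an hh).differentiableAt.hasFDerivAt
    rw [h1.fderiv]
    intro v w hvw
    exact fderiv_inj (shear_an hh) (shear_an hh.neg) (shear_zero h0) (shear_shear h) (hκ.inj hvw)
  · filter_upwards [t.eventually hκ.mem_iff] with q hq
    exact hq

/-- the shear upstairs -/
private def shN (h : ℂ → Fin k → ℂ) (a b : ℕ) (q : Vd (k + 2)) : Vd (k + 2) :=
  Fin.cons (α := fun _ => ℂ) (q 0) (Fin.cons (α := fun _ => ℂ) (q 1) fun j => q j.succ.succ + h (q 0 ^ a * q 1 ^ b) j)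

private theorem shN_shN (h : ℂ → Fin k → ℂ) (a b : ℕ) (q : Vd (k + 2)) : shN (fun w => -h w) a b (shN h a b q) = q := by
  funext i
  refine Fin.cases rfl (fun i => ?_) i
  refine Fin.cases rfl (fun j => ?_) i
  show q j.succ.succ + h (q 0 ^ a * q 1 ^ b) j + -h (q 0 ^ a * q 1 ^ b) j = q j.succ.succ
  ring

private theorem pow_ab {a b : ℕ} (hab : 0 < a + b) : (0 : ℂ) ^ a * 0 ^ b = 0 := by
  rw [← pow_add, zero_pow hab.ne']

private theorem shN_zero {h : ℂ → Fin k → ℂ} {a b : ℕ} (hab : 0 < a + b) (h0 : h 0 = 0) : shN h a b 0 = 0 := by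
  funext i
  refine Fin.cases rfl (fun i => ?_) i
  refine Fin.cases rfl (fun j => ?_) i
  show (0 : ℂ) + h ((0 : ℂ) ^ a * 0 ^ b) j = 0
  rw [pow_ab hab, h0, zero_add, Pi.zero_apply]

private theorem shN_an {h : ℂ → Fin k → ℂ} {a b : ℕ} (hab : 0 < a + b) (hh : AnalyticAt ℂ h 0) : AnalyticAt ℂ (shN h a b) 0 := by
  refine an_cons (an_proj 0 0) fun i => ?_
  refine Fin.cases ?_ (fun j => ?_) i
  · exact an_proj 1 0
  · refine (an_proj j.succ.succ 0).add ?_
    refine AnalyticAt.fun_comp (g := fun w => h w j) (f := fun q : Vd (k + 2) => q 0 ^ a * q 1 ^ b) ?_ (((an_proj 0 0).pow a).mul ((an_proj 1 0).pow b))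
    have e : (0 : Vd (k + 2)) 0 ^ a * (0 : Vd (k + 2)) 1 ^ b = 0 := pow_ab hab
    rw [e]
    exact analyticAt_pi_iff.1 hh j

theorem isNC_shear {x : EN N} (hx : IsNC X Λ u κ x) {h : ℂ → Fin k → ℂ} (hh : AnalyticAt ℂ h 0) (h0 : h 0 = 0) :
    IsNC X Λ u (fun q => κ (shear h q)) x := by
  obtain ⟨σ, τ, a, b, hg, hσ, hab, hl⟩ := hx
  have h0' : (fun w => -h w) 0 = 0 := by
    show -h 0 = 0
    rw [h0, neg_zero]
  have n1 : ∀ q, shN (fun w => -h w) a b (shN h a b q) = q := shN_shN h a b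
  have n2 : ∀ q, shN h a b (shN (fun w => -h w) a b q) = q := fun q => by
    have := shN_shN (fun w => -h w) a b q
    simpa only [neg_neg] using this
  have hS := shN_an (a := a) (b := b) hab hh
  have hS' := shN_an (a := a) (b := b) (h := fun w => -h w) hab hh.neg
  have t : Tendsto (shN h a b) (𝓝 0) (𝓝 0) := by
    have := hS.continuousAt.tendsto
    rwa [shN_zero hab h0] at this
  refine ⟨fun q => σ (shN h a b q), fun y => shN (fun w => -h w) a b (τ y), a, b, germ_comp hg hS hS' (shN_zero hab h0) n2 n1, ?_, hab, ?_⟩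
  · show σ (shN h a b 0) = x
    rw [shN_zero hab h0, hσ]
  · filter_upwards [t.eventually hl] with q hq
    exact hq

theorem exists_line_coord (G : Geo X Λ u D B) {p e : Vd (k + 1)} (hp : p ∈ D) (hpB : p ∉ B) (ht : TransAt D p e) :
    ∃ (κ : Vd (k + 1) → Vd (k + 1)) (ξ₀ : ℂ → ℂ), IsCoord D κ p ∧ (∀ x ∈ X, u x - p ∈ Λ → IsNC X Λ u κ x) ∧ AnalyticAt ℂ ξ₀ 0 ∧ ξ₀ 0 = 0 ∧
      deriv ξ₀ 0 ≠ 0 ∧ ∀ᶠ z in 𝓝 (0 : ℂ), κ (Fin.cons (α := fun _ => ℂ) (ξ₀ z) 0) = p + z • e := by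
  obtain ⟨κ, hκ, hnc⟩ := G.nc p hp hpB
  obtain ⟨he, htr⟩ := ht
  obtain ⟨ψ, hψ, hψκ, hκψ, hψ0⟩ := Pool.Agent.H62.BU.local_inverse hκ.an (fun v hv => hκ.inj (by rw [hv, map_zero]))
  rw [hκ.zero] at hψ hκψ hψ0
  set c : ℂ → Vd (k + 1) := fun z => ψ (p + z • e) with hcdef
  have hline : ∀ z : ℂ, HasDerivAt (fun z : ℂ => p + z • e) e z := by
    intro z
    have h4 : HasDerivAt (fun z : ℂ => z • e) ((1 : ℂ) • e) z := (hasDerivAt_id z).smul_const e
    rw [one_smul] at h4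
    exact h4.const_add p
  have hlan : ∀ z : ℂ, AnalyticAt ℂ (fun z : ℂ => p + z • e) z := fun z =>
    analyticAt_const.add (AnalyticAt.fun_smul analyticAt_id analyticAt_const)
  have hl0 : p + (0 : ℂ) • e = p := by simp
  have hlt : Tendsto (fun z : ℂ => p + z • e) (𝓝 0) (𝓝 p) := by
    have h1 := (hlan 0).continuousAt.tendsto
    rwa [hl0] at h1
  have hc0 : c 0 = 0 := by
    show ψ (p + (0 : ℂ) • e) = 0
    rw [hl0, hψ0]
  have hcan : AnalyticAt ℂ c 0 := AnalyticAt.fun_comp (g := ψ) (f := fun z : ℂ => p + z • e) (by rw [hl0]; exact hψ) (hlan 0)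
  have hκc : ∀ᶠ z in 𝓝 (0 : ℂ), κ (c z) = p + z • e := hlt.eventually hκψ
  have hκan0 : AnalyticAt ℂ κ (c 0) := by rw [hc0]; exact hκ.an
  have hcd : fderiv ℂ κ 0 (deriv c 0) = e := by
    have h1 : HasDerivAt (fun z => κ (c z)) (fderiv ℂ κ (c 0) (deriv c 0)) 0 :=
      hκan0.differentiableAt.hasFDerivAt.comp_hasDerivAt (0 : ℂ) hcan.differentiableAt.hasDerivAt
    rw [hc0] at h1
    exact h1.unique ((hline 0).congr_of_eventuallyEq hκc)
  have hcne : (deriv c 0) 0 ≠ 0 := fun h => htr κ hκ _ h hcd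
  -- the first coordinate
  have hξan : AnalyticAt ℂ (fun z => c z 0) 0 := analyticAt_pi_iff.1 hcan 0
  have hξd : HasDerivAt (fun z => c z 0) (deriv c 0 0) 0 := hasDerivAt_pi.1 hcan.differentiableAt.hasDerivAt 0
  have hξ0 : (fun z => c z 0) 0 = (0 : ℂ) := by
    show c 0 0 = 0
    rw [hc0, Pi.zero_apply]
  obtain ⟨θ, hθ, hθξ, -, hθ0⟩ := Pool.Agent.H62.BU.local_inverse (f := fun z => c z 0) hξan (fun v hv => by
    rw [hξd.hasFDerivAt.fderiv] at hv
    have h1 : v * deriv c 0 0 = 0 := by simpa using hv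
    exact (mul_eq_zero.1 h1).resolve_right hcne)
  have hξ0' : c 0 0 = 0 := hξ0
  rw [hξ0'] at hθ hθ0
  have hhan : AnalyticAt ℂ (fun (w : ℂ) (j : Fin k) => c (θ w) j.succ) 0 := by
    refine analyticAt_pi_iff.2 fun j => ?_
    refine AnalyticAt.fun_comp (g := fun z => c z j.succ) (f := θ) ?_ hθ
    rw [hθ0]
    exact analyticAt_pi_iff.1 hcan j.succ
  have hh0 : (fun (w : ℂ) (j : Fin k) => c (θ w) j.succ) 0 = 0 := by
    funext j
    show c (θ 0) j.succ = 0
    rw [hθ0, hc0, Pi.zero_apply]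
  refine ⟨fun q => κ (shear (fun (w : ℂ) (j : Fin k) => c (θ w) j.succ) q), fun z => c z 0, isCoord_shear hκ hhan hh0, fun x hx hxp => isNC_shear (hnc x hx hxp) hhan hh0,
    hξan, hξ0, ?_, ?_⟩
  · rw [hξd.deriv]
    exact hcne
  · filter_upwards [hθξ, hκc] with z h1 h2
    rw [← h2]
    congr 1
    funext i
    refine Fin.cases rfl (fun j => ?_) i
    show (0 : ℂ) + c (θ (c z 0)) j.succ = c z j.succ
    rw [h1, zero_add]

end Pool.Agent.GX
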