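import Pool.Agent.G3.X.CrG
import Pool.Agent.G3.X.KpE
import Pool.Agent.G3.X.LnC
import Pool.Agent.G3.X.IIa
import Pool.Agent.G3.X.Inv

/-!
# G3 X Main: uniform crossing for arcs near a line

Constants.  `κ, ξ₀` from `exists_line_coord`, `a = deriv ξ₀ 0`, `ψ, R, r₀` from `exists_kp` (`κ 0 = p`).  `S₁` from `exists_inv` for a small `S' ≤ S`: for `‖z‖ < S'`: `κ (cons (ξ₀ z) 0) = p + z • e`, `z • e ∈ ball 0 (r₀ / 4)`, `‖ξ₀ z‖ < R`; `S'` so small that `‖a‖ S₁ / 4 ≤ R`.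
`s = ‖a‖ S₁ / 8` (the graphs are defined on `ball 0 (2 s)`).  `Φ, ρ` from `exists_fam`.  `C` a Lipschitz constant of `ψ` on `ball p (r₀ / 2)` (after shrinking `r₀`).  `s₀ = min (ρ / (4 ‖a‖)) (S₁ / 8)`, `ρ₀` with `ρ₀ ≤ r₀ / 4`, `C ρ₀ < ρ`, `C ρ₀ ≤ ‖a‖ S₁ / 100`, `C ρ₀ ≤ ‖a‖ s₀ / 50`.
For `γ`: `c z = ψ (γ z)` on `ball 0 S₁`, `‖c z - cons (ξ₀ z) 0‖ ≤ C ρ₀` (`ψ (p + z • e) = cons (ξ₀ z) 0`), `ξ z = c z 0`, `θ` from `exists_inv`, `g w j = c (θ w) j.succ`: `‖g w‖ ≤ C ρ₀ < ρ`, `ar κ g w = γ (θ w)`.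
`z₁ = θ 0`.  `F∘θ`, `H∘θ` on `ball 0 t`, `t = 13/10 ‖a‖ s₀ ≤ ρ`, `r₁ = 35/100 ‖a‖ s₀`, `r₂ = 8/10 ‖a‖ s₀`: `‖θ w‖ ≤ (‖w‖ + ‖ξ 0‖) / (9/10 ‖a‖)`, `‖θ w‖ ≥ (‖w‖ - ‖ξ 0‖) / (11/10 ‖a‖)`, `‖ξ 0‖ ≤ ‖a‖ s₀ / 50`.  `J'` from `cross_graph`.
`J z = J' (ξ z)` for `‖z‖ < 6/10 s₀` and `II ..` otherwise; on `45/100 s₀ < ‖z‖ < 6/10 s₀` both agree.  `II_arc`: the integral is analytic on the annulus `s₀ / 4 < ‖z‖ < s₀` (connected), so `J` agrees with it there (identity theorem).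
-/

set_option autoImplicit false

open Topology Filter Metric

namespace Pool.Agent.GX

open Pool.Agent.H36.BP (EN fs wd)
open Pool.Agent.H14.PP (IsCone CurveAt Tan)
open Pool.Agent.H62.EF (MN pr)
open Pool.Agent.AD (Vd Chart Charts IsGerm)
open Pool.Agent.TG (TMap Lat tl nm IsStr IsNC IsCoord Geo VForm ms Str IsPrim Cap IRel II TransAt Gd Cst DV fr tc)

variable {N k : ℕ}

variable {X : Set (EN N)} {Λ : AddSubgroup (Vd (k + 1))} {u : EN N → Vd (k + 1)} {D B : Set (Vd (k + 1))}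
  {κ ψ : Vd (k + 1) → Vd (k + 1)} {R : ℝ} {g : ℂ → Fin k → ℂ} {Γ₀ : AddSubgroup ℂ} {s : ℝ}

/-- annuli are connected -/
private theorem main_ann {r₁ r₂ : ℝ} (h : 0 ≤ r₁) : IsPreconnected {z : ℂ | r₁ < ‖z‖ ∧ ‖z‖ < r₂} := by
  have he : {z : ℂ | r₁ < ‖z‖ ∧ ‖z‖ < r₂} = (fun p : ℝ × ℝ => circleMap 0 p.1 p.2) '' (Set.Ioo r₁ r₂ ×ˢ Set.univ) := by
    ext z
    simp only [Set.mem_ofPred_eq, Set.mem_image, Set.mem_prod, Set.mem_Ioo, Set.mem_univ, and_true, Prod.exists]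
    constructor
    · rintro ⟨h1, h2⟩
      refine ⟨‖z‖, Complex.arg z, ⟨h1, h2⟩, ?_⟩
      rw [circleMap, Complex.norm_mul_exp_arg_mul_I, zero_add]
    · rintro ⟨r, θ, ⟨h1, h2⟩, rfl⟩
      have hd : ‖circleMap 0 r θ‖ = r := by
        rw [norm_circleMap_zero, abs_of_pos (lt_of_le_of_lt h h1)]
      rw [hd]
      exact ⟨h1, h2⟩
  rw [he]
  refine (isPreconnected_Ioo.prod isPreconnected_univ).image _ ?_
  have hc : Continuous fun p : ℝ × ℝ => circleMap 0 p.1 p.2 := by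
    unfold circleMap
    fun_prop
  exact hc.continuousOn

/-- glueing a function on a disc and a function on an annulus -/
private theorem main_glue {J₁ I : ℂ → ℂ} {a b c d : ℝ} (ha : 0 < a) (hab : a < b) (hbc : b < c) (hcd : c < d) (h1 : DifferentiableOn ℂ J₁ (ball 0 c))
    (h2 : ∀ z : ℂ, a < ‖z‖ → ‖z‖ < d → AnalyticAt ℂ I z) (h3 : ∀ z : ℂ, b < ‖z‖ → ‖z‖ < c → J₁ z = I z) :
    ∃ J : ℂ → ℂ, DifferentiableOn ℂ J (ball 0 d) ∧ ∀ z : ℂ, a < ‖z‖ → ‖z‖ < d → J z = I z := by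
  classical
  have hop : IsOpen {z : ℂ | a < ‖z‖ ∧ ‖z‖ < c} := (isOpen_lt continuous_const continuous_norm).inter (isOpen_lt continuous_norm continuous_const)
  have han1 : AnalyticOnNhd ℂ J₁ {z : ℂ | a < ‖z‖ ∧ ‖z‖ < c} := fun z hz =>
    (h1.analyticOnNhd isOpen_ball) z (mem_ball_zero_iff.2 hz.2)
  have han2 : AnalyticOnNhd ℂ I {z : ℂ | a < ‖z‖ ∧ ‖z‖ < c} := fun z hz => h2 z hz.1 (hz.2.trans hcd)
  -- a point of the small annulus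
  set z₀ : ℂ := (((b + c) / 2 : ℝ) : ℂ) with hz₀
  have hz₀n : ‖z₀‖ = (b + c) / 2 := by
    rw [hz₀, Complex.norm_real, Real.norm_of_nonneg (by linarith)]
  have hev : J₁ =ᶠ[𝓝 z₀] I := by
    have h4 : IsOpen {z : ℂ | b < ‖z‖ ∧ ‖z‖ < c} := (isOpen_lt continuous_const continuous_norm).inter (isOpen_lt continuous_norm continuous_const)
    have h5 : z₀ ∈ {z : ℂ | b < ‖z‖ ∧ ‖z‖ < c} := by
      constructor
      · rw [hz₀n]
        linarith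
      · rw [hz₀n]
        linarith
    filter_upwards [h4.mem_nhds h5] with z hz
    exact h3 z hz.1 hz.2
  have heq : Set.EqOn J₁ I {z : ℂ | a < ‖z‖ ∧ ‖z‖ < c} :=
    han1.eqOn_of_preconnected_of_eventuallyEq han2 (main_ann ha.le) (z₀ := z₀) ⟨by rw [hz₀n]; linarith, by rw [hz₀n]; linarith⟩ hev
  refine ⟨fun z => if ‖z‖ < c then J₁ z else I z, fun z hz => ?_, fun z hz1 hz2 => ?_⟩
  · rw [mem_ball_zero_iff] at hz
    by_cases hzc : ‖z‖ < c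
    · have h4 : (fun z => if ‖z‖ < c then J₁ z else I z) =ᶠ[𝓝 z] J₁ := by
        filter_upwards [(isOpen_lt continuous_norm continuous_const).mem_nhds hzc] with w hw
        have hw' : ‖w‖ < c := hw
        simp only [if_pos hw']
      exact ((h1.differentiableAt (isOpen_ball.mem_nhds (mem_ball_zero_iff.2 hzc))).congr_of_eventuallyEq h4).differentiableWithinAt
    · have hza : a < ‖z‖ := lt_of_lt_of_le (hab.trans hbc) (not_lt.1 hzc)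
      have h4 : (fun z => if ‖z‖ < c then J₁ z else I z) =ᶠ[𝓝 z] I := by
        filter_upwards [(isOpen_lt continuous_const continuous_norm).mem_nhds hza] with w hw
        have hw' : a < ‖w‖ := hw
        by_cases hwc : ‖w‖ < c
        · simp only [if_pos hwc]
          exact heq ⟨hw', hwc⟩
        · simp only [if_neg hwc]
      exact ((h2 z hza hz).differentiableAt.congr_of_eventuallyEq h4).differentiableWithinAt
  · by_cases hzc : ‖z‖ < c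
    · simp only [if_pos hzc]
      exact heq ⟨hz1, hzc⟩
    · simp only [if_neg hzc]

/-- `ψ` is Lipschitz near `p` -/
private theorem main_lip {p : Vd (k + 1)} {r₀ : ℝ} (hr₀ : 0 < r₀) (h : AnalyticAt ℂ ψ p) :
    ∃ r₁ C : ℝ, 0 < r₁ ∧ r₁ ≤ r₀ ∧ 0 < C ∧ ∀ y ∈ ball p r₁, ∀ y' ∈ ball p r₁, ‖ψ y - ψ y'‖ ≤ C * ‖y - y'‖ := by
  obtain ⟨K, U, hU, hK⟩ := h.hasStrictFDerivAt.exists_lipschitzOnWith
  obtain ⟨r, hr, hrU⟩ := Metric.mem_nhds_iff.1 hU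
  refine ⟨min r r₀, (K : ℝ) + 1, lt_min hr hr₀, min_le_right _ _, by positivity, fun y hy y' hy' => ?_⟩
  have h1 := hK.dist_le_mul y (hrU (ball_subset_ball (min_le_left _ _) hy)) y' (hrU (ball_subset_ball (min_le_left _ _) hy'))
  rw [dist_eq_norm, dist_eq_norm] at h1
  nlinarith [norm_nonneg (y - y')]

theorem cr (G : Geo X Λ u D B) {p e : Vd (k + 1)} (hp : p ∈ D) (hpB : p ∉ B) (ht : TransAt D p e) {S : ℝ} (hS : 0 < S) :
    ∃ s₀ ρ₀ : ℝ, 0 < s₀ ∧ 2 * s₀ ≤ S ∧ 0 < ρ₀ ∧ ∀ γ : ℂ → Vd (k + 1), DifferentiableOn ℂ γ (ball 0 S) →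
      (∀ z ∈ ball (0 : ℂ) S, ‖γ z - (p + z • e)‖ ≤ ρ₀) →
      (∃ z₁ : ℂ, ‖z₁‖ < s₀ / 4 ∧ γ z₁ ∈ D ∧ ∀ z ∈ ball (0 : ℂ) (2 * s₀), γ z ∈ D → z = z₁) ∧
      ∀ (α : VForm X Λ u) (ε r : ℝ), ε < r → ∀ F H : ℂ → EN N, DifferentiableOn ℂ F (ball 0 (2 * s₀)) → DifferentiableOn ℂ H (ball 0 (2 * s₀)) →
        (∀ z ∈ ball (0 : ℂ) (2 * s₀), F z ∈ X ∧ u (F z) - γ z ∈ Λ) → (∀ z ∈ ball (0 : ℂ) (2 * s₀), H z ∈ X ∧ u (H z) - γ z ∈ Λ) →
        (∀ z : ℂ, s₀ / 4 < ‖z‖ → ‖z‖ < s₀ → ∃ (χ : Chart (k + 2) X) (c : Vd (k + 1)) (ρ : ℝ), Cap Λ u χ c ρ (γ z) (pr (F z)) r) →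
        (∀ z : ℂ, s₀ / 4 < ‖z‖ → ‖z‖ < s₀ → ∃ v, IRel α ε (γ z) (pr (F z)) (pr (H z)) v) →
        ∃ J : ℂ → ℂ, DifferentiableOn ℂ J (ball 0 s₀) ∧
          ∀ z : ℂ, s₀ / 4 < ‖z‖ → ‖z‖ < s₀ → J z = II α ε (γ z) (pr (F z)) (pr (H z)) := by
  obtain ⟨κ, ξ₀, hκ, hnc, hξan, hξ0, hξd, hline⟩ := exists_line_coord G hp hpB ht
  obtain ⟨ψ, R, r₀, K, hr₀, hψ⟩ := exists_kp G hκ
  set a : ℂ := deriv ξ₀ 0 with hadef
  have ha : 0 < ‖a‖ := norm_pos_iff.2 hξd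
  have hR : 0 < R := K.pos
  obtain ⟨r₁, C, hr₁, hr₁₀, hC, hlip⟩ := main_lip (ψ := ψ) hr₀ (hψ p (mem_ball_self hr₀)).1
  -- the size `S'`
  have hev : ∀ᶠ z in 𝓝 (0 : ℂ), κ (Fin.cons (α := fun _ => ℂ) (ξ₀ z) 0) = p + z • e ∧ ‖z • e‖ < r₁ / 2 ∧ ‖ξ₀ z‖ < R := by
    refine hline.and (Filter.Eventually.and ?_ ?_)
    · have h1 : Continuous fun z : ℂ => ‖z • e‖ := by fun_prop
      have h2 : (fun z : ℂ => ‖z • e‖) 0 < r₁ / 2 := by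
        simp only [zero_smul, norm_zero]
        positivity
      exact h1.continuousAt.eventually (isOpen_Iio.mem_nhds h2)
    · have h1 : ContinuousAt (fun z => ‖ξ₀ z‖) 0 := hξan.continuousAt.norm
      have h2 : (fun z => ‖ξ₀ z‖) 0 < R := by
        simp only [hξ0, norm_zero]
        exact hR
      exact h1.eventually (isOpen_Iio.mem_nhds h2)
  obtain ⟨S', hS', hS'p⟩ := Metric.eventually_nhds_iff_ball.1 hev
  obtain ⟨S₁, hS₁, hS₁le, hξdiff, hinv⟩ := exists_inv hξd hξan hξ0 rfl (S := min S (min S' (4 * R / ‖a‖))) (lt_min hS (lt_min hS' (by positivity)))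
  have hS₁S : S₁ ≤ S := hS₁le.trans (min_le_left _ _)
  have hS₁S' : S₁ ≤ S' := hS₁le.trans ((min_le_right _ _).trans (min_le_left _ _))
  have hS₁R : ‖a‖ * S₁ / 4 ≤ R := by
    have h1 : S₁ ≤ 4 * R / ‖a‖ := hS₁le.trans ((min_le_right _ _).trans (min_le_right _ _))
    rw [le_div_iff₀ ha] at h1
    linarith
  set s : ℝ := ‖a‖ * S₁ / 8 with hs
  have hspos : 0 < s := by positivity
  have h2s : 2 * s = ‖a‖ * S₁ / 4 := by rw [hs]; ring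
  have h2sR : 2 * s ≤ R := by rw [h2s]; exact hS₁R
  obtain ⟨Φ, ρ, hΦ⟩ := exists_fam K (fun x hx hxu => hnc x hx (by rwa [hκ.zero] at hxu)) hspos
  have hρ := hΦ.pos
  set s₀ : ℝ := min (ρ / (4 * ‖a‖)) (S₁ / 8) with hs₀
  have hs₀pos : 0 < s₀ := lt_min (by positivity) (by positivity)
  have hs₀S : s₀ ≤ S₁ / 8 := min_le_right _ _
  have hs₀ρ : 4 * ‖a‖ * s₀ ≤ ρ := by
    have h1 : s₀ ≤ ρ / (4 * ‖a‖) := min_le_left _ _
    rw [le_div_iff₀ (by positivity)] at h1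
    linarith
  set ρ₀ : ℝ := min (r₁ / 2) (min (ρ / (2 * C)) (min (‖a‖ * S₁ / (100 * C)) (‖a‖ * s₀ / (50 * C)))) with hρ₀
  have hρ₀pos : 0 < ρ₀ := lt_min (by positivity) (lt_min (by positivity) (lt_min (by positivity) (by positivity)))
  have hρ₀1 : ρ₀ ≤ r₁ / 2 := min_le_left _ _
  have hρ₀2 : C * ρ₀ < ρ := by
    have h1 : ρ₀ ≤ ρ / (2 * C) := (min_le_right _ _).trans (min_le_left _ _)
    rw [le_div_iff₀ (by positivity)] at h1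
    linarith
  have hρ₀3 : C * ρ₀ ≤ ‖a‖ * S₁ / 100 := by
    have h1 : ρ₀ ≤ ‖a‖ * S₁ / (100 * C) := (min_le_right _ _).trans ((min_le_right _ _).trans (min_le_left _ _))
    rw [le_div_iff₀ (by positivity)] at h1
    linarith
  have hρ₀4 : C * ρ₀ ≤ ‖a‖ * s₀ / 50 := by
    have h1 : ρ₀ ≤ ‖a‖ * s₀ / (50 * C) := (min_le_right _ _).trans ((min_le_right _ _).trans (min_le_right _ _))
    rw [le_div_iff₀ (by positivity)] at h1
    linarith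
  clear_value ρ₀ s₀ s a
  refine ⟨s₀, ρ₀, hs₀pos, by linarith, hρ₀pos, fun γ hγ hγρ => ?_⟩
  have hsub₁ : ball (0 : ℂ) S₁ ⊆ ball 0 S := ball_subset_ball hS₁S
  have hγball : ∀ z ∈ ball (0 : ℂ) S₁, γ z ∈ ball p r₁ := fun z hz => by
    have h1 := hγρ z (hsub₁ hz)
    have h2 := (hS'p z (ball_subset_ball hS₁S' hz)).2.1
    rw [mem_ball, dist_eq_norm]
    have h3 : γ z - p = (γ z - (p + z • e)) + z • e := by abel
    rw [h3]
    have h4 := norm_add_le (γ z - (p + z • e)) (z • e)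
    linarith
  have hlineball : ∀ z ∈ ball (0 : ℂ) S₁, p + z • e ∈ ball p r₁ := fun z hz => by
    have h2 := (hS'p z (ball_subset_ball hS₁S' hz)).2.1
    rw [mem_ball, dist_eq_norm, add_sub_cancel_left]
    linarith
  set c : ℂ → Vd (k + 1) := fun z => ψ (γ z) with hc
  have hcd : DifferentiableOn ℂ c (ball 0 S₁) := fun z hz =>
    ((hψ _ (ball_subset_ball hr₁₀ (hγball z hz))).1.differentiableAt.comp z (hγ.differentiableAt (isOpen_ball.mem_nhds (hsub₁ hz)))).differentiableWithinAt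
  have hκc : ∀ z ∈ ball (0 : ℂ) S₁, κ (c z) = γ z := fun z hz => (hψ _ (ball_subset_ball hr₁₀ (hγball z hz))).2.2
  have hcR : ∀ z ∈ ball (0 : ℂ) S₁, c z ∈ ball (0 : Vd (k + 1)) R := fun z hz => (hψ _ (ball_subset_ball hr₁₀ (hγball z hz))).2.1
  have hcl : ∀ z ∈ ball (0 : ℂ) S₁, ‖c z - Fin.cons (α := fun _ => ℂ) (ξ₀ z) 0‖ ≤ C * ρ₀ := fun z hz => by
    have h1 := hS'p z (ball_subset_ball hS₁S' hz)
    have h2 : (Fin.cons (α := fun _ => ℂ) (ξ₀ z) 0 : Vd (k + 1)) ∈ ball (0 : Vd (k + 1)) R := by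
      rw [mem_ball_zero_iff, pi_norm_lt_iff hR]
      intro j
      refine Fin.cases ?_ (fun j => ?_) j
      · simpa using h1.2.2
      · simpa using hR
    have h3 : (Fin.cons (α := fun _ => ℂ) (ξ₀ z) 0 : Vd (k + 1)) = ψ (p + z • e) := by
      rw [← h1.1, K.ψ_κ _ h2]
    rw [h3]
    refine (hlip _ (hγball z hz) _ (hlineball z hz)).trans ?_
    exact mul_le_mul_of_nonneg_left (hγρ z (hsub₁ hz)) hC.le
  set ξ : ℂ → ℂ := fun z => c z 0 with hξ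
  have hξD : DifferentiableOn ℂ ξ (ball 0 S₁) := fun z hz => differentiableWithinAt_pi.1 (hcd z hz) 0
  have hξξ₀ : ∀ z ∈ ball (0 : ℂ) S₁, ‖ξ z - ξ₀ z‖ ≤ C * ρ₀ := fun z hz => by
    have h1 := (norm_le_pi_norm (c z - Fin.cons (α := fun _ => ℂ) (ξ₀ z) 0) 0).trans (hcl z hz)
    simpa using h1
  have hcsucc : ∀ z ∈ ball (0 : ℂ) S₁, ∀ j : Fin k, ‖c z j.succ‖ ≤ C * ρ₀ := fun z hz j => by
    have h1 := (norm_le_pi_norm (c z - Fin.cons (α := fun _ => ℂ) (ξ₀ z) 0) j.succ).trans (hcl z hz)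
    simpa using h1
  obtain ⟨hexp, θ, hθd, hθ, hθξ⟩ := hinv (C * ρ₀) ξ hρ₀3 hξD hξξ₀
  rw [← h2s] at hθd hθ hθξ
  have hhalf : ball (0 : ℂ) (S₁ / 2) ⊆ ball 0 S₁ := ball_subset_ball (by linarith)
  have hξ00 : ‖ξ 0‖ ≤ ‖a‖ * s₀ / 50 := by
    have h1 := hξξ₀ 0 (mem_ball_self hS₁)
    rw [hξ0, sub_zero] at h1
    exact h1.trans hρ₀4
  have h0half : (0 : ℂ) ∈ ball (0 : ℂ) (S₁ / 2) := mem_ball_self (by linarith)
  -- the size of `ξ z`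
  have hup : ∀ z ∈ ball (0 : ℂ) (S₁ / 2), ‖ξ z‖ ≤ 11 / 10 * ‖a‖ * ‖z‖ + ‖a‖ * s₀ / 50 := fun z hz => by
    have h1 := (hexp z hz 0 h0half).2
    rw [sub_zero] at h1
    have h2 : ξ z = (ξ z - ξ 0) + ξ 0 := by ring
    have h3 : ‖ξ z‖ ≤ ‖ξ z - ξ 0‖ + ‖ξ 0‖ := by
      conv_lhs => rw [h2]
      exact norm_add_le _ _
    linarith
  have hdn : ∀ z ∈ ball (0 : ℂ) (S₁ / 2), 9 / 10 * ‖a‖ * ‖z‖ ≤ ‖ξ z‖ + ‖a‖ * s₀ / 50 := fun z hz => by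
    have h1 := (hexp z hz 0 h0half).1
    rw [sub_zero] at h1
    have h3 := norm_sub_le (ξ z) (ξ 0)
    linarith
  have hmulle : ∀ {x y : ℝ}, ‖a‖ * x ≤ ‖a‖ * y → x ≤ y := fun h => le_of_mul_le_mul_left h ha
  have hmullt : ∀ {x y : ℝ}, ‖a‖ * x < ‖a‖ * y → x < y := fun h => lt_of_mul_lt_mul_left h ha.le
  have hmemD : ∀ z ∈ ball (0 : ℂ) S₁, (γ z ∈ D ↔ ξ z = 0) := fun z hz => by
    have h1 := K.mem_iff _ (hcR z hz)
    rwa [hκc z hz] at h1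
  refine ⟨?_, ?_⟩
  · -- the hit
    obtain ⟨hθ0, hξθ0⟩ := hθ 0 (mem_ball_self (by linarith))
    refine ⟨θ 0, ?_, (hmemD _ (hhalf hθ0)).2 hξθ0, fun z hz hzD => ?_⟩
    · have h1 := hdn _ hθ0
      rw [hξθ0, norm_zero, zero_add] at h1
      refine hmullt ?_
      nlinarith [mul_pos ha hs₀pos]
    · have hz2 : z ∈ ball (0 : ℂ) (S₁ / 2) := ball_subset_ball (by linarith) hz
      have h1 : ξ z = 0 := (hmemD z (hhalf hz2)).1 hzD
      have h2 := hθξ z hz2 (by rw [h1]; exact mem_ball_self (by linarith))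
      rw [← h2, h1]
  · intro α ε r hεr F H hF hH hFX hHX hcap hrel
    set g : ℂ → Fin k → ℂ := fun w j => c (θ w) j.succ with hg
    have hθc : ∀ w ∈ ball (0 : ℂ) (2 * s), θ w ∈ ball (0 : ℂ) S₁ := fun w hw => hhalf (hθ w hw).1
    have hgd : DifferentiableOn ℂ g (ball 0 (2 * s)) := by
      intro w hw
      have h1 : DifferentiableAt ℂ c (θ w) := hcd.differentiableAt (isOpen_ball.mem_nhds (hθc w hw))
      have h2 : DifferentiableAt ℂ (fun w => c (θ w)) w := h1.comp w (hθd.differentiableAt (isOpen_ball.mem_nhds hw))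
      refine (differentiableAt_pi.2 fun j => ?_).differentiableWithinAt
      exact differentiableAt_pi.1 h2 j.succ
    have hgρ : ∀ w ∈ ball (0 : ℂ) (2 * s), ‖g w‖ < ρ := fun w hw => by
      rw [pi_norm_lt_iff hρ]
      intro j
      exact (hcsucc _ (hθc w hw) j).trans_lt hρ₀2
    have har : ∀ w ∈ ball (0 : ℂ) (2 * s), ar κ g w = γ (θ w) := fun w hw => by
      have h1 : cg g w = c (θ w) := by
        funext j
        refine Fin.cases ?_ (fun j => ?_) j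
        · simp only [cg, Fin.cons_zero]
          exact (hθ w hw).2.symm
        · simp only [cg, Fin.cons_succ, hg]
      rw [ar, h1, hκc _ (hθc w hw)]
    have ht : 13 / 10 * ‖a‖ * s₀ ≤ ρ := by nlinarith [mul_pos ha hs₀pos]
    have ht2s : 13 / 10 * ‖a‖ * s₀ ≤ 2 * s := by
      rw [h2s]
      nlinarith [mul_le_mul_of_nonneg_left hs₀S ha.le]
    have hθt : ∀ w ∈ ball (0 : ℂ) (13 / 10 * ‖a‖ * s₀), θ w ∈ ball (0 : ℂ) (2 * s₀) := fun w hw => by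
      have hw' := ball_subset_ball ht2s hw
      have h1 := hdn _ (hθ w hw').1
      rw [(hθ w hw').2] at h1
      rw [mem_ball_zero_iff] at hw ⊢
      refine hmullt ?_
      nlinarith [mul_pos ha hs₀pos]
    have hθann : ∀ w : ℂ, 35 / 100 * ‖a‖ * s₀ < ‖w‖ → ‖w‖ < 8 / 10 * ‖a‖ * s₀ → w ∈ ball (0 : ℂ) (2 * s) ∧ s₀ / 4 < ‖θ w‖ ∧ ‖θ w‖ < s₀ := fun w hw1 hw2 => by
      have hw' : w ∈ ball (0 : ℂ) (2 * s) := mem_ball_zero_iff.2 (by nlinarith [mul_pos ha hs₀pos])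
      have h1 := hdn _ (hθ w hw').1
      have h2 := hup _ (hθ w hw').1
      rw [(hθ w hw').2] at h1 h2
      refine ⟨hw', hmullt ?_, hmullt ?_⟩
      · nlinarith [mul_pos ha hs₀pos]
      · nlinarith [mul_pos ha hs₀pos]
    have hcompd : ∀ {f : ℂ → EN N}, DifferentiableOn ℂ f (ball 0 (2 * s₀)) → DifferentiableOn ℂ (fun w => f (θ w)) (ball 0 (13 / 10 * ‖a‖ * s₀)) := by
      intro f hf w hw
      have h1 : DifferentiableAt ℂ f (θ w) := hf.differentiableAt (isOpen_ball.mem_nhds (hθt w hw))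
      exact (h1.comp w (hθd.differentiableAt (isOpen_ball.mem_nhds (ball_subset_ball ht2s hw)))).differentiableWithinAt
    have has : 0 < ‖a‖ * s₀ := mul_pos ha hs₀pos
    have hq1 : 0 < 35 / 100 * ‖a‖ * s₀ := by positivity
    have hq2 : 35 / 100 * ‖a‖ * s₀ < 8 / 10 * ‖a‖ * s₀ := by linarith
    have hq3 : 8 / 10 * ‖a‖ * s₀ < 13 / 10 * ‖a‖ * s₀ := by linarith
    obtain ⟨J', hJ'd, hJ'⟩ := cross_graph K hΦ h2sR hgd hgρ (r₁ := 35 / 100 * ‖a‖ * s₀) (r₂ := 8 / 10 * ‖a‖ * s₀) (t := 13 / 10 * ‖a‖ * s₀)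
      hq1 hq2 hq3 ht hεr α (hcompd hF) (hcompd hH)
      (fun w hw => by
        rw [har w (ball_subset_ball ht2s hw)]
        exact hFX _ (hθt w hw))
      (fun w hw => by
        rw [har w (ball_subset_ball ht2s hw)]
        exact hHX _ (hθt w hw))
      (fun w hw1 hw2 => by
        obtain ⟨h1, h2, h3⟩ := hθann w hw1 hw2
        rw [har w h1]
        exact hcap _ h2 h3)
      (fun w hw1 hw2 => by
        obtain ⟨h1, h2, h3⟩ := hθann w hw1 hw2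
        rw [har w h1]
        exact hrel _ h2 h3)
    refine main_glue (J₁ := fun z => J' (ξ z)) (a := s₀ / 4) (b := 45 / 100 * s₀) (c := 6 / 10 * s₀) (d := s₀) (by positivity) (by linarith) (by linarith)
      (by linarith) (fun z hz => ?_) (fun z hz1 hz2 => ?_) fun z hz1 hz2 => ?_
    · rw [mem_ball_zero_iff] at hz
      have hz2 : z ∈ ball (0 : ℂ) (S₁ / 2) := mem_ball_zero_iff.2 (by linarith)
      have h1 := hup z hz2
      have h2 : ξ z ∈ ball (0 : ℂ) (8 / 10 * ‖a‖ * s₀) := by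
        rw [mem_ball_zero_iff]
        have h3 : ‖a‖ * ‖z‖ < ‖a‖ * (6 / 10 * s₀) := mul_lt_mul_of_pos_left hz ha
        nlinarith [mul_pos ha hs₀pos]
      exact ((hJ'd.differentiableAt (isOpen_ball.mem_nhds h2)).comp z (hξD.differentiableAt (isOpen_ball.mem_nhds (hhalf hz2)))).differentiableWithinAt
    · have hz3 : z ∈ ball (0 : ℂ) (2 * s₀) := mem_ball_zero_iff.2 (by linarith)
      have hzS : z ∈ ball (0 : ℂ) S := mem_ball_zero_iff.2 (by linarith)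
      obtain ⟨χ, c', ρ', hcap'⟩ := hcap z hz1 hz2
      have hann : ∀ᶠ w in 𝓝 z, s₀ / 4 < ‖w‖ ∧ ‖w‖ < s₀ :=
        (((isOpen_lt continuous_const continuous_norm).inter (isOpen_lt continuous_norm continuous_const)).mem_nhds ⟨hz1, hz2⟩ :)
      have hb : ∀ᶠ w in 𝓝 z, w ∈ ball (0 : ℂ) (2 * s₀) := isOpen_ball.mem_nhds hz3
      refine II_arc G.cone G.tor G.lat (hγ.differentiableAt (isOpen_ball.mem_nhds hzS)).continuousAt (hF.analyticAt (isOpen_ball.mem_nhds hz3))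
        (hH.analyticAt (isOpen_ball.mem_nhds hz3)) ?_ ?_ hcap' hεr ?_
      · filter_upwards [hb] with w hw
        exact hFX w hw
      · filter_upwards [hb] with w hw
        exact hHX w hw
      · filter_upwards [hann] with w hw
        exact hrel w hw.1 hw.2
    · have hz2' : z ∈ ball (0 : ℂ) (S₁ / 2) := mem_ball_zero_iff.2 (by linarith)
      have h1 := hup z hz2'
      have h2 := hdn z hz2'
      have h3 : ‖a‖ * ‖z‖ < ‖a‖ * (6 / 10 * s₀) := mul_lt_mul_of_pos_left hz2 ha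
      have h4 : ‖a‖ * (45 / 100 * s₀) < ‖a‖ * ‖z‖ := mul_lt_mul_of_pos_left hz1 ha
      have h5 : 35 / 100 * ‖a‖ * s₀ < ‖ξ z‖ := by nlinarith [mul_pos ha hs₀pos]
      have h6 : ‖ξ z‖ < 8 / 10 * ‖a‖ * s₀ := by nlinarith [mul_pos ha hs₀pos]
      obtain ⟨h7, -, -⟩ := hθann _ h5 h6
      have h8 := hθξ z hz2' h7
      have h9 := hJ' _ h5 h6
      rw [har _ h7, h8] at h9
      exact h9

theorem cr_cst (G : Geo X Λ u D B) {p e : Vd (k + 1)} (hp : p ∈ D) (hpB : p ∉ B) (ht : TransAt D p e) {S : ℝ} (hS : 0 < S) :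
    ∃ s₀ ρ₀ : ℝ, 0 < s₀ ∧ 2 * s₀ ≤ S ∧ 0 < ρ₀ ∧ ∀ γ : ℂ → Vd (k + 1), DifferentiableOn ℂ γ (ball 0 S) →
      (∀ z ∈ ball (0 : ℂ) S, ‖γ z - (p + z • e)‖ ≤ ρ₀) →
      (∃ z₁ : ℂ, ‖z₁‖ < s₀ / 4 ∧ γ z₁ ∈ D ∧ ∀ z ∈ ball (0 : ℂ) (2 * s₀), γ z ∈ D → z = z₁) ∧
      ∀ δ ε ε₀ : ℝ, Cst X Λ u D δ ε ε₀ → (∀ z : ℂ, s₀ / 4 < ‖z‖ → ‖z‖ < s₀ → γ z ∈ Gd D δ) → ∀ (α : VForm X Λ u) (F H : ℂ → EN N),
        DifferentiableOn ℂ F (ball 0 (2 * s₀)) → DifferentiableOn ℂ H (ball 0 (2 * s₀)) →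
        (∀ z ∈ ball (0 : ℂ) (2 * s₀), F z ∈ X ∧ u (F z) - γ z ∈ Λ) → (∀ z ∈ ball (0 : ℂ) (2 * s₀), H z ∈ X ∧ u (H z) - γ z ∈ Λ) →
        (∀ z : ℂ, s₀ / 4 < ‖z‖ → ‖z‖ < s₀ → dist (pr (F z)) (pr (H z)) ≤ ε₀) →
        ∃ J : ℂ → ℂ, DifferentiableOn ℂ J (ball 0 s₀) ∧
          ∀ z : ℂ, s₀ / 4 < ‖z‖ → ‖z‖ < s₀ → J z = II α ε (γ z) (pr (F z)) (pr (H z)) := by
  obtain ⟨s₀, ρ₀, h1, h2, h3, h4⟩ := cr G hp hpB ht hS
  refine ⟨s₀, ρ₀, h1, h2, h3, fun γ hγ hγρ => ⟨(h4 γ hγ hγρ).1, fun δ ε ε₀ hC hGd α F H hF hH hFX hHX hd => ?_⟩⟩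
  refine (h4 γ hγ hγρ).2 α ε (3 * ε) (by linarith [hC.ε_pos]) F H hF hH hFX hHX (fun z hz1 hz2 => ?_) fun z hz1 hz2 => ?_
  · have hz : z ∈ ball (0 : ℂ) (2 * s₀) := mem_ball_zero_iff.2 (by linarith)
    exact hC.cap _ (hGd z hz1 hz2) _ ⟨F z, (hFX z hz).1, rfl, (hFX z hz).2⟩
  · have hz : z ∈ ball (0 : ℂ) (2 * s₀) := mem_ball_zero_iff.2 (by linarith)
    exact hC.rel _ (hGd z hz1 hz2) _ ⟨F z, (hFX z hz).1, rfl, (hFX z hz).2⟩ _ ⟨H z, (hHX z hz).1, rfl, (hHX z hz).2⟩ (hd z hz1 hz2) α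

end Pool.Agent.GX
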