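import Pool.Agent.TG.ChN

/-!
# G3 X Nc3: small charts in which `u` is `κ (x ^ a * y ^ b, s)`

`NCC Λ u κ χ r a b`: in the chart `χ` (polydisc of radius `2`) the map `u` is `κ (nm a b (r q))`.
-/

set_option autoImplicit false

open Topology Filter Metric Set

namespace Pool.Agent.G3.X

open Pool.Agent.TG (TMap IsNC nm exists_small_chart)
open Pool.Agent.H36.BP (EN)
open Pool.Agent.H14.PP (IsCone)
open Pool.Agent.H62.EF (pr)
open Pool.Agent.AD (Vd Chart)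

variable {N k : ℕ} {X : Set (EN N)} {Λ : AddSubgroup (Vd (k + 1))} {u : EN N → Vd (k + 1)} {κ : Vd (k + 1) → Vd (k + 1)}

/-- in the chart `χ` the map `u` is `κ (nm a b (r q))` -/
structure NCC (Λ : AddSubgroup (Vd (k + 1))) (u : EN N → Vd (k + 1)) (κ : Vd (k + 1) → Vd (k + 1)) (χ : Chart (k + 2) X) (r : ℝ) (a b : ℕ) : Prop where
  pos : 0 < r
  ab : 0 < a + b
  lift : ∀ q ∈ ball (0 : Vd (k + 2)) 2, u (χ.σ q) - κ (nm a b ((r : ℂ) • q)) ∈ Λ

theorem exists_ncc (hX : IsCone X) (hu : TMap X Λ u) {x : EN N} (h : IsNC X Λ u κ x) {η : ℝ} (hη : 0 < η) :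
    ∃ (χ : Chart (k + 2) X) (r : ℝ) (a b : ℕ), x ∈ χ.U ∧ χ.q x = 0 ∧ NCC Λ u κ χ r a b ∧ 2 * r ≤ η ∧
      ∀ q ∈ ball (0 : Vd (k + 2)) 2, dist (pr (χ.σ q)) (pr x) < η := by
  obtain ⟨σ, τ, a, b, hG, hσ0, hab, hσl⟩ := h
  obtain ⟨η', hη', hall⟩ := Metric.eventually_nhds_iff_ball.1 (hG.σ_mem.and hσl)
  obtain ⟨χ, r, hr, hσU, hq0, hχ⟩ := exists_small_chart hX hG (lt_min hη hη')
  rw [hσ0] at hσU hq0
  refine ⟨χ, r, a, b, hσU, hq0, ⟨hr, hab, fun p hp => ?_⟩, ?_, fun p hp => ?_⟩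
  · obtain ⟨h1, -, c, hc, h3⟩ := hχ p hp
    have h4 := hall ((r : ℂ) • p) (mem_ball_zero_iff.2 (h1.trans_le (min_le_right _ _)))
    have h5 := Λ.add_mem (hu.smul _ h4.1 c hc) h4.2
    have h6 : u (c • σ ((r : ℂ) • p)) - u (σ ((r : ℂ) • p)) + (u (σ ((r : ℂ) • p)) - κ (nm a b ((r : ℂ) • p))) =
        u (χ.σ p) - κ (nm a b ((r : ℂ) • p)) := by
      rw [h3]
      abel
    rwa [h6] at h5
  · -- `2 r ≤ η` from the bound on `‖r p‖`
    refine le_of_forall_lt fun t ht => ?_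
    by_cases ht0 : 0 ≤ t
    · set w : ℂ := ((t / r : ℝ) : ℂ) with hw
      have hwn : ‖w‖ = t / r := by
        rw [hw, Complex.norm_real, Real.norm_of_nonneg (by positivity)]
      set p : Vd (k + 2) := fun _ => w with hp
      have hpn : ‖p‖ = t / r := by
        rw [hp, pi_norm_const, hwn]
      have hpb : p ∈ ball (0 : Vd (k + 2)) 2 := by
        rw [mem_ball_zero_iff, hpn, div_lt_iff₀ hr]
        exact ht
      have h1 := (hχ p hpb).1
      rw [norm_smul, Complex.norm_real, Real.norm_of_nonneg hr.le, hpn, mul_div_cancel₀ _ hr.ne'] at h1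
      exact h1.trans_le (min_le_left _ _)
    · exact (not_le.1 ht0).trans hη
  · have h2 := (hχ p hp).2.1
    rw [hσ0] at h2
    exact h2.trans_le (min_le_left _ _)

end Pool.Agent.G3.X
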