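import Pool.Agent.G3.X.Hc

/-!
# G3 X Pot: the potential on an arbitrary straight chart of the tube

`exists_pot`: the chart `χ₀` need not be in one of the cones `W k`.  Write `σ = χ₀.σ`.  For `‖s‖ < 2` the curve `t ↦ σ (s, t)`, `‖t‖ < 2`, is in the fibre over `c₀ + ρ₀ s ∈ ball b s'`: `exists_Hc` (`t' = 7/4`)
gives `H_s` (choice); the curve `s ↦ σ (s, 0)` gives `H⁰` on `ball 0 (7/4)`.  `Ψ (s, t) = H⁰ s + H_s t - H_s 0`.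
Let `(s₁, t₁) ∈ ball 0 (3/2)`.  For `θ ∈ [0, 1]` let `S θ`: for all `s` near `s₁` and all `k` with `σ (s, θ t₁) ∈ W k` the function `s' ↦ Ψ (s', θ t₁) + lam k (σ (s', θ t₁))` has at `s` the derivative
`bt (T.χ k) (A k) (s' ↦ σ (s', θ t₁)) s + A₀ (s, θ t₁)`.
`S 0`: `H⁰` and `A₀ (s, 0) = 0` (`IsPrim.zero`).
Near `θ₁ ∈ [0, 1]`: `S θ ↔ S θ₁`: let `σ (s₁, θ₁ t₁) ∈ W k` (`TubeG.cover`), `ψ` from `loc_pot` at `p₁ = (s₁, θ₁ t₁)` for the chart `T.χ k`, `N = ball p₁ δ` such that on `N`: `σ p ∈ W k` and `ψ` is a potential.  For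
fixed `s` with `‖s - s₁‖ < δ` the function `t ↦ H_s t + lam k (σ (s, t)) - ψ (s, t)` has the derivative `bt - bc (0, 1) = 0` on `‖t - θ₁ t₁‖ < δ` (`bt_eq` with the curve `t ↦ σ (s, t)`, whose coordinates in `χ₀` are
`(s, t)`), so it is constant there, and (*) `Ψ (s, t) + lam k (σ (s, t)) - ψ (s, t) =: D s` does not depend on `t`.  For `‖θ t₁ - θ₁ t₁‖ < δ` the property of `S θ` for this `k` is equivalent to `D' = 0` near `s₁` (`ψ` has the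
`s`-derivative `bc (1, 0) + A₀`, `bt_eq` for the curve `s' ↦ σ (s', θ t₁)`); and for one `k` it implies the one for all `k'`: `Split`.
`[0, 1]` is connected: `S 1` (e.g. `IsPreconnected` / `Set.Icc` induction, or the set of the `θ` with `S θ` is clopen).
At `(s₁, t₁)` (`θ = 1`): `D' = 0` near `s₁`, so `Ψ + lam k ∘ σ = ψ + const` near `(s₁, t₁)`.  For a curve `γ` with `γ ζ ∈ χ₀.U`, `χ₀.q (γ ζ) = (s₁, t₁)`: `γ ξ = c • σ (χ₀.q (γ ξ))`, `lam k (γ ξ) = lam k (σ (χ₀.q (γ ξ)))`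
(`Split`, first part), chain rule for `ψ`, `bt_eq`.  For another `k'` with `γ ζ ∈ W k'`: `Split`.
-/

set_option autoImplicit false

open Topology Filter Metric

namespace Pool.Agent.GXE

open Pool.Agent.H36.BP (EN fs wd IsGermChart)
open Pool.Agent.H14.PP (IsCone Chart Tan CurveAt jac)
open Pool.Agent.H62.EF (Lat MN pr TorusMap Charts DU)
open Pool.Agent.H62.EL

variable {N : ℕ} {X : Set (EN N)} {Λ : AddSubgroup ℂ} {u : EN N → ℂ}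

/-- horizontal and vertical curves in a chart -/
private theorem pot_curve (χ₀ : Chart X) {h : ℂ → ℂ × ℂ} {ξ : ℂ} (hh : AnalyticAt ℂ h ξ) (hb : h ξ ∈ ball (0 : ℂ × ℂ) 2) {e : ℂ × ℂ} (he : HasDerivAt h e ξ) :
    CurveAt X (fun w => χ₀.σ (h w)) ξ ∧ χ₀.σ (h ξ) ∈ χ₀.U ∧ χ₀.q (χ₀.σ (h ξ)) = h ξ ∧ deriv (fun w => χ₀.q (χ₀.σ (h w))) ξ = e := by
  have hev : ∀ᶠ w in 𝓝 ξ, h w ∈ ball (0 : ℂ × ℂ) 2 := hh.continuousAt.eventually (isOpen_ball.mem_nhds hb)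
  refine ⟨⟨AnalyticAt.comp (g := χ₀.σ) (f := h) (χ₀.σ_an _ hb) hh, ?_⟩, (χ₀.σ_mem _ hb).2.1, (χ₀.σ_mem _ hb).2.2, ?_⟩
  · filter_upwards [hev] with w hw
    exact (χ₀.σ_mem _ hw).1
  · have h1 : (fun w => χ₀.q (χ₀.σ (h w))) =ᶠ[𝓝 ξ] h := by
      filter_upwards [hev] with w hw
      exact (χ₀.σ_mem _ hw).2.2
    rw [h1.deriv_eq, he.deriv]

/-- `bt` along a curve in the chart -/
private theorem pot_bt (χ χ₀ : Chart X) (A : ℂ × ℂ → ℂ) {h : ℂ → ℂ × ℂ} {ξ : ℂ} (hh : AnalyticAt ℂ h ξ) (hb : h ξ ∈ ball (0 : ℂ × ℂ) 2) {e : ℂ × ℂ}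
    (he : HasDerivAt h e ξ) (hU : χ₀.σ (h ξ) ∈ χ.U) :
    bt χ A (fun w => χ₀.σ (h w)) ξ = bc χ A χ₀ (1, 0) (h ξ) * e.1 + bc χ A χ₀ (0, 1) (h ξ) * e.2 := by
  obtain ⟨h1, h2, h3, h4⟩ := pot_curve χ₀ hh hb he
  have h5 := bt_eq χ χ₀ A h1 h2 hU
  simp only [h3, h4] at h5
  exact h5

private theorem pot_pair {ψ : ℂ × ℂ → ℂ} {p : ℂ × ℂ} (e : ℂ × ℂ) :
    fderiv ℂ ψ p e = fderiv ℂ ψ p (1, 0) * e.1 + fderiv ℂ ψ p (0, 1) * e.2 := by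
  have h3 : e = e.1 • ((1, 0) : ℂ × ℂ) + e.2 • ((0, 1) : ℂ × ℂ) := by
    refine Prod.ext ?_ ?_
    · simp
    · simp
  conv_lhs => rw [h3, map_add, map_smul, map_smul]
  simp only [smul_eq_mul]
  ring

/-- the local potential at a point of the chart -/
private theorem pot_loc (hX : IsCone X) (hu : TorusMap X Λ u) {b : ℂ} {s η : ℝ} {T : TubeData X} (hT : TubeG Λ u b s η T) {α : TForm X Λ u}
    {A : Fin T.m → ℂ × ℂ → ℂ} (hA : ∀ k, IsPrim α (T.χ k) (mo b (T.ρ k) (T.i k) (T.j k)) (A k))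
    {χ₀ : Chart X} {c₀ : ℂ} {ρ₀ : ℝ} (hm₀ : Mon Λ u χ₀ c₀ ρ₀ 1 0) (hb : ∀ p ∈ ball (0 : ℂ × ℂ) 2, c₀ + ρ₀ * p.1 ∈ ball b s)
    {A₀ : ℂ × ℂ → ℂ} (hA₀ : IsPrim α χ₀ (mo c₀ ρ₀ 1 0) A₀) {p₁ : ℂ × ℂ} (hp₁ : p₁ ∈ ball (0 : ℂ × ℂ) (3 / 2)) :
    ∃ (k : Fin T.m) (ψ : ℂ × ℂ → ℂ) (δ : ℝ), 0 < δ ∧ ∀ p ∈ ball p₁ δ, p ∈ ball (0 : ℂ × ℂ) (3 / 2) ∧ χ₀.σ p ∈ T.W k ∧ AnalyticAt ℂ ψ p ∧
      fderiv ℂ ψ p (1, 0) = bc (T.χ k) (A k) χ₀ (1, 0) p + A₀ p ∧ fderiv ℂ ψ p (0, 1) = bc (T.χ k) (A k) χ₀ (0, 1) p := by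
  have hp₂ : p₁ ∈ ball (0 : ℂ × ℂ) 2 := ball_subset_ball (by norm_num) hp₁
  have hl : u (χ₀.σ p₁) - (c₀ + ρ₀ * p₁.1) ∈ Λ := by
    have := hm₀.lift p₁ hp₂
    simpa [mo] using this
  obtain ⟨k, hk⟩ := hT.cover _ (hb p₁ hp₂) _ (χ₀.σ_mem p₁ hp₂).1 hl
  have hη : ‖c₀ + ρ₀ * p₁.1 - b‖ < η := by
    have h1 := hb p₁ hp₂
    rw [mem_ball, dist_eq_norm] at h1
    exact h1.trans_le hT.le
  obtain ⟨ψ, hψ⟩ := loc_pot hX hu hT.inj (hT.mon k) (hT.range k) hm₀ (hA k) hA₀ hp₂ (hT.W_sub k hk) hη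
  have hW : ∀ᶠ p in 𝓝 p₁, χ₀.σ p ∈ T.W k := (χ₀.σ_an p₁ hp₂).continuousAt.eventually ((hT.W_open k).mem_nhds hk)
  have hB : ∀ᶠ p in 𝓝 p₁, p ∈ ball (0 : ℂ × ℂ) (3 / 2) := isOpen_ball.mem_nhds hp₁
  obtain ⟨δ, hδ, h⟩ := Metric.eventually_nhds_iff_ball.1 (hB.and (hW.and hψ))
  exact ⟨k, ψ, δ, hδ, fun p hp => ⟨(h p hp).1, (h p hp).2.1, (h p hp).2.2.1, (h p hp).2.2.2.1, (h p hp).2.2.2.2⟩⟩

private theorem pot_ball {p₁ : ℂ × ℂ} {δ : ℝ} {x y : ℂ} (hx : x ∈ ball p₁.1 δ) (hy : y ∈ ball p₁.2 δ) : (x, y) ∈ ball p₁ δ := by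
  rw [mem_ball, Prod.dist_eq, max_lt_iff]
  exact ⟨hx, hy⟩

/-- a function on a disc with derivative `0` is constant -/
private theorem pot_const {f : ℂ → ℂ} {c : ℂ} {δ : ℝ} (h : ∀ z ∈ ball c δ, HasDerivAt f 0 z) {x y : ℂ} (hx : x ∈ ball c δ) (hy : y ∈ ball c δ) : f x = f y :=
  isOpen_ball.is_const_of_deriv_eq_zero (𝕜 := ℂ) (convex_ball c δ).isPreconnected
    (fun t ht => (h t ht).differentiableAt.differentiableWithinAt) (fun t ht => (h t ht).deriv) hx hy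

theorem exists_pot (hX : IsCone X) (hu : TorusMap X Λ u) {b : ℂ} {s η : ℝ} {T : TubeData X} (hT : TubeG Λ u b s η T) {α : TForm X Λ u}
    {A : Fin T.m → ℂ × ℂ → ℂ} (hA : ∀ k, IsPrim α (T.χ k) (mo b (T.ρ k) (T.i k) (T.j k)) (A k)) {lam : Fin T.m → EN N → ℂ} (hs : Split Λ u b s T A lam)
    {χ₀ : Chart X} {c₀ : ℂ} {ρ₀ : ℝ} (hm₀ : Mon Λ u χ₀ c₀ ρ₀ 1 0) (hb : ∀ p ∈ ball (0 : ℂ × ℂ) 2, c₀ + ρ₀ * p.1 ∈ ball b s)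
    {A₀ : ℂ × ℂ → ℂ} (hA₀ : IsPrim α χ₀ (mo c₀ ρ₀ 1 0) A₀) :
    ∃ Ψ : ℂ × ℂ → ℂ, ∀ (γ : ℂ → EN N) (ζ : ℂ) (k : Fin T.m), CurveAt X γ ζ → γ ζ ∈ χ₀.U → χ₀.q (γ ζ) ∈ ball (0 : ℂ × ℂ) (3 / 2) → γ ζ ∈ T.W k →
      HasDerivAt (fun ξ => Ψ (χ₀.q (γ ξ)) + lam k (γ ξ))
        (bt (T.χ k) (A k) γ ζ + A₀ (χ₀.q (γ ζ)) * (deriv (fun ξ => χ₀.q (γ ξ)) ζ).1) ζ := by
  classical
  have hlift : ∀ p ∈ ball (0 : ℂ × ℂ) 2, u (χ₀.σ p) - (c₀ + ρ₀ * p.1) ∈ Λ := fun p hp => by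
    have := hm₀.lift p hp
    simpa [mo] using this
  have hmemb : ∀ x y : ℂ, ‖x‖ < 2 → ‖y‖ < 2 → (x, y) ∈ ball (0 : ℂ × ℂ) 2 := fun x y hx hy => by
    rw [mem_ball_zero_iff, Prod.norm_def, max_lt_iff]
    exact ⟨hx, hy⟩
  -- vertical curves
  have hver : ∀ x : ℂ, ∃ H : ℂ → ℂ, ‖x‖ < 2 → ∀ ξ ∈ ball (0 : ℂ) (7 / 4), ∀ k, χ₀.σ (x, ξ) ∈ T.W k →
      HasDerivAt (fun w => H w + lam k (χ₀.σ (x, w))) (bt (T.χ k) (A k) (fun w => χ₀.σ (x, w)) ξ) ξ := by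
    intro x
    by_cases hx : ‖x‖ < 2
    · have hc : ∀ ξ ∈ ball (0 : ℂ) 2, (x, ξ) ∈ ball (0 : ℂ × ℂ) 2 := fun ξ hξ => hmemb x ξ hx (mem_ball_zero_iff.1 hξ)
      obtain ⟨H, hH⟩ := exists_Hc (Φ := fun w => χ₀.σ (x, w)) (ζ := 0) (t := 2) (t' := 7 / 4) hT (fun k => (hA k).an) hs (fun ξ hξ => by
          have h1 : AnalyticAt ℂ (fun w => χ₀.σ (x, w)) ξ :=
            AnalyticAt.comp (g := χ₀.σ) (f := fun w : ℂ => (x, w)) (χ₀.σ_an _ (hc ξ hξ)) (analyticAt_const.prod analyticAt_id)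
          exact h1.differentiableAt.differentiableWithinAt) (fun ξ hξ => (χ₀.σ_mem _ (hc ξ hξ)).1)
        (fun ξ hξ => ⟨_, hb _ (hc ξ hξ), hlift _ (hc ξ hξ)⟩) (by norm_num)
      exact ⟨H, fun _ => hH⟩
    · exact ⟨0, fun h => absurd h hx⟩
  choose H hH using hver
  -- the horizontal curve
  obtain ⟨H₀, hH₀⟩ : ∃ H₀ : ℂ → ℂ, ∀ ξ ∈ ball (0 : ℂ) (7 / 4), ∀ k, χ₀.σ (ξ, 0) ∈ T.W k →
      HasDerivAt (fun w => H₀ w + lam k (χ₀.σ (w, 0))) (bt (T.χ k) (A k) (fun w => χ₀.σ (w, 0)) ξ) ξ := by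
    have hc : ∀ ξ ∈ ball (0 : ℂ) 2, (ξ, (0 : ℂ)) ∈ ball (0 : ℂ × ℂ) 2 := fun ξ hξ => hmemb ξ 0 (mem_ball_zero_iff.1 hξ) (by simp)
    exact exists_Hc (Φ := fun w => χ₀.σ (w, 0)) (ζ := 0) (t := 2) (t' := 7 / 4) hT (fun k => (hA k).an) hs (fun ξ hξ => by
          have h1 : AnalyticAt ℂ (fun w => χ₀.σ (w, 0)) ξ :=
            AnalyticAt.comp (g := χ₀.σ) (f := fun w : ℂ => (w, (0 : ℂ))) (χ₀.σ_an _ (hc ξ hξ)) (analyticAt_id.prod analyticAt_const)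
          exact h1.differentiableAt.differentiableWithinAt) (fun ξ hξ => (χ₀.σ_mem _ (hc ξ hξ)).1)
        (fun ξ hξ => ⟨_, hb _ (hc ξ hξ), hlift _ (hc ξ hξ)⟩) (by norm_num)
  set Ψ : ℂ × ℂ → ℂ := fun p => H₀ p.1 + H p.1 p.2 - H p.1 0 with hΨ
  -- the function `Ψ + lam k ∘ σ - ψ` does not depend on the second variable
  have hind : ∀ {p₁ : ℂ × ℂ} {δ : ℝ} {k : Fin T.m} {ψ : ℂ × ℂ → ℂ}, (∀ p ∈ ball p₁ δ, p ∈ ball (0 : ℂ × ℂ) (3 / 2) ∧ χ₀.σ p ∈ T.W k ∧ AnalyticAt ℂ ψ p ∧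
      fderiv ℂ ψ p (1, 0) = bc (T.χ k) (A k) χ₀ (1, 0) p + A₀ p ∧ fderiv ℂ ψ p (0, 1) = bc (T.χ k) (A k) χ₀ (0, 1) p) →
      ∀ x ∈ ball p₁.1 δ, ∀ y ∈ ball p₁.2 δ, ∀ y' ∈ ball p₁.2 δ,
        Ψ (x, y) + lam k (χ₀.σ (x, y)) - ψ (x, y) = Ψ (x, y') + lam k (χ₀.σ (x, y')) - ψ (x, y') := by
    intro p₁ δ k ψ hψ x hx y hy y' hy'
    have h1 : ∀ z ∈ ball p₁.2 δ, HasDerivAt (fun w => H x w + lam k (χ₀.σ (x, w)) - ψ (x, w)) 0 z := by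
      intro z hz
      obtain ⟨g1, g2, g3, -, g5⟩ := hψ _ (pot_ball hx hz)
      have g1' : (x, z) ∈ ball (0 : ℂ × ℂ) 2 := ball_subset_ball (by norm_num) g1
      have g0 : ‖(x, z)‖ < 3 / 2 := mem_ball_zero_iff.1 g1
      have gx : ‖x‖ < 2 := by
        have := norm_fst_le (x, z)
        simp only at this
        linarith
      have gz : z ∈ ball (0 : ℂ) (7 / 4) := by
        have := norm_snd_le (x, z)
        simp only at this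
        rw [mem_ball_zero_iff]
        linarith
      have e1 := hH x gx z gz k g2
      have hd : HasDerivAt (fun w : ℂ => (x, w)) ((0 : ℂ), (1 : ℂ)) z := (hasDerivAt_const z x).prodMk (hasDerivAt_id z)
      have e2 : HasDerivAt (fun w => ψ (x, w)) (fderiv ℂ ψ (x, z) (0, 1)) z :=
        HasFDerivAt.comp_hasDerivAt (l := ψ) (f := fun w : ℂ => (x, w)) z g3.differentiableAt.hasFDerivAt hd
      have e3 := pot_bt (T.χ k) χ₀ (A k) (h := fun w : ℂ => (x, w)) (ξ := z) (analyticAt_const.prod analyticAt_id) g1' hd (hT.W_sub k g2)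
      have e4 := e1.fun_sub e2
      rw [e3, g5] at e4
      exact e4.congr_deriv (by ring)
    have h2 := pot_const h1 hy hy'
    simp only [hΨ]
    linear_combination h2
  -- the derivative in the first variable: equivalent to the derivative `0` of the difference
  have hfst : ∀ {p₁ : ℂ × ℂ} {δ : ℝ} {k : Fin T.m} {ψ : ℂ × ℂ → ℂ}, (∀ p ∈ ball p₁ δ, p ∈ ball (0 : ℂ × ℂ) (3 / 2) ∧ χ₀.σ p ∈ T.W k ∧ AnalyticAt ℂ ψ p ∧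
      fderiv ℂ ψ p (1, 0) = bc (T.χ k) (A k) χ₀ (1, 0) p + A₀ p ∧ fderiv ℂ ψ p (0, 1) = bc (T.χ k) (A k) χ₀ (0, 1) p) →
      ∀ x ∈ ball p₁.1 δ, ∀ y ∈ ball p₁.2 δ, (HasDerivAt (fun w => Ψ (w, y) + lam k (χ₀.σ (w, y))) (bt (T.χ k) (A k) (fun w => χ₀.σ (w, y)) x + A₀ (x, y)) x ↔
        HasDerivAt (fun w => Ψ (w, y) + lam k (χ₀.σ (w, y)) - ψ (w, y)) 0 x) := by
    intro p₁ δ k ψ hψ x hx y hy
    obtain ⟨g1, g2, g3, g4, -⟩ := hψ _ (pot_ball hx hy)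
    have g1' : (x, y) ∈ ball (0 : ℂ × ℂ) 2 := ball_subset_ball (by norm_num) g1
    have hd : HasDerivAt (fun w : ℂ => (w, y)) ((1 : ℂ), (0 : ℂ)) x := (hasDerivAt_id x).prodMk (hasDerivAt_const x y)
    have e2 : HasDerivAt (fun w => ψ (w, y)) (fderiv ℂ ψ (x, y) (1, 0)) x :=
      HasFDerivAt.comp_hasDerivAt (l := ψ) (f := fun w : ℂ => (w, y)) x g3.differentiableAt.hasFDerivAt hd
    have e3 := pot_bt (T.χ k) χ₀ (A k) (h := fun w : ℂ => (w, y)) (ξ := x) (analyticAt_id.prod analyticAt_const) g1' hd (hT.W_sub k g2)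
    have e5 : bt (T.χ k) (A k) (fun w => χ₀.σ (w, y)) x + A₀ (x, y) = fderiv ℂ ψ (x, y) (1, 0) := by
      rw [e3, g4]
      simp
    rw [e5]
    constructor
    · intro h
      exact (h.fun_sub e2).congr_deriv (by ring)
    · intro h
      have h' := (h.fun_add e2).congr_deriv (zero_add _)
      refine h'.congr_of_eventuallyEq (Eventually.of_forall fun w => ?_)
      ring
  -- change of `k`
  have hchg : ∀ {x y : ℂ} {k l : Fin T.m}, (x, y) ∈ ball (0 : ℂ × ℂ) (3 / 2) → χ₀.σ (x, y) ∈ T.W k → χ₀.σ (x, y) ∈ T.W l →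
      HasDerivAt (fun w => Ψ (w, y) + lam k (χ₀.σ (w, y))) (bt (T.χ k) (A k) (fun w => χ₀.σ (w, y)) x + A₀ (x, y)) x →
      HasDerivAt (fun w => Ψ (w, y) + lam l (χ₀.σ (w, y))) (bt (T.χ l) (A l) (fun w => χ₀.σ (w, y)) x + A₀ (x, y)) x := by
    intro x y k l hxy hk hl h
    have g1' : (x, y) ∈ ball (0 : ℂ × ℂ) 2 := ball_subset_ball (by norm_num) hxy
    have hd : HasDerivAt (fun w : ℂ => (w, y)) ((1 : ℂ), (0 : ℂ)) x := (hasDerivAt_id x).prodMk (hasDerivAt_const x y)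
    obtain ⟨c1, -, -, -⟩ := pot_curve χ₀ (h := fun w : ℂ => (w, y)) (ξ := x) (analyticAt_id.prod analyticAt_const) g1' hd
    have h2 := h.fun_add (hs.2 l k _ x c1 ⟨_, hb _ g1', hlift _ g1'⟩ hl hk)
    refine (h2.congr_deriv (by ring)).congr_of_eventuallyEq (Eventually.of_forall fun w => ?_)
    simp only
    ring
  -- the statement
  set S : ℂ → ℂ → ℝ → Prop := fun x₁ t₁ θ => ∀ᶠ x in 𝓝 x₁, ∀ k, χ₀.σ (x, (θ : ℂ) * t₁) ∈ T.W k →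
    HasDerivAt (fun w => Ψ (w, (θ : ℂ) * t₁) + lam k (χ₀.σ (w, (θ : ℂ) * t₁))) (bt (T.χ k) (A k) (fun w => χ₀.σ (w, (θ : ℂ) * t₁)) x + A₀ (x, (θ : ℂ) * t₁)) x with hSdef
  have hS0 : ∀ x₁ t₁ : ℂ, ‖x₁‖ < 3 / 2 → S x₁ t₁ 0 := by
    intro x₁ t₁ hx₁
    have h1 : ∀ᶠ x in 𝓝 x₁, x ∈ ball (0 : ℂ) (7 / 4) := isOpen_ball.mem_nhds (mem_ball_zero_iff.2 (by linarith))
    filter_upwards [h1] with x hx k hk
    have h0 : (((0 : ℝ) : ℂ) * t₁) = 0 := by simp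
    rw [h0] at hk ⊢
    have h2 := hH₀ x hx k hk
    have h3 : A₀ (x, 0) = 0 := hA₀.zero x (by have := mem_ball_zero_iff.1 hx; linarith)
    rw [h3, add_zero]
    simpa [hΨ] using h2
  have hSloc : ∀ x₁ t₁ : ℂ, ‖x₁‖ < 3 / 2 → ‖t₁‖ < 3 / 2 → ∀ θ₁ ∈ Set.Icc (0 : ℝ) 1, ∀ᶠ θ in 𝓝[Set.Icc (0 : ℝ) 1] θ₁, (S x₁ t₁ θ₁ ↔ S x₁ t₁ θ) := by
    intro x₁ t₁ hx₁ ht₁ θ₁ hθ₁
    have hnorm : ∀ θ ∈ Set.Icc (0 : ℝ) 1, ‖(θ : ℂ) * t₁‖ < 3 / 2 := fun θ hθ => by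
      rw [norm_mul, Complex.norm_real, Real.norm_of_nonneg hθ.1]
      calc θ * ‖t₁‖ ≤ 1 * ‖t₁‖ := mul_le_mul_of_nonneg_right hθ.2 (norm_nonneg _)
        _ < 3 / 2 := by linarith
    have hp₁ : (x₁, (θ₁ : ℂ) * t₁) ∈ ball (0 : ℂ × ℂ) (3 / 2) := by
      rw [mem_ball_zero_iff, Prod.norm_def, max_lt_iff]
      exact ⟨hx₁, hnorm θ₁ hθ₁⟩
    obtain ⟨k, ψ, δ, hδ, hψ⟩ := pot_loc hX hu hT hA hm₀ hb hA₀ hp₁
    have hcont : Continuous fun θ : ℝ => (θ : ℂ) * t₁ := by fun_prop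
    have hnear : ∀ᶠ θ : ℝ in 𝓝[Set.Icc (0 : ℝ) 1] θ₁, (θ : ℂ) * t₁ ∈ ball ((θ₁ : ℂ) * t₁) δ :=
      (hcont.continuousAt.eventually (isOpen_ball.mem_nhds (mem_ball_self hδ))).filter_mono nhdsWithin_le_nhds
    -- the property does not depend on `θ`
    have key : ∀ θ : ℝ, (θ : ℂ) * t₁ ∈ ball ((θ₁ : ℂ) * t₁) δ → (S x₁ t₁ θ ↔ ∀ᶠ x in 𝓝 x₁,
        HasDerivAt (fun w => Ψ (w, (θ₁ : ℂ) * t₁) + lam k (χ₀.σ (w, (θ₁ : ℂ) * t₁)) - ψ (w, (θ₁ : ℂ) * t₁)) 0 x) := by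
      intro θ hθ
      have hx1 : ∀ᶠ x in 𝓝 x₁, x ∈ ball x₁ δ := isOpen_ball.mem_nhds (mem_ball_self hδ)
      have hswap : ∀ x ∈ ball x₁ δ, (HasDerivAt (fun w => Ψ (w, (θ : ℂ) * t₁) + lam k (χ₀.σ (w, (θ : ℂ) * t₁)) - ψ (w, (θ : ℂ) * t₁)) 0 x ↔
          HasDerivAt (fun w => Ψ (w, (θ₁ : ℂ) * t₁) + lam k (χ₀.σ (w, (θ₁ : ℂ) * t₁)) - ψ (w, (θ₁ : ℂ) * t₁)) 0 x) := by
        intro x hx
        have h1 : (fun w => Ψ (w, (θ : ℂ) * t₁) + lam k (χ₀.σ (w, (θ : ℂ) * t₁)) - ψ (w, (θ : ℂ) * t₁)) =ᶠ[𝓝 x]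
            fun w => Ψ (w, (θ₁ : ℂ) * t₁) + lam k (χ₀.σ (w, (θ₁ : ℂ) * t₁)) - ψ (w, (θ₁ : ℂ) * t₁) := by
          filter_upwards [isOpen_ball.mem_nhds hx] with w hw
          exact hind hψ w hw _ hθ _ (mem_ball_self hδ)
        exact ⟨fun h => h.congr_of_eventuallyEq h1.symm, fun h => h.congr_of_eventuallyEq h1⟩
      constructor
      · intro h
        filter_upwards [h, hx1] with x h2 h3
        exact (hswap x h3).1 ((hfst hψ x h3 _ hθ).1 (h2 k (hψ _ (pot_ball h3 hθ)).2.1))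
      · intro h
        filter_upwards [h, hx1] with x h2 h3 l hl
        have h4 := (hfst hψ x h3 _ hθ).2 ((hswap x h3).2 h2)
        exact hchg (hψ _ (pot_ball h3 hθ)).1 (hψ _ (pot_ball h3 hθ)).2.1 hl h4
    filter_upwards [hnear] with θ hθ
    rw [key θ hθ, key θ₁ (mem_ball_self hδ)]
  have hS1 : ∀ x₁ t₁ : ℂ, ‖x₁‖ < 3 / 2 → ‖t₁‖ < 3 / 2 → S x₁ t₁ 1 := by
    intro x₁ t₁ hx₁ ht₁
    have h1 : S x₁ t₁ 0 ↔ S x₁ t₁ 1 := by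
      refine isPreconnected_Icc.induction₂ (fun θ θ' => (S x₁ t₁ θ ↔ S x₁ t₁ θ')) (hSloc x₁ t₁ hx₁ ht₁) ?_ ?_ (Set.left_mem_Icc.2 zero_le_one) (Set.right_mem_Icc.2 zero_le_one)
      · intro x y z hx hy hz h h'
        exact h.trans h'
      · intro x y hx hy h
        exact h.symm
    exact h1.1 (hS0 x₁ t₁ hx₁)
  refine ⟨Ψ, fun γ ζ k' hγ hU hq hk' => ?_⟩
  obtain ⟨k, ψ, δ, hδ, hψ⟩ := pot_loc hX hu hT hA hm₀ hb hA₀ hq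
  set x₁ : ℂ := (χ₀.q (γ ζ)).1 with hx₁
  set t₁ : ℂ := (χ₀.q (γ ζ)).2 with ht₁
  have hqn : ‖χ₀.q (γ ζ)‖ < 3 / 2 := mem_ball_zero_iff.1 hq
  have h1 := hS1 x₁ t₁ ((norm_fst_le _).trans_lt hqn) ((norm_snd_le _).trans_lt hqn)
  simp only [hSdef, Complex.ofReal_one, one_mul] at h1
  obtain ⟨δ', hδ', h2⟩ := Metric.eventually_nhds_iff_ball.1 h1
  -- the difference is constant near the point
  have hcst : ∀ᶠ p in 𝓝 (χ₀.q (γ ζ)), Ψ p + lam k (χ₀.σ p) - ψ p = Ψ (x₁, t₁) + lam k (χ₀.σ (x₁, t₁)) - ψ (x₁, t₁) := by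
    have hmin : 0 < min δ δ' := lt_min hδ hδ'
    filter_upwards [isOpen_ball.mem_nhds (mem_ball_self hmin)] with p hp
    rw [mem_ball, Prod.dist_eq, max_lt_iff] at hp
    have hp1 : p.1 ∈ ball x₁ (min δ δ') := hp.1
    have hp2 : p.2 ∈ ball t₁ δ := lt_of_lt_of_le hp.2 (min_le_left _ _)
    have e1 := hind hψ p.1 (ball_subset_ball (min_le_left _ _) hp1) p.2 hp2 t₁ (mem_ball_self hδ)
    have e2 : ∀ z ∈ ball x₁ (min δ δ'), HasDerivAt (fun w => Ψ (w, t₁) + lam k (χ₀.σ (w, t₁)) - ψ (w, t₁)) 0 z := fun z hz =>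
      (hfst hψ z (ball_subset_ball (min_le_left _ _) hz) t₁ (mem_ball_self hδ)).1
        (h2 z (ball_subset_ball (min_le_right _ _) hz) k (hψ _ (pot_ball (ball_subset_ball (min_le_left _ _) hz) (mem_ball_self hδ))).2.1)
    have e3 := pot_const e2 hp1 (mem_ball_self hmin)
    simp only [Prod.mk.eta] at e1
    rw [e1]
    exact e3
  obtain ⟨hw, -, c, hc, hc0, hev⟩ := χ₀.curve hX hγ hU
  obtain ⟨hwm, hγζ⟩ := hev.self_of_nhds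
  obtain ⟨g1, g2, g3, g4, g5⟩ := hψ _ (mem_ball_self hδ)
  have hk : γ ζ ∈ T.W k := by
    rw [hγζ]
    exact hT.W_smul k _ g2 _ hc0
  have hUk : γ ζ ∈ (T.χ k).U := hT.W_sub k hk
  have hd1 : HasDerivAt (fun ξ => ψ (χ₀.q (γ ξ))) (fderiv ℂ ψ (χ₀.q (γ ζ)) (deriv (fun ξ => χ₀.q (γ ξ)) ζ)) ζ :=
    HasFDerivAt.comp_hasDerivAt (l := ψ) ζ g3.differentiableAt.hasFDerivAt hw.differentiableAt.hasDerivAt
  have hd2 : fderiv ℂ ψ (χ₀.q (γ ζ)) (deriv (fun ξ => χ₀.q (γ ξ)) ζ) =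
      bt (T.χ k) (A k) γ ζ + A₀ (χ₀.q (γ ζ)) * (deriv (fun ξ => χ₀.q (γ ξ)) ζ).1 := by
    rw [bt_eq (T.χ k) χ₀ (A k) hγ hU hUk, pot_pair, g4, g5]
    ring
  rw [hd2] at hd1
  have hd3 : HasDerivAt (fun ξ => Ψ (χ₀.q (γ ξ)) + lam k (γ ξ))
      (bt (T.χ k) (A k) γ ζ + A₀ (χ₀.q (γ ζ)) * (deriv (fun ξ => χ₀.q (γ ξ)) ζ).1) ζ := by
    have h3 : (fun ξ => Ψ (χ₀.q (γ ξ)) + lam k (γ ξ)) =ᶠ[𝓝 ζ]
        fun ξ => ψ (χ₀.q (γ ξ)) + (Ψ (x₁, t₁) + lam k (χ₀.σ (x₁, t₁)) - ψ (x₁, t₁)) := by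
      filter_upwards [hev, hc.continuousAt.eventually_ne hc0, hw.continuousAt.eventually hcst] with ξ e1 e2 e3
      have e4 : lam k (γ ξ) = lam k (χ₀.σ (χ₀.q (γ ξ))) := by
        conv_lhs => rw [e1.2]
        exact hs.1 k _ (χ₀.σ_mem _ e1.1).1 _ e2
      rw [e4, ← e3]
      ring
    exact (hd1.add_const _).congr_of_eventuallyEq h3
  have hz : ∃ z ∈ ball b s, u (γ ζ) - z ∈ Λ := by
    refine ⟨_, hb _ hwm, ?_⟩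
    have h4 := hu.smul _ (χ₀.σ_mem _ hwm).1 _ hc0
    rw [← hγζ] at h4
    have h5 := Λ.add_mem h4 (hlift _ hwm)
    simpa using h5
  have h6 := hd3.fun_add (hs.2 k' k γ ζ hγ hz hk' hk)
  refine (h6.congr_deriv (by ring)).congr_of_eventuallyEq (Eventually.of_forall fun w => ?_)
  simp only
  ring

end Pool.Agent.GXE
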