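import Pool.Agent.G3.X.Defs

/-!
# G3 X Sa: the part of `X` over an arc, basic facts

Port of `TG/Y/SlA.lean` (`p + z • e` becomes `ar κ g z`) and of the lemmas `fr_an`, `dt_an` of `TG/Y/NcA.lean`.
`cg_mem`: `‖z‖ < 2 s ≤ R`, `‖g z‖ < R` (`pi_norm_lt_iff`).  `ar_inj`: `Kp.inj`, first coordinate of `cg`.  `off`: `Kp.mem_iff`, `(cg g z) 0 = z`.  `deriv_ar`: chain rule.  `dta_ne`: `fderiv κ (cg g z)` is injective (`ψ_κ`: `ψ ∘ κ = id` near `cg g z`), and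
the rows are its values on `cons 1 (deriv g z)`, `Pi.single j.succ 1`: a relation between the rows gives one between these vectors, first coordinate `0`, ... (see `hdt0` in `TG/Y/LnE.lean`).
`wa_eq`: `ar_inj`.  `isCone`: as `Ln.isCone` (`ar κ g` is continuous on the compact disc `closedBall 0 s`).
`exists_loc`: let `v` be a local lift of `u` at `x`, `l₀ = v x - ar κ g (wa x) ∈ Λ`; `q' y = ψ (v y - l₀)` is analytic at `x`, `q' x = cg g (wa x) ∈ ball 0 R`, `κ (q' y) = v y - l₀` near `x` (`κ_ψ`); for `y ∈ Ya` near `x`: `κ (q' y) - κ (cg g (wa y)) ∈ Λ`, so by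
`Kp.inj` `q' y = cg g (wa y)`, `wa y = q' y 0`: `W y = ψ (v y - l₀) 0`.  `wa_cont`: `Ln.wl_cont` in `TG/Y/YCap.lean`.  `nb`: `Γ₀` has no small elements.
-/

set_option autoImplicit false

open Topology Filter Metric

namespace Pool.Agent.GX

open Pool.Agent.H36.BP (EN fs wd)
open Pool.Agent.H14.PP (IsCone CurveAt Tan)
open Pool.Agent.H62.EF (MN pr)
open Pool.Agent.AD (Vd Chart Charts IsGerm)
open Pool.Agent.TG (TMap Lat tl nm IsStr IsNC IsCoord Geo VForm ms Str IsPrim Cap IRel II TransAt Gd Cst DV fr tc)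

variable {N k : ℕ}

variable {X : Set (EN N)} {Λ : AddSubgroup (Vd (k + 1))} {u : EN N → Vd (k + 1)} {D B : Set (Vd (k + 1))}
  {κ ψ : Vd (k + 1) → Vd (k + 1)} {R : ℝ} {g : ℂ → Fin k → ℂ} {Γ₀ : AddSubgroup ℂ} {s : ℝ}

theorem La.cg_mem (L : La X Λ u D κ ψ R g Γ₀ s) {z : ℂ} (hz : z ∈ ball (0 : ℂ) (2 * s)) : cg g z ∈ ball (0 : Vd (k + 1)) R := by
  rw [mem_ball_zero_iff, pi_norm_lt_iff L.kp.pos]
  intro i
  refine Fin.cases ?_ (fun j => ?_) i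
  · show ‖z‖ < R
    exact (mem_ball_zero_iff.1 hz).trans_le L.le
  · show ‖g z j‖ < R
    exact (norm_le_pi_norm (g z) j).trans_lt (L.g_lt z hz)

private theorem La.g_an' (L : La X Λ u D κ ψ R g Γ₀ s) {z : ℂ} (hz : z ∈ ball (0 : ℂ) (2 * s)) : AnalyticAt ℂ g z :=
  L.g_an.analyticAt (isOpen_ball.mem_nhds hz)

theorem La.cg_an (L : La X Λ u D κ ψ R g Γ₀ s) {z : ℂ} (hz : z ∈ ball (0 : ℂ) (2 * s)) : AnalyticAt ℂ (cg g) z := by
  have h1 : ∀ i : Fin (k + 1), AnalyticAt ℂ (fun w => cg g w i) z := by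
    intro i
    refine Fin.cases ?_ (fun j => ?_) i
    · exact analyticAt_id
    · exact ((ContinuousLinearMap.proj (R := ℂ) (φ := fun _ : Fin k => ℂ) j).analyticAt _).fun_comp (L.g_an' hz)
  exact AnalyticAt.pi h1

theorem La.ar_an (L : La X Λ u D κ ψ R g Γ₀ s) {z : ℂ} (hz : z ∈ ball (0 : ℂ) (2 * s)) : AnalyticAt ℂ (ar κ g) z :=
  (L.kp.κ_an _ (L.cg_mem hz)).fun_comp (L.cg_an hz)

theorem La.mem2 (L : La X Λ u D κ ψ R g Γ₀ s) {z : ℂ} (hz : ‖z‖ ≤ s) : z ∈ ball (0 : ℂ) (2 * s) := by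
  rw [mem_ball_zero_iff]
  have := L.pos
  linarith

theorem La.ar_inj (L : La X Λ u D κ ψ R g Γ₀ s) {z z' : ℂ} (hz : z ∈ ball (0 : ℂ) (2 * s)) (hz' : z' ∈ ball (0 : ℂ) (2 * s))
    (h : ar κ g z - ar κ g z' ∈ Λ) : z = z' :=
  congrFun (L.kp.inj _ (L.cg_mem hz) _ (L.cg_mem hz') h) 0

theorem La.off (L : La X Λ u D κ ψ R g Γ₀ s) {z : ℂ} (hz : z ∈ ball (0 : ℂ) (2 * s)) (h0 : z ≠ 0) : ar κ g z ∉ D := fun h =>
  h0 ((L.kp.mem_iff _ (L.cg_mem hz)).1 h)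

private theorem La.cg_deriv (L : La X Λ u D κ ψ R g Γ₀ s) {z : ℂ} (hz : z ∈ ball (0 : ℂ) (2 * s)) :
    HasDerivAt (cg g) (Fin.cons (α := fun _ => ℂ) 1 (deriv g z)) z := by
  refine hasDerivAt_pi.2 fun i => ?_
  refine Fin.cases ?_ (fun j => ?_) i
  · exact hasDerivAt_id z
  · exact hasDerivAt_pi.1 (L.g_an' hz).differentiableAt.hasDerivAt j

theorem La.deriv_ar (L : La X Λ u D κ ψ R g Γ₀ s) {z : ℂ} (hz : z ∈ ball (0 : ℂ) (2 * s)) :
    deriv (ar κ g) z = fderiv ℂ κ (cg g z) (Fin.cons (α := fun _ => ℂ) 1 (deriv g z)) := by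
  have h2 : HasFDerivAt κ (fderiv ℂ κ (cg g z)) (cg g z) := (L.kp.κ_an _ (L.cg_mem hz)).differentiableAt.hasFDerivAt
  exact (h2.comp_hasDerivAt z (L.cg_deriv hz)).deriv

theorem La.fr_an (L : La X Λ u D κ ψ R g Γ₀ s) {z : ℂ} (hz : z ∈ ball (0 : ℂ) (2 * s)) (j : Fin k) :
    AnalyticAt ℂ (fun z => fr κ (cg g) z j) z := by
  have h1 : AnalyticAt ℂ (fderiv ℂ κ) (cg g z) := (L.kp.κ_an _ (L.cg_mem hz)).fderiv
  have h2 : AnalyticAt ℂ (fun w => fderiv ℂ κ (cg g w)) z := h1.fun_comp (L.cg_an hz)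
  exact ((ContinuousLinearMap.apply ℂ (Vd (k + 1)) (Pi.single j.succ 1 : Vd (k + 1))).analyticAt _).fun_comp h2

theorem La.dta_an (L : La X Λ u D κ ψ R g Γ₀ s) {z : ℂ} (hz : z ∈ ball (0 : ℂ) (2 * s)) : AnalyticAt ℂ (dta κ g) z := by
  have h1 : ∀ i j : Fin (k + 1), AnalyticAt ℂ (fun w => (Fin.cons (deriv (ar κ g) w) (fr κ (cg g) w) : Fin (k + 1) → Vd (k + 1)) i j) z := by
    intro i j
    refine Fin.cases ?_ (fun i => ?_) i
    · exact ((ContinuousLinearMap.proj (R := ℂ) (φ := fun _ : Fin (k + 1) => ℂ) j).analyticAt _).fun_comp (L.ar_an hz).deriv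
    · exact ((ContinuousLinearMap.proj (R := ℂ) (φ := fun _ : Fin (k + 1) => ℂ) j).analyticAt _).fun_comp (L.fr_an hz i)
  have h2 : dta κ g = fun w => ∑ σ : Equiv.Perm (Fin (k + 1)), (Equiv.Perm.sign σ : ℂ) *
      ∏ i, (Fin.cons (deriv (ar κ g) w) (fr κ (cg g) w) : Fin (k + 1) → Vd (k + 1)) (σ i) i := by
    funext w
    unfold dta
    rw [Matrix.det_apply']
    rfl
  rw [h2]
  refine Finset.analyticAt_fun_sum _ fun σ _ => analyticAt_const.mul (Finset.analyticAt_fun_prod _ fun i _ => h1 _ _)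

private theorem La.κ_inj (L : La X Λ u D κ ψ R g Γ₀ s) {z : ℂ} (hz : z ∈ ball (0 : ℂ) (2 * s)) {v : Vd (k + 1)}
    (hv : fderiv ℂ κ (cg g z) v = 0) : v = 0 := by
  have h1 : HasFDerivAt κ (fderiv ℂ κ (cg g z)) (cg g z) := (L.kp.κ_an _ (L.cg_mem hz)).differentiableAt.hasFDerivAt
  have h2 : HasFDerivAt ψ (fderiv ℂ ψ (κ (cg g z))) (κ (cg g z)) := (L.kp.ψ_an _ (L.cg_mem hz)).differentiableAt.hasFDerivAt
  have h3 := h2.comp (cg g z) h1
  have h4 : HasFDerivAt (ψ ∘ κ) (ContinuousLinearMap.id ℂ (Vd (k + 1))) (cg g z) := by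
    refine (hasFDerivAt_id (cg g z)).congr_of_eventuallyEq ?_
    filter_upwards [isOpen_ball.mem_nhds (L.cg_mem hz)] with q hq
    exact L.kp.ψ_κ q hq
  have h5 := h3.unique h4
  have h6 := DFunLike.congr_fun h5 v
  rw [ContinuousLinearMap.comp_apply, hv, map_zero] at h6
  exact h6.symm

theorem La.dta_ne (L : La X Λ u D κ ψ R g Γ₀ s) {z : ℂ} (hz : z ∈ ball (0 : ℂ) (2 * s)) : dta κ g z ≠ 0 := by
  intro h0
  obtain ⟨v, hv, hv0⟩ := Matrix.exists_vecMul_eq_zero_iff.2 h0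
  apply hv
  set w : Vd (k + 1) := Fin.cons (α := fun _ => ℂ) 1 (deriv g z) with hw
  have h1 : v 0 • deriv (ar κ g) z + ∑ j : Fin k, v j.succ • fr κ (cg g) z j = 0 := by
    funext i
    have h2 := congrFun hv0 i
    rw [Matrix.vecMul, dotProduct, Fin.sum_univ_succ] at h2
    rw [Pi.add_apply, Finset.sum_apply]
    exact h2
  have h2 : fderiv ℂ κ (cg g z) (v 0 • w + ∑ j : Fin k, v j.succ • (Pi.single j.succ 1 : Vd (k + 1))) = 0 := by
    rw [map_add, map_smul, ← L.deriv_ar hz, map_sum]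
    refine Eq.trans ?_ h1
    congr 1
    refine Finset.sum_congr rfl fun j _ => ?_
    rw [map_smul]
    rfl
  have h3 : v 0 • w + ∑ j : Fin k, v j.succ • (Pi.single j.succ 1 : Vd (k + 1)) = 0 := L.κ_inj hz h2
  have h4 : v 0 = 0 := by
    have h5 := congrFun h3 0
    rw [Pi.add_apply, Finset.sum_apply, Finset.sum_eq_zero (fun j _ => by simp), add_zero, Pi.smul_apply, Pi.zero_apply, smul_eq_mul] at h5
    have h6 : w 0 = 1 := rfl
    rwa [h6, mul_one] at h5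
  funext i
  refine Fin.cases h4 (fun j => ?_) i
  have h5 := congrFun h3 j.succ
  rw [h4, zero_smul, zero_add, Finset.sum_apply, Finset.sum_eq_single j] at h5
  · simpa using h5
  · intro b _ hb
    have h6 : (Pi.single b.succ 1 : Vd (k + 1)) j.succ = 0 := by
      rw [Pi.single_apply, if_neg]
      intro h7
      exact hb (Fin.succ_injective _ h7).symm
    rw [Pi.smul_apply, h6, smul_zero]
  · intro h
    exact absurd (Finset.mem_univ _) h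

theorem wa_spec {x : EN N} (hx : x ∈ Ya X Λ u κ g s) : ‖wa Λ u κ g s x‖ ≤ s ∧ u x - ar κ g (wa Λ u κ g s x) ∈ Λ := by
  unfold wa
  rw [dif_pos hx.2]
  exact hx.2.choose_spec

theorem La.wa_eq (L : La X Λ u D κ ψ R g Γ₀ s) {x : EN N} {z : ℂ} (hz : ‖z‖ ≤ s) (h : u x - ar κ g z ∈ Λ) : wa Λ u κ g s x = z := by
  have hex : ∃ z : ℂ, ‖z‖ ≤ s ∧ u x - ar κ g z ∈ Λ := ⟨z, hz, h⟩
  have h1 : ‖wa Λ u κ g s x‖ ≤ s ∧ u x - ar κ g (wa Λ u κ g s x) ∈ Λ := by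
    unfold wa
    rw [dif_pos hex]
    exact hex.choose_spec
  refine L.ar_inj (L.mem2 h1.1) (L.mem2 hz) ?_
  have h3 : ar κ g (wa Λ u κ g s x) - ar κ g z = (u x - ar κ g z) - (u x - ar κ g (wa Λ u κ g s x)) := by abel
  rw [h3]
  exact Λ.sub_mem h h1.2

theorem La.wa_smul (L : La X Λ u D κ ψ R g Γ₀ s) {x : EN N} (hx : x ∈ Ya X Λ u κ g s) {a : ℂ} (ha : a ≠ 0) :
    wa Λ u κ g s (a • x) = wa Λ u κ g s x := by
  have h1 := wa_spec hx
  exact L.wa_eq h1.1 (Pool.Agent.TG.smul_mem_lat L.kp.tor hx.1 h1.2 ha)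

theorem La.isCone (L : La X Λ u D κ ψ R g Γ₀ s) : IsCone (Ya X Λ u κ g s) := by
  refine ⟨fun h => L.kp.cone.zero_notMem h.1, fun x hx a ha => ?_, ?_⟩
  · obtain ⟨hxX, z, hz, hzx⟩ := hx
    exact ⟨L.kp.cone.smul_mem x hxX a ha, z, hz, Pool.Agent.TG.smul_mem_lat L.kp.tor hxX hzx ha⟩
  · refine IsSeqClosed.isClosed fun x x₀ hx hlim => ?_
    have hx₀ : x₀ ∈ insert (0 : EN N) X := by
      refine L.kp.cone.closed.mem_of_tendsto hlim (Eventually.of_forall fun n => ?_)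
      rcases hx n with h | h
      · exact Or.inl h
      · exact Or.inr h.1
    rcases hx₀ with h0 | hx₀
    · exact Or.inl h0
    · right
      have hne : x₀ ≠ 0 := Pool.Agent.TG.ne_zero L.kp.cone hx₀
      have hev : ∀ᶠ n in atTop, x n ∈ Ya X Λ u κ g s := by
        filter_upwards [hlim.eventually_ne hne] with n hn
        exact (hx n).resolve_left hn
      set 𝒰 : Ultrafilter ℕ := hyperfilter ℕ with h𝒰
      have hevU : ∀ᶠ n in (𝒰 : Filter ℕ), x n ∈ Ya X Λ u κ g s := Nat.hyperfilter_le_atTop hev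
      obtain ⟨z, hz, hzt⟩ := (isCompact_closedBall (0 : ℂ) s).ultrafilter_le_nhds (𝒰.map fun n => wa Λ u κ g s (x n)) (by
        rw [Ultrafilter.coe_map, le_principal_iff, mem_map]
        filter_upwards [hevU] with n hn
        show wa Λ u κ g s (x n) ∈ closedBall (0 : ℂ) s
        rw [mem_closedBall_zero_iff]
        exact (wa_spec hn).1)
      have hzt' : Tendsto (fun n => wa Λ u κ g s (x n)) 𝒰 (𝓝 z) := hzt
      have hxt : Tendsto x 𝒰 (𝓝 x₀) := hlim.mono_left Nat.hyperfilter_le_atTop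
      have hzs : ‖z‖ ≤ s := mem_closedBall_zero_iff.1 hz
      refine ⟨hx₀, z, hzs, ?_⟩
      refine Pool.Agent.TG.lim_mem L.kp.lat L.kp.tor (l := (𝒰 : Filter ℕ)) (y := fun n => ar κ g (wa Λ u κ g s (x n))) hx₀ hxt ?_ ?_
      · exact (L.ar_an (L.mem2 hzs)).continuousAt.tendsto.comp hzt'
      · filter_upwards [hevU] with n hn
        exact ⟨hn.1, (wa_spec hn).2⟩

theorem La.exists_loc (L : La X Λ u D κ ψ R g Γ₀ s) {x : EN N} (hx : x ∈ Ya X Λ u κ g s) :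
    ∃ W : EN N → ℂ, AnalyticAt ℂ W x ∧ ∀ᶠ y in 𝓝 x, y ∈ Ya X Λ u κ g s → wa Λ u κ g s y = W y := by
  obtain ⟨v, hv, hv'⟩ := L.kp.tor.loc x hx.1
  have hsx := wa_spec hx
  set z₀ : ℂ := wa Λ u κ g s x with hz₀
  have hq : cg g z₀ ∈ ball (0 : Vd (k + 1)) R := L.cg_mem (L.mem2 hsx.1)
  set l₀ : Vd (k + 1) := v x - κ (cg g z₀) with hl₀
  have hl₀Λ : l₀ ∈ Λ := by
    have h1 : l₀ = (u x - ar κ g z₀) - (u x - v x) := by
      rw [hl₀]
      unfold ar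
      abel
    rw [h1]
    exact Λ.sub_mem hsx.2 (hv'.self_of_nhds hx.1)
  have hvx : v x - l₀ = κ (cg g z₀) := by
    rw [hl₀]
    abel
  have han : AnalyticAt ℂ (fun y : EN N => v y - l₀) x := hv.sub analyticAt_const
  have hψ : AnalyticAt ℂ (fun y : EN N => ψ (v y - l₀)) x := by
    have h1 : AnalyticAt ℂ ψ (v x - l₀) := by
      rw [hvx]
      exact L.kp.ψ_an _ hq
    exact AnalyticAt.fun_comp (g := ψ) (f := fun y : EN N => v y - l₀) h1 han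
  have hψx : ψ (v x - l₀) = cg g z₀ := by
    rw [hvx, L.kp.ψ_κ _ hq]
  have hW : AnalyticAt ℂ (fun y : EN N => ψ (v y - l₀) 0) x :=
    ((ContinuousLinearMap.proj (R := ℂ) (φ := fun _ : Fin (k + 1) => ℂ) 0).analyticAt _).fun_comp hψ
  refine ⟨fun y => ψ (v y - l₀) 0, hW, ?_⟩
  have h1 : ∀ᶠ y in 𝓝 x, ψ (v y - l₀) ∈ ball (0 : Vd (k + 1)) R := by
    refine hψ.continuousAt.eventually (isOpen_ball.mem_nhds ?_)
    show ψ (v x - l₀) ∈ ball (0 : Vd (k + 1)) R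
    rw [hψx]
    exact hq
  have h2 : ∀ᶠ y in 𝓝 x, κ (ψ (v y - l₀)) = v y - l₀ := by
    have h3 : Tendsto (fun y : EN N => v y - l₀) (𝓝 x) (𝓝 (κ (cg g z₀))) := by
      have h4 := han.continuousAt.tendsto
      rwa [hvx] at h4
    exact h3.eventually (L.kp.κ_ψ _ hq)
  filter_upwards [hv', h1, h2] with y hy1 hy2 hy3 hy
  have h3 := wa_spec hy
  have h4 : κ (ψ (v y - l₀)) - κ (cg g (wa Λ u κ g s y)) ∈ Λ := by
    have h5 : κ (ψ (v y - l₀)) - κ (cg g (wa Λ u κ g s y)) = (u y - ar κ g (wa Λ u κ g s y)) - (u y - v y) - l₀ := by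
      rw [hy3]
      unfold ar
      abel
    rw [h5]
    exact Λ.sub_mem (Λ.sub_mem h3.2 (hy1 hy.1)) hl₀Λ
  exact (congrFun (L.kp.inj _ hy2 _ (L.cg_mem (L.mem2 h3.1)) h4) 0).symm

theorem La.torusMap (L : La X Λ u D κ ψ R g Γ₀ s) : Pool.Agent.H62.EF.TorusMap (Ya X Λ u κ g s) Γ₀ (wa Λ u κ g s) := by
  refine ⟨fun x hx a ha => ?_, fun x hx => ?_⟩
  · rw [L.wa_smul hx ha, sub_self]
    exact Γ₀.zero_mem
  · obtain ⟨W, hW, hW'⟩ := L.exists_loc hx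
    refine ⟨W, hW, ?_⟩
    filter_upwards [hW'] with y hy hyY
    rw [hy hyY, sub_self]
    exact Γ₀.zero_mem

theorem La.wa_cont (L : La X Λ u D κ ψ R g Γ₀ s) : ContinuousOn (wa Λ u κ g s) (Ya X Λ u κ g s) := by
  intro x hx
  obtain ⟨W, hW, hW'⟩ := L.exists_loc hx
  have h1 : ContinuousWithinAt W (Ya X Λ u κ g s) x := hW.continuousAt.continuousWithinAt
  refine h1.congr_of_eventuallyEq ?_ ?_
  · filter_upwards [nhdsWithin_le_nhds hW', self_mem_nhdsWithin] with y hy hyY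
    exact hy hyY
  · exact hW'.self_of_nhds hx

/-- `Γ₀` has no small elements -/
theorem La.nb (L : La X Λ u D κ ψ R g Γ₀ s) {z z' : ℂ} (hz : ‖z‖ ≤ s) (hz' : ‖z'‖ ≤ s) (h : z - z' ∈ Γ₀) : z = z' := by
  have h1 : ‖z - z'‖ ≤ s + s := (norm_sub_le _ _).trans (add_le_add hz hz')
  exact sub_eq_zero.1 (L.big _ h (by linarith [L.pos]))

end Pool.Agent.GX
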