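import Pool.Agent.G3.X.Sa

/-!
# G3 X SlN: slices of normal crossing charts

`χ'.σ w = χ.σ (emb g r a b w)`, `χ'.U = χ.U`, `χ'.q x = (χ.q x 0, χ.q x 1)`.
For `w ∈ ball 0 2` put `ξ = r ^ (a + b) * (w.1 ^ a * w.2 ^ b)`: `‖ξ‖ < (2 r) ^ (a + b) ≤ s` (strict because `0 < a + b`: if `a > 0` then `‖w.1‖ ^ a < 2 ^ a`, ...), `‖g ξ‖ < 2 r`, so `emb w ∈ ball 0 2`, and `nm a b (r • emb w) = cg g ξ`: `u (χ'.σ w) - ar κ g ξ ∈ Λ` (`NCh.lift`), so `χ'.σ w ∈ Ya` and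
`wa (χ'.σ w) = ξ` (`wa_eq`).
`surj`: let `x ∈ Ya ∩ χ.U`, `q = χ.q x ∈ ball 0 2`, `x = c • χ.σ q`: `u x - κ (nm a b (r • q)) ∈ Λ` (`TMap.smul`, `NCh.lift`) and `u x - κ (cg g (wa x)) ∈ Λ`; `nm a b (r • q) ∈ ball 0 R` (`NCh.rng`, `NCh.lt`), `Kp.inj`: `nm a b (r • q) = cg g (wa x)`, so `wa x = r ^ (a + b) * (q 0 ^ a * q 1 ^ b)` and
`r * q j.succ.succ = g (wa x) j`, i.e. `q = emb (q 0, q 1)`.  `σ_an`: `g` is differentiable on the open ball, `ξ` is a polynomial.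
-/

set_option autoImplicit false

open Topology Filter Metric

namespace Pool.Agent.GX

open Pool.Agent.H36.BP (EN fs wd)
open Pool.Agent.H14.PP (IsCone CurveAt Tan)
open Pool.Agent.H62.EF (MN pr)
open Pool.Agent.AD (Vd Chart Charts IsGerm)
open Pool.Agent.TG (TMap Lat tl nm IsStr IsNC IsCoord Geo VForm ms Str IsPrim Cap IRel II TransAt Gd Cst DV fr tc)

variable {N k : ℕ}

variable {X : Set (EN N)} {Λ : AddSubgroup (Vd (k + 1))} {u : EN N → Vd (k + 1)} {D B : Set (Vd (k + 1))}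
  {κ ψ : Vd (k + 1) → Vd (k + 1)} {R : ℝ} {g : ℂ → Fin k → ℂ} {Γ₀ : AddSubgroup ℂ} {s : ℝ}

private theorem sln_lt {x y : ℝ} {a b : ℕ} (hab : 0 < a + b) (hx0 : 0 ≤ x) (hx : x < 2) (hy0 : 0 ≤ y) (hy : y < 2) : x ^ a * y ^ b < 2 ^ (a + b) := by
  rw [pow_add]
  rcases Nat.eq_zero_or_pos a with ha | ha
  · rw [ha, pow_zero, pow_zero, one_mul, one_mul]
    exact pow_lt_pow_left₀ hy hy0 (by omega)
  · have h1 : x ^ a < 2 ^ a := pow_lt_pow_left₀ hx hx0 (by omega)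
    have h2 : y ^ b ≤ 2 ^ b := pow_le_pow_left₀ hy0 hy.le b
    have h3 : (0 : ℝ) < 2 ^ b := by positivity
    calc x ^ a * y ^ b ≤ x ^ a * 2 ^ b := mul_le_mul_of_nonneg_left h2 (pow_nonneg hx0 a)
      _ < 2 ^ a * 2 ^ b := mul_lt_mul_of_pos_right h1 h3

private theorem sln_xi {r : ℝ} {a b : ℕ} (hr0 : 0 < r) (hab : 0 < a + b) {x y : ℂ} (hx : ‖x‖ < 2) (hy : ‖y‖ < 2) :
    ‖(r : ℂ) ^ (a + b) * (x ^ a * y ^ b)‖ < (2 * r) ^ (a + b) := by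
  rw [norm_mul, norm_pow, norm_mul, norm_pow, norm_pow, Complex.norm_real, Real.norm_eq_abs, abs_of_pos hr0, mul_pow, mul_comm (2 ^ (a + b))]
  exact mul_lt_mul_of_pos_left (sln_lt hab (norm_nonneg _) hx (norm_nonneg _) hy) (by positivity)

private theorem sln_fst {w : ℂ × ℂ} {t : ℝ} (hw : w ∈ ball (0 : ℂ × ℂ) t) : ‖w.1‖ < t ∧ ‖w.2‖ < t := by
  rw [mem_ball_zero_iff, Prod.norm_def, max_lt_iff] at hw
  exact hw

private theorem sln_nm {r : ℝ} {a b : ℕ} (hr0 : 0 < r) (w : ℂ × ℂ) :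
    nm a b ((r : ℂ) • emb g r a b w) = cg g ((r : ℂ) ^ (a + b) * (w.1 ^ a * w.2 ^ b)) := by
  have hr : (r : ℂ) ≠ 0 := by exact_mod_cast hr0.ne'
  unfold nm cg
  congr 1
  · show ((r : ℂ) * w.1) ^ a * ((r : ℂ) * w.2) ^ b = _
    rw [mul_pow, mul_pow, pow_add]
    ring
  · funext i
    show (r : ℂ) * ((r : ℂ)⁻¹ * g ((r : ℂ) ^ (a + b) * (w.1 ^ a * w.2 ^ b)) i) = _
    rw [← mul_assoc, mul_inv_cancel₀ hr, one_mul]

theorem emb_mem (L : La X Λ u D κ ψ R g Γ₀ s) {r : ℝ} {a b : ℕ} (hr0 : 0 < r) (hab : 0 < a + b) (hr : (2 * r) ^ (a + b) ≤ s) {t : ℝ} (ht : t ≤ 2)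
    (hg : ∀ z ∈ ball (0 : ℂ) (2 * s), ‖g z‖ < r * t) {w : ℂ × ℂ} (hw : w ∈ ball (0 : ℂ × ℂ) t) : emb g r a b w ∈ ball (0 : Vd (k + 2)) t := by
  obtain ⟨h1, h2⟩ := sln_fst hw
  have ht0 : 0 < t := lt_of_le_of_lt (norm_nonneg _) h1
  have hs := L.pos
  have hξ : (r : ℂ) ^ (a + b) * (w.1 ^ a * w.2 ^ b) ∈ ball (0 : ℂ) (2 * s) := by
    rw [mem_ball_zero_iff]
    have h3 := sln_xi hr0 hab (h1.trans_le ht) (h2.trans_le ht)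
    linarith
  have h4 := hg _ hξ
  have h5 : ‖(r : ℂ)⁻¹ • g ((r : ℂ) ^ (a + b) * (w.1 ^ a * w.2 ^ b))‖ < t := by
    rw [norm_smul, norm_inv, Complex.norm_real, Real.norm_eq_abs, abs_of_pos hr0, inv_mul_lt_iff₀ hr0]
    exact h4
  rw [mem_ball_zero_iff, pi_norm_lt_iff ht0]
  intro i
  refine Fin.cases ?_ (fun j => ?_) i
  · exact h1
  · refine Fin.cases ?_ (fun l => ?_) j
    · exact h2
    · exact (norm_le_pi_norm ((r : ℂ)⁻¹ • g ((r : ℂ) ^ (a + b) * (w.1 ^ a * w.2 ^ b))) l).trans_lt h5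

private theorem sln_emb_an (L : La X Λ u D κ ψ R g Γ₀ s) {r : ℝ} {a b : ℕ} {w : ℂ × ℂ}
    (hξ : (r : ℂ) ^ (a + b) * (w.1 ^ a * w.2 ^ b) ∈ ball (0 : ℂ) (2 * s)) : AnalyticAt ℂ (emb g r a b) w := by
  have h1 : AnalyticAt ℂ (fun w : ℂ × ℂ => w.1) w := analyticAt_fst
  have h2 : AnalyticAt ℂ (fun w : ℂ × ℂ => w.2) w := analyticAt_snd
  have h3 : AnalyticAt ℂ (fun w : ℂ × ℂ => (r : ℂ) ^ (a + b) * (w.1 ^ a * w.2 ^ b)) w := analyticAt_const.mul ((h1.pow a).mul (h2.pow b))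
  have h4 : AnalyticAt ℂ g ((r : ℂ) ^ (a + b) * (w.1 ^ a * w.2 ^ b)) := L.g_an.analyticAt (isOpen_ball.mem_nhds hξ)
  have h5 : AnalyticAt ℂ (fun w : ℂ × ℂ => (r : ℂ)⁻¹ • g ((r : ℂ) ^ (a + b) * (w.1 ^ a * w.2 ^ b))) w :=
    analyticAt_const.fun_smul (AnalyticAt.fun_comp (g := g) (f := fun w : ℂ × ℂ => (r : ℂ) ^ (a + b) * (w.1 ^ a * w.2 ^ b)) h4 h3)
  refine analyticAt_pi_iff.2 fun i => ?_
  refine Fin.cases ?_ (fun j => ?_) i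
  · exact h1
  · refine Fin.cases ?_ (fun l => ?_) j
    · exact h2
    · exact analyticAt_pi_iff.1 h5 l

private theorem sln_eq (L : La X Λ u D κ ψ R g Γ₀ s) {χ : Chart (k + 2) X} {r : ℝ} {a b : ℕ} (h : NCh Λ u κ R χ r a b) {x : EN N} (hx : x ∈ Ya X Λ u κ g s)
    (hU : x ∈ χ.U) : emb g r a b (χ.q x 0, χ.q x 1) = χ.q x := by
  obtain ⟨hQ, c, hc, hxc⟩ := χ.surj x hx.1 hU
  obtain ⟨Q, hQdef⟩ : ∃ Q, Q = χ.q x := ⟨_, rfl⟩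
  rw [← hQdef] at hQ hxc ⊢
  have hr0 := h.pos
  have hrC : (r : ℂ) ≠ 0 := by exact_mod_cast hr0.ne'
  have hQn : ∀ i, ‖Q i‖ < 2 := by
    intro i
    rw [mem_ball_zero_iff] at hQ
    exact (norm_le_pi_norm Q i).trans_lt hQ
  obtain ⟨hz, hzx⟩ := wa_spec hx
  obtain ⟨z, hzdef⟩ : ∃ z, z = wa Λ u κ g s x := ⟨_, rfl⟩
  rw [← hzdef] at hz hzx
  have h1 : u x - κ (nm a b ((r : ℂ) • Q)) ∈ Λ := by
    have h2 := h.lift Q hQ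
    have h3 := Pool.Agent.TG.smul_mem_lat L.kp.tor (χ.σ_mem Q hQ).1 h2 hc
    rwa [← hxc] at h3
  have h2 : κ (nm a b ((r : ℂ) • Q)) - κ (cg g z) ∈ Λ := by
    have e : κ (nm a b ((r : ℂ) • Q)) - κ (cg g z) = (u x - κ (cg g z)) - (u x - κ (nm a b ((r : ℂ) • Q))) := by abel
    rw [e]
    exact Λ.sub_mem hzx h1
  have h3 : nm a b ((r : ℂ) • Q) ∈ ball (0 : Vd (k + 1)) R := by
    rw [mem_ball_zero_iff, pi_norm_lt_iff L.kp.pos]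
    intro i
    refine Fin.cases ?_ (fun j => ?_) i
    · show ‖((r : ℂ) * Q 0) ^ a * ((r : ℂ) * Q 1) ^ b‖ < R
      have e : ((r : ℂ) * Q 0) ^ a * ((r : ℂ) * Q 1) ^ b = (r : ℂ) ^ (a + b) * (Q 0 ^ a * Q 1 ^ b) := by
        rw [mul_pow, mul_pow, pow_add]
        ring
      rw [e]
      exact (sln_xi hr0 h.ab (hQn 0) (hQn 1)).trans h.rng
    · show ‖(r : ℂ) * Q j.succ.succ‖ < R
      rw [norm_mul, Complex.norm_real, Real.norm_eq_abs, abs_of_pos hr0]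
      have h4 := mul_lt_mul_of_pos_left (hQn j.succ.succ) hr0
      have h5 := h.lt
      linarith
  have h4 := L.kp.inj _ h3 _ (L.cg_mem (L.mem2 hz)) h2
  have h5 : (r : ℂ) ^ (a + b) * (Q 0 ^ a * Q 1 ^ b) = z := by
    have e := congrFun h4 0
    change ((r : ℂ) * Q 0) ^ a * ((r : ℂ) * Q 1) ^ b = z at e
    rw [← e, mul_pow, mul_pow, pow_add]
    ring
  have h6 : ∀ j : Fin k, (r : ℂ) * Q j.succ.succ = g z j := fun j => congrFun h4 j.succ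
  funext i
  refine Fin.cases ?_ (fun j => ?_) i
  · rfl
  · refine Fin.cases ?_ (fun l => ?_) j
    · rfl
    · show (r : ℂ)⁻¹ * g ((r : ℂ) ^ (a + b) * (Q 0 ^ a * Q 1 ^ b)) l = Q l.succ.succ
      rw [h5, ← h6 l, ← mul_assoc, inv_mul_cancel₀ hrC, one_mul]

theorem La.slice_nc (L : La X Λ u D κ ψ R g Γ₀ s) {χ : Chart (k + 2) X} {r : ℝ} {a b : ℕ} (h : NCh Λ u κ R χ r a b) (hr : (2 * r) ^ (a + b) ≤ s)
    (hg : ∀ z ∈ ball (0 : ℂ) (2 * s), ‖g z‖ < 2 * r) :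
    ∃ χ' : Pool.Agent.H14.PP.Chart (Ya X Λ u κ g s), Pool.Agent.H62.EL.Mon Γ₀ (wa Λ u κ g s) χ' 0 (r ^ (a + b)) a b ∧ χ'.U = χ.U ∧
      (∀ x : EN N, χ'.q x = (χ.q x 0, χ.q x 1)) ∧
      ∀ w ∈ ball (0 : ℂ × ℂ) 2, ‖(r : ℂ) ^ (a + b) * (w.1 ^ a * w.2 ^ b)‖ < s ∧ emb g r a b w ∈ ball (0 : Vd (k + 2)) 2 ∧ χ'.σ w = χ.σ (emb g r a b w) := by
  have hr0 := h.pos
  have hs := L.pos
  have hξ : ∀ w ∈ ball (0 : ℂ × ℂ) 2, ‖(r : ℂ) ^ (a + b) * (w.1 ^ a * w.2 ^ b)‖ < s := by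
    intro w hw
    obtain ⟨h1, h2⟩ := sln_fst hw
    exact (sln_xi hr0 h.ab h1 h2).trans_le hr
  have hem : ∀ w ∈ ball (0 : ℂ × ℂ) 2, emb g r a b w ∈ ball (0 : Vd (k + 2)) 2 := by
    intro w hw
    exact emb_mem L hr0 h.ab hr le_rfl (fun z hz => by rw [mul_comm]; exact hg z hz) hw
  have hlift : ∀ w ∈ ball (0 : ℂ × ℂ) 2, u (χ.σ (emb g r a b w)) - ar κ g ((r : ℂ) ^ (a + b) * (w.1 ^ a * w.2 ^ b)) ∈ Λ := by
    intro w hw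
    have h1 := h.lift _ (hem w hw)
    rwa [sln_nm hr0] at h1
  have hYa : ∀ w ∈ ball (0 : ℂ × ℂ) 2, χ.σ (emb g r a b w) ∈ Ya X Λ u κ g s :=
    fun w hw => ⟨(χ.σ_mem _ (hem w hw)).1, _, (hξ w hw).le, hlift w hw⟩
  refine ⟨{ σ := fun w => χ.σ (emb g r a b w)
            U := χ.U
            q := fun x => (χ.q x 0, χ.q x 1)
            isOpen_U := χ.isOpen_U
            smul_U := χ.smul_U
            σ_an := fun w hw => ?_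
            q_an := fun x hx => ?_
            q_smul := fun x hx c hc => ?_
            σ_mem := fun w hw => ⟨hYa w hw, (χ.σ_mem _ (hem w hw)).2.1, ?_⟩
            surj := fun x hx hU => ⟨?_, ?_⟩ }, ⟨by positivity, h.ab, fun w hw => ?_⟩, rfl, fun x => rfl, fun w hw => ⟨hξ w hw, hem w hw, rfl⟩⟩
  · have h1 : (r : ℂ) ^ (a + b) * (w.1 ^ a * w.2 ^ b) ∈ ball (0 : ℂ) (2 * s) := by
      rw [mem_ball_zero_iff]
      have := hξ w hw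
      linarith
    exact AnalyticAt.fun_comp (g := χ.σ) (f := emb g r a b) (χ.σ_an _ (hem w hw)) (sln_emb_an L h1)
  · have h1 := χ.q_an x hx
    exact (analyticAt_pi_iff.1 h1 0).prod (analyticAt_pi_iff.1 h1 1)
  · rw [χ.q_smul x hx c hc]
  · rw [(χ.σ_mem _ (hem w hw)).2.2]
    rfl
  · obtain ⟨hQ, -⟩ := χ.surj x hx.1 hU
    rw [mem_ball_zero_iff] at hQ ⊢
    rw [Prod.norm_def, max_lt_iff]
    exact ⟨(norm_le_pi_norm (χ.q x) 0).trans_lt hQ, (norm_le_pi_norm (χ.q x) 1).trans_lt hQ⟩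
  · obtain ⟨-, c, hc, hxc⟩ := χ.surj x hx.1 hU
    refine ⟨c, hc, ?_⟩
    rw [sln_eq L h hx hU]
    exact hxc
  · show wa Λ u κ g s (χ.σ (emb g r a b w)) - Pool.Agent.H62.EL.mo 0 (r ^ (a + b)) a b w ∈ Γ₀
    rw [L.wa_eq (hξ w hw).le (hlift w hw)]
    have e : (r : ℂ) ^ (a + b) * (w.1 ^ a * w.2 ^ b) - Pool.Agent.H62.EL.mo 0 (r ^ (a + b)) a b w = 0 := by
      unfold Pool.Agent.H62.EL.mo
      push_cast
      ring
    rw [e]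
    exact Γ₀.zero_mem

end Pool.Agent.GX
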