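import Mathlib

/-!
# G3 X UniInv: a holomorphic function near a linear function has an inverse, with uniform constants
-/

set_option autoImplicit false

open Topology Filter Metric Set

namespace Pool.Agent.G3.X

theorem uni_inv {h : ℂ → ℂ} {s : ℝ} (hs : 0 < s) {a : ℂ} (ha : a ≠ 0) (hd : DifferentiableOn ℂ h (ball 0 (2 * s)))
    (hb : ∀ z ∈ ball (0 : ℂ) (2 * s), ‖h z - a * z‖ ≤ ‖a‖ * (s / 16)) :
    InjOn h (ball 0 (3 * s / 2)) ∧ (∀ z ∈ ball (0 : ℂ) (3 * s / 2), deriv h z ≠ 0) ∧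
      ∃ θ : ℂ → ℂ, DifferentiableOn ℂ θ (ball 0 (‖a‖ * s)) ∧ (∀ ξ ∈ ball (0 : ℂ) (‖a‖ * s), ‖θ ξ - ξ / a‖ ≤ s / 16 ∧ θ ξ ∈ ball (0 : ℂ) (3 * s / 2) ∧ h (θ ξ) = ξ) ∧
        ∀ z ∈ ball (0 : ℂ) (3 * s / 2), h z ∈ ball (0 : ℂ) (‖a‖ * s) → θ (h z) = z := by
  have ha' : 0 < ‖a‖ := norm_pos_iff.2 ha
  set f : ℂ → ℂ := fun z => h z / a - z with hf
  have hfd : DifferentiableOn ℂ f (ball 0 (2 * s)) := (hd.div_const a).sub differentiableOn_id
  have hfb : ∀ z ∈ ball (0 : ℂ) (2 * s), ‖f z‖ ≤ s / 16 := by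
    intro z hz
    have h1 : f z = (h z - a * z) / a := by
      simp only [hf]
      field_simp
    rw [h1, norm_div, div_le_iff₀ ha']
    calc _ ≤ _ := hb z hz
      _ = _ := by ring
  have hdf : ∀ z ∈ ball (0 : ℂ) (3 * s / 2), ‖deriv f z‖ ≤ 1 / 4 := by
    intro z hz
    rw [mem_ball_zero_iff] at hz
    have hsub : closedBall z (s / 4) ⊆ ball (0 : ℂ) (2 * s) := by
      intro w hw
      rw [mem_closedBall, dist_eq_norm] at hw
      rw [mem_ball_zero_iff]
      have := norm_add_le (w - z) z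
      rw [sub_add_cancel] at this
      linarith
    have h1 : DiffContOnCl ℂ f (ball z (s / 4)) := by
      refine DifferentiableOn.diffContOnCl ?_
      rw [closure_ball z (by positivity : s / 4 ≠ 0)]
      exact hfd.mono hsub
    have h2 := Complex.norm_deriv_le_of_forall_mem_sphere_norm_le (by positivity : 0 < s / 4) h1 (C := s / 16) (fun w hw => hfb w (hsub (sphere_subset_closedBall hw)))
    calc _ ≤ _ := h2
      _ = 1 / 4 := by field_simp; norm_num
  have hopen : ∀ z ∈ ball (0 : ℂ) (3 * s / 2), z ∈ ball (0 : ℂ) (2 * s) := fun z hz => ball_subset_ball (by linarith) hz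
  have hlip : ∀ z ∈ ball (0 : ℂ) (3 * s / 2), ∀ w ∈ ball (0 : ℂ) (3 * s / 2), ‖f w - f z‖ ≤ 1 / 4 * ‖w - z‖ := by
    intro z hz w hw
    exact (convex_ball (0 : ℂ) (3 * s / 2)).norm_image_sub_le_of_norm_deriv_le
      (fun y hy => (hfd y (hopen y hy)).differentiableAt (isOpen_ball.mem_nhds (hopen y hy))) hdf hz hw
  have hinj : InjOn h (ball 0 (3 * s / 2)) := by
    intro z hz w hw hzw
    have h1 := hlip z hz w hw
    have h2 : f w - f z = -(w - z) := by
      simp only [hf, hzw]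
      ring
    rw [h2, norm_neg] at h1
    have h3 : ‖w - z‖ = 0 := by
      have := norm_nonneg (w - z)
      linarith
    exact (sub_eq_zero.1 (norm_eq_zero.1 h3)).symm
  have hdh : ∀ z ∈ ball (0 : ℂ) (3 * s / 2), deriv h z ≠ 0 := by
    intro z hz h0
    have h1 : HasDerivAt h (deriv h z) z := ((hd z (hopen z hz)).differentiableAt (isOpen_ball.mem_nhds (hopen z hz))).hasDerivAt
    have h2 : HasDerivAt f (deriv h z / a - 1) z := (h1.div_const a).sub (hasDerivAt_id z)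
    have h3 := hdf z hz
    rw [h2.deriv, h0, zero_div, zero_sub, norm_neg, norm_one] at h3
    norm_num at h3
  refine ⟨hinj, hdh, ?_⟩
  -- the inverse, by the contraction principle
  have hex : ∀ ξ ∈ ball (0 : ℂ) (‖a‖ * s), ∃ z : ℂ, ‖z - ξ / a‖ ≤ s / 16 ∧ z ∈ ball (0 : ℂ) (3 * s / 2) ∧ h z = ξ := by
    intro ξ hξ
    have hξ' : ‖ξ / a‖ < s := by
      rw [norm_div, div_lt_iff₀ ha']
      rw [mem_ball_zero_iff] at hξ
      linarith
    set K : Set ℂ := closedBall 0 (5 * s / 4) with hK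
    have hKs : K ⊆ ball (0 : ℂ) (3 * s / 2) := closedBall_subset_ball (by linarith)
    have hmaps : MapsTo (fun z => ξ / a - f z) K K := by
      intro z hz
      have h1 := hfb z (hopen z (hKs hz))
      rw [hK, mem_closedBall_zero_iff]
      have h2 := norm_sub_le (ξ / a) (f z)
      linarith
    have hcon : ContractingWith (1 / 4 : NNReal) (hmaps.restrict (fun z => ξ / a - f z) K K) := by
      refine ⟨?_, ?_⟩
      · rw [← NNReal.coe_lt_coe]
        push_cast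
        norm_num
      · refine LipschitzWith.of_dist_le_mul fun x y => ?_
        rw [Subtype.dist_eq, Subtype.dist_eq, dist_eq_norm, dist_eq_norm]
        have h1 := hlip x.1 (hKs x.2) y.1 (hKs y.2)
        have h2 : ((hmaps.restrict (fun z => ξ / a - f z) K K) x : ℂ) - ((hmaps.restrict (fun z => ξ / a - f z) K K) y : ℂ) = f y.1 - f x.1 := by
          simp only [MapsTo.val_restrict_apply]
          ring
        rw [h2]
        push_cast
        rw [norm_sub_rev x.1 y.1]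
        exact h1
    have hcomp : IsComplete K := isClosed_closedBall.isComplete
    have h0K : (0 : ℂ) ∈ K := mem_closedBall_self (by positivity)
    obtain ⟨z, hz, hfix, -⟩ := hcon.exists_fixedPoint' hcomp hmaps h0K (edist_ne_top _ _)
    have hfix' : ξ / a - f z = z := hfix
    refine ⟨z, ?_, hKs hz, ?_⟩
    · have h1 : z - ξ / a = - f z := by linear_combination -hfix'
      rw [h1, norm_neg]
      exact hfb z (hopen z (hKs hz))
    · have h2 : h z / a = ξ / a := by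
        have h3 : f z = h z / a - z := rfl
        linear_combination -h3 - hfix'
      exact (div_left_inj' ha).1 h2
  choose! θ h1 h2 h3 using hex
  have hinv : ∀ z ∈ ball (0 : ℂ) (3 * s / 2), h z ∈ ball (0 : ℂ) (‖a‖ * s) → θ (h z) = z := by
    intro z hz hhz
    exact hinj (h2 _ hhz) hz (h3 _ hhz)
  have hcont : ContinuousOn θ (ball 0 (‖a‖ * s)) := by
    -- `‖θ ξ - θ ξ'‖ ≤ (4 / 3) ‖ξ - ξ'‖ / ‖a‖`
    have hL : ∀ ξ ∈ ball (0 : ℂ) (‖a‖ * s), ∀ ξ' ∈ ball (0 : ℂ) (‖a‖ * s), ‖θ ξ - θ ξ'‖ ≤ 4 / 3 / ‖a‖ * ‖ξ - ξ'‖ := by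
      intro ξ hξ ξ' hξ'
      have h4 := hlip _ (h2 ξ' hξ') _ (h2 ξ hξ)
      have h5 : f (θ ξ) - f (θ ξ') = (ξ - ξ') / a - (θ ξ - θ ξ') := by
        simp only [hf, h3 ξ hξ, h3 ξ' hξ']
        ring
      rw [h5] at h4
      have h6 : ‖θ ξ - θ ξ'‖ ≤ ‖(ξ - ξ') / a - (θ ξ - θ ξ')‖ + ‖(ξ - ξ') / a‖ := by
        have := norm_sub_le ((ξ - ξ') / a) ((ξ - ξ') / a - (θ ξ - θ ξ'))
        rw [sub_sub_cancel] at this
        linarith
      rw [norm_div] at h6
      have h7 : 4 / 3 / ‖a‖ * ‖ξ - ξ'‖ = 4 / 3 * (‖ξ - ξ'‖ / ‖a‖) := by ring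
      rw [h7]
      linarith
    refine (LipschitzOnWith.of_dist_le_mul (K := ⟨4 / 3 / ‖a‖, by positivity⟩) fun x hx y hy => ?_).continuousOn
    rw [dist_eq_norm, dist_eq_norm]
    exact hL x hx y hy
  refine ⟨θ, fun ξ hξ => ?_, fun ξ hξ => ⟨h1 ξ hξ, h2 ξ hξ, h3 ξ hξ⟩, hinv⟩
  have h4 : HasDerivAt h (deriv h (θ ξ)) (θ ξ) :=
    ((hd _ (hopen _ (h2 ξ hξ))).differentiableAt (isOpen_ball.mem_nhds (hopen _ (h2 ξ hξ)))).hasDerivAt
  have h5 : ContinuousAt θ ξ := hcont.continuousAt (isOpen_ball.mem_nhds hξ)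
  have h6 : ∀ᶠ ζ in 𝓝 ξ, h (θ ζ) = ζ := by
    filter_upwards [isOpen_ball.mem_nhds hξ] with ζ hζ
    exact h3 ζ hζ
  exact (HasDerivAt.of_local_left_inverse h5 h4 (hdh _ (h2 ξ hξ)) h6).differentiableAt.differentiableWithinAt

end Pool.Agent.G3.X
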